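import Pool.Agent.Lib.MP_28303a_al.PL.TRN
import Pool.Agent.Lib.MP_28303a_al.PL.Ptf
import Pool.Agent.Lib.MP_28303a_al.NT.H80.Pgl
import Pool.Agent.Lib.MP_28303a_al.P2.Lift

/-! # The edge groups of block triangular groups of semisimple rank one -/

set_option autoImplicit false
set_option linter.unusedSectionVars false
set_option linter.unusedVariables false

namespace Pool.Agent.NegK.RK

universe u v w

open Matrix
open scoped MatrixGroups
open Pool.Agent.NegK.TW
open Pool.Agent.NegK.TT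
open Pool.Agent.NegK.NT
open Pool.Agent.NegK.PL (PZ tfe trn)

/-- BTR. Block triangular groups with blocks of size at most two such that the commutators have
blocks of trace `2`. -/
def BtrStatement : Prop :=
  ∀ (L S : Type u) [Field L] [CharZero L] [IsAlgClosed L] [Group S] (ι : Type) [Fintype ι]
    [DecidableEq ι] (b : ι → ℕ), (∀ k, (Finset.univ.filter fun i => b i = k).card ≤ 2) →
    ∀ ρ : S →* GL ι L, (∀ g, (ρ g : Matrix ι ι L).BlockTriangular b) →
    (∀ i j, i ≠ j → b i = b j → ∀ c ∈ commutator S, (ρ c).1 i i + (ρ c).1 j j = 2) →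
    ∃ (P : GL ι L) (b' : ι → ℕ), Function.Injective b' ∧
      (∀ g, (P * ρ g * P⁻¹ : GL ι L).1.BlockTriangular b') ∧
      ∀ g i, ((∀ j, b j = b i → j = i) ∧
          (P * ρ g * P⁻¹ : GL ι L).1 i i = (ρ g).1 i i) ∨
        ∃ j, j ≠ i ∧ b j = b i ∧ (P * ρ g * P⁻¹ : GL ι L).1 i i ^ 2 -
          ((ρ g).1 i i + (ρ g).1 j j) * (P * ρ g * P⁻¹ : GL ι L).1 i i +
          ((ρ g).1 i i * (ρ g).1 j j - (ρ g).1 i j * (ρ g).1 j i) = 0

/-- TFK. The theorem `tfe` relative to a kernel. -/
def TfkStatement : Prop :=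
  ∀ (S Q : Type u) [Group S] [Group Q] (q : S →* Q), TorsionFree Q → InN q.ker →
    ∀ (H : Subgroup S) (n : ℕ), H.FiniteIndex → q.ker ≤ H → PZ n (H.map q) → InN S

/-! ### Blocks -/

section blocks

variable {K : Type v} [CommRing K] {ι : Type} [Fintype ι] [DecidableEq ι] {b : ι → ℕ}

theorem mul_blk {M M' : Matrix ι ι K} (h : M.BlockTriangular b)
    (h' : M'.BlockTriangular b) {a c : ι} {k : ℕ} (ha : b a = k) (hc : b c = k) :
    (M * M') a c = ∑ l ∈ Finset.univ.filter (fun l => b l = k), M a l * M' l c := by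
  rw [Matrix.mul_apply, Finset.sum_filter]
  refine Finset.sum_congr rfl fun l _ => ?_
  split_ifs with hl
  · rfl
  · rcases lt_or_gt_of_ne hl with h1 | h1
    · rw [h (i := a) (j := l) (by rw [ha]; exact h1), zero_mul]
    · rw [h' (i := l) (j := c) (by rw [hc]; exact h1), mul_zero]

theorem filter_one {i : ι} (hi : ∀ j, b j = b i → j = i) :
    Finset.univ.filter (fun l => b l = b i) = {i} := by
  ext l
  rw [Finset.mem_filter, Finset.mem_singleton]
  exact ⟨fun h => hi l h.2, fun h => ⟨Finset.mem_univ _, by rw [h]⟩⟩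

theorem filter_two (hb : ∀ k, (Finset.univ.filter fun i => b i = k).card ≤ 2) {i j : ι}
    (hij : i ≠ j) (h : b i = b j) : Finset.univ.filter (fun l => b l = b i) = {i, j} := by
  symm
  refine Finset.eq_of_subset_of_card_le (fun l hl => ?_) ?_
  · rw [Finset.mem_filter]
    rw [Finset.mem_insert, Finset.mem_singleton] at hl
    rcases hl with rfl | rfl
    · exact ⟨Finset.mem_univ _, rfl⟩
    · exact ⟨Finset.mem_univ _, h.symm⟩
  · rw [Finset.card_pair hij]
    exact hb _

theorem eq_of_two (hb : ∀ k, (Finset.univ.filter fun i => b i = k).card ≤ 2) {i j l : ι}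
    (hij : i ≠ j) (h : b i = b j) (hl : b l = b i) : l = i ∨ l = j := by
  have h1 : l ∈ Finset.univ.filter (fun l => b l = b i) :=
    Finset.mem_filter.2 ⟨Finset.mem_univ _, hl⟩
  rw [filter_two hb hij h, Finset.mem_insert, Finset.mem_singleton] at h1
  exact h1

variable {G : Type u} [Group G] (τ : G →* GL ι K)
  (htri : ∀ g, (τ g : Matrix ι ι K).BlockTriangular b)

/-- The entry of a block of size one. -/
def oneHom {i : ι} (hi : ∀ j, b j = b i → j = i) : G →* K where
  toFun g := (τ g).1 i i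
  map_one' := by rw [map_one, Units.val_one, Matrix.one_apply_eq]
  map_mul' g h := by
    rw [map_mul, Units.val_mul, mul_blk (htri g) (htri h) rfl rfl, filter_one hi,
      Finset.sum_singleton]

/-- A block of size two. -/
def twoHom (hb : ∀ k, (Finset.univ.filter fun i => b i = k).card ≤ 2) {i j : ι}
    (hij : i ≠ j) (h : b i = b j) : G →* Matrix (Fin 2) (Fin 2) K where
  toFun g := (τ g).1.submatrix ![i, j] ![i, j]
  map_one' := by
    have h1 : Function.Injective ![i, j] := by
      intro p q hpq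
      fin_cases p <;> fin_cases q
      · rfl
      · exact absurd hpq hij
      · exact absurd hpq.symm hij
      · rfl
    rw [map_one, Units.val_one, Matrix.submatrix_one _ h1]
  map_mul' g h' := by
    have h1 : ∀ p, b (![i, j] p) = b i := by
      intro p
      fin_cases p
      · rfl
      · exact h.symm
    ext p q
    rw [Matrix.submatrix_apply, map_mul, Units.val_mul, mul_blk (htri g) (htri h') (h1 p) (h1 q),
      filter_two hb hij h, Finset.sum_pair hij, Matrix.mul_apply, Fin.sum_univ_two]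
    rfl

end blocks

/-- Block triangular groups with diagonal blocks of size at most two such that the blocks of size
two are lifts of the projective transformations `γ`. -/
structure RankOne {K : Type v} [Field K] {n : ℕ} (b : Fin n → ℕ) {Γ : Type u} [Group Γ]
    (τ : Γ →* GL (Fin n) K) (γ : Γ →* PGL(Fin 2, K)) : Prop where
  card : ∀ k, (Finset.univ.filter fun i => b i = k).card ≤ 2
  tri : ∀ g, (τ g : Matrix (Fin n) (Fin n) K).BlockTriangular b
  lift : ∀ i j, i < j → b i = b j → ∀ g, ∃ B : GL (Fin 2) K,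
    B.1 = (τ g).1.submatrix ![i, j] ![i, j] ∧ ProjGenLinGroup.mk B = γ g

theorem RankOne.comp {K : Type v} [Field K] {n : ℕ} {b : Fin n → ℕ} {Γ : Type u} [Group Γ]
    {τ : Γ →* GL (Fin n) K} {γ : Γ →* PGL(Fin 2, K)} (h : RankOne b τ γ) {G : Type w} [Group G]
    (f : G →* Γ) : RankOne b (τ.comp f) (γ.comp f) :=
  ⟨h.card, fun g => h.tri (f g), fun i j hij hb g => h.lift i j hij hb (f g)⟩

theorem RankOne.map {K L : Type v} [Field K] [Field L] (e : K →+* L) {n : ℕ} {b : Fin n → ℕ}
    {Γ : Type u} [Group Γ] {τ : Γ →* GL (Fin n) K} {γ : Γ →* PGL(Fin 2, K)}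
    (h : RankOne b τ γ) : RankOne b ((GeneralLinearGroup.map e).comp τ)
      ((ProjGenLinGroup.map e).comp γ) := by
  refine ⟨h.card, fun g i j hij => ?_, fun i j hij hb g => ?_⟩
  · show e ((τ g).1 i j) = 0
    rw [h.tri g hij, map_zero]
  · obtain ⟨B, h1, h2⟩ := h.lift i j hij hb g
    refine ⟨GeneralLinearGroup.map e B, ?_, ?_⟩
    · ext p q
      show e (B.1 p q) = e ((τ g).1 (![i, j] p) (![i, j] q))
      rw [h1]
      rfl
    · show _ = ProjGenLinGroup.map e (γ g)
      rw [← h2, ProjGenLinGroup.map_mk]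

section chars

variable {K : Type v} [Field K] {n : ℕ} {b : Fin n → ℕ}
  {G : Type u} [Group G] (τ : G →* GL (Fin n) K)
  (htri : ∀ g, (τ g : Matrix (Fin n) (Fin n) K).BlockTriangular b)

include htri in
/-- The determinants of the blocks. -/
theorem exists_chars (hb : ∀ k, (Finset.univ.filter fun i => b i = k).card ≤ 2) :
    ∃ χ : Fin n → G →* Kˣ,
      (∀ i, (∀ j, b j = b i → j = i) → ∀ g, ((χ i g : Kˣ) : K) = (τ g).1 i i) ∧
      ∀ i j, i < j → b i = b j → ∀ g,
        ((χ i g : Kˣ) : K) = ((τ g).1.submatrix ![i, j] ![i, j]).det := by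
  have key : ∀ i : Fin n, ∃ χ : G →* Kˣ,
      ((∀ j, b j = b i → j = i) → ∀ g, ((χ g : Kˣ) : K) = (τ g).1 i i) ∧
      ∀ j, i < j → b i = b j → ∀ g,
        ((χ g : Kˣ) : K) = ((τ g).1.submatrix ![i, j] ![i, j]).det := by
    intro i
    by_cases h : ∃ j, i < j ∧ b i = b j
    · obtain ⟨j, hij, hbij⟩ := h
      refine ⟨(Matrix.detMonoidHom.comp (twoHom τ htri hb hij.ne hbij)).toHomUnits,
        fun h1 => absurd (h1 j hbij.symm) hij.ne', fun l hl hbl g => ?_⟩
      have h1 : l = j := (eq_of_two hb hij.ne hbij hbl.symm).resolve_left hl.ne'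
      rw [h1]
      rfl
    · by_cases h2 : ∀ j, b j = b i → j = i
      · exact ⟨(oneHom τ htri h2).toHomUnits, fun _ g => rfl,
          fun j hij hbij => absurd ⟨j, hij, hbij⟩ h⟩
      · exact ⟨1, fun h3 => absurd h3 h2, fun j hij hbij => absurd ⟨j, hij, hbij⟩ h⟩
  choose χ hχ using key
  exact ⟨χ, fun i => (hχ i).1, fun i => (hχ i).2⟩

end chars

/-! ### Integrality -/

theorem integral_eig {L : Type v} [Field L] {x t d : L} (hd : d ≠ 0)
    (hx : x ^ 2 - t * x + d = 0) (h1 : IsIntegral ℤ (t ^ 2 / d)) (h2 : IsIntegral ℤ d) :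
    IsIntegral ℤ x := by
  have hx0 : x ≠ 0 := by
    rintro rfl
    apply hd
    linear_combination hx
  obtain ⟨y, hy⟩ : ∃ y, y = t - x := ⟨_, rfl⟩
  have hxy : x * y = d := by
    rw [hy]
    linear_combination -hx
  have hy0 : y ≠ 0 := by
    intro h
    rw [h, mul_zero] at hxy
    exact hd hxy.symm
  have ht : t = x + y := by
    rw [hy]
    ring
  have h3 : (x / y) * (x / y) - (t ^ 2 / d - 2) * (x / y) + 1 = 0 := by
    rw [← hxy, ht]
    field_simp
    ring
  have h4 : IsIntegral ℤ (x / y) := by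
    refine H80.isIntegral_root (h1.sub ?_) isIntegral_one h3
    have h5 := isIntegral_algebraMap (R := ℤ) (A := L) (x := (2 : ℤ))
    rwa [show (algebraMap ℤ L) 2 = 2 by simp] at h5
  have h5 : x ^ 2 = x / y * d := by
    rw [← hxy]
    field_simp
  refine IsIntegral.of_pow two_pos ?_
  rw [h5]
  exact h4.mul h2

theorem pz_tf : ∀ (n : ℕ) {G : Type u} [Group G], PZ n G → TorsionFree G
  | 0, G, _, h => fun g m hm hg => by
    have : Subsingleton G := h
    exact Subsingleton.elim _ _
  | n + 1, G, _, ⟨φ, h⟩ => fun g m hm hg => by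
    have h1 : φ g = 1 := by
      have h2 : φ g ^ m = 1 := by rw [← map_pow, hg, map_one]
      have h3 : m • (φ g).toAdd = 0 := h2
      exact (smul_eq_zero.1 h3).resolve_left hm.ne'
    have h4 : (⟨g, h1⟩ : φ.ker) ^ m = 1 := Subtype.ext hg
    exact congrArg Subtype.val (pz_tf n h ⟨g, h1⟩ m hm h4)

/-! ### Edge groups -/

/-- The block diagonal sum of two representations. -/
def sumHom {K : Type v} [CommRing K] {n : ℕ} {Δ : Type u} [Group Δ] (σ : Δ →* GL (Fin n) K)
    (q : Δ →* GL (Fin 2) K) : Δ →* Matrix (Fin n ⊕ Fin 2) (Fin n ⊕ Fin 2) K where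
  toFun g := Matrix.fromBlocks (σ g).1 0 0 (q g).1
  map_one' := by
    rw [map_one, map_one, Units.val_one, Units.val_one, Matrix.fromBlocks_one]
  map_mul' g h := by
    rw [map_mul, map_mul, Units.val_mul, Units.val_mul, Matrix.fromBlocks_multiply]
    simp

/-- The core of RKE. Finitely generated torsionfree groups of semisimple rank one with integral
invariants and commutators with lifts of trace `2` are virtually poly-`ℤ`. -/
theorem rke_pz (hBtr : BtrStatement.{u}) {K : Type u} [Field K] [CharZero K] [IsAlgClosed K]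
    {n : ℕ} {b : Fin n → ℕ} (Q : Type u) [Group Q] (hfg : Group.FG Q) (htf : TorsionFree Q)
    (τ : Q →* GL (Fin n) K) (γ : Q →* PGL(Fin 2, K)) (hR : RankOne b τ γ)
    (hker : ∀ g, τ g = 1 → γ g = 1 → ∃ m, 0 < m ∧ g ^ m = 1)
    (ht : ∀ g (B : GL (Fin 2) K), ProjGenLinGroup.mk B = γ g →
      IsIntegral ℤ (B.1.trace ^ 2 / B.1.det))
    (hc : ∀ (Gt : Type u) [Group Gt] (q : Gt →* Q) (B : Gt →* GL (Fin 2) K),
      (∀ x, ProjGenLinGroup.mk (B x) = γ (q x)) → ∀ c ∈ commutator Gt, (B c).1.trace = 2)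
    (h1 : ∀ i, (∀ j, b j = b i → j = i) → ∀ g, IsIntegral ℤ ((τ g).1 i i))
    (h2 : ∀ i j, i < j → b i = b j → ∀ g,
      IsIntegral ℤ ((τ g).1.submatrix ![i, j] ![i, j]).det) :
    ∃ H : Subgroup Q, H.Normal ∧ H.FiniteIndex ∧ ∃ m, PZ m H := by
  obtain ⟨Δ, _, π, q, z, hπ, hdet, hq, hz, hz', hker', hfin, hfgΔ⟩ := P2.exists_lift γ
  obtain ⟨M₀, hM₀⟩ : ∃ M₀, M₀ = (∑ i, b i) + 1 := ⟨_, rfl⟩
  have hM : ∀ i, b i < M₀ := fun i => by
    rw [hM₀]
    exact Nat.lt_succ_of_le
      (Finset.single_le_sum (f := b) (fun _ _ => Nat.zero_le _) (Finset.mem_univ i))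
  let b₂ : Fin n ⊕ Fin 2 → ℕ := Sum.elim b fun _ => M₀
  let ρ : Δ →* GL (Fin n ⊕ Fin 2) K := (sumHom (τ.comp π) q).toHomUnits
  have r11 : ∀ g i j, (ρ g).1 (Sum.inl i) (Sum.inl j) = (τ (π g)).1 i j := fun g i j => rfl
  have r12 : ∀ g i j, (ρ g).1 (Sum.inl i) (Sum.inr j) = 0 := fun g i j => rfl
  have r21 : ∀ g i j, (ρ g).1 (Sum.inr i) (Sum.inl j) = 0 := fun g i j => rfl
  have r22 : ∀ g i j, (ρ g).1 (Sum.inr i) (Sum.inr j) = (q g).1 i j := fun g i j => rfl
  -- the blocks
  have hb₂ : ∀ k, (Finset.univ.filter fun i => b₂ i = k).card ≤ 2 := by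
    intro k
    by_cases hk : k = M₀
    · refine (Finset.card_le_card (t := Finset.univ.map ⟨Sum.inr, Sum.inr_injective⟩)
        fun i hi => ?_).trans (by rw [Finset.card_map, Finset.card_univ, Fintype.card_fin])
      rw [Finset.mem_filter] at hi
      rcases i with i | i
      · exact absurd (hi.2.trans hk) (hM i).ne
      · exact Finset.mem_map.2 ⟨i, Finset.mem_univ _, rfl⟩
    · refine (Finset.card_le_card (t := (Finset.univ.filter fun i => b i = k).map
        ⟨Sum.inl, Sum.inl_injective⟩) fun i hi => ?_).trans (by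
          rw [Finset.card_map]
          exact hR.card k)
      rw [Finset.mem_filter] at hi
      rcases i with i | i
      · exact Finset.mem_map.2 ⟨i, Finset.mem_filter.2 ⟨Finset.mem_univ _, hi.2⟩, rfl⟩
      · exact absurd hi.2.symm hk
  have htri₂ : ∀ g, (ρ g : Matrix (Fin n ⊕ Fin 2) (Fin n ⊕ Fin 2) K).BlockTriangular b₂ := by
    intro g i j hij
    rcases i with i | i <;> rcases j with j | j
    · rw [r11]
      exact hR.tri (π g) hij
    · exact r12 g i j
    · exact r21 g i j
    · exact absurd hij (lt_irrefl _)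
  -- the traces of the commutators
  have hcom : ∀ i j, i < j → b i = b j → ∀ c ∈ commutator Δ,
      (τ (π c)).1 i i + (τ (π c)).1 j j = 2 := by
    intro i j hij hbij c hcc
    let B : Q →* GL (Fin 2) K := (twoHom τ hR.tri hR.card hij.ne hbij).toHomUnits
    have h3 := hc Δ π (B.comp π) (fun x => by
      obtain ⟨B', hB', h4⟩ := hR.lift i j hij hbij (π x)
      have h5 : B (π x) = B' := Units.ext hB'.symm
      rw [MonoidHom.comp_apply, h5]
      exact h4) c hcc
    rw [Matrix.trace_fin_two] at h3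
    exact h3
  have hcom₂ : ∀ i j, i ≠ j → b₂ i = b₂ j → ∀ c ∈ commutator Δ,
      (ρ c).1 i i + (ρ c).1 j j = 2 := by
    intro i j hij hbij c hcc
    rcases i with i | i <;> rcases j with j | j
    · have hij' : i ≠ j := fun h => hij (congrArg Sum.inl h)
      rw [r11, r11]
      rcases lt_or_gt_of_ne hij' with h3 | h3
      · exact hcom i j h3 hbij c hcc
      · rw [add_comm]
        exact hcom j i h3 hbij.symm c hcc
    · exact absurd hbij (hM i).ne
    · exact absurd hbij (hM j).ne'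
    · have h3 := hc Δ π q hq c hcc
      rw [Matrix.trace_fin_two] at h3
      rw [r22, r22]
      fin_cases i <;> fin_cases j
      · exact absurd rfl hij
      · exact h3
      · rw [add_comm]
        exact h3
      · exact absurd rfl hij
  -- the kernel
  have hz1 : z ≠ 1 := by
    intro h
    rw [h, map_one, Units.val_one] at hz'
    have h3 := congrFun (congrFun hz' 0) 0
    rw [Matrix.neg_apply, Matrix.one_apply_eq] at h3
    have h4 : (2 : K) = 0 := by linear_combination h3
    exact two_ne_zero h4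
  have hinj : Function.Injective ρ := (injective_iff_map_eq_one ρ).2 fun g hg => by
    have h3 : τ (π g) = 1 := by
      refine Units.ext (Matrix.ext fun i j => ?_)
      rw [← r11, hg, Units.val_one, Units.val_one, Matrix.one_apply, Matrix.one_apply]
      by_cases h : i = j
      · rw [if_pos h, if_pos (congrArg Sum.inl h)]
      · rw [if_neg h, if_neg fun h' => h (Sum.inl_injective h')]
    have h4 : q g = 1 := by
      refine Units.ext (Matrix.ext fun i j => ?_)
      rw [← r22, hg, Units.val_one, Units.val_one, Matrix.one_apply, Matrix.one_apply]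
      by_cases h : i = j
      · rw [if_pos h, if_pos (congrArg Sum.inr h)]
      · rw [if_neg h, if_neg fun h' => h (Sum.inr_injective h')]
    have h5 : γ (π g) = 1 := by rw [← hq, h4, map_one]
    obtain ⟨m, hm, h6⟩ := hker _ h3 h5
    rcases hker' g (htf _ m hm h6) with h7 | h7
    · exact h7
    · exfalso
      rw [← h7, h4, Units.val_one] at hz'
      have h8 := congrFun (congrFun hz' 0) 0
      rw [Matrix.neg_apply, Matrix.one_apply_eq] at h8
      have h9 : (2 : K) = 0 := by linear_combination h8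
      exact two_ne_zero h9
  obtain ⟨P, b', hb', ht', hd'⟩ := hBtr K Δ (Fin n ⊕ Fin 2) b₂ hb₂ ρ htri₂ hcom₂
  -- the diagonal entries
  have hpair : ∀ i j, i < j → b i = b j → ∀ g,
      (τ g).1 i i * (τ g).1 j j - (τ g).1 i j * (τ g).1 j i ≠ 0 ∧
      IsIntegral ℤ ((τ g).1 i i * (τ g).1 j j - (τ g).1 i j * (τ g).1 j i) ∧
      IsIntegral ℤ (((τ g).1 i i + (τ g).1 j j) ^ 2 /
        ((τ g).1 i i * (τ g).1 j j - (τ g).1 i j * (τ g).1 j i)) := by
    intro i j hij hbij g
    obtain ⟨B, hB, h3⟩ := hR.lift i j hij hbij g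
    have h4 : B.1.det ≠ 0 := ((Matrix.isUnit_iff_isUnit_det _).1 B.isUnit).ne_zero
    have h5 := ht g B h3
    have h6 := h2 i j hij hbij g
    rw [hB, Matrix.det_fin_two] at h4
    rw [hB, Matrix.det_fin_two, Matrix.trace_fin_two] at h5
    rw [Matrix.det_fin_two] at h6
    exact ⟨h4, h6, h5⟩
  have hqp : ∀ g, (q g).1 0 0 * (q g).1 1 1 - (q g).1 0 1 * (q g).1 1 0 = 1 ∧
      IsIntegral ℤ (((q g).1 0 0 + (q g).1 1 1) ^ 2 / 1) := by
    intro g
    have h3 := ht (π g) (q g) (hq g)
    have h4 := hdet g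
    rw [h4, Matrix.trace_fin_two] at h3
    rw [Matrix.det_fin_two] at h4
    exact ⟨h4, h3⟩
  let ρ' : Δ →* GL (Fin n ⊕ Fin 2) K := (MulAut.conj P).toMonoidHom.comp ρ
  have hρ' : ∀ g, ρ' g = P * ρ g * P⁻¹ := fun g => rfl
  have hint : ∀ s i, IsIntegral ℤ ((ρ' s : Matrix (Fin n ⊕ Fin 2) (Fin n ⊕ Fin 2) K) i i) := by
    intro s i
    rw [hρ']
    rcases hd' s i with ⟨h3, h4⟩ | ⟨j, hji, hbj, h4⟩
    · rw [h4]
      rcases i with i | i
      · rw [r11]
        exact h1 i (fun j hj => Sum.inl_injective (h3 (Sum.inl j) hj)) (π s)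
      · exfalso
        have h5 := h3 (Sum.inr (i + 1)) rfl
        have h6 : i + 1 = i := Sum.inr_injective h5
        fin_cases i <;> exact absurd h6 (by decide)
    · rcases i with i | i <;> rcases j with j | j
      · have hji' : j ≠ i := fun h => hji (congrArg Sum.inl h)
        rw [r11, r11, r11, r11] at h4
        rcases lt_or_gt_of_ne hji' with h5 | h5
        · obtain ⟨e1, e2, e3⟩ := hpair j i h5 hbj (π s)
          refine integral_eig e1 ?_ e3 e2
          linear_combination h4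
        · obtain ⟨e1, e2, e3⟩ := hpair i j h5 hbj.symm (π s)
          exact integral_eig e1 h4 e3 e2
      · exact absurd hbj (hM i).ne'
      · exact absurd hbj (hM j).ne
      · obtain ⟨e1, e2⟩ := hqp s
        rw [r22, r22, r22, r22] at h4
        have e3 : ∀ x : K, x ^ 2 - ((q s).1 0 0 + (q s).1 1 1) * x + 1 = 0 → IsIntegral ℤ x :=
          fun x hx => integral_eig one_ne_zero hx e2 isIntegral_one
        have hji' : j ≠ i := fun h => hji (congrArg Sum.inr h)
        have hij : (i = 0 ∧ j = 1) ∨ (i = 1 ∧ j = 0) := by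
          revert hji'
          fin_cases i <;> fin_cases j <;> simp
        rcases hij with ⟨rfl, rfl⟩ | ⟨rfl, rfl⟩
        · refine e3 _ ?_
          rw [e1] at h4
          exact h4
        · refine e3 _ ?_
          linear_combination h4 - e1
  obtain ⟨H, hN, hF, m, hm⟩ := trn K Δ (hfgΔ hfg) (Fin n ⊕ Fin 2) b' ρ' hb'
    ((MulAut.conj P).injective.comp hinj) ht' hint
  -- the image of the subgroup
  have hzz : z * z = 1 := by
    rcases hker' (z * z) (by rw [map_mul, hz, one_mul]) with h3 | h3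
    · exact h3
    · exact absurd (mul_eq_left.1 h3) hz1
  have hzH : z ∉ H := fun h3 => hz1 (by
    have h4 := pz_tf m hm ⟨z, h3⟩ 2 two_pos (Subtype.ext (by
      show z ^ 2 = 1
      rw [pow_two]
      exact hzz))
    exact congrArg Subtype.val h4)
  have hbij : Function.Bijective (π.subgroupMap H) := by
    refine ⟨(injective_iff_map_eq_one _).2 fun g hg => ?_, π.subgroupMap_surjective H⟩
    have h3 : π g.1 = 1 := congrArg Subtype.val hg
    rcases hker' g.1 h3 with h4 | h4
    · exact Subtype.ext h4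
    · exact absurd (h4 ▸ g.2) hzH
  let e : H ≃* H.map π := MulEquiv.ofBijective (π.subgroupMap H) hbij
  refine ⟨H.map π, hN.map π hπ, ⟨fun h3 => hF.index_ne_zero ?_⟩, m,
    PZ.of_injective m e.symm.toMonoidHom e.symm.injective hm⟩
  exact Nat.eq_zero_of_zero_dvd (h3 ▸ H.index_map_dvd hπ)

/-- RKE. Extensions of torsionfree groups of semisimple rank one with integral invariants and
commutators with lifts of trace `2` by groups in `𝒩`. -/
theorem rke (hBtr : BtrStatement.{u}) (hTfk : TfkStatement.{u}) {K : Type u} [Field K]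
    [CharZero K] [IsAlgClosed K] {n : ℕ} {b : Fin n → ℕ} (G Q : Type u) [Group G] [Group Q]
    (p : G →* Q) (hN : InN p.ker) (htf : TorsionFree Q)
    (τ : Q →* GL (Fin n) K) (γ : Q →* PGL(Fin 2, K)) (hR : RankOne b τ γ)
    (hker : ∀ g, τ g = 1 → γ g = 1 → ∃ m, 0 < m ∧ g ^ m = 1)
    (ht : ∀ g (B : GL (Fin 2) K), ProjGenLinGroup.mk B = γ g →
      IsIntegral ℤ (B.1.trace ^ 2 / B.1.det))
    (hc : ∀ (Gt : Type u) [Group Gt] (q : Gt →* Q) (B : Gt →* GL (Fin 2) K),
      (∀ x, ProjGenLinGroup.mk (B x) = γ (q x)) → ∀ c ∈ commutator Gt, (B c).1.trace = 2)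
    (h1 : ∀ i, (∀ j, b j = b i → j = i) → ∀ g, IsIntegral ℤ ((τ g).1 i i))
    (h2 : ∀ i j, i < j → b i = b j → ∀ g,
      IsIntegral ℤ ((τ g).1.submatrix ![i, j] ![i, j]).det) : InRC G := by
  refine ((main.{u}).2.2.2.1 G).2.2.2.2.2.1 fun T => ⟨Subgroup.closure (T : Set G),
    fun s hs => Subgroup.subset_closure hs, inRC_of_inN ?_⟩
  have hfg : Group.FG (Subgroup.closure (T : Set G)) := (Group.fg_iff_subgroup_fg _).2 ⟨T, rfl⟩
  let r : Subgroup.closure (T : Set G) →* Q := p.comp (Subgroup.subtype _)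
  have hfgr : Group.FG r.range := Group.fg_range r
  have htfr : TorsionFree r.range := fun g m hm h =>
    Subtype.ext (htf g.1 m hm (congrArg Subtype.val h))
  obtain ⟨H, _, hF, m, hm⟩ := rke_pz hBtr r.range hfgr htfr (τ.comp r.range.subtype)
    (γ.comp r.range.subtype) (hR.comp _) (fun g h3 h4 => by
      obtain ⟨m, hm, h5⟩ := hker g.1 h3 h4
      exact ⟨m, hm, Subtype.ext h5⟩) (fun g B h3 => ht g.1 B h3)
    (fun Gt _ q B h3 => hc Gt (r.range.subtype.comp q) B h3) (fun i hi g => h1 i hi g.1)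
    (fun i j hij hbij g => h2 i j hij hbij g.1)
  have hsur : Function.Surjective r.rangeRestrict := r.rangeRestrict_surjective
  refine hTfk _ _ r.rangeRestrict htfr ?_ (H.comap r.rangeRestrict) m ?_
    (MonoidHom.ker_le_comap r.rangeRestrict H) ?_
  · let i : r.rangeRestrict.ker →* p.ker :=
      { toFun := fun x => ⟨x.1.1, congrArg Subtype.val x.2⟩
        map_one' := rfl
        map_mul' := fun _ _ => rfl }
    refine TT.H66.inN_of_injective i (fun x y hxy => ?_) hN
    exact Subtype.ext (Subtype.ext (congrArg (fun w : p.ker => (w : G)) hxy))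
  · refine ⟨?_⟩
    rw [Subgroup.index_comap_of_surjective H hsur]
    exact hF.index_ne_zero
  · rw [Subgroup.map_comap_eq_self_of_surjective hsur]
    exact hm

/-! ### The condition on the edges of `gpx` -/

theorem range_tf {Γ : Type u} {M : Type v} [Group Γ] [Group M] (χ : Γ →* M) :
    TorsionFree χ.range ↔ ∀ g (m : ℕ), 0 < m → χ g ^ m = 1 → χ g = 1 := by
  constructor
  · intro h g m hm hg
    exact congrArg Subtype.val (h ⟨χ g, g, rfl⟩ m hm (Subtype.ext hg))
  · rintro h ⟨_, g, rfl⟩ m hm hg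
    exact Subtype.ext (h g m hm (congrArg Subtype.val hg))

/-- The condition on the edges in `gpx` over an algebraically closed field, with the determinants
of the blocks as characters. -/
theorem edges (hBtr : BtrStatement.{u}) (hTfk : TfkStatement.{u}) {A : Type u} [CommRing A]
    {K : Type u} [Field K] [CharZero K] [IsAlgClosed K] {n : ℕ} {b : Fin n → ℕ} {Γ : Type u}
    [Group Γ] {M : Type u} [Group M] (β : Γ →* M) (τ : Γ →* GL (Fin n) K)
    (γ : Γ →* PGL(Fin 2, K)) (hR : RankOne b τ γ)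
    (htf : ∀ g (m : ℕ), 0 < m → β g ^ m = 1 → τ g ^ m = 1 → γ g ^ m = 1 →
      β g = 1 ∧ τ g = 1 ∧ γ g = 1)
    (hN : InN (β.prod (τ.prod γ)).ker) (φ : Γ →* GL (Fin 2) A)
    (hφ : ∀ g, φ g = 1 → ∃ m, 0 < m ∧ β g ^ m = 1) :
    ∃ χ : Fin n → Γ →* Kˣ, ∀ (G : Type u) [Group G] (f : G →* Γ), Function.Injective f →
      (∀ g, ∃ m, 0 < m ∧ φ (f g) ^ m = 1) →
      (∀ g (B : GL (Fin 2) K), ProjGenLinGroup.mk B = γ (f g) →
        IsIntegral ℤ (B.1.trace ^ 2 / B.1.det)) →
      (∀ (Gt : Type u) [Group Gt] (q : Gt →* G) (B : Gt →* GL (Fin 2) K),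
        (∀ x, ProjGenLinGroup.mk (B x) = γ (f (q x))) → ∀ c ∈ commutator Gt,
          (B c).1.trace = 2) →
      (∀ j g, IsIntegral ℤ ((χ j (f g) : Kˣ) : K)) → InRC G := by
  obtain ⟨χ, hχ1, hχ2⟩ := exists_chars τ hR.tri hR.card
  refine ⟨χ, fun G _ f hf h1 h2 h3 h4 => ?_⟩
  let ω : G →* M × GL (Fin n) K × PGL(Fin 2, K) := (β.prod (τ.prod γ)).comp f
  let τ' : ω.range →* GL (Fin n) K :=
    (MonoidHom.fst _ _).comp ((MonoidHom.snd _ _).comp ω.range.subtype)
  let γ' : ω.range →* PGL(Fin 2, K) :=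
    (MonoidHom.snd _ _).comp ((MonoidHom.snd _ _).comp ω.range.subtype)
  have hτ' : ∀ g, τ' (ω.rangeRestrict g) = τ (f g) := fun g => rfl
  have hγ' : ∀ g, γ' (ω.rangeRestrict g) = γ (f g) := fun g => rfl
  have hs : Function.Surjective ω.rangeRestrict := ω.rangeRestrict_surjective
  refine rke hBtr hTfk (b := b) G ω.range ω.rangeRestrict ?_ ?_ τ' γ' ⟨hR.card, fun x => ?_,
    fun i j hij hbij x => ?_⟩ (fun x h5 h6 => ?_) (fun x B h5 => ?_) (fun Gt _ q B h5 c hcc => ?_)
    (fun i hi x => ?_) fun i j hij hbij x => ?_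
  · let i : ω.rangeRestrict.ker →* (β.prod (τ.prod γ)).ker :=
      { toFun := fun x => ⟨f x.1, congrArg Subtype.val x.2⟩
        map_one' := Subtype.ext (map_one f)
        map_mul' := fun x y => Subtype.ext (map_mul f x.1 y.1) }
    refine TT.H66.inN_of_injective i (fun x y hxy => ?_) hN
    exact Subtype.ext (hf (congrArg (fun w : (β.prod (τ.prod γ)).ker => (w : Γ)) hxy))
  · refine (range_tf ω).2 fun g m hm hg => ?_
    have e1 : β (f g) ^ m = 1 := congrArg Prod.fst hg
    have e2 : τ (f g) ^ m = 1 := congrArg (fun x => x.2.1) hg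
    have e3 : γ (f g) ^ m = 1 := congrArg (fun x => x.2.2) hg
    obtain ⟨e4, e5, e6⟩ := htf (f g) m hm e1 e2 e3
    exact Prod.ext e4 (Prod.ext e5 e6)
  · obtain ⟨g, rfl⟩ := hs x
    rw [hτ']
    exact hR.tri (f g)
  · obtain ⟨g, rfl⟩ := hs x
    rw [hτ', hγ']
    exact hR.lift i j hij hbij (f g)
  · obtain ⟨g, rfl⟩ := hs x
    rw [hτ'] at h5
    rw [hγ'] at h6
    obtain ⟨m, hm, h7⟩ := h1 g
    obtain ⟨m', hm', h8⟩ := hφ (f g ^ m) (by rw [map_pow]; exact h7)
    refine ⟨m * m', Nat.mul_pos hm hm', Subtype.ext (Prod.ext ?_ (Prod.ext ?_ ?_))⟩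
    · show β (f g) ^ (m * m') = 1
      rw [pow_mul, ← map_pow]
      exact h8
    · show τ (f g) ^ (m * m') = 1
      rw [h5, one_pow]
    · show γ (f g) ^ (m * m') = 1
      rw [h6, one_pow]
  · obtain ⟨g, rfl⟩ := hs x
    exact h2 g B h5
  · -- pull back to the preimage in `G`
    let E : Subgroup (Gt × G) :=
      { carrier := {y | q y.1 = ω.rangeRestrict y.2}
        one_mem' := by
          show q 1 = ω.rangeRestrict 1
          rw [map_one, map_one]
        mul_mem' := fun {y y'} hy hy' => by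
          show q (y.1 * y'.1) = ω.rangeRestrict (y.2 * y'.2)
          have e1 : q y.1 = ω.rangeRestrict y.2 := hy
          have e2 : q y'.1 = ω.rangeRestrict y'.2 := hy'
          rw [map_mul, map_mul, e1, e2]
        inv_mem' := fun {y} hy => by
          show q y.1⁻¹ = ω.rangeRestrict y.2⁻¹
          have e1 : q y.1 = ω.rangeRestrict y.2 := hy
          rw [map_inv, map_inv, e1] }
    let p₁ : E →* Gt := (MonoidHom.fst _ _).comp E.subtype
    have hp₁ : Function.Surjective p₁ := fun y => by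
      obtain ⟨g, hg⟩ := hs (q y)
      exact ⟨⟨(y, g), hg.symm⟩, rfl⟩
    have h6 : c ∈ (commutator E).map p₁ := by
      rw [commutator_def, Subgroup.map_commutator, Subgroup.map_top_of_surjective p₁ hp₁]
      exact hcc
    obtain ⟨c', hc', rfl⟩ := h6
    refine h3 E ((MonoidHom.snd _ _).comp E.subtype) (B.comp p₁) (fun y => ?_) c' hc'
    have e1 : q y.1.1 = ω.rangeRestrict y.1.2 := y.2
    show ProjGenLinGroup.mk (B y.1.1) = γ (f y.1.2)
    rw [h5, e1, hγ']
  · obtain ⟨g, rfl⟩ := hs x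
    have h5 := h4 i g
    rw [hχ1 i hi] at h5
    exact h5
  · obtain ⟨g, rfl⟩ := hs x
    have h5 := h4 i g
    rw [hχ2 i j hij hbij] at h5
    exact h5

end Pool.Agent.NegK.RK
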