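import Pool.Agent.Lib.MP_28303a_al.RK.VpDefs
import Pool.Agent.Lib.MP_28303a_al.RK.Rke

/-!
# Groups of semisimple rank one with virtually poly-`ℤ` kernels: statements, second part

The conditions on the torsion of the images in the other factors are not necessary.
-/

set_option autoImplicit false
set_option linter.unusedSectionVars false
set_option linter.unusedVariables false

namespace Pool.Agent.NegK.RK

universe u

open Matrix
open scoped MatrixGroups
open Pool.Agent.NegK.TW Pool.Agent.NegK.TT Pool.Agent.NegK.NT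

/-- The finitely generated torsion subgroups of `B` are finite. -/
def Bur (B : Type u) [Group B] : Prop :=
  ∀ S : Subgroup B, S.FG → (∀ x ∈ S, ∃ m, 0 < m ∧ x ^ m = 1) → Finite S

/-- Groups with a finite chain of normal subgroups with commutative factors of finite exponent. -/
def BX : ℕ → (E : Type u) → [Group E] → Prop
  | 0, E, _ => Subsingleton E
  | k + 1, E, _ => ∃ (A : Type u) (_ : CommGroup A) (e : ℕ) (f : E →* A), 0 < e ∧
      (∀ a : A, a ^ e = 1) ∧ BX k f.ker

/-- Row BVX. -/
def BvxStatement : Prop :=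
  ∀ (N E : Type u) [Group N] [Group E] (f : N →* E) (k n : ℕ), TorsionFree N → BX k E →
    VZ n f.ker → ∃ m, VZ m N

/-- Row LINW. The vanishing theorem, without a condition on the torsion of the images. -/
def LinWStatement : Prop :=
  ∀ (F : Type u) [Field F] (p : ℕ), 0 < p → (p : F) = 0 → ∀ (P : Type u) [Group P], Arb P →
    Bur P → ∀ (K L : Type u) [Field K] [Field L], H70.Rig K → ∀ (e : K →+* L) (r : ℕ)
    (d : Fin r → ℕ) (Γ D : Type u) [Group Γ] [Group D] (δ : Γ →* D)
    (α : Γ →* (MvPolynomial (Fin 2) F ≃ₐ[F] MvPolynomial (Fin 2) F)) (β : Γ →* P)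
    (τ : Γ →* GL (TI d) L) (γ : Γ →* PGL(Fin 2, K)) (n : ℕ),
    VK n δ (α.prod (β.prod (τ.prod γ))) → RankT d τ ((ProjGenLinGroup.map e).comp γ) →
    H19.InL Γ

/-- KER. A homomorphism `σ'` on a finitely generated group `S` such that the group `N` of the
elements of its kernel with trivial image in a finite group has a homomorphism `f` to a group with a
chain as above and the kernel of `f` is the kernel of `χ`. -/
theorem vk_of (hX : BvxStatement.{u}) {n k : ℕ} {S D X Y B E : Type u} [Group S] [Group D]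
    [Group X] [Group Y] [Group B] [Group E] {δ : S →* D} {χ : S →* X} (h : VK n δ χ)
    (σ : S →* Y) (hσ : ∀ g, χ g = 1 → σ g = 1) (β : S →* B) (hβ : Finite β.range)
    (hβ' : ∀ g, χ g = 1 → β g = 1) (N : Subgroup S) (hN : ∀ g, g ∈ N ↔ σ g = 1 ∧ β g = 1)
    (f : N →* E) (hf : ∀ g : N, f g = 1 ↔ χ g.1 = 1) (hE : BX k E) :
    ∃ m, VK m δ σ := by
  -- the image of `N`
  let δN : N →* D := δ.comp N.subtype
  let p : N →* δN.range := δN.rangeRestrict
  have hp : Function.Surjective p := δN.rangeRestrict_surjective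
  have hle : p.ker ≤ f.ker := fun x hx => (hf x).2 (h.le x.1 (congrArg Subtype.val hx))
  let φ : δN.range →* E := p.liftOfSurjective hp ⟨f, hle⟩
  have hφ : ∀ s, φ (p s) = f s := fun s =>
    p.liftOfRightInverse_comp_apply _ (Function.rightInverse_surjInv hp) ⟨f, hle⟩ s
  have htf : TorsionFree δN.range := (range_tf δN).2 fun g m hm hg => h.tf g.1 m hm hg
  obtain ⟨m, hm⟩ := hX δN.range E φ k n htf hE (by
    refine VZ.of_injective (⟨⟨fun x => ⟨x.1.1, ?_⟩, rfl⟩, fun _ _ => rfl⟩ :
      φ.ker →* (χ.ker.map δ : Subgroup D)) (fun x y hxy => ?_) h.vz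
    · obtain ⟨s, hs⟩ := hp x.1
      have h1 : f s = 1 := by
        rw [← hφ, hs]
        exact x.2
      exact ⟨s.1, (hf s).1 h1, congrArg Subtype.val hs⟩
    · exact Subtype.ext (Subtype.ext (congrArg (fun z : (χ.ker.map δ : Subgroup D) => (z : D)) hxy)))
  refine ⟨m, h.tf, h.ker, fun g hg => hσ g (h.le g hg), ?_⟩
  -- finite index
  have hNle : N ≤ σ.ker := fun g hg => ((hN g).1 hg).1
  have hfi : (N.subgroupOf σ.ker).FiniteIndex := by
    have h1 : (β.comp σ.ker.subtype).ker.FiniteIndex := by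
      have : Finite (β.comp σ.ker.subtype).range :=
        Finite.of_injective (Subgroup.inclusion (by
          rintro _ ⟨g, rfl⟩
          exact ⟨g.1, rfl⟩ : (β.comp σ.ker.subtype).range ≤ β.range))
          (Subgroup.inclusion_injective _)
      exact Subgroup.finiteIndex_ker _
    have h2 : N.subgroupOf σ.ker = (β.comp σ.ker.subtype).ker := by
      ext g
      rw [Subgroup.mem_subgroupOf, hN]
      exact ⟨fun h => h.2, fun h => ⟨g.2, h⟩⟩
    rw [h2]
    exact h1
  let M : Subgroup D := σ.ker.map δ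
  have hrange : δN.range ≤ M := by
    rintro _ ⟨g, rfl⟩
    exact ⟨g.1, hNle g.2, rfl⟩
  refine VZ.of_index (δN.range.subgroupOf M) ?_ ?_
  · let ρ : σ.ker →* M :=
      { toFun := fun x => ⟨δ x.1, x.1, x.2, rfl⟩
        map_one' := Subtype.ext (map_one δ)
        map_mul' := fun x y => Subtype.ext (map_mul δ x.1 y.1) }
    have hρ : Function.Surjective ρ := by
      rintro ⟨_, g, hg, rfl⟩
      exact ⟨⟨g, hg⟩, rfl⟩
    have h3 : δN.range.subgroupOf M = (N.subgroupOf σ.ker).map ρ := by
      ext x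
      constructor
      · rintro ⟨g, hg⟩
        exact ⟨⟨g.1, hNle g.2⟩, g.2, Subtype.ext hg⟩
      · rintro ⟨g, hg, rfl⟩
        exact ⟨⟨g.1, hg⟩, rfl⟩
    rw [h3]
    exact ⟨fun h4 => hfi.index_ne_zero (Nat.eq_zero_of_zero_dvd (h4 ▸
      Subgroup.index_map_dvd (N.subgroupOf σ.ker) hρ))⟩
  · exact VZ.of_injective (Subgroup.subgroupOfEquivOfLe hrange).toMonoidHom
      (Subgroup.subgroupOfEquivOfLe hrange).injective hm

end Pool.Agent.NegK.RK
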