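import Pool.Agent.Lib.MP_28303a_al.RK.VpDefs2

/-! # Kernels which are extensions -/

set_option autoImplicit false
set_option linter.unusedSectionVars false
set_option linter.unusedVariables false

namespace Pool.Agent.NegK.RK

universe u

open Pool.Agent.NegK.TW Pool.Agent.NegK.TT Pool.Agent.NegK.NT

/-- Homomorphisms which factor through the image of another homomorphism. -/
theorem exists_fac {S D E : Type u} [Group S] [Group D] [Group E] (δ : S →* D) (r : S →* E)
    (h : ∀ g, δ g = 1 → r g = 1) : ∃ r' : δ.range →* E, ∀ s, r' (δ.rangeRestrict s) = r s := by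
  let p : S →* δ.range := δ.rangeRestrict
  have hp : Function.Surjective p := δ.rangeRestrict_surjective
  have hle : p.ker ≤ r.ker := fun x hx => h x (congrArg Subtype.val hx)
  exact ⟨p.liftOfSurjective hp ⟨r, hle⟩, fun s =>
    p.liftOfRightInverse_comp_apply _ (Function.rightInverse_surjInv hp) ⟨r, hle⟩ s⟩

/-- The kernel of `σ` modulo the kernel of `χ` is an extension of a virtually poly-`ℤ` group by a
group with a chain of commutative groups of finite exponent. -/
theorem vk_ext (hX : BvxStatement.{u}) {n m k : ℕ} {S D X Y E B : Type u} [Group S] [Group D]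
    [Group X] [Group Y] [Group E] [Group B] {δ : S →* D} {χ : S →* X} (h : VK n δ χ)
    (σ : S →* Y) (hσ : ∀ g, χ g = 1 → σ g = 1) (r : σ.ker →* E) (hE : VZ m E)
    (hr : ∀ g : σ.ker, χ g.1 = 1 → r g = 1) (f : r.ker →* B)
    (hf : ∀ g : r.ker, f g = 1 ↔ χ g.1.1 = 1) (hB : BX k B) : ∃ m', VK m' δ σ := by
  let δM : σ.ker →* D := δ.comp σ.ker.subtype
  let δN : r.ker →* D := δM.comp r.ker.subtype
  obtain ⟨r', hr'⟩ := exists_fac δM r fun g hg => hr g (h.le g.1 hg)
  obtain ⟨f', hf'⟩ := exists_fac δN f fun g hg => (hf g).2 (h.le g.1.1 hg)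
  have htf : TorsionFree δN.range := (range_tf δN).2 fun g m hm hg => h.tf g.1.1 m hm hg
  obtain ⟨m₁, hm₁⟩ := hX δN.range B f' k n htf hB (by
    refine VZ.of_injective (⟨⟨fun x => ⟨x.1.1, ?_⟩, rfl⟩, fun _ _ => rfl⟩ :
      f'.ker →* (χ.ker.map δ : Subgroup D)) (fun x y hxy => ?_) h.vz
    · obtain ⟨s, hs⟩ := δN.rangeRestrict_surjective x.1
      have h1 : f s = 1 := by
        rw [← hf', hs]
        exact x.2
      exact ⟨s.1.1, (hf s).1 h1, congrArg Subtype.val hs⟩
    · exact Subtype.ext (Subtype.ext (congrArg (fun z : (χ.ker.map δ : Subgroup D) => (z : D)) hxy)))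
  have hk : VZ m₁ r'.ker := by
    refine VZ.of_injective (⟨⟨fun x => ⟨x.1.1, ?_⟩, rfl⟩, fun _ _ => rfl⟩ :
      r'.ker →* δN.range) (fun x y hxy => ?_) hm₁
    · obtain ⟨s, hs⟩ := δM.rangeRestrict_surjective x.1
      have h1 : r s = 1 := by
        rw [← hr', hs]
        exact x.2
      exact ⟨⟨s, h1⟩, congrArg Subtype.val hs⟩
    · exact Subtype.ext (Subtype.ext (congrArg (fun z : δN.range => (z : D)) hxy))
  refine ⟨m₁ + m, h.tf, h.ker, fun g hg => hσ g (h.le g hg), ?_⟩
  refine VZ.of_injective (⟨⟨fun x => ⟨x.1, ?_⟩, rfl⟩, fun _ _ => rfl⟩ :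
    (σ.ker.map δ : Subgroup D) →* δM.range) (fun x y hxy => ?_) (VZ.ext r' hE hk)
  · obtain ⟨s, hs, h1⟩ := x.2
    exact ⟨⟨s, hs⟩, h1⟩
  · exact Subtype.ext (congrArg (fun z : δM.range => (z : D)) hxy)

end Pool.Agent.NegK.RK
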