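import Pool.Agent.Lib.MP_28303a_al.PL.Ptf

/-! # Extensions of torsionfree virtually poly-Z groups by groups with regular group rings -/

set_option autoImplicit false
set_option linter.unusedSectionVars false
set_option linter.unusedVariables false

namespace Pool.Agent.NegK.RK

universe u

open Pool.Agent.NegK.TT Pool.Agent.NegK.PL

theorem comap_fi {S P : Type u} [Group S] [Group P] (q : S →* P) (hq : Function.Surjective q)
    (H : Subgroup P) (h : H.FiniteIndex) : (H.comap q).FiniteIndex :=
  ⟨by rw [Subgroup.index_comap_of_surjective H hq]; exact h.index_ne_zero⟩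

section Cocycle

variable {S P : Type u} [Group S] [Group P] (q : S →* P) (H : Subgroup P) (L : Subgroup S)
  (hL : ∀ x, x ∈ L ↔ q x ∈ H)

/-- The restriction of `q` to `L`, with values in `H`. -/
def resHom : L →* H where
  toFun x := ⟨q x.1, (hL x.1).1 x.2⟩
  map_one' := Subtype.ext (map_one q)
  map_mul' x y := Subtype.ext (map_mul q x.1 y.1)

variable {q H L}

theorem stab_pzq [hN : H.Normal] [hNL : L.Normal] (φ : H →* Multiplicative ℤ) (n : ℕ)
    (hφ : PZ n φ.ker) (s : Sec (coc L (φ.comp (resHom q H L hL)))) (c : S ⧸ L)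
    (hc : s c ≠ none) :
    PZ n (H.subgroupOf (q.comp (MulAction.stabilizer S s).subtype).range) := by
  obtain ⟨z, hz⟩ := Option.ne_none_iff_exists'.1 hc
  have hmem : ∀ y : P, y ∈ H → (q c.out)⁻¹ * y * q c.out ∈ H := fun y hy => by
    have h1 := hN.conj_mem y hy (q c.out)⁻¹
    rwa [inv_inv] at h1
  have hker : ∀ y : H.subgroupOf (q.comp (MulAction.stabilizer S s).subtype).range,
      φ ⟨(q c.out)⁻¹ * y.1.1 * q c.out, hmem y.1.1 y.2⟩ = 1 := fun y => by
    obtain ⟨t, ht⟩ := y.1.2
    have ht' : q t.1 = y.1.1 := ht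
    have htL : t.1 ∈ L := (hL t.1).2 (by rw [ht']; exact y.2)
    have h1 : t.1 • s = s := t.2
    have h2 := Sec.smul_at (coc L (φ.comp (resHom q H L hL))) t.1 s c
    have h3 : t.1 • c = c := smul_coset t.1 htL c
    rw [h1, h3, hz] at h2
    have h4 : z = z + (coc L (φ.comp (resHom q H L hL))).κ t.1 c := Option.some.inj h2
    have h5 : (coc L (φ.comp (resHom q H L hL))).κ t.1 c = 0 := by omega
    have h6 : (φ.comp (resHom q H L hL))
        ⟨(t.1 • c).out⁻¹ * t.1 * c.out, rep_mem L t.1 c⟩ = 1 :=
      Multiplicative.toAdd.injective h5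
    rw [← h6]
    refine congrArg φ (Subtype.ext ?_)
    show (q c.out)⁻¹ * y.1.1 * q c.out = q ((t.1 • c).out⁻¹ * t.1 * c.out)
    rw [h3, map_mul, map_mul, map_inv, ht']
  refine PZ.of_injective n
    (f := (⟨⟨fun y => ⟨⟨(q c.out)⁻¹ * y.1.1 * q c.out, hmem y.1.1 y.2⟩, hker y⟩, ?_⟩,
      fun x y => ?_⟩ : H.subgroupOf (q.comp (MulAction.stabilizer S s).subtype).range →* φ.ker))
    ?_ hφ
  · refine Subtype.ext (Subtype.ext ?_)
    show (q c.out)⁻¹ * 1 * q c.out = 1
    group
  · refine Subtype.ext (Subtype.ext ?_)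
    show (q c.out)⁻¹ * (x.1.1 * y.1.1) * q c.out =
      (q c.out)⁻¹ * x.1.1 * q c.out * ((q c.out)⁻¹ * y.1.1 * q c.out)
    group
  · intro x y hxy
    have h1 : (q c.out)⁻¹ * x.1.1 * q c.out = (q c.out)⁻¹ * y.1.1 * q c.out :=
      congrArg (fun w : φ.ker => w.1.1) hxy
    exact Subtype.ext (Subtype.ext (mul_left_cancel (mul_right_cancel h1)))

end Cocycle

/-- The bound of the projective dimensions relative to a kernel. -/
theorem ptfq (hFil : FilStatement.{u}) (R : Type u) [Ring R] : ∀ (n : ℕ) (S P : Type u) [Group S]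
    [Group P] (q : S →* P), Function.Surjective q → TorsionFree P → ∀ (H : Subgroup P)
    (L : Subgroup S), H.Normal → H.FiniteIndex → (∀ x, x ∈ L ↔ q x ∈ H) → PZ n H →
    ∀ (M : Type u) [AddCommGroup M] [Module (MonoidAlgebra R S) M] (d : ℕ),
    PdLe (MonoidAlgebra R L) d (Res R L M) → PdLe (MonoidAlgebra R S) (d + n) M := by
  intro n
  induction n with
  | zero =>
    intro S P _ _ q hq htf H L hN hfi hL hPZ M _ _ d hd
    have h1 : Subsingleton H := hPZ
    have h2 : H = ⊥ := (Subgroup.eq_bot_iff_forall H).2 fun x hx =>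
      congrArg Subtype.val (Subsingleton.elim (⟨x, hx⟩ : H) 1)
    have h3 : Finite P := by
      subst h2
      have : Finite (P ⧸ (⊥ : Subgroup P)) := inferInstance
      exact Finite.of_equiv _ (QuotientGroup.quotientBot (G := P)).toEquiv
    exact pd_all L (fun g => (hL g).2 (by rw [eq_one_of_finite htf (q g)]; exact H.one_mem)) d hd
  | succ n ih =>
    intro S P _ _ q hq htf H L hN hfi hL hPZ M _ _ d hd
    obtain ⟨φ, hφ⟩ := hPZ
    have hLc : L = H.comap q := Subgroup.ext hL
    have hNL : L.Normal := hLc ▸ hN.comap q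
    have hfL : L.FiniteIndex := by rw [hLc]; exact comap_fi q hq H hfi
    have : Finite (S ⧸ L) := inferInstance
    refine hFil R S (S ⧸ L) M (coc L (φ.comp (resHom q H L hL))) (d + n) fun s hs => ?_
    obtain ⟨c, hc⟩ := hs
    refine ih (MulAction.stabilizer S s) (q.comp (MulAction.stabilizer S s).subtype).range
      (q.comp (MulAction.stabilizer S s).subtype).rangeRestrict
      (MonoidHom.rangeRestrict_surjective _)
      (fun g m hm hg => Subtype.ext (htf g.1 m hm (congrArg Subtype.val hg)))
      (H.subgroupOf (q.comp (MulAction.stabilizer S s).subtype).range)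
      (L.subgroupOf (MulAction.stabilizer S s)) inferInstance inferInstance
      (fun x => hL x.1) (stab_pzq hL φ n hφ s c hc)
      (Res R (MulAction.stabilizer S s) M) d (pd_sub L (MulAction.stabilizer S s) d hd)

/-- Extensions of poly-Z groups. -/
theorem inN_pzq : ∀ (n : ℕ) (G A : Type u) [Group G] [Group A] (q : G →* A), PZ n A →
    InN q.ker → InN G
  | 0, G, A, _, _, q, h, hk => by
    have : Subsingleton A := h
    exact H66.inN_of_injective (⟨⟨fun g => ⟨g, Subsingleton.elim _ _⟩, rfl⟩, fun _ _ => rfl⟩ :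
      G →* q.ker) (fun x y hxy => congrArg Subtype.val hxy) hk
  | n + 1, G, A, _, _, q, ⟨φ, h⟩, hk => by
    refine H73.inN_ext G (φ.comp q) ?_
    let q' : (φ.comp q).ker →* φ.ker :=
      { toFun := fun x => ⟨q x.1, x.2⟩
        map_one' := Subtype.ext (map_one q)
        map_mul' := fun x y => Subtype.ext (map_mul q x.1 y.1) }
    refine inN_pzq n (φ.comp q).ker φ.ker q' h ?_
    refine H66.inN_of_injective (⟨⟨fun x => ⟨x.1.1, congrArg Subtype.val x.2⟩, rfl⟩,
      fun _ _ => rfl⟩ : q'.ker →* q.ker) ?_ hk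
    exact fun x y hxy => Subtype.ext (Subtype.ext (congrArg (fun z : q.ker => (z : G)) hxy))

/-- TFQ: extensions of torsionfree virtually poly-Z groups by groups with regular group rings. -/
theorem tfq (S P : Type u) [Group S] [Group P] (q : S →* P) (hq : Function.Surjective q)
    (htf : TorsionFree P) (hk : InN q.ker) (H : Subgroup P) (n : ℕ) (hfi : H.FiniteIndex)
    (h : PZ n H) : InN S := by
  intro R _ hR
  have h1 : PZ n H.normalCore := PZ.of_injective n (Subgroup.inclusion H.normalCore_le)
    (Subgroup.inclusion_injective _) h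
  have hL : ∀ x, x ∈ H.normalCore.comap q ↔ q x ∈ H.normalCore := fun x => Iff.rfl
  have h2 : InN (H.normalCore.comap q) := by
    refine inN_pzq n _ H.normalCore (resHom q H.normalCore _ hL) h1 ?_
    refine H66.inN_of_injective (⟨⟨fun x => ⟨x.1.1, congrArg Subtype.val x.2⟩, rfl⟩,
      fun _ _ => rfl⟩ : (resHom q H.normalCore _ hL).ker →* q.ker) ?_ hk
    exact fun x y hxy => Subtype.ext (Subtype.ext (congrArg (fun z : q.ker => (z : S)) hxy))
  exact fin R S (H.normalCore.comap q) n (comap_fi q hq H.normalCore inferInstance) (h2 R hR)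
    fun M _ _ d hd =>
    ptfq (fil pdStat) R n S P q hq htf H.normalCore (H.normalCore.comap q) inferInstance
      inferInstance hL h1 M d hd

/-- TFK: the same with a subgroup of `S` that contains the kernel; `q` need not be surjective. -/
theorem tfk (S Q : Type u) [Group S] [Group Q] (q : S →* Q) (htf : TorsionFree Q)
    (hk : InN q.ker) (H : Subgroup S) (n : ℕ) (hfi : H.FiniteIndex) (hH : q.ker ≤ H)
    (h : PZ n (H.map q)) : InN S := by
  have hfi' : (H.map q.rangeRestrict).FiniteIndex := by
    refine ⟨fun h0 => hfi.index_ne_zero ?_⟩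
    have h1 := Subgroup.index_map_dvd H (f := q.rangeRestrict) q.rangeRestrict_surjective
    rw [h0] at h1
    have h2 : (H.map q.rangeRestrict).comap q.rangeRestrict = H := by
      refine Subgroup.comap_map_eq_self ?_
      intro x hx
      exact hH (congrArg Subtype.val (show q.rangeRestrict x = 1 from hx))
    rw [← h2, Subgroup.index_comap_of_surjective _ q.rangeRestrict_surjective]
    exact h0
  refine tfq S q.range q.rangeRestrict q.rangeRestrict_surjective
    (fun g m hm hg => Subtype.ext (htf g.1 m hm (congrArg Subtype.val hg)))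
    (H66.inN_of_injective (⟨⟨fun x => ⟨x.1, congrArg Subtype.val x.2⟩, rfl⟩,
      fun _ _ => rfl⟩ : q.rangeRestrict.ker →* q.ker)
      (fun x y hxy => Subtype.ext (congrArg (fun z : q.ker => (z : S)) hxy)) hk)
    (H.map q.rangeRestrict) n hfi' ?_
  refine PZ.of_injective n (f := (⟨⟨fun y => ⟨y.1.1, ?_⟩, rfl⟩, fun _ _ => rfl⟩ :
    H.map q.rangeRestrict →* H.map q)) ?_ h
  · obtain ⟨x, hx, hxy⟩ := y.2
    exact ⟨x, hx, congrArg Subtype.val hxy⟩
  · exact fun x y hxy => Subtype.ext (Subtype.ext (congrArg (fun z : H.map q => (z : Q)) hxy))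

end Pool.Agent.NegK.RK
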