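import Pool.Agent.Lib.MP_28303a_al.P2.Pos
import Pool.Agent.Lib.MP_28303a_al.NT.H80.Block

/-! # Arboreal groups -/

set_option autoImplicit false
set_option linter.unusedSectionVars false
set_option linter.unusedVariables false

namespace Pool.Agent.NegK.RK

universe u

open Matrix
open scoped MatrixGroups
open Pool.Agent.NegK.TW Pool.Agent.NegK.TT Pool.Agent.NegK.NT
open H1 (TD)

/-- The arboreal groups `P`: a finitely generated group with a homomorphism to `P` acts on finitely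
many trees such that the image in `P` of an element with a fixed vertex in every tree has a finite
order. -/
def Arb (P : Type u) [Group P] : Prop :=
  ∀ (G : Type u) [Group G] [Group.FG G] (f : G →* P), ∃ (ι : Type) (_ : Finite ι) (T : ι → TD G),
    ∀ g, (∀ i, (T i).Ell g) → ∃ n, 0 < n ∧ f g ^ n = 1

/-- It suffices to have trees for the finitely generated subgroups. -/
theorem arb_of {P : Type u} [Group P]
    (h : ∀ S : Subgroup P, S.FG → ∃ (ι : Type) (_ : Finite ι) (T : ι → TD S),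
      ∀ g : S, (∀ i, (T i).Ell g) → ∃ n, 0 < n ∧ g ^ n = 1) : Arb P := by
  classical
  intro G _ hG f
  obtain ⟨S, hS⟩ := hG.out
  obtain ⟨ι, hι, T, hT⟩ := h f.range ⟨S.image f, by
    rw [Finset.coe_image, ← MonoidHom.map_closure, hS, ← MonoidHom.range_eq_map]⟩
  refine ⟨ι, hι, fun i => (T i).comp f.rangeRestrict, fun g hg => ?_⟩
  obtain ⟨n, hn, h1⟩ := hT (f.rangeRestrict g) fun i => hg i
  exact ⟨n, hn, congrArg Subtype.val h1⟩

/-- Homomorphisms with torsion kernel. -/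
theorem Arb.of_hom {P Q : Type u} [Group P] [Group Q] (hQ : Arb Q) (j : P →* Q)
    (hj : ∀ x, j x = 1 → ∃ n, 0 < n ∧ x ^ n = 1) : Arb P := by
  intro G _ _ f
  obtain ⟨ι, hι, T, hT⟩ := hQ G (j.comp f)
  refine ⟨ι, hι, T, fun g hg => ?_⟩
  obtain ⟨n, hn, h1⟩ := hT g hg
  obtain ⟨m, hm, h2⟩ := hj (f g ^ n) (by rw [map_pow]; exact h1)
  exact ⟨n * m, Nat.mul_pos hn hm, by rw [pow_mul, h2]⟩

theorem Arb.of_injective {P Q : Type u} [Group P] [Group Q] (hQ : Arb Q) (j : P →* Q)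
    (hj : Function.Injective j) : Arb P :=
  hQ.of_hom j fun x hx => ⟨1, one_pos, by
    rw [pow_one]
    exact hj (hx.trans (map_one j).symm)⟩

theorem Arb.prod {P Q : Type u} [Group P] [Group Q] (hP : Arb P) (hQ : Arb Q) : Arb (P × Q) := by
  intro G _ _ f
  obtain ⟨ι1, _, T1, h1⟩ := hP G ((MonoidHom.fst P Q).comp f)
  obtain ⟨ι2, _, T2, h2⟩ := hQ G ((MonoidHom.snd P Q).comp f)
  refine ⟨ι1 ⊕ ι2, inferInstance, Sum.elim T1 T2, fun g hg => ?_⟩
  obtain ⟨n, hn, h3⟩ := h1 g fun i => hg (Sum.inl i)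
  obtain ⟨m, hm, h4⟩ := h2 g fun i => hg (Sum.inr i)
  refine ⟨n * m, Nat.mul_pos hn hm, Prod.ext ?_ ?_⟩
  · have h5 : (f g).1 ^ n = 1 := h3
    rw [Prod.pow_fst, pow_mul, h5, one_pow]
    rfl
  · have h5 : (f g).2 ^ m = 1 := h4
    rw [Prod.pow_snd, mul_comm, pow_mul, h5, one_pow]
    rfl

/-- Finite products. -/
theorem Arb.pi {ι : Type} [Finite ι] {P : ι → Type u} [∀ i, Group (P i)] (hP : ∀ i, Arb (P i)) :
    Arb (∀ i, P i) := by
  classical
  have := Fintype.ofFinite ι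
  intro G _ _ f
  choose κ hκ T hT using fun i => hP i G ((Pi.evalMonoidHom P i).comp f)
  refine ⟨Σ i, κ i, inferInstance, fun x => T x.1 x.2, fun g hg => ?_⟩
  choose n hn h1 using fun i => hT i g fun k => hg ⟨i, k⟩
  refine ⟨∏ i, n i, Finset.prod_pos fun i _ => hn i, funext fun i => ?_⟩
  have h2 : (f g) i ^ n i = 1 := h1 i
  rw [← Finset.mul_prod_erase Finset.univ n (Finset.mem_univ i), Pi.pow_apply, pow_mul, h2,
    one_pow]
  rfl

/-- `GL₂(A)`. -/
theorem arb_gl (A : Type u) [CommRing A] (N : ℕ) (hN : 0 < N) (hA : (N : A) = 0) :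
    Arb (GL (Fin 2) A) := fun G _ _ f => NT5.gl2_trees' A N hN hA G f

/-- Groups of block triangular matrices with blocks of size at most two. -/
theorem arb_tri (A : Type u) [CommRing A] (N : ℕ) (hN : 0 < N) (hA : (N : A) = 0) {n : ℕ}
    (b : Fin n → ℕ) (hb : ∀ k, (Finset.univ.filter fun i => b i = k).card ≤ 2) (P : Type u)
    [Group P] (β : P →* GL (Fin n) A) (hβ : Function.Injective β)
    (htri : ∀ g, (β g : Matrix (Fin n) (Fin n) A).BlockTriangular b) : Arb P := by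
  obtain ⟨r, φ, hφ', hφ⟩ := H80.exists_diag hN hA b hb β htri
  have hA' : (N : Fin r → A) = 0 := funext fun i => hA
  refine (arb_gl (Fin r → A) N hN hA').of_hom φ fun x hx => ?_
  obtain ⟨m, hm, h1⟩ := hφ x hx
  refine ⟨m, hm, hβ ?_⟩
  rw [map_pow, h1, map_one]

/-- `PGL₂(F)`. -/
theorem arb_pgl (F : Type u) [Field F] (p : ℕ) (hp : 0 < p) (hpF : (p : F) = 0) :
    Arb (PGL(Fin 2, F)) := by
  intro G _ hG f
  let L := AlgebraicClosure F
  let ψ1 : G →* PGL(Fin 2, L) := (ProjGenLinGroup.map (algebraMap F L)).comp f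
  obtain ⟨Δ, _, π, q, z, hπ, hdet, hq, hz, hz', hker, hfin, hfgΔ⟩ := P2.exists_lift ψ1
  have := hfgΔ hG
  obtain ⟨ι, hι, T, hT⟩ := NT5.gl2_trees' L p hp (by
    rw [← map_natCast (algebraMap F L), hpF, map_zero]) Δ q
  choose T' j hj hact hadj using fun i => P2.exists_desc π hπ hfin (T i)
  refine ⟨ι, hι, T', fun g hg => ?_⟩
  obtain ⟨d, rfl⟩ := hπ g
  obtain ⟨n, hn, h1⟩ := hT d fun i => by
    obtain ⟨x, hx⟩ := hg i
    refine ⟨j i x, ?_⟩
    rw [← hact, hx]
  refine ⟨n, hn, P2.map_injective (algebraMap F L) ?_⟩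
  rw [map_one, map_pow]
  have h2 : ψ1 (π d) ^ n = 1 := by rw [← hq, ← map_pow, h1, map_one]
  exact h2

end Pool.Agent.NegK.RK
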