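import Pool.Agent.Lib.MP_28303a_al.AP.Lin
import Pool.Agent.Lib.MP_28303a_al.RK.VpDefs2

/-! # The unipotent parts of the affine and of the triangular automorphisms of the plane -/

set_option autoImplicit false
set_option linter.unusedSectionVars false
set_option linter.unusedVariables false

namespace Pool.Agent.NegK.RK

universe u

open MvPolynomial
open Pool.Agent.NegK.TW Pool.Agent.NegK.TT Pool.Agent.NegK.NT Pool.Agent.NegK.AP

theorem BX.of_injective : ∀ {k : ℕ} {G E : Type u} [Group G] [Group E] (j : G →* E),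
    Function.Injective j → BX k E → BX k G
  | 0, G, E, _, _, j, hj, h => by
    have h1 : Subsingleton E := h
    exact ⟨fun a b => hj (Subsingleton.elim _ _)⟩
  | k + 1, G, E, _, _, j, hj, ⟨A, _, e, f, he, hA, h⟩ =>
    ⟨A, inferInstance, e, f.comp j, he, hA, BX.of_injective
      (⟨⟨fun x => ⟨j x.1, x.2⟩, Subtype.ext (map_one j)⟩, fun x y => Subtype.ext (map_mul j x.1 y.1)⟩ :
        (f.comp j).ker →* f.ker) (fun x y hxy => Subtype.ext (hj (congrArg Subtype.val hxy))) h⟩

variable {F : Type u} [Field F]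

theorem exp_mul {M : Type u} [AddCommGroup M] [Module F M] {p : ℕ} (hpF : (p : F) = 0)
    (a : Multiplicative M) : a ^ p = 1 := by
  refine Multiplicative.toAdd.injective ?_
  rw [toAdd_pow, toAdd_one, ← Nat.cast_smul_eq_nsmul F, hpF, zero_smul]

/-- The displacement of a polynomial is a homomorphism if all displacements are fixed. -/
noncomputable def dsp {G : Type u} [Group G] (i : G →* Au F) (x : MvPolynomial (Fin 2) F)
    (h : ∀ a b : G, i a (i b x - x) = i b x - x) :
    G →* Multiplicative (MvPolynomial (Fin 2) F) where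
  toFun a := Multiplicative.ofAdd (i a x - x)
  map_one' := by
    rw [map_one]
    show Multiplicative.ofAdd (x - x) = 1
    rw [sub_self]
    rfl
  map_mul' a b := by
    rw [← ofAdd_add]
    refine congrArg Multiplicative.ofAdd ?_
    have h1 := h a b
    rw [map_sub] at h1
    rw [map_mul, AlgEquiv.mul_apply]
    linear_combination h1

theorem dsp_eq {G : Type u} [Group G] (i : G →* Au F) (x : MvPolynomial (Fin 2) F)
    (h : ∀ a b : G, i a (i b x - x) = i b x - x) (a : G) (ha : dsp i x h a = 1) : i a x = x := by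
  have h1 : i a x - x = 0 := Multiplicative.ofAdd.injective ha
  exact sub_eq_zero.1 h1

/-- The translations. -/
theorem bx_lin {p : ℕ} (hp : 0 < p) (hpF : (p : F) = 0) : BX 1 (lin F).ker := by
  have h1 : ∀ (φ : (lin F).ker) k i, coeff (Finsupp.single k 1) (φ.1.1 (X i)) =
      (1 : Matrix (Fin 2) (Fin 2) F) k i := fun φ k i => by
    rw [← lin_apply, show lin F φ.1 = 1 from φ.2]
    rfl
  have k0 : ∀ φ : (lin F).ker, φ.1.1 (X 0) = X 0 + C (coeff 0 (φ.1.1 (X 0))) := by
    intro φ
    have e := exists_lin (φ.1.2 0).1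
    rwa [h1, h1, Matrix.one_apply_eq, Matrix.one_apply_ne (by decide), C_1, one_mul, C_0, zero_mul,
      add_zero] at e
  have k1 : ∀ φ : (lin F).ker, φ.1.1 (X 1) = X 1 + C (coeff 0 (φ.1.1 (X 1))) := by
    intro φ
    have e := exists_lin (φ.1.2 1).1
    rwa [h1, h1, Matrix.one_apply_eq, Matrix.one_apply_ne (by decide), C_1, one_mul, C_0, zero_mul,
      zero_add] at e
  let i : (lin F).ker →* Au F := (affS F).subtype.comp (lin F).ker.subtype
  have hi : Function.Injective i := (affS F).subtype_injective.comp (lin F).ker.subtype_injective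
  have d0 : ∀ a b : (lin F).ker, i a (i b (X 0) - X 0) = i b (X 0) - X 0 := fun a b => by
    show a.1.1 (b.1.1 (X 0) - X 0) = b.1.1 (X 0) - X 0
    rw [k0 b, add_sub_cancel_left, au_C]
  have d1 : ∀ a b : (lin F).ker, i a (i b (X 1) - X 1) = i b (X 1) - X 1 := fun a b => by
    show a.1.1 (b.1.1 (X 1) - X 1) = b.1.1 (X 1) - X 1
    rw [k1 b, add_sub_cancel_left, au_C]
  refine ⟨Multiplicative (MvPolynomial (Fin 2) F) × Multiplicative (MvPolynomial (Fin 2) F),
    inferInstance, p, (dsp i _ d0).prod (dsp i _ d1), hp, fun a => ?_, ⟨fun a b => ?_⟩⟩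
  · exact Prod.ext (exp_mul hpF a.1) (exp_mul hpF a.2)
  · have key : ∀ a : ((dsp i _ d0).prod (dsp i _ d1)).ker, a = 1 := by
      intro a
      refine Subtype.ext (hi ?_)
      have h2 : ((dsp i _ d0).prod (dsp i _ d1)) a.1 = 1 := a.2
      rw [OneMemClass.coe_one, map_one]
      exact au_ext (dsp_eq i _ d0 a.1 (congrArg Prod.fst h2))
        (dsp_eq i _ d1 a.1 (congrArg Prod.snd h2))
    rw [key a, key b]

/-- The unipotent triangular automorphisms. -/
theorem bx_dg {p : ℕ} (hp : 0 < p) (hpF : (p : F) = 0) : BX 2 (dg F).ker := by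
  have key : ∀ φ : (dg F).ker, ∃ (d : F) (P : Polynomial F), Tri φ.1.1 1 1 d P := by
    rintro ⟨⟨φ, a, c, d, P, ha, hc, h⟩, h1⟩
    have h2 : (coeff (Finsupp.single 0 1) (φ (X 0)), coeff (Finsupp.single 1 1) (φ (X 1))) =
        ((1, 1) : F × F) := congrArg Units.val h1
    rw [(tri_coeff h).1, (tri_coeff h).2] at h2
    have h3 : a = 1 := congrArg Prod.fst h2
    have h4 : c = 1 := congrArg Prod.snd h2
    subst h3
    subst h4
    exact ⟨d, P, h⟩
  let i : (dg F).ker →* Au F := (triS F).subtype.comp (dg F).ker.subtype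
  have hi : Function.Injective i := (triS F).subtype_injective.comp (dg F).ker.subtype_injective
  have d1 : ∀ a b : (dg F).ker, i a (i b (X 1) - X 1) = i b (X 1) - X 1 := fun a b => by
    obtain ⟨d, P, h⟩ := key b
    show a.1.1 (b.1.1 (X 1) - X 1) = b.1.1 (X 1) - X 1
    rw [h.2, C_1, one_mul, add_sub_cancel_left, au_C]
  let f1 := dsp i _ d1
  let i2 : f1.ker →* Au F := i.comp f1.ker.subtype
  have d0 : ∀ a b : f1.ker, i2 a (i2 b (X 0) - X 0) = i2 b (X 0) - X 0 := fun a b => by
    obtain ⟨d, P, h⟩ := key b.1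
    have h1 : i a.1 (X 1) = X 1 := dsp_eq i _ d1 a.1 a.2
    show a.1.1.1 (b.1.1.1 (X 0) - X 0) = b.1.1.1 (X 0) - X 0
    rw [h.1, C_1, one_mul, add_sub_cancel_left, au_aeval]
    exact congrArg (fun z => Polynomial.aeval z P) h1
  refine ⟨Multiplicative (MvPolynomial (Fin 2) F), inferInstance, p, f1, hp,
    fun a => exp_mul hpF a, Multiplicative (MvPolynomial (Fin 2) F), inferInstance, p,
    dsp i2 _ d0, hp, fun a => exp_mul hpF a, ⟨fun a b => ?_⟩⟩
  have key2 : ∀ a : (dsp i2 _ d0).ker, a = 1 := by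
    intro a
    refine Subtype.ext (Subtype.ext (hi ?_))
    rw [OneMemClass.coe_one, OneMemClass.coe_one, map_one]
    exact au_ext (dsp_eq i2 _ d0 a.1 a.2) (dsp_eq i _ d1 a.1.1 a.1.2)
  rw [key2 a, key2 b]

/-- The unipotent triangular automorphisms, second form. -/
theorem bx_dia {p : ℕ} (hp : 0 < p) (hpF : (p : F) = 0) :
    BX 2 ((diaG F).comp (dg F)).ker :=
  (bx_dg hp hpF).of_injective (Subgroup.inclusion fun x hx =>
    dia_inj F ((show (diaG F) (dg F x) = 1 from hx).trans (map_one _).symm))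
    (Subgroup.inclusion_injective _)

end Pool.Agent.NegK.RK
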