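import Pool.Agent.Lib.MP_28303a_al.PL.PZ
import Pool.Agent.Lib.MP_28303a_al.PL.Ptf

/-! # Virtually poly-`ℤ` groups: extensions -/

set_option autoImplicit false
set_option linter.unusedSectionVars false
set_option linter.unusedVariables false

namespace Pool.Agent.NegK.RK

universe u v w

open Pool.Agent.NegK.TW Pool.Agent.NegK.TT Pool.Agent.NegK.PL
open scoped Pointwise

/-- Groups with a poly-`ℤ` subgroup of finite index (of length at most `n`). -/
def VZ (n : ℕ) (G : Type u) [Group G] : Prop := ∃ H : Subgroup G, H.FiniteIndex ∧ PZ n H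

namespace Vp

theorem fi_comap {G : Type v} {G' : Type w} [Group G] [Group G'] (f : G →* G') (L : Subgroup G')
    (hL : L.FiniteIndex) : (L.comap f).FiniteIndex := by
  refine ⟨?_⟩
  rw [Subgroup.index_comap]
  intro h
  have h1 : (L.subgroupOf f.range).FiniteIndex := inferInstance
  exact h1.index_ne_zero h

theorem fi_map {G : Type v} [Group G] (H : Subgroup G) (hH : H.FiniteIndex) (K : Subgroup H)
    (hK : K.FiniteIndex) : (K.map H.subtype).FiniteIndex := by
  refine ⟨?_⟩
  rw [Subgroup.index_map_subtype]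
  exact mul_ne_zero hK.index_ne_zero hH.index_ne_zero

end Vp

open Vp

theorem VZ.of_injective {n : ℕ} {G H : Type u} [Group G] [Group H] (f : H →* G)
    (hf : Function.Injective f) (h : VZ n G) : VZ n H := by
  obtain ⟨K, hK, hn⟩ := h
  refine ⟨K.comap f, fi_comap f K hK, ?_⟩
  refine PZ.of_injective n (f := (⟨⟨fun x => ⟨f x.1, x.2⟩, Subtype.ext (map_one f)⟩,
    fun x y => Subtype.ext (map_mul f x.1 y.1)⟩ : K.comap f →* K)) (fun x y hxy => ?_) hn
  exact Subtype.ext (hf (congrArg Subtype.val hxy))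

theorem VZ.of_index {n : ℕ} {G : Type u} [Group G] (H : Subgroup G) (hH : H.FiniteIndex)
    (h : VZ n H) : VZ n G := by
  obtain ⟨K, hK, hn⟩ := h
  refine ⟨K.map H.subtype, fi_map H hH K hK, ?_⟩
  have e : K ≃* (K.map H.subtype : Subgroup G) := K.equivMapOfInjective _ H.subtype_injective
  exact PZ.of_injective n e.symm.toMonoidHom e.symm.injective hn

theorem PZ.succ : ∀ (n : ℕ) (G : Type u) [Group G], PZ n G → PZ (n + 1) G := by
  intro n G _ h
  exact ⟨1, PZ.of_injective n ((1 : G →* Multiplicative ℤ).ker.subtype)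
    (Subgroup.subtype_injective _) h⟩

theorem PZ.mono {n m : ℕ} (hnm : n ≤ m) {G : Type u} [Group G] (h : PZ n G) : PZ m G := by
  induction hnm with
  | refl => exact h
  | step _ ih => exact PZ.succ _ G ih

/-- A group with a finitely generated kernel and a finitely generated image. -/
theorem fg_of_ker {G : Type v} {A : Type w} [Group G] [Group A] (φ : G →* A)
    (hk : Group.FG φ.ker) (hr : Group.FG φ.range) : Group.FG G := by
  classical
  obtain ⟨S, hS⟩ := hk.out
  obtain ⟨T, hT⟩ := hr.out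
  choose g hg using fun t : φ.range => t.2
  have hsur : ∀ t : φ.range, φ.rangeRestrict (g t) = t := fun t => Subtype.ext (hg t)
  refine ⟨⟨S.image (fun x : φ.ker => (x : G)) ∪ T.image g, ?_⟩⟩
  rw [eq_top_iff]
  intro x _
  let C : Subgroup G := Subgroup.closure
    ((S.image (fun x : φ.ker => (x : G)) ∪ T.image g : Finset G) : Set G)
  have h1 : ∀ y : φ.ker, (y : G) ∈ C := by
    intro y
    have h2 : (⊤ : Subgroup φ.ker) ≤ C.comap φ.ker.subtype := by
      rw [← hS, Subgroup.closure_le]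
      intro s hs
      refine Subgroup.subset_closure ?_
      rw [Finset.coe_union, Finset.coe_image]
      exact Or.inl ⟨s, hs, rfl⟩
    exact h2 (Subgroup.mem_top y)
  have h3 : ∀ t : φ.range, ∃ c ∈ C, φ.rangeRestrict c = t := by
    intro t
    have h2 : (⊤ : Subgroup φ.range) ≤ C.map φ.rangeRestrict := by
      rw [← hT, Subgroup.closure_le]
      intro s hs
      refine ⟨g s, Subgroup.subset_closure ?_, hsur s⟩
      rw [Finset.coe_union, Finset.coe_image, Finset.coe_image]
      exact Or.inr ⟨s, hs, rfl⟩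
    obtain ⟨c, hc, h4⟩ := h2 (Subgroup.mem_top t)
    exact ⟨c, hc, h4⟩
  obtain ⟨c, hc, h4⟩ := h3 (φ.rangeRestrict x)
  have h5 : φ (c⁻¹ * x) = 1 := by
    have h6 : φ c = φ x := congrArg Subtype.val h4
    rw [map_mul, map_inv, h6, inv_mul_cancel]
  have h7 := C.mul_mem hc (h1 ⟨c⁻¹ * x, h5⟩)
  have h8 : c * (c⁻¹ * x) = x := by group
  rw [h8] at h7
  exact h7

theorem fg_cyc {A : Type w} [Group A] [IsCyclic A] (H : Subgroup A) : Group.FG H := by
  obtain ⟨g, hg⟩ := IsCyclic.exists_generator (α := H)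
  refine ⟨⟨{g}, ?_⟩⟩
  rw [Finset.coe_singleton, ← Subgroup.zpowers_eq_closure, eq_top_iff]
  exact fun x _ => hg x

theorem fg_of_pz : ∀ (n : ℕ) (G : Type u) [Group G], PZ n G → Group.FG G
  | 0, G, _, h => by
    have : Subsingleton G := h
    exact Group.fg_of_finite
  | n + 1, G, _, ⟨φ, h⟩ => fg_of_ker φ (fg_of_pz n φ.ker h) (fg_cyc φ.range)

theorem fg_of_index {G : Type v} [Group G] (H : Subgroup G) (hH : H.FiniteIndex)
    (h : Group.FG H) : Group.FG G := by
  have h1 : (H.normalCore.subgroupOf H).FiniteIndex := inferInstance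
  have h2 : Group.FG (H.normalCore.subgroupOf H) := inferInstance
  have h3 : Group.FG H.normalCore :=
    Group.fg_of_surjective (f := (Subgroup.subgroupOfEquivOfLe H.normalCore_le).toMonoidHom)
      (Subgroup.subgroupOfEquivOfLe H.normalCore_le).surjective
  refine fg_of_ker (QuotientGroup.mk' H.normalCore) ?_ ?_
  · rw [QuotientGroup.ker_mk']
    exact h3
  · exact Group.fg_of_finite

theorem VZ.fg {n : ℕ} {G : Type u} [Group G] (h : VZ n G) : Group.FG G := by
  obtain ⟨H, hH, hn⟩ := h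
  exact fg_of_index H hH (fg_of_pz n H hn)

theorem finite_hom {G : Type v} {F : Type w} [Group G] [Group F] (hG : Group.FG G) [Finite F] :
    Finite (G →* F) := by
  obtain ⟨S, hS⟩ := hG.out
  refine Finite.of_injective (fun (f : G →* F) (s : S) => f s.1) fun f g hfg => ?_
  refine MonoidHom.eq_of_eqOn_dense hS fun x hx => ?_
  exact congrFun hfg ⟨x, hx⟩

/-- Characteristic subgroups of finite index. -/
theorem exists_char {G : Type v} [Group G] (hG : Group.FG G) (H : Subgroup G)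
    (hH : H.FiniteIndex) : ∃ C : Subgroup G, C.FiniteIndex ∧ C ≤ H ∧
      ∀ a : G ≃* G, ∀ x ∈ C, a x ∈ C := by
  have h1 : Finite (G ⧸ H) := inferInstance
  have h2 : Finite (Equiv.Perm (G ⧸ H)) := inferInstance
  have h3 : Finite (G →* Equiv.Perm (G ⧸ H)) := finite_hom hG
  have h4 : ∀ φ : G →* Equiv.Perm (G ⧸ H), φ.ker.FiniteIndex := fun φ =>
    Subgroup.finiteIndex_ker φ
  refine ⟨⨅ φ : G →* Equiv.Perm (G ⧸ H), φ.ker, Subgroup.finiteIndex_iInf h4, ?_, ?_⟩
  · refine (iInf_le _ (MulAction.toPermHom G (G ⧸ H))).trans ?_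
    rw [← Subgroup.normalCore_eq_ker]
    exact H.normalCore_le
  · intro a x hx
    rw [Subgroup.mem_iInf] at hx ⊢
    intro φ
    exact hx (φ.comp a.toMonoidHom)

/-- Extensions by subgroups of the integers. -/
theorem VZ.cyc {n : ℕ} {G : Type u} [Group G] (φ : G →* Multiplicative ℤ) (h : VZ n φ.ker) :
    VZ (n + 1) G := by
  by_cases h0 : ∀ g, φ g = 1
  · obtain ⟨H, hH, hn⟩ := VZ.of_injective (⟨⟨fun g => ⟨g, h0 g⟩, rfl⟩, fun _ _ => rfl⟩ : G →* φ.ker)
      (fun x y hxy => congrArg Subtype.val hxy) h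
    exact ⟨H, hH, PZ.succ n H hn⟩
  obtain ⟨⟨_, t, rfl⟩, ht⟩ := IsCyclic.exists_generator (α := φ.range)
  have ht1 : φ t ≠ 1 := by
    intro h1
    refine h0 fun g => ?_
    obtain ⟨k, hk⟩ := ht ⟨φ g, g, rfl⟩
    have h2 : φ t ^ k = φ g := congrArg Subtype.val hk
    rw [← h2, h1, one_zpow]
  have hfg := h.fg
  obtain ⟨H, hH, hn⟩ := h
  obtain ⟨C, hC, hCH, hCc⟩ := exists_char hfg H hH
  -- the normal subgroup
  let C' : Subgroup G := C.map φ.ker.subtype
  have hC'n : C'.Normal := by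
    refine ⟨?_⟩
    rintro _ ⟨x, hx, rfl⟩ g
    let a : φ.ker ≃* φ.ker :=
      { toFun := fun y => ⟨g * y.1 * g⁻¹, by
          rw [MonoidHom.mem_ker, map_mul, map_mul, (show φ y.1 = 1 from y.2), mul_one, map_inv,
            mul_inv_cancel]⟩
        invFun := fun y => ⟨g⁻¹ * y.1 * g, by
          rw [MonoidHom.mem_ker, map_mul, map_mul, (show φ y.1 = 1 from y.2), mul_one, map_inv,
            inv_mul_cancel]⟩
        left_inv := fun y => Subtype.ext (by
          show g⁻¹ * (g * y.1 * g⁻¹) * g = y.1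
          group)
        right_inv := fun y => Subtype.ext (by
          show g * (g⁻¹ * y.1 * g) * g⁻¹ = y.1
          group)
        map_mul' := fun y z => Subtype.ext (by
          show g * (y.1 * z.1) * g⁻¹ = g * y.1 * g⁻¹ * (g * z.1 * g⁻¹)
          group) }
    exact ⟨a x, hCc a x hx, rfl⟩
  let G' : Subgroup G := C' ⊔ Subgroup.zpowers t
  have hmem : ∀ x ∈ G', φ x = 1 → x ∈ C' := by
    intro x hx h1
    have h2 : x ∈ (C' : Set G) * (Subgroup.zpowers t : Set G) := by
      rw [← Subgroup.normal_mul]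
      exact hx
    obtain ⟨c, hc, _, ⟨k, rfl⟩, rfl⟩ := h2
    have h3 : φ c = 1 := by
      obtain ⟨y, _, rfl⟩ := hc
      exact y.2
    have h4 : φ t ^ k = 1 := by
      have h5 : φ (c * t ^ k) = 1 := h1
      rw [map_mul, h3, one_mul, map_zpow] at h5
      exact h5
    have h5 : k * (φ t).toAdd = 0 := by
      have h6 := congrArg Multiplicative.toAdd h4
      rw [toAdd_zpow, toAdd_one, smul_eq_mul] at h6
      exact h6
    have h6 : k = 0 := (mul_eq_zero.1 h5).resolve_right fun h7 => ht1 (Multiplicative.toAdd.injective h7)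
    show c * t ^ k ∈ C'
    rw [h6, zpow_zero, mul_one]
    exact hc
  refine ⟨G', ?_, φ.comp G'.subtype, ?_⟩
  · have h1 : Finite (φ.ker ⧸ C) := inferInstance
    let f : φ.ker ⧸ C → G ⧸ G' := Quotient.lift (fun x : φ.ker => (x.1 : G ⧸ G')) (by
      intro x y hxy
      have h2 : x⁻¹ * y ∈ C := QuotientGroup.leftRel_apply.1 hxy
      refine QuotientGroup.eq.2 ?_
      exact (le_sup_left : C' ≤ G') ⟨_, h2, rfl⟩)
    have hf : Function.Surjective f := by
      intro y
      obtain ⟨g, rfl⟩ := QuotientGroup.mk_surjective y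
      obtain ⟨k, hk⟩ := ht ⟨φ g, g, rfl⟩
      have h2 : φ t ^ k = φ g := congrArg Subtype.val hk
      refine ⟨((⟨g * (t ^ k)⁻¹, ?_⟩ : φ.ker) : φ.ker ⧸ C), ?_⟩
      · rw [MonoidHom.mem_ker, map_mul, map_inv, map_zpow, h2, mul_inv_cancel]
      · show ((g * (t ^ k)⁻¹ : G) : G ⧸ G') = (g : G ⧸ G')
        refine QuotientGroup.eq.2 ?_
        have h3 : (g * (t ^ k)⁻¹)⁻¹ * g = t ^ k := by group
        rw [h3]
        exact (le_sup_right : Subgroup.zpowers t ≤ G') ⟨k, rfl⟩
    have h3 : Finite (G ⧸ G') := Finite.of_surjective f hf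
    exact Subgroup.finiteIndex_of_finite_quotient
  · have h1 : PZ n C := PZ.of_injective n (Subgroup.inclusion hCH)
      (Subgroup.inclusion_injective _) hn
    refine PZ.of_injective n (f := (⟨⟨fun x => ⟨⟨x.1.1, x.2⟩, ?_⟩, rfl⟩, fun _ _ => rfl⟩ :
      (φ.comp G'.subtype).ker →* C)) (fun x y hxy => ?_) h1
    · obtain ⟨y, hy, h2⟩ := hmem x.1.1 x.1.2 x.2
      have h3 : (⟨x.1.1, x.2⟩ : φ.ker) = y := Subtype.ext h2.symm
      rw [h3]
      exact hy
    · exact Subtype.ext (Subtype.ext (congrArg (fun z : C => (z.1 : G)) hxy))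

theorem VZ.ext_pz : ∀ (n m : ℕ) {G Q : Type u} [Group G] [Group Q] (q : G →* Q), PZ n Q →
    VZ m q.ker → VZ (m + n) G
  | 0, m, G, Q, _, _, q, h, hk => by
    have : Subsingleton Q := h
    exact VZ.of_injective (⟨⟨fun g => ⟨g, Subsingleton.elim _ _⟩, rfl⟩, fun _ _ => rfl⟩ :
      G →* q.ker) (fun x y hxy => congrArg Subtype.val hxy) hk
  | n + 1, m, G, Q, _, _, q, ⟨φ, h⟩, hk => by
    let q' : (φ.comp q).ker →* φ.ker :=
      { toFun := fun x => ⟨q x.1, x.2⟩
        map_one' := Subtype.ext (map_one q)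
        map_mul' := fun x y => Subtype.ext (map_mul q x.1 y.1) }
    refine VZ.cyc (φ.comp q) (VZ.ext_pz n m q' h ?_)
    refine VZ.of_injective (⟨⟨fun x => ⟨x.1.1, congrArg Subtype.val x.2⟩, rfl⟩,
      fun _ _ => rfl⟩ : q'.ker →* q.ker) (fun x y hxy => ?_) hk
    exact Subtype.ext (Subtype.ext (congrArg (fun z : q.ker => (z : G)) hxy))

/-- VPX. Extensions of virtually poly-`ℤ` groups. -/
theorem VZ.ext {n m : ℕ} {G Q : Type u} [Group G] [Group Q] (q : G →* Q) (h : VZ n Q)
    (hk : VZ m q.ker) : VZ (m + n) G := by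
  obtain ⟨H, hH, hn⟩ := h
  refine VZ.of_index (H.comap q) (fi_comap q H hH) ?_
  let q' : H.comap q →* H :=
    { toFun := fun x => ⟨q x.1, x.2⟩
      map_one' := Subtype.ext (map_one q)
      map_mul' := fun x y => Subtype.ext (map_mul q x.1 y.1) }
  refine VZ.ext_pz n m q' hn ?_
  refine VZ.of_injective (⟨⟨fun x => ⟨x.1.1, congrArg Subtype.val x.2⟩, rfl⟩,
    fun _ _ => rfl⟩ : q'.ker →* q.ker) (fun x y hxy => ?_) hk
  exact Subtype.ext (Subtype.ext (congrArg (fun z : q.ker => (z : G)) hxy))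

/-- Torsionfree virtually poly-`ℤ` groups are in `𝒩`. -/
theorem VZ.inN {n : ℕ} {G : Type u} [Group G] (htf : TorsionFree G) (h : VZ n G) : InN G := by
  obtain ⟨H, hH, hn⟩ := h
  exact tfe G htf H n hH hn

end Pool.Agent.NegK.RK
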