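import Pool.Agent.Lib.MP_28303a_al.PL.PGS
import Pool.Agent.Lib.MP_28303a_al.PL.RGA
import Pool.Agent.Lib.MP_28303a_al.PL.TRN
import Pool.Agent.Lib.MP_28303a_al.NT.H80.Pgl

/-!
# Lifts with integral traces over rigid fields

A finitely generated group with a homomorphism to `PGL₂(K)` with integral `tr² / det` has a normal
subgroup of finite index with a lift to `SL₂(K)` with integral traces, and the lift is triangular
or conjugate over `K` to a homomorphism to `GL₂(ℤ)`.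
-/

set_option autoImplicit false
set_option linter.unusedSectionVars false
set_option linter.unusedVariables false

namespace Pool.Agent.NegK.RK

universe u v w

open Matrix
open scoped MatrixGroups
open Pool.Agent.NegK.TW
open Pool.Agent.NegK.TT
open Pool.Agent.NegK.NT

namespace Lft

open H22 (Bd)
open H22.G (dt adj mulE ext2 tr_eq dt_eq dd dd_comm dt_inv bounded nondeg tr_one sq_eq
  eigen tr_comm_uni tr_adj dt_comm Lat actL actL_apply actL_one actL_mul smul_mem_lat finrank_lat)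
open H70 (Rig exists_d D D00 D11 tr_D nilp tr_d SR)

/-! ### Conjugation into integral matrices -/

section lattice

variable {H : Type u} [Group H] (ρ : H →* Matrix (Fin 2) (Fin 2) ℚ)
  (N : ℤ) (hN : N ≠ 0) (hb : ∀ h i j, ∃ m : ℤ, N * ρ h i j = m)

include hN hb in
/-- A group of rational matrices with bounded denominators is conjugate to a group of integral
matrices. -/
theorem conj_int :
    ∃ (ψ : H →* Matrix (Fin 2) (Fin 2) ℤ) (P : Matrix (Fin 2) (Fin 2) ℚ), P.det ≠ 0 ∧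
      ∀ h, ρ h * P = P * (ψ h).map (Int.castRingHom ℚ) := by
  have hfr := finrank_lat ρ N hN hb
  let b : Module.Basis (Fin 2) ℤ (Lat ρ) := Module.finBasisOfFinrankEq ℤ (Lat ρ) hfr
  let P : Matrix (Fin 2) (Fin 2) ℚ := Matrix.of fun i j => ((b j : Fin 2 → ℤ) i : ℚ)
  let M : H → Matrix (Fin 2) (Fin 2) ℤ := fun h => LinearMap.toMatrix b b (actL ρ h)
  have hM1 : M 1 = 1 := by
    show LinearMap.toMatrix b b (actL ρ 1) = 1
    rw [actL_one, LinearMap.toMatrix_id]
  have hMm : ∀ g h, M (g * h) = M g * M h := by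
    intro g h
    show LinearMap.toMatrix b b (actL ρ (g * h)) = _
    rw [actL_mul, LinearMap.toMatrix_comp b b b]
  -- vectors of the lattice in terms of the basis
  have key : ∀ (v : Lat ρ) (i : Fin 2), ((v : Fin 2 → ℤ) i : ℚ) =
      ∑ k, P i k * (b.repr v k : ℚ) := by
    intro v i
    have h1 : (v : Fin 2 → ℤ) = ∑ k, b.repr v k • (b k : Fin 2 → ℤ) := by
      have h2 := congrArg Subtype.val (b.sum_repr v)
      rw [← h2, Submodule.coe_sum]
      rfl
    rw [h1, Finset.sum_apply]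
    push_cast
    refine Finset.sum_congr rfl fun k _ => ?_
    rw [Pi.smul_apply, smul_eq_mul]
    push_cast
    exact mul_comm _ _
  refine ⟨{ toFun := M
            map_one' := hM1
            map_mul' := hMm }, P, ?_, fun h => ?_⟩
  · let e : Fin 2 → Lat ρ := fun k => ⟨N • Pi.single k 1, smul_mem_lat ρ N hb _⟩
    let C : Matrix (Fin 2) (Fin 2) ℚ := Matrix.of fun j k => (b.repr (e k) j : ℚ)
    have h1 : P * C = (N : ℚ) • (1 : Matrix (Fin 2) (Fin 2) ℚ) := by
      ext i k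
      rw [Matrix.mul_apply]
      show ∑ j, P i j * (b.repr (e k) j : ℚ) = _
      rw [← key (e k) i]
      show ((N • (Pi.single k 1 : Fin 2 → ℤ)) i : ℚ) = _
      rw [Pi.smul_apply, smul_eq_mul, Matrix.smul_apply, smul_eq_mul, Matrix.one_apply,
        Pi.single_apply]
      split_ifs <;> simp
    intro h0
    have h2 := congrArg Matrix.det h1
    rw [Matrix.det_mul, h0, zero_mul, Matrix.det_smul, Matrix.det_one, mul_one] at h2
    have hN' : (N : ℚ) ≠ 0 := by exact_mod_cast hN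
    exact pow_ne_zero _ hN' h2.symm
  · ext i j
    rw [Matrix.mul_apply, Matrix.mul_apply, Fin.sum_univ_two]
    show ρ h i 0 * ((b j : Fin 2 → ℤ) 0 : ℚ) + ρ h i 1 * ((b j : Fin 2 → ℤ) 1 : ℚ) =
      ∑ k, P i k * ((M h k j : ℤ) : ℚ)
    rw [← actL_apply ρ h (b j) i, key (actL ρ h (b j)) i]
    refine Finset.sum_congr rfl fun k _ => ?_
    rw [show M h k j = b.repr (actL ρ h (b j)) k from LinearMap.toMatrix_apply b b _ k j]

end lattice

/-- A group of matrices over `K` with integral traces and determinants `± 1` with a commutator with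
trace different from `2` is conjugate over `K` to a subgroup of `GL₂(ℤ)`. -/
theorem conj_gl {H : Type u} [Group H]
    {K : Type v} [Field K] (hK : Rig K) (φ : H →* Matrix.GeneralLinearGroup (Fin 2) K)
    (ht : ∀ h, ∃ t : ℤ, Matrix.trace (φ h : Matrix (Fin 2) (Fin 2) K) = t)
    (hd : ∀ h, Matrix.det (φ h : Matrix (Fin 2) (Fin 2) K) = 1 ∨
      Matrix.det (φ h : Matrix (Fin 2) (Fin 2) K) = -1) (x y : H)
    (hxy' : Matrix.trace (φ (x * y * x⁻¹ * y⁻¹) : Matrix (Fin 2) (Fin 2) K) ≠ 2) :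
    ∃ (P : GL (Fin 2) K) (θ : H →* GL (Fin 2) ℤ), ∀ h,
      P⁻¹ * φ h * P = GeneralLinearGroup.map (Int.castRingHom K) (θ h) := by
  have := hK.char
  obtain ⟨Φ, hΦ⟩ : ∃ Φ : H →* Matrix (Fin 2) (Fin 2) K,
      ∀ h, Φ h = (φ h : Matrix (Fin 2) (Fin 2) K) :=
    ⟨(Units.coeHom _).comp φ, fun _ => rfl⟩
  have htK : ∀ h, ∃ t : ℤ, H22.G.tr (Φ h) = t := fun h => by
    obtain ⟨t, h1⟩ := ht h
    exact ⟨t, by rw [← h1, ← hΦ, tr_eq]⟩
  have hdK : ∀ h, dt (Φ h) = 1 ∨ dt (Φ h) = -1 := fun h => by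
    have := hd h
    rw [← hΦ, dt_eq] at this
    exact this
  have hdq : ∀ h, ∃ q : ℤ, dt (Φ h) = q := fun h => by
    rcases hdK h with h1 | h1
    · exact ⟨1, by rw [h1, Int.cast_one]⟩
    · exact ⟨-1, by rw [h1, Int.cast_neg, Int.cast_one]⟩
  have hxy : H22.G.tr (Φ (x * y * x⁻¹ * y⁻¹)) ≠ 2 := by
    rw [← tr_eq, hΦ]
    exact hxy'
  have dtK : ∀ h, dt (Φ h) ≠ 0 := fun h => left_ne_zero_of_mul_eq_one (H22.G.dt_inv Φ h)
  have hDK : dd (Φ x) (Φ y) ≠ 0 := by
    rw [H22.G.dd_comm]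
    exact mul_ne_zero (mul_ne_zero (dtK x) (dtK y)) (sub_ne_zero.2 (Ne.symm hxy))
  choose t htt using htK
  choose δ hδ using hdq
  -- the rational nilpotent element
  obtain ⟨α, β, γ, hn, hq⟩ := exists_d hK.conics (Φ x) (Φ y) hDK
    (t x ^ 2 - 4 * δ x : ℤ) (t y ^ 2 - 4 * δ y : ℤ) (t (x * y) ^ 2 - 4 * δ (x * y) : ℤ)
    (4 * t (x * y) - 2 * t x * t y : ℤ) (4 * t (x * (x * y)) - 2 * t x * t (x * y) : ℤ)
    (4 * t (y * (x * y)) - 2 * t y * t (x * y) : ℤ)
    (by rw [htt, hδ]; push_cast; ring) (by rw [htt, hδ]; push_cast; ring)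
    (by rw [← map_mul, htt, hδ]; push_cast; ring)
    (by rw [← map_mul, htt, htt, htt]; push_cast; ring)
    (by rw [← map_mul, ← map_mul, htt, htt, htt]; push_cast; ring)
    (by rw [← map_mul, ← map_mul, htt, htt, htt]; push_cast; ring)
  obtain ⟨d, hd'⟩ : ∃ d, D (Φ x) (Φ y) (α : K) β γ = d := ⟨_, rfl⟩
  have d11 : d 1 1 = - d 0 0 := by rw [← hd', D11, D00]
  rw [hd'] at hn hq
  -- the traces
  have hr : ∀ h : H, ∃ r : ℚ, H22.G.tr (d * Φ h) = r := by
    intro h
    refine ⟨α * (2 * t (x * h) - t x * t h) + β * (2 * t (y * h) - t y * t h) +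
      γ * (2 * t (x * y * h) - t (x * y) * t h), ?_⟩
    rw [← hd', tr_D, ← map_mul, ← map_mul, ← map_mul, ← map_mul, htt, htt, htt, htt, htt, htt, htt]
    push_cast
    ring
  choose r hr using hr
  obtain ⟨h, hh⟩ : ∃ h : H, H22.G.tr (d * Φ h) ≠ 0 := by
    by_contra hall
    push Not at hall
    have k1 := hall 1
    have k2 := hall x
    have k3 := hall y
    have k4 := hall (x * y)
    rw [map_one, mul_one, H22.G.tr] at k1
    rw [map_mul] at k4
    rw [H22.G.tr, mulE d, mulE d] at k2 k3 k4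
    obtain ⟨r1, r2, r3, r4⟩ := H22.G.nondeg (Φ x) (Φ y) hDK (d 0 0) (d 0 1) (d 1 0) (d 1 1)
      k1 (by linear_combination k2) (by linear_combination k3) (by linear_combination k4)
    rcases hn with h | h
    · exact h r2
    · exact h r3
  obtain ⟨u0, u1, l, hl, hu, e00, e01, e10⟩ := nilp (d 0 0) (d 0 1) (d 1 0) hq hn
  have e11 : d 1 1 = l * (u0 * u1) := by rw [d11, e00, neg_neg]
  -- the new basis
  let S : Matrix (Fin 2) (Fin 2) K := Matrix.of ![![u0, Φ h 0 0 * u0 + Φ h 0 1 * u1],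
    ![u1, Φ h 1 0 * u0 + Φ h 1 1 * u1]]
  have hS : S.det ≠ 0 := by
    intro h0
    apply hh
    rw [tr_d u0 u1 l d _ e00 e01 e10 e11]
    rw [Matrix.det_fin_two] at h0
    simp only [S, Matrix.of_apply, Matrix.cons_val', Matrix.cons_val_zero, Matrix.cons_val_one,
      Matrix.cons_val_fin_one] at h0
    linear_combination l * h0
  have hent : ∀ g, ∃ R : Matrix (Fin 2) (Fin 2) ℚ, Φ g * S = S * R.map (Rat.castHom K) := by
    intro g
    have hadj : ∀ k : H, adj (Φ k) * Φ h = (δ k : K) • Φ (k⁻¹ * h) := fun k => by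
      rw [H22.G.adj_eq, Matrix.smul_mul, map_mul, hδ]
    have hτ : (r h : K) ≠ 0 := by rw [← hr]; exact hh
    let R : Matrix (Fin 2) (Fin 2) ℚ := Matrix.of ![
      ![δ g * r (g⁻¹ * h) / r h, δ (g * h) * r ((g * h)⁻¹ * h) / r h],
      ![r g / r h, r (g * h) / r h]]
    let RK : Matrix (Fin 2) (Fin 2) K := R.map (fun q : ℚ => (q : K))
    have hSR : S * RK = Φ g * S := by
      refine SR u0 u1 l d (Φ h) (Φ g) RK e00 e01 e10 e11 hh ?_ ?_ ?_ ?_
      · rw [hadj, Matrix.mul_smul, H22.G.tr_smul, hr, hr]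
        show ((δ g * r (g⁻¹ * h) / r h : ℚ) : K) * _ = _
        push_cast
        field_simp
      · rw [hr, hr]
        show ((r g / r h : ℚ) : K) * _ = _
        push_cast
        field_simp
      · rw [← map_mul, hadj, Matrix.mul_smul, H22.G.tr_smul, hr, hr]
        show ((δ (g * h) * r ((g * h)⁻¹ * h) / r h : ℚ) : K) * _ = _
        push_cast
        field_simp
      · rw [← map_mul, hr, hr]
        show ((r (g * h) / r h : ℚ) : K) * _ = _
        push_cast
        field_simp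
    exact ⟨R, hSR.symm⟩
  choose R hR using hent
  have hcan : ∀ A B : Matrix (Fin 2) (Fin 2) ℚ,
      S * A.map (Rat.castHom K) = S * B.map (Rat.castHom K) → A = B := by
    intro A B hAB
    have hu : IsUnit S := (Matrix.isUnit_iff_isUnit_det S).2 (isUnit_iff_ne_zero.2 hS)
    have h1 := hu.mul_left_cancel hAB
    refine Matrix.ext fun i j => (Rat.castHom K).injective ?_
    exact congrFun (congrFun h1 i) j
  let ρ : H →* Matrix (Fin 2) (Fin 2) ℚ :=
    { toFun := R
      map_one' := hcan _ _ (by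
        rw [← hR, map_one, one_mul]
        have h1 : (1 : Matrix (Fin 2) (Fin 2) ℚ).map (Rat.castHom K) = 1 :=
          Matrix.map_one _ (map_zero _) (map_one _)
        rw [h1, mul_one])
      map_mul' := fun g g' => hcan _ _ (by
        rw [← hR, map_mul, mul_assoc, hR g', ← mul_assoc, hR g, mul_assoc, Matrix.map_mul]) }
  have hρ : ∀ g, Φ g * S = S * (ρ g).map (Rat.castHom K) := hR
  -- the traces and the determinants
  let SU : GL (Fin 2) K := Matrix.GeneralLinearGroup.mkOfDetNeZero S hS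
  have hSU : SU.1 = S := rfl
  have hρ' : ∀ g, (ρ g).map (Rat.castHom K) = SU⁻¹.1 * (φ g).1 * SU⁻¹⁻¹.1 := by
    intro g
    rw [inv_inv, hSU, mul_assoc, ← hΦ, hρ, ← hSU, ← mul_assoc, ← Units.val_mul, inv_mul_cancel,
      Units.val_one, one_mul]
  have htr : ∀ g, ((H22.G.tr (ρ g) : ℚ) : K) = H22.G.tr (Φ g) := by
    intro g
    have h1 : Matrix.trace ((ρ g).map (Rat.castHom K)) = Matrix.trace (φ g).1 := by
      rw [hρ']
      exact Matrix.trace_units_conj SU⁻¹ _
    rw [← hΦ, tr_eq, tr_eq] at h1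
    rw [← h1, H22.G.tr, H22.G.tr, Rat.cast_add]
    rfl
  have htQ : ∀ g, ∃ t : ℤ, H22.G.tr (ρ g) = t := fun g => by
    refine ⟨t g, ?_⟩
    have h1 := htr g
    rw [htt] at h1
    exact_mod_cast h1
  have hxyQ : H22.G.tr (ρ (x * y * x⁻¹ * y⁻¹)) ≠ 2 := by
    intro h0
    apply hxy
    rw [← htr, h0]
    norm_num
  have dtQ : ∀ g, dt (ρ g) ≠ 0 := fun g => left_ne_zero_of_mul_eq_one (H22.G.dt_inv ρ g)
  have hDQ : dd (ρ x) (ρ y) ≠ 0 := by
    rw [dd_comm]
    exact mul_ne_zero (mul_ne_zero (dtQ x) (dtQ y)) (sub_ne_zero.2 (Ne.symm hxyQ))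
  have hb : ∃ N : ℤ, N ≠ 0 ∧ ∀ h i j, ∃ m : ℤ, N * ρ h i j = m := by
    have b := fun i j => bounded ρ htQ x y hDQ i j
    obtain ⟨N, hN, n1, n2⟩ := Bd.common (b 0 0) (b 0 1)
    obtain ⟨M, hM, m1, m2⟩ := Bd.common (b 1 0) (b 1 1)
    have aux : ∀ (q : ℚ) (N M : ℤ), (∃ m : ℤ, N * q = m) → ∃ m : ℤ, (N * M : ℤ) * q = m := by
      rintro q N M ⟨m, hm⟩
      exact ⟨M * m, by push_cast; rw [← hm]; ring⟩
    refine ⟨N * M, mul_ne_zero hN hM, fun h i j => ?_⟩
    fin_cases i <;> fin_cases j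
    · exact aux _ _ _ (n1 h)
    · exact aux _ _ _ (n2 h)
    · rw [mul_comm N M]
      exact aux _ _ _ (m1 h)
    · rw [mul_comm N M]
      exact aux _ _ _ (m2 h)
  obtain ⟨N, hN, hb⟩ := hb
  obtain ⟨ψ, P0, hP0, hψ⟩ := conj_int ρ N hN hb
  let P1 : Matrix (Fin 2) (Fin 2) K := P0.map (Rat.castHom K)
  have hP1 : P1.det = ((P0.det : ℚ) : K) := by
    rw [Matrix.det_fin_two, Matrix.det_fin_two]
    push_cast
    rfl
  have hP : (S * P1).det ≠ 0 := by
    rw [Matrix.det_mul, hP1]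
    exact mul_ne_zero hS (Rat.cast_ne_zero.2 hP0)
  let P : GL (Fin 2) K := Matrix.GeneralLinearGroup.mkOfDetNeZero (S * P1) hP
  refine ⟨P, ψ.toHomUnits, fun g => Units.ext ?_⟩
  have e1 : Φ g * (S * P1) = (S * P1) * (ψ g).map (Int.castRingHom K) := by
    rw [← mul_assoc, hρ, mul_assoc, mul_assoc]
    congr 1
    have h1 : (ρ g).map (Rat.castHom K) * P1 = (ρ g * P0).map (Rat.castHom K) :=
      (Matrix.map_mul (f := Rat.castHom K)).symm
    rw [h1, hψ, Matrix.map_mul]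
    congr 1
    refine Matrix.ext fun i j => ?_
    show (((ψ g i j : ℤ) : ℚ) : K) = ((ψ g i j : ℤ) : K)
    exact Rat.cast_intCast _
  have e2 : (P⁻¹ * φ g * P).1 = P⁻¹.1 * (Φ g * (S * P1)) := by
    rw [hΦ, ← mul_assoc]
    rfl
  have e3 : P⁻¹.1 * (S * P1) = 1 := Units.inv_mul P
  rw [e2, e1, ← mul_assoc, e3, one_mul]
  rfl

/-! ### Subgroups without `-1` -/

/-- The irreducible case. -/
theorem avoidA {K : Type u} [Field K] (hK : Rig K) {Δ : Type u} [Group Δ]
    (q : Δ →* GL (Fin 2) K) (hd : ∀ g, (q g).1.det = 1)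
    (ht : ∀ g, ∃ t : ℤ, (q g).1.trace = (t : K)) (z : Δ) (hz : (q z).1 = -1) (x y : Δ)
    (hxy : (q (x * y * x⁻¹ * y⁻¹)).1.trace ≠ 2) :
    ∃ D : Subgroup Δ, D.FiniteIndex ∧ z ∉ D := by
  have := hK.char
  obtain ⟨P, θ, hθ⟩ := conj_gl hK q ht (fun h => Or.inl (hd h)) x y hxy
  let f : Δ →* GL (Fin 2) (ZMod 3) := (GeneralLinearGroup.map (Int.castRingHom (ZMod 3))).comp θ
  refine ⟨f.ker, Subgroup.finiteIndex_ker f, fun h => ?_⟩
  have h1 : (P⁻¹ * q z * P).1 = -1 := by
    rw [Units.val_mul, Units.val_mul, hz, mul_neg, mul_one, neg_mul, ← Units.val_mul,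
      inv_mul_cancel, Units.val_one]
  rw [hθ] at h1
  have h2 : ((((θ z).1 0 0 : ℤ)) : K) = -1 := by
    have h3 := congrFun (congrFun h1 0) 0
    rw [Matrix.neg_apply, Matrix.one_apply_eq] at h3
    exact h3
  have h3 : (θ z).1 0 0 = -1 := by exact_mod_cast h2
  have h4 : ((((θ z).1 0 0 : ℤ)) : ZMod 3) = 1 := by
    have h5 : f z = 1 := h
    exact congrArg (fun x : GL (Fin 2) (ZMod 3) => x.1 0 0) h5
  rw [h3] at h4
  revert h4
  decide

/-- The triangular case. -/
theorem avoidB {K : Type u} [Field K] (hK : Rig K) {Δ : Type u} [Group Δ] [hfg : Group.FG Δ]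
    (q : Δ →* GL (Fin 2) K) (hd : ∀ g, (q g).1.det = 1)
    (ht : ∀ g, ∃ t : ℤ, (q g).1.trace = (t : K)) (z : Δ) (hz : (q z).1 = -1)
    (hc : ∀ x y : Δ, (q (x * y * x⁻¹ * y⁻¹)).1.trace = 2) :
    ∃ D : Subgroup Δ, D.FiniteIndex ∧ z ∉ D := by
  have := hK.char
  let ι : K →+* AlgebraicClosure K := algebraMap K (AlgebraicClosure K)
  have hcz : CharZero (AlgebraicClosure K) := charZero_of_injective_algebraMap ι.injective
  have hfgr : Group.FG q.range := Group.fg_range q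
  let q₀ : q.range →* GL (Fin 2) (AlgebraicClosure K) :=
    (GeneralLinearGroup.map ι).comp q.range.subtype
  have htr : ∀ s, (q₀ s).1.trace = ι s.1.1.trace := fun s => by
    rw [Matrix.trace_fin_two, Matrix.trace_fin_two, map_add]
    rfl
  have hdt : ∀ s, (q₀ s).1.det = 1 := by
    rintro ⟨_, ⟨g, rfl⟩⟩
    have h1 : (q₀ ⟨q g, g, rfl⟩).1.det = ι (q g).1.det := by
      rw [Matrix.det_fin_two, Matrix.det_fin_two, map_sub, map_mul, map_mul]
      rfl
    rw [h1, hd, map_one]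
  obtain ⟨P, hP⟩ := PL.PGS.simple_tri q₀ hdt fun x y => by
    obtain ⟨_, ⟨x, rfl⟩⟩ := x
    obtain ⟨_, ⟨y, rfl⟩⟩ := y
    rw [htr]
    have h1 := hc x y
    rw [map_mul, map_mul, map_mul, map_inv, map_inv] at h1
    have h2 := congrArg ι h1
    rw [map_ofNat] at h2
    exact h2
  let q' : q.range →* GL (Fin 2) (AlgebraicClosure K) :=
    MonoidHom.mk' (fun s => P⁻¹ * q₀ s * P) fun a b => by
      rw [map_mul]
      group
  have htq : ∀ s, (q' s).1.trace = (q₀ s).1.trace := by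
    intro s
    show Matrix.trace ((P⁻¹ * q₀ s * P : GL (Fin 2) (AlgebraicClosure K)).1) = _
    rw [Units.val_mul, Units.val_mul, Matrix.trace_mul_comm, ← Matrix.mul_assoc, ← Units.val_mul,
      mul_inv_cancel, Units.val_one, Matrix.one_mul]
  have hdq : ∀ s, (q' s).1.det = 1 := by
    intro s
    show Matrix.det ((P⁻¹ * q₀ s * P : GL (Fin 2) (AlgebraicClosure K)).1) = _
    have h1 : (P⁻¹).1.det * P.1.det = 1 := by
      rw [← Matrix.det_mul, ← Units.val_mul, inv_mul_cancel, Units.val_one, Matrix.det_one]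
    rw [Units.val_mul, Units.val_mul, Matrix.det_mul, Matrix.det_mul, hdt, mul_one, h1]
  have hIt : ∀ s, IsIntegral ℤ (q' s).1.trace := by
    rintro ⟨_, ⟨g, rfl⟩⟩
    obtain ⟨t, h1⟩ := ht g
    rw [htq, htr, h1, map_intCast]
    exact isIntegral_algebraMap (R := ℤ) (A := AlgebraicClosure K) (x := t)
  have hId : ∀ s, IsIntegral ℤ (q' s).1.det := fun s => by
    rw [hdq]
    exact isIntegral_one
  have hQ : ∀ s, (q' s).1 1 0 = 0 := hP
  have ha : ∀ s, IsIntegral ℤ ((q' s).1 0 0) := fun s => by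
    refine H80.isIntegral_root (hIt s) (hId s) ?_
    rw [Matrix.trace_fin_two, Matrix.det_fin_two, hQ]
    ring
  have hd' : ∀ s, IsIntegral ℤ ((q' s).1 1 1) := fun s => by
    refine H80.isIntegral_root (hIt s) (hId s) ?_
    rw [Matrix.trace_fin_two, Matrix.det_fin_two, hQ]
    ring
  obtain ⟨H, hN, hF, m, hm⟩ := PL.pz_tri q' (fun _ => 0) (fun _ => 0) hQ ha hd'
    (fun s t => by ring) (fun s t => by ring) (fun s h1 _ _ => by
      have e1 : P⁻¹ * q₀ s * P = 1 := h1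
      have e2 : q₀ s = 1 := by
        have e3 : P * (P⁻¹ * q₀ s * P) * P⁻¹ = q₀ s := by group
        rw [← e3, e1]
        group
      refine Subtype.ext (Units.ext (Matrix.ext fun i j => ι.injective ?_))
      have e4 := congrArg (fun x : GL (Fin 2) (AlgebraicClosure K) => x.1 i j) e2
      refine Eq.trans e4 ?_
      show (1 : Matrix (Fin 2) (Fin 2) (AlgebraicClosure K)) i j = ι ((1 : Matrix _ _ K) i j)
      rw [Matrix.one_apply, Matrix.one_apply]
      split_ifs
      · exact (map_one ι).symm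
      · exact (map_zero ι).symm)
  have htH := PL.PGS.pz_tf m H hm
  refine ⟨H.comap q.rangeRestrict, ⟨?_⟩, fun h => ?_⟩
  · rw [Subgroup.index_comap_of_surjective H q.rangeRestrict_surjective]
    exact hF.index_ne_zero
  · have h1 : (⟨q.rangeRestrict z, h⟩ : H) = 1 := by
      refine htH _ 2 two_pos (Subtype.ext (Subtype.ext (Units.ext ?_)))
      show ((q z) ^ 2).1 = 1
      rw [pow_two, Units.val_mul, hz]
      simp
    have h2 : q z = 1 := congrArg (fun x : H => x.1.1) h1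
    rw [h2, Units.val_one] at hz
    have h3 := congrFun (congrFun hz 0) 0
    rw [Matrix.neg_apply, Matrix.one_apply_eq] at h3
    have h4 : (2 : K) = 0 := by linear_combination h3
    exact two_ne_zero h4

theorem avoid {K : Type u} [Field K] (hK : Rig K) {Δ : Type u} [Group Δ] [hfg : Group.FG Δ]
    (q : Δ →* GL (Fin 2) K) (hd : ∀ g, (q g).1.det = 1)
    (ht : ∀ g, ∃ t : ℤ, (q g).1.trace = (t : K)) (z : Δ) (hz : (q z).1 = -1) :
    ∃ D : Subgroup Δ, D.FiniteIndex ∧ z ∉ D := by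
  by_cases hall : ∀ x y : Δ, (q (x * y * x⁻¹ * y⁻¹)).1.trace = 2
  · exact avoidB hK q hd ht z hz hall
  · push Not at hall
    obtain ⟨x, y, hxy⟩ := hall
    exact avoidA hK q hd ht z hz x y hxy

end Lft

open Lft

/-- LFT. A finitely generated group with a homomorphism to `PGL₂(K)`, `K` a rigid field, with
integral `tr² / det` has a normal subgroup of finite index with a lift to `SL₂(K)` with integral
traces; all commutators of the lift have the trace `2` or it is conjugate over `K` to a homomorphism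
to `GL₂(ℤ)`. -/
theorem lft {K : Type u} [Field K] (hK : H70.Rig K) (Q : Type u) [Group Q] [hfg : Group.FG Q]
    (γ : Q →* PGL(Fin 2, K))
    (ht : ∀ (s : Q) (A : GL (Fin 2) K), ProjGenLinGroup.mk A = γ s →
      ∃ z : ℤ, A.1.trace ^ 2 = (z : K) * A.1.det) :
    ∃ (S : Subgroup Q) (_ : S.Normal) (_ : S.FiniteIndex) (M : S →* GL (Fin 2) K),
      (∀ s, (M s).1.det = 1) ∧ (∀ s, ProjGenLinGroup.mk (M s) = γ s.1) ∧
      (∀ s, ∃ z : ℤ, (M s).1.trace = (z : K)) ∧
      ((∀ x y : S, (M (x * y * x⁻¹ * y⁻¹)).1.trace = 2) ∨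
        ((∃ x y : S, (M (x * y * x⁻¹ * y⁻¹)).1.trace ≠ 2) ∧
          ∃ (P : GL (Fin 2) K) (θ : S →* GL (Fin 2) ℤ), ∀ s,
            P⁻¹ * M s * P = GeneralLinearGroup.map (Int.castRingHom K) (θ s))) := by
  have := hK.char
  obtain ⟨S₀, hn, hfi, hsq⟩ := PL.PGS.exists_sq γ
  have hfg1 : Group.FG S₀ := inferInstance
  obtain ⟨Δ, _, π, q, z, hπ, hd, hmk, hz, hz', hker, hfin, hfgΔ⟩ :=
    PL.PGS.exists_lift' (γ.comp S₀.subtype) fun s => hsq s.1 s.2
  have hfg2 : Group.FG Δ := hfgΔ hfg1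
  have htr : ∀ g, ∃ t : ℤ, (q g).1.trace = (t : K) := by
    intro g
    obtain ⟨t, h1⟩ := ht (π g).1 (q g) (hmk g)
    rw [hd, mul_one] at h1
    have h2 : IsIntegral ℤ (q g).1.trace := by
      refine IsIntegral.of_pow two_pos ?_
      rw [h1]
      exact isIntegral_algebraMap (R := ℤ) (A := K) (x := t)
    exact hK.int _ h2
  obtain ⟨D, hD, hzD⟩ := avoid hK q hd htr z hz'
  -- the image of the subgroup
  let D₁ : Subgroup S₀ := D.map π
  let D₂ : Subgroup Q := D₁.map S₀.subtype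
  have hD₁ : D₁.FiniteIndex :=
    ⟨fun h0 => hD.index_ne_zero (Nat.eq_zero_of_zero_dvd (h0 ▸ Subgroup.index_map_dvd D hπ))⟩
  have hD₂ : D₂.FiniteIndex := by
    refine ⟨?_⟩
    have h1 : D₂.index = D₁.index * S₀.index := by
      rw [Subgroup.index_map_subtype]
    rw [h1]
    exact mul_ne_zero hD₁.index_ne_zero Subgroup.FiniteIndex.index_ne_zero
  let e : D →* D₂ := (S₀.subtype.comp (π.comp D.subtype)).codRestrict D₂ fun g =>
    ⟨π g.1, ⟨g.1, g.2, rfl⟩, rfl⟩
  have he : Function.Bijective e := by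
    constructor
    · refine (injective_iff_map_eq_one e).2 fun g hg => ?_
      have h2 : π g.1 = 1 := Subtype.ext (congrArg (fun x : D₂ => x.1) hg)
      rcases hker g.1 h2 with h3 | h3
      · exact Subtype.ext h3
      · exact absurd (h3 ▸ g.2) hzD
    · rintro ⟨_, _, ⟨g, hg, rfl⟩, rfl⟩
      exact ⟨⟨g, hg⟩, rfl⟩
  let e' := MulEquiv.ofBijective e he
  let N : Subgroup Q := D₂.normalCore
  let M : N →* GL (Fin 2) K := (q.comp D.subtype).comp
    (e'.symm.toMonoidHom.comp (Subgroup.inclusion D₂.normalCore_le))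
  have hM : ∀ s : N, ∃ g : Δ, M s = q g ∧ (π g).1 = s.1 := by
    intro s
    obtain ⟨g, hg⟩ : ∃ g : D, e'.symm (Subgroup.inclusion D₂.normalCore_le s) = g := ⟨_, rfl⟩
    refine ⟨g.1, congrArg (fun x : D => q x.1) hg, ?_⟩
    have h1 : e' g = Subgroup.inclusion D₂.normalCore_le s := by
      rw [← hg, MulEquiv.apply_symm_apply]
    exact congrArg (fun x : D₂ => x.1) h1
  have hMd : ∀ s, (M s).1.det = 1 := fun s => by
    obtain ⟨g, h1, -⟩ := hM s
    rw [h1, hd]
  have hMt : ∀ s, ∃ z : ℤ, (M s).1.trace = (z : K) := fun s => by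
    obtain ⟨g, h1, -⟩ := hM s
    rw [h1]
    exact htr g
  have hMm : ∀ s, ProjGenLinGroup.mk (M s) = γ s.1 := fun s => by
    obtain ⟨g, h1, h2⟩ := hM s
    rw [h1, hmk, ← h2]
    rfl
  refine ⟨N, inferInstance, inferInstance, M, hMd, hMm, hMt, ?_⟩
  by_cases hall : ∀ x y : N, (M (x * y * x⁻¹ * y⁻¹)).1.trace = 2
  · exact Or.inl hall
  · push Not at hall
    obtain ⟨x, y, hxy⟩ := hall
    exact Or.inr ⟨⟨x, y, hxy⟩, conj_gl hK M hMt (fun h => Or.inl (hMd h)) x y hxy⟩

/-- If the commutators of a lift have the trace `2` then so have the elements of the commutator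
subgroups for all lifts over extensions of the field. -/
theorem lft_red {K : Type v} [Field K] (hK : H70.Rig K) {S : Type u} [Group S]
    (M : S →* GL (Fin 2) K) (ht : ∀ s, ∃ z : ℤ, (M s).1.trace = (z : K))
    (hc : ∀ x y : S, (M (x * y * x⁻¹ * y⁻¹)).1.trace = 2) {L : Type w} [Field L] (e : K →+* L)
    (Gt : Type u) [Group Gt] (q : Gt →* S) (B : Gt →* GL (Fin 2) L)
    (hB : ∀ x, ProjGenLinGroup.mk (B x) =
      ProjGenLinGroup.mk (GeneralLinearGroup.map e (M (q x)))) :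
    ∀ c ∈ commutator Gt, (B c).1.trace = 2 := by
  let B' : Gt →* GL (Fin 2) L := (GeneralLinearGroup.map e).comp (M.comp q)
  have hcen : ∀ x, B x * (B' x)⁻¹ ∈ Subgroup.center (GL (Fin 2) L) := fun x => by
    rw [← ProjGenLinGroup.mk_eq_one, map_mul, map_inv, hB]
    exact mul_inv_cancel _
  have hle : commutator Gt ≤ MonoidHom.eqLocus B B' := by
    rw [commutator_def, Subgroup.commutator_le]
    intro x _ y _
    show B (x * y * x⁻¹ * y⁻¹) = B' (x * y * x⁻¹ * y⁻¹)
    obtain ⟨a, ha⟩ : ∃ a, B x * (B' x)⁻¹ = a := ⟨_, rfl⟩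
    obtain ⟨b, hb⟩ : ∃ b, B y * (B' y)⁻¹ = b := ⟨_, rfl⟩
    have hca : ∀ g, a * g = g * a := fun g =>
      ((Subgroup.mem_center_iff.1 (ha ▸ hcen x)) g).symm
    have hcb : ∀ g, b * g = g * b := fun g =>
      ((Subgroup.mem_center_iff.1 (hb ▸ hcen y)) g).symm
    have e1 : B x = a * B' x := by rw [← ha, inv_mul_cancel_right]
    have e2 : B y = b * B' y := by rw [← hb, inv_mul_cancel_right]
    rw [map_mul, map_mul, map_mul, map_inv, map_inv, map_mul, map_mul, map_mul, map_inv, map_inv,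
      e1, e2, _root_.mul_inv_rev, _root_.mul_inv_rev]
    have hca' : ∀ g, a⁻¹ * g = g * a⁻¹ := fun g => by
      have := hca (a⁻¹ * g * a⁻¹)
      rw [← mul_assoc, mul_inv_cancel_left, inv_mul_cancel_right] at this
      exact this.symm
    have hcb' : ∀ g, b⁻¹ * g = g * b⁻¹ := fun g => by
      have := hcb (b⁻¹ * g * b⁻¹)
      rw [← mul_assoc, mul_inv_cancel_left, inv_mul_cancel_right] at this
      exact this.symm
    calc a * B' x * (b * B' y) * ((B' x)⁻¹ * a⁻¹) * ((B' y)⁻¹ * b⁻¹)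
        = a * (B' x * b * B' y * (B' x)⁻¹ * (a⁻¹ * ((B' y)⁻¹ * b⁻¹))) := by
          simp only [mul_assoc]
      _ = a * (b * B' x * B' y * (B' x)⁻¹ * ((B' y)⁻¹ * b⁻¹ * a⁻¹)) := by
          rw [hcb (B' x), hca' ((B' y)⁻¹ * b⁻¹)]
      _ = a * (b * (B' x * B' y * (B' x)⁻¹ * (B' y)⁻¹ * b⁻¹) * a⁻¹) := by
          simp only [mul_assoc]
      _ = B' x * B' y * (B' x)⁻¹ * (B' y)⁻¹ := by
          rw [← hcb' (B' x * B' y * (B' x)⁻¹ * (B' y)⁻¹), mul_inv_cancel_left,
            ← hca' (B' x * B' y * (B' x)⁻¹ * (B' y)⁻¹), mul_inv_cancel_left]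
  intro c hcc
  have h1 : B c = B' c := hle hcc
  have h2 : q c ∈ commutator S := by
    have h3 : (commutator Gt).map q ≤ commutator S := by
      rw [commutator_def, Subgroup.map_commutator, commutator_def]
      exact Subgroup.commutator_mono le_top le_top
    exact h3 ⟨c, hcc, rfl⟩
  have h3 := PL.RGA.comm_two M ht hK.units hc _ h2
  rw [h1]
  have h4 : (B' c).1.trace = e (M (q c)).1.trace := by
    rw [Matrix.trace_fin_two, Matrix.trace_fin_two, map_add]
    rfl
  rw [h4, h3, map_ofNat]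

end Pool.Agent.NegK.RK
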