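import Pool.Agent.Lib.MP_28303a_al.AP.Mix

/-! # Groups of matrices which embed into `GL₂(ℤ)`: the tree -/

set_option autoImplicit false
set_option linter.unusedSectionVars false
set_option linter.unusedVariables false

namespace Pool.Agent.NegK.RK

universe u v

open Matrix
open Pool.Agent.NegK.TW Pool.Agent.NegK.TT Pool.Agent.NegK.NT Pool.Agent.NegK.AP
open NT5 (Fm)

theorem fin_one : {g : GL (Fin 2) ℤ | g • Fm.one = Fm.one}.Finite := by
  have bd : ∀ g : GL (Fin 2) ℤ, g • Fm.one = Fm.one → ∀ i j, g.1 i j ∈ Set.Icc (-1 : ℤ) 1 := by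
    intro g hg
    have h1 := congrArg Fm.a hg
    have h2 := congrArg Fm.c hg
    change 1 * g.1 0 0 ^ 2 + 1 * (g.1 0 0 * g.1 0 1) + 1 * g.1 0 1 ^ 2 = (1 : ℤ) at h1
    change 1 * g.1 1 0 ^ 2 + 1 * (g.1 1 0 * g.1 1 1) + 1 * g.1 1 1 ^ 2 = (1 : ℤ) at h2
    have key : ∀ x y : ℤ, 1 * x ^ 2 + 1 * (x * y) + 1 * y ^ 2 = 1 →
        x ∈ Set.Icc (-1 : ℤ) 1 ∧ y ∈ Set.Icc (-1 : ℤ) 1 := by
      intro x y h
      refine ⟨⟨?_, ?_⟩, ?_, ?_⟩ <;> by_contra hc <;>
        nlinarith [sq_nonneg (2 * x + y), sq_nonneg (2 * y + x)]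
    intro i j
    fin_cases i <;> fin_cases j
    · exact (key _ _ h1).1
    · exact (key _ _ h1).2
    · exact (key _ _ h2).1
    · exact (key _ _ h2).2
  have : Finite {g : GL (Fin 2) ℤ | g • Fm.one = Fm.one} := by
    refine Finite.of_injective (β := Fin 2 → Fin 2 → Set.Icc (-1 : ℤ) 1)
      (fun g i j => ⟨g.1.1 i j, bd g.1 g.2 i j⟩) fun g g' hg => ?_
    refine Subtype.ext (Units.ext (Matrix.ext fun i j => ?_))
    exact congrArg Subtype.val (congrFun (congrFun hg i) j)
  exact Set.toFinite _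

theorem exists_G (q : Fm) : ∃ g : GL (Fin 2) ℤ, g • Fm.one = q := by
  obtain ⟨g, hg⟩ := Fm.exists_smul_one q
  exact ⟨Matrix.SpecialLinearGroup.toGL g, hg⟩

theorem fin_fix (a b : Fm) : {g : GL (Fin 2) ℤ | g • a = b}.Finite := by
  obtain ⟨k, rfl⟩ := exists_G a
  obtain ⟨l, rfl⟩ := exists_G b
  have h1 : Function.Injective fun g : GL (Fin 2) ℤ => l⁻¹ * g * k := by
    intro g g' h
    exact mul_left_cancel (mul_right_cancel h)
  refine (fin_one.preimage h1.injOn).subset fun g hg => ?_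
  show (l⁻¹ * g * k) • Fm.one = Fm.one
  rw [mul_smul, mul_smul]
  have h2 : g • k • Fm.one = l • Fm.one := hg
  rw [h2, inv_smul_smul]

/-- Let the image of `ψ` embed into `GL₂(ℤ)`. If all subgroups in which the kernel of `ψ` has finite
index are in `𝒩` then the group is regular coherent. -/
theorem tree_emb {K : Type v} [Field K] (H : Type u) [Group H] (ψ : H →* GL (Fin 2) K)
    (θ : ψ.range →* GL (Fin 2) ℤ) (hθ : Function.Injective θ)
    (hS : ∀ S : Subgroup H, (ψ.comp S.subtype).ker.FiniteIndex → InN S) : InRC H := by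
  let q2 : H →* GL (Fin 2) ℤ := θ.comp ψ.rangeRestrict
  have h2 : ∀ h : H, q2 h = 1 ↔ ψ h = 1 := by
    intro h
    constructor
    · intro h1
      have h3 : θ (ψ.rangeRestrict h) = θ 1 := by
        rw [map_one]
        exact h1
      exact congrArg Subtype.val (hθ h3)
    · intro h1
      have h3 : ψ.rangeRestrict h = 1 := Subtype.ext h1
      show θ (ψ.rangeRestrict h) = 1
      rw [h3, map_one]
  let i : MulAction H (ULift.{u} Fm) :=
    { smul := fun h x => ⟨q2 h • x.down⟩
      one_smul := fun x => ULift.ext _ _ (by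
        show q2 1 • x.down = x.down
        rw [map_one, one_smul])
      mul_smul := fun h h' x => ULift.ext _ _ (by
        show q2 (h * h') • x.down = q2 h • q2 h' • x.down
        rw [map_mul, mul_smul]) }
  have hadj : ∀ (g : H) (v w : ULift.{u} Fm), NT5.grf.Adj v w → NT5.grf.Adj (g • v) (g • w) := by
    intro h x y hx
    show Fm.P (q2 h • x.down) (q2 h • y.down) = 5
    rw [Fm.P_smulG]
    exact hx
  have hfin : ∀ x : ULift.{u} Fm ⊕ NT5.grf.{u}.edgeSet, ∃ s : Set (GL (Fin 2) ℤ), s.Finite ∧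
      ∀ g : H, (letI := sdAct NT5.grf.{u} hadj; g • x = x) → q2 g ∈ s := by
    intro x
    rcases x with v | ⟨e, he⟩
    · refine ⟨_, fin_fix v.down v.down, fun g hg => ?_⟩
      have h1 : g • v = v := Sum.inl_injective hg
      exact congrArg ULift.down h1
    · induction e using Sym2.ind with
      | _ a b =>
        refine ⟨_, (fin_fix a.down a.down).union (fin_fix a.down b.down), fun g hg => ?_⟩
        have h1 : Sym2.map (g • ·) s(a, b) = s(a, b) :=
          congrArg Subtype.val (Sum.inr_injective hg)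
        rw [Sym2.map_mk, Sym2.eq_iff] at h1
        rcases h1 with ⟨h1, _⟩ | ⟨h1, _⟩
        · exact Or.inl (congrArg ULift.down h1)
        · exact Or.inr (congrArg ULift.down h1)
  have key : ∀ (x : ULift.{u} Fm ⊕ NT5.grf.{u}.edgeSet) (S : Subgroup H),
      (∀ g ∈ S, letI := sdAct NT5.grf.{u} hadj; g • x = x) → InN S := by
    intro x S hx
    refine hS S ?_
    obtain ⟨s, hs, h1⟩ := hfin x
    have hk : (ψ.comp S.subtype).ker = (q2.comp S.subtype).ker := by
      ext g
      rw [MonoidHom.mem_ker, MonoidHom.mem_ker]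
      exact (h2 g.1).symm
    have hr : Finite (q2.comp S.subtype).range := by
      refine (hs.subset ?_).to_subtype
      rintro _ ⟨g, rfl⟩
      exact h1 g.1 (hx g.1 g.2)
    rw [hk]
    exact Subgroup.finiteIndex_ker _
  have htree : (sd NT5.grf.{u}).IsTree :=
    sd_isTree NT5.grf ⟨Fm.one⟩ (fun q => Fm.ht q.down) (fun _ _ h => Fm.ha_aux h)
      (fun _ _ _ h h' k k' => ULift.ext _ _ (Fm.hb_aux h h' k k')) fun q => by
        rcases Fm.hc_aux q.down with h | ⟨y, h, h'⟩
        · exact Or.inl (ULift.ext _ _ h)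
        · exact Or.inr ⟨⟨y⟩, h, h'⟩
  letI := sdAct NT5.grf.{u} hadj
  refine H66.wald H _ (sd NT5.grf.{u}) (sd_act NT5.grf.{u} hadj htree) (fun x => ?_)
    fun x y _ => ?_
  · exact inRC_of_inN (key x _ fun g hg => hg)
  · exact key x _ fun g hg => hg.1

end Pool.Agent.NegK.RK
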