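import Pool.Agent.Lib.MP_28303a_al.RK.Mtt1

/-! # The solvable case over an extension field, with integral determinants -/

set_option autoImplicit false
set_option linter.unusedSectionVars false
set_option linter.unusedVariables false

namespace Pool.Agent.NegK.RK

universe u v w

open Matrix
open scoped MatrixGroups commutatorElement
open Pool.Agent.NegK.TW
open Pool.Agent.NegK.TT
open Pool.Agent.NegK.NT
open Pool.Agent.NegK.PL (PZ trn_comm)

open Rkt in
/-- Case 1: the commutators of the lift have the trace `2`.  The representation `τ` is over an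
extension `L` of the field `K` of `γ`, and the determinants of its blocks are integral. -/
theorem mttL_one {K L : Type u} [Field K] [CharZero K] [Field L] (e : K →+* L) {r : ℕ}
    {d : Fin r → ℕ} (S Q : Type u) [Group S] [CommGroup Q] (hfg : Group.FG S) (q : S →* Q)
    (τ : S →* GL (TI d) L) (γ : S →* PGL(Fin 2, K))
    (hR : RankT d τ ((ProjGenLinGroup.map e).comp γ))
    (ht : ∀ h (B : GL (Fin 2) K), ProjGenLinGroup.mk B = γ h →
      ∃ z : ℤ, B.1.trace ^ 2 = (z : K) * B.1.det)
    (hd : ∀ k h, IsIntegral ℤ ((τ h).1.submatrix (Sigma.mk k) (Sigma.mk k)).det)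
    (hinj : ∀ h, q h = 1 → τ h = 1 → γ h = 1 → h = 1) (M : S →* GL (Fin 2) K)
    (hM : ∀ s, ProjGenLinGroup.mk (M s) = γ s)
    (hM2 : ∀ c ∈ commutator S, (M c).1.trace = 2) :
    ∃ H : Subgroup S, H.Normal ∧ H.FiniteIndex ∧ ∃ n, PZ n H := by
  have hczL : CharZero L := charZero_of_injective_ringHom e.injective
  let L' := AlgebraicClosure L
  let a : L →+* L' := algebraMap L L'
  have hcz : CharZero L' := charZero_of_injective_algebraMap a.injective
  have hz : ∀ z : ℤ, IsIntegral ℤ (z : L') := fun z => by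
    have h1 := isIntegral_algebraMap (R := ℤ) (A := L') (x := z)
    rwa [eq_intCast] at h1
  let M₁ : S →* GL (Fin 2) L := (GeneralLinearGroup.map e).comp M
  have hM₁ : ∀ s, ProjGenLinGroup.mk (M₁ s) = (ProjGenLinGroup.map e).comp γ s := fun s => by
    show ProjGenLinGroup.mk (GeneralLinearGroup.map e (M s)) = ProjGenLinGroup.map e (γ s)
    rw [← ProjGenLinGroup.map_mk, hM]
  have tr₁ : ∀ s, (M₁ s).1.trace = e (M s).1.trace := fun s => by
    rw [Matrix.trace_fin_two, Matrix.trace_fin_two, map_add]
    rfl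
  have dt₁ : ∀ s, (M₁ s).1.det = e (M s).1.det := fun s => by
    rw [Matrix.det_fin_two, Matrix.det_fin_two, map_sub, map_mul, map_mul]
    rfl
  have hM₂ : ∀ c ∈ commutator S, (M₁ c).1.trace = 2 := fun c hc => by
    rw [tr₁, hM2 c hc, map_ofNat]
  refine rkq_pz (d := d) S Q hfg q ((GeneralLinearGroup.map a).comp τ)
    ((ProjGenLinGroup.map a).comp ((ProjGenLinGroup.map e).comp γ)) (rankT_map a hR)
    (fun g h1 h2 h3 => hinj g h1 (map_gl_eq_one' a h2) (P2.map_injective e
      (Eq.trans (P2.map_injective a (Eq.trans h3 (map_one _).symm)) (map_one _).symm)))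
    (fun g B hB => ?_) (lift_trace a ((ProjGenLinGroup.map e).comp γ) M₁ hM₁ hM₂) fun g k => ?_
  · have h1 : ProjGenLinGroup.mk B = ProjGenLinGroup.mk (GeneralLinearGroup.map a (M₁ g)) := by
      rw [hB, ← ProjGenLinGroup.map_mk, hM₁]
      rfl
    obtain ⟨c, hc⟩ := Rkt.exists_smul h1
    obtain ⟨z, h2⟩ := ht g (M g) (hM g)
    have h3 : B.1.det ≠ 0 := ((Matrix.isUnit_iff_isUnit_det _).1 B.isUnit).ne_zero
    have h4 : B.1.trace ^ 2 / B.1.det = (z : L') := by
      rw [div_eq_iff h3, hc, Matrix.trace_smul, Matrix.det_smul, Fintype.card_fin, smul_eq_mul,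
        mul_pow]
      have h5 : (GeneralLinearGroup.map a (M₁ g)).1.trace = a (e (M g).1.trace) := by
        rw [← tr₁, Matrix.trace_fin_two, Matrix.trace_fin_two, map_add]
        rfl
      have h6 : (GeneralLinearGroup.map a (M₁ g)).1.det = a (e (M g).1.det) := by
        rw [← dt₁, Matrix.det_fin_two, Matrix.det_fin_two, map_sub, map_mul, map_mul]
        rfl
      rw [h5, h6, ← map_pow, ← map_pow, h2, map_mul, map_mul, map_intCast, map_intCast]
      ring
    rw [h4]
    exact hz z
  · have h1 : (blk ((GeneralLinearGroup.map a).comp τ g).1 k).det = a (blk (τ g).1 k).det := by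
      rw [RingHom.map_det]
      rfl
    rw [h1]
    exact map_isIntegral_int a (hd k g)

end Pool.Agent.NegK.RK
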