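import Pool.Agent.Lib.MP_28303a_al.AP.Mix
import Pool.Agent.Lib.MP_28303a_al.NT.H70.Rig
import Pool.Agent.Lib.MP_28303a_al.PL.PZ
import Pool.Agent.Lib.MP_28303a_al.JK.Fin

/-! # Block triangular groups of rank one over rigid fields: statements -/

set_option autoImplicit false
set_option linter.unusedSectionVars false
set_option linter.unusedVariables false

namespace Pool.Agent.NegK.RK

universe u

open Matrix
open Pool.Agent.NegK.TW Pool.Agent.NegK.TT Pool.Agent.NegK.NT

/-- Block triangular matrices with blocks of size at most two; `ψ i` is the block of `i`, completed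
by `1` if it has size one; all blocks of size two agree up to scalars. -/
structure Blk {K : Type u} [Field K] {n : ℕ} (b : Fin n → ℕ) {H : Type u} [Group H]
    (τ : H →* GL (Fin n) K) (ψ : Fin n → H →* GL (Fin 2) K) : Prop where
  tri : ∀ h, (τ h).1.BlockTriangular b
  card : ∀ k, (Finset.univ.filter fun i => b i = k).card ≤ 2
  single : ∀ i, (∀ j, b j = b i → j = i) → ∀ h, (ψ i h).1 = Matrix.diagonal ![(τ h).1 i i, 1]
  left : ∀ i j, i < j → b i = b j → ∀ h, (ψ i h).1 = (τ h).1.submatrix ![i, j] ![i, j]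
  right : ∀ i j, i < j → b i = b j → ∀ h, (ψ j h).1 = (τ h).1.submatrix ![i, j] ![i, j]
  prop : ∀ i j i' j', i < j → b i = b j → i' < j' → b i' = b j' → ∀ h, ∃ c : K,
    (ψ i h).1 = c • (ψ i' h).1

/-- The stabilizers: groups with a homomorphism `q` to a commutative group and a block triangular
homomorphism `τ` such that the blocks have integral traces and determinants `± 1`. -/
def MixTStatement : Prop :=
  ∀ (K : Type u) [Field K], H70.Rig K → ∀ (n : ℕ) (b : Fin n → ℕ) (H Q : Type u) [Group H]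
    [CommGroup Q] (q : H →* Q) (τ : H →* GL (Fin n) K) (ψ : Fin n → H →* GL (Fin 2) K),
    Blk b τ ψ → (∀ k h, ∃ z : ℤ, (ψ k h).1.trace = (z : K)) →
    (∀ k h, (ψ k h).1.det = 1 ∨ (ψ k h).1.det = -1) →
    (∀ (h : H) (m : ℕ), 0 < m → q h ^ m = 1 → τ h ^ m = 1 → q h = 1 ∧ τ h = 1) →
    AP.KN H (fun h => q h = 1 ∧ τ h = 1) → InRC H

/-- TRN with a homomorphism to a commutative group. -/
def TrnqStatement : Prop :=
  ∀ (L S Q : Type u) [Field L] [CharZero L] [Group S] [CommGroup Q] (_ : Group.FG S) (n : ℕ)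
    (b : Fin n → ℕ), Function.Injective b → ∀ (q : S →* Q) (ρ : S →* GL (Fin n) L),
    (∀ s, q s = 1 → ρ s = 1 → s = 1) →
    (∀ s, (ρ s : Matrix (Fin n) (Fin n) L).BlockTriangular b) →
    (∀ s i, IsIntegral ℤ ((ρ s : Matrix (Fin n) (Fin n) L) i i)) →
    ∃ H : Subgroup S, H.Normal ∧ H.FiniteIndex ∧ ∃ m, PL.PZ m H

/-- TFK: extensions of torsionfree virtually poly-Z groups by groups in `𝒩`. -/
def TfqStatement : Prop :=
  ∀ (S P : Type u) [Group S] [Group P] (q : S →* P), Function.Surjective q → TorsionFree P →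
    InN q.ker → ∀ (H : Subgroup P) (n : ℕ), H.FiniteIndex → PL.PZ n H → InN S

/-- The theorem on groups with homomorphisms to automorphisms of the plane and to block triangular
matrices in positive characteristic and to block triangular matrices of rank one over a rigid
field. -/
def LinTStatement : Prop :=
  ∀ (F : Type u) [Field F] (A : Type u) [CommRing A] (N : ℕ), 0 < N → (N : F) = 0 → (N : A) = 0 →
    ∀ (m : ℕ) (c : Fin m → ℕ), (∀ k, (Finset.univ.filter fun i => c i = k).card ≤ 2) →
    ∀ (K : Type u) [Field K], H70.Rig K → ∀ (n : ℕ) (b : Fin n → ℕ) (Γ : Type u) [Group Γ]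
    (α : Γ →* (MvPolynomial (Fin 2) F ≃ₐ[F] MvPolynomial (Fin 2) F)) (β : Γ →* GL (Fin m) A)
    (τ : Γ →* GL (Fin n) K) (ψ : Fin n → Γ →* GL (Fin 2) K),
    (∀ g, (β g).1.BlockTriangular c) → Blk b τ ψ →
    TorsionFree (α.prod (β.prod τ)).range → InN (α.prod (β.prod τ)).ker → H19.InL Γ

end Pool.Agent.NegK.RK
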