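import Pool.Agent.Lib.MP_28303a_al.RK.TenDefs
import Pool.Agent.Lib.MP_28303a_al.RK.RgDefs

/-! # Groups of semisimple rank one over rigid fields: statements -/

set_option autoImplicit false
set_option linter.unusedSectionVars false
set_option linter.unusedVariables false

namespace Pool.Agent.NegK.RK

universe u

open Matrix
open scoped MatrixGroups
open Pool.Agent.NegK.TW Pool.Agent.NegK.TT Pool.Agent.NegK.NT

/-- The stabilizers, in tensor form: groups with a homomorphism `q` to a commutative group and a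
pair `(τ, γ)` of rank one such that `tr² / det` is an integer for `γ` and the determinants of the
diagonal blocks of `τ` are `± 1`. -/
def MixTTStatement : Prop :=
  ∀ (K : Type u) [Field K], H70.Rig K → ∀ (r : ℕ) (d : Fin r → ℕ) (H Q : Type u) [Group H]
    [CommGroup Q] (q : H →* Q) (τ : H →* GL (TI d) K) (γ : H →* PGL(Fin 2, K)),
    RankT d τ γ →
    (∀ h (B : GL (Fin 2) K), ProjGenLinGroup.mk B = γ h →
      ∃ z : ℤ, B.1.trace ^ 2 = (z : K) * B.1.det) →
    (∀ k h, ((τ h).1.submatrix (Sigma.mk k) (Sigma.mk k)).det = 1 ∨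
      ((τ h).1.submatrix (Sigma.mk k) (Sigma.mk k)).det = -1) →
    (∀ (h : H) (m : ℕ), 0 < m → q h ^ m = 1 → τ h ^ m = 1 → γ h ^ m = 1 →
      q h = 1 ∧ τ h = 1 ∧ γ h = 1) →
    AP.KN H (fun h => q h = 1 ∧ τ h = 1 ∧ γ h = 1) → InRC H

/-- The theorem in tensor form. -/
def LinTTStatement : Prop :=
  ∀ (F : Type u) [Field F] (A : Type u) [CommRing A] (N : ℕ), 0 < N → (N : F) = 0 → (N : A) = 0 →
    ∀ (m : ℕ) (c : Fin m → ℕ), (∀ k, (Finset.univ.filter fun i => c i = k).card ≤ 2) →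
    ∀ (K : Type u) [Field K], H70.Rig K → ∀ (r : ℕ) (d : Fin r → ℕ) (Γ : Type u) [Group Γ]
    (α : Γ →* (MvPolynomial (Fin 2) F ≃ₐ[F] MvPolynomial (Fin 2) F)) (β : Γ →* GL (Fin m) A)
    (τ : Γ →* GL (TI d) K) (γ : Γ →* PGL(Fin 2, K)),
    (∀ g, (β g).1.BlockTriangular c) → RankT d τ γ →
    TorsionFree (α.prod (β.prod (τ.prod γ))).range → InN (α.prod (β.prod (τ.prod γ))).ker →
    H19.InL Γ

end Pool.Agent.NegK.RK
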