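import Pool.Agent.Lib.MP_28303a_al.RK.Ten

/-! # Tensor powers of matrices of degree two: block matrices with the index type `TI d` -/

set_option autoImplicit false
set_option linter.unusedSectionVars false
set_option linter.unusedVariables false

namespace Pool.Agent.NegK.RK.TX

universe u v w

open Matrix
open scoped MatrixGroups

/-! ### Algebra -/

section ring

variable {K : Type v} [CommRing K] {d : ℕ}

/-- The tensor power as a homomorphism of monoids. -/
def tenHom (d : ℕ) : Matrix (Fin 2) (Fin 2) K →* Matrix (Fin d → Fin 2) (Fin d → Fin 2) K where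
  toFun B := ten d B
  map_one' := ten_one d
  map_mul' A B := ten_mul d A B

theorem tenHom_apply (B : Matrix (Fin 2) (Fin 2) K) : tenHom d B = ten d B := rfl

/-- The tensor power as a homomorphism of groups. -/
def tenGL (d : ℕ) : GL (Fin 2) K →* GL (Fin d → Fin 2) K := Units.map (tenHom d)

theorem tenGL_val (B : GL (Fin 2) K) : (tenGL d B).1 = ten d B.1 := rfl

theorem tenGL_inv_val (B : GL (Fin 2) K) : (tenGL d B)⁻¹.1 = ten d B⁻¹.1 := by
  rw [← map_inv]
  rfl

theorem ten_conj (P : GL (Fin 2) K) (B : Matrix (Fin 2) (Fin 2) K) :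
    ten d (P⁻¹.1 * B * P.1) = (tenGL d P)⁻¹.1 * ten d B * (tenGL d P).1 := by
  rw [ten_mul, ten_mul, tenGL_inv_val, tenGL_val]

theorem ten_conj' (P : GL (Fin 2) K) (B : Matrix (Fin 2) (Fin 2) K) :
    ten d (P.1 * B * P⁻¹.1) = (tenGL d P).1 * ten d B * (tenGL d P)⁻¹.1 := by
  rw [ten_mul, ten_mul, tenGL_inv_val, tenGL_val]

theorem smul_ten_det (d : ℕ) (c : K) (B : Matrix (Fin 2) (Fin 2) K) :
    (c • ten d B).det = c ^ (2 ^ d) * B.det ^ (d * 2 ^ (d - 1)) := by
  rw [Matrix.det_smul, ten_det, Fintype.card_fun, Fintype.card_fin, Fintype.card_fin]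

end ring

/-! ### Integrality of the diagonal entries -/

section integral

variable {L : Type v} [Field L]

/-- The quotient of the eigenvalues is integral if `trace ^ 2 / det` is. -/
theorem quot_integral {x y : L} (hx : x ≠ 0) (hy : y ≠ 0)
    (h : IsIntegral ℤ ((x + y) ^ 2 / (x * y))) : IsIntegral ℤ (x / y) := by
  have h2 : IsIntegral ℤ (2 : L) := by
    have h3 := isIntegral_algebraMap (R := ℤ) (A := L) (x := (2 : ℤ))
    rwa [show (algebraMap ℤ L) 2 = 2 by simp] at h3
  have h1 : IsIntegral ℤ ((x + y) ^ 2 / (x * y) - 2) := h.sub h2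
  have h3 : (x / y) * (x / y) - ((x + y) ^ 2 / (x * y) - 2) * (x / y) + 1 = 0 := by
    field_simp
    ring
  exact Pool.Agent.NegK.NT.H80.isIntegral_root h1 isIntegral_one h3

/-- The diagonal entries of a scalar multiple of a tensor power are integral if the determinant
and the quotients of the eigenvalues are. -/
theorem diag_integral {d : ℕ} {c x y : L} (hx : x ≠ 0) (hy : y ≠ 0)
    (h1 : IsIntegral ℤ (x / y)) (h2 : IsIntegral ℤ (y / x))
    (h : IsIntegral ℤ (c ^ (2 ^ d) * (x * y) ^ (d * 2 ^ (d - 1)))) {a b : ℕ} (hab : a + b = d) :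
    IsIntegral ℤ (c * (x ^ a * y ^ b)) := by
  have hpos : 0 < 2 ^ d := Nat.two_pow_pos d
  refine IsIntegral.of_pow hpos ?_
  rcases Nat.eq_zero_or_pos d with hd | hd
  · subst hd
    have ha : a = 0 := by omega
    have hb : b = 0 := by omega
    rw [ha, hb, pow_zero, pow_zero, mul_one, mul_one]
    rwa [Nat.zero_mul, pow_zero (x * y), mul_one] at h
  · obtain ⟨e, rfl⟩ : ∃ e, d = e + 1 := ⟨d - 1, by omega⟩
    rw [Nat.add_sub_cancel] at h
    have key : ∀ (u v : L) (p q m : ℕ), v ≠ 0 → p = q + m → q + p = e + 1 →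
        (u / v) ^ (2 ^ e * m) * (u * v) ^ ((e + 1) * 2 ^ e) =
          (u ^ p * v ^ q) ^ (2 ^ (e + 1)) := by
      intro u v p q m hv hp hq
      have e1 : (e + 1) * 2 ^ e = 2 ^ e * m + 2 ^ (e + 1) * q := by
        rw [pow_succ 2 e, show e + 1 = 2 * q + m by omega]
        ring
      have e2 : u / v * (u * v) = u ^ 2 := by
        field_simp
      rw [e1, pow_add, ← mul_assoc, ← mul_pow, e2, ← pow_mul, mul_pow, ← mul_assoc, ← pow_add,
        mul_pow, ← pow_mul, ← pow_mul, hp]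
      have e3 : 2 * (2 ^ e * m) + 2 ^ (e + 1) * q = (q + m) * 2 ^ (e + 1) := by
        rw [pow_succ]
        ring
      rw [e3, mul_comm q]
    rcases le_total b a with hba | hba
    · obtain ⟨m, hm⟩ := Nat.exists_eq_add_of_le hba
      have h3 := key x y a b m hy hm (by omega)
      rw [mul_pow, ← h3, mul_left_comm]
      exact (h1.pow _).mul h
    · obtain ⟨m, hm⟩ := Nat.exists_eq_add_of_le hba
      have h3 := key y x b a m hx hm (by omega)
      rw [mul_pow, mul_comm (x ^ a), ← h3, mul_left_comm, mul_comm y x]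
      exact (h2.pow _).mul h

end integral

/-! ### Block matrices with the index type `TI d` -/

section blocks

variable {K : Type v} [CommRing K] {r : ℕ} {d : Fin r → ℕ}

/-- The linear order of the indices. -/
def tiOrd (x : TI d) : Fin r ×ₗ ℕ := toLex (x.1, tb x.2)

theorem tiOrd_injective : Function.Injective (tiOrd (d := d)) := by
  rintro ⟨k, i⟩ ⟨l, j⟩ h
  have h1 : (k, tb i) = (l, tb j) := congrArg ofLex h
  obtain ⟨h2, h3⟩ := Prod.mk.inj h1
  subst h2
  rw [tb_inj h3]

theorem tri_lex {M : Matrix (TI d) (TI d) K} (h : M.BlockTriangular Sigma.fst)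
    (h2 : ∀ k i j, tb j < tb i → M ⟨k, i⟩ ⟨k, j⟩ = 0) : M.BlockTriangular tiOrd := by
  rintro ⟨k, i⟩ ⟨l, j⟩ hlt
  rcases Prod.Lex.lt_iff.1 hlt with h1 | ⟨h1, h3⟩
  · exact h h1
  · have h4 : l = k := h1
    subst h4
    exact h2 _ _ _ h3

/-- The block diagonal matrix with the blocks `ten (d k) P`. -/
def tenD (d : Fin r → ℕ) : GL (Fin 2) K →* GL (TI d) K :=
  Units.map ((Matrix.blockDiagonal'RingHom (fun k => Fin (d k) → Fin 2) K).toMonoidHom.comp
    (MonoidHom.pi fun k => tenHom (d k)))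

theorem tenD_val (P : GL (Fin 2) K) :
    (tenD d P).1 = Matrix.blockDiagonal' fun k => ten (d k) P.1 := rfl

theorem tenD_inv_val (P : GL (Fin 2) K) : (tenD d P)⁻¹.1 = (tenD d P⁻¹).1 := by
  rw [← map_inv]

theorem tenD_tri (P : GL (Fin 2) K) : (tenD d P).1.BlockTriangular Sigma.fst := by
  rw [tenD_val]
  exact Matrix.blockTriangular_blockDiagonal' _

theorem tenD_mul_apply (P : GL (Fin 2) K) (M : Matrix (TI d) (TI d) K) (k : Fin r)
    (i : Fin (d k) → Fin 2) (y : TI d) :
    ((tenD d P).1 * M) ⟨k, i⟩ y = ∑ i', ten (d k) P.1 i i' * M ⟨k, i'⟩ y := by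
  rw [tenD_val, Matrix.mul_apply, Fintype.sum_sigma, Finset.sum_eq_single k]
  · refine Finset.sum_congr rfl fun i' _ => ?_
    rw [Matrix.blockDiagonal'_apply_eq]
  · intro l _ hl
    refine Finset.sum_eq_zero fun i' _ => ?_
    rw [Matrix.blockDiagonal'_apply_ne _ _ _ (Ne.symm hl), zero_mul]
  · exact fun h => absurd (Finset.mem_univ k) h

theorem mul_tenD_apply (P : GL (Fin 2) K) (M : Matrix (TI d) (TI d) K) (x : TI d) (l : Fin r)
    (j : Fin (d l) → Fin 2) :
    (M * (tenD d P).1) x ⟨l, j⟩ = ∑ j', M x ⟨l, j'⟩ * ten (d l) P.1 j' j := by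
  rw [tenD_val, Matrix.mul_apply, Fintype.sum_sigma, Finset.sum_eq_single l]
  · refine Finset.sum_congr rfl fun j' _ => ?_
    rw [Matrix.blockDiagonal'_apply_eq]
  · intro k _ hk
    refine Finset.sum_eq_zero fun j' _ => ?_
    rw [Matrix.blockDiagonal'_apply_ne _ _ _ hk, mul_zero]
  · exact fun h => absurd (Finset.mem_univ l) h

theorem tenD_conj_tri (P : GL (Fin 2) K) {M : Matrix (TI d) (TI d) K}
    (h : M.BlockTriangular Sigma.fst) :
    ((tenD d P)⁻¹.1 * M * (tenD d P).1).BlockTriangular Sigma.fst := by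
  rw [tenD_inv_val]
  exact ((tenD_tri P⁻¹).mul h).mul (tenD_tri P)

/-- The diagonal blocks of the conjugate by `tenD d P`. -/
theorem tenD_conj_blk (P : GL (Fin 2) K) {M : Matrix (TI d) (TI d) K} {k : Fin r} {c : K}
    {B : Matrix (Fin 2) (Fin 2) K} (hM : ∀ i j, M ⟨k, i⟩ ⟨k, j⟩ = c * ten (d k) B i j)
    (i j : Fin (d k) → Fin 2) :
    ((tenD d P)⁻¹.1 * M * (tenD d P).1) ⟨k, i⟩ ⟨k, j⟩ =
      c * ten (d k) (P⁻¹.1 * B * P.1) i j := by
  rw [tenD_inv_val, mul_tenD_apply, ten_mul, ten_mul, Matrix.mul_apply, Finset.mul_sum]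
  refine Finset.sum_congr rfl fun j' _ => ?_
  rw [tenD_mul_apply, Matrix.mul_apply, ← mul_assoc, Finset.mul_sum]
  congr 1
  refine Finset.sum_congr rfl fun i' _ => ?_
  rw [hM]
  ring

/-- The diagonal blocks of a product of block triangular matrices. -/
theorem blk_mul {M M' : Matrix (TI d) (TI d) K} (h : M.BlockTriangular Sigma.fst)
    (h' : M'.BlockTriangular Sigma.fst) (k : Fin r) (i j : Fin (d k) → Fin 2) :
    (M * M') ⟨k, i⟩ ⟨k, j⟩ = ∑ l, M ⟨k, i⟩ ⟨k, l⟩ * M' ⟨k, l⟩ ⟨k, j⟩ := by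
  rw [Matrix.mul_apply, Fintype.sum_sigma, Finset.sum_eq_single k]
  · intro l _ hl
    refine Finset.sum_eq_zero fun i' _ => ?_
    rcases lt_or_gt_of_ne hl with h1 | h1
    · rw [h h1, zero_mul]
    · rw [h' h1, mul_zero]
  · exact fun h => absurd (Finset.mem_univ k) h

/-- The `k`-th diagonal block as a homomorphism. -/
def blkHom {G : Type u} [Group G] (τ : G →* GL (TI d) K)
    (htri : ∀ g, (τ g : Matrix (TI d) (TI d) K).BlockTriangular Sigma.fst) (k : Fin r) :
    G →* Matrix (Fin (d k) → Fin 2) (Fin (d k) → Fin 2) K where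
  toFun g := Matrix.of fun i j => (τ g).1 ⟨k, i⟩ ⟨k, j⟩
  map_one' := by
    ext i j
    rw [Matrix.of_apply, map_one, Units.val_one]
    by_cases h : i = j
    · rw [h, Matrix.one_apply_eq, Matrix.one_apply_eq]
    · rw [Matrix.one_apply_ne h, Matrix.one_apply_ne]
      intro h1
      exact h (eq_of_heq (Sigma.mk.inj h1).2)
  map_mul' g h := by
    ext i j
    rw [Matrix.of_apply, map_mul, Units.val_mul, blk_mul (htri g) (htri h), Matrix.mul_apply]
    rfl

theorem blkHom_apply {G : Type u} [Group G] (τ : G →* GL (TI d) K)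
    (htri : ∀ g, (τ g : Matrix (TI d) (TI d) K).BlockTriangular Sigma.fst) (k : Fin r) (g : G)
    (i j : Fin (d k) → Fin 2) : blkHom τ htri k g i j = (τ g).1 ⟨k, i⟩ ⟨k, j⟩ := rfl

end blocks

end Pool.Agent.NegK.RK.TX
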