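import Pool.Agent.Lib.MP_28303a_al.RK.TreeE
import Pool.Agent.Lib.MP_28303a_al.RK.RgtDefs
import Pool.Agent.Lib.MP_28303a_al.RK.TenX
import Pool.Agent.Lib.MP_28303a_al.PL.TRNB

/-! # Groups of semisimple rank one over rigid fields: the tree of `GL₂(ℤ)` -/

set_option autoImplicit false
set_option linter.unusedSectionVars false
set_option linter.unusedVariables false

namespace Pool.Agent.NegK.RK

universe u v

open Matrix
open scoped MatrixGroups
open Pool.Agent.NegK.TW Pool.Agent.NegK.TT Pool.Agent.NegK.NT Pool.Agent.NegK.AP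
open NT5 (Fm)
open PL (PZ)

namespace Mtt2

/-- A homomorphism to `GL₂(ℤ)` gives an action on a tree such that the stabilizers have finite
images. -/
theorem tree_gl (H : Type u) [Group H] (q2 : H →* GL (Fin 2) ℤ) :
    ∃ (V : Type u) (_ : MulAction H V) (T : SimpleGraph V), TreeAct H T ∧
      ∀ x : V, ∃ s : Set (GL (Fin 2) ℤ), s.Finite ∧ ∀ g : H, g • x = x → q2 g ∈ s := by
  let i : MulAction H (ULift.{u} Fm) :=
    { smul := fun h x => ⟨q2 h • x.down⟩
      one_smul := fun x => ULift.ext _ _ (by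
        show q2 1 • x.down = x.down
        rw [map_one, one_smul])
      mul_smul := fun h h' x => ULift.ext _ _ (by
        show q2 (h * h') • x.down = q2 h • q2 h' • x.down
        rw [map_mul, mul_smul]) }
  have hadj : ∀ (g : H) (v w : ULift.{u} Fm), NT5.grf.Adj v w → NT5.grf.Adj (g • v) (g • w) := by
    intro h x y hx
    show Fm.P (q2 h • x.down) (q2 h • y.down) = 5
    rw [Fm.P_smulG]
    exact hx
  have htree : (sd NT5.grf.{u}).IsTree :=
    sd_isTree NT5.grf ⟨Fm.one⟩ (fun q => Fm.ht q.down) (fun _ _ h => Fm.ha_aux h)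
      (fun _ _ _ h h' k k' => ULift.ext _ _ (Fm.hb_aux h h' k k')) fun q => by
        rcases Fm.hc_aux q.down with h | ⟨y, h, h'⟩
        · exact Or.inl (ULift.ext _ _ h)
        · exact Or.inr ⟨⟨y⟩, h, h'⟩
  refine ⟨_, sdAct NT5.grf.{u} hadj, sd NT5.grf.{u}, sd_act NT5.grf.{u} hadj htree, ?_⟩
  intro x
  rcases x with v | ⟨e, he⟩
  · refine ⟨_, fin_fix v.down v.down, fun g hg => ?_⟩
    have h1 : g • v = v := Sum.inl_injective hg
    exact congrArg ULift.down h1
  · induction e using Sym2.ind with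
    | _ a b =>
      refine ⟨_, (fin_fix a.down a.down).union (fin_fix a.down b.down), fun g hg => ?_⟩
      have h1 : Sym2.map (g • ·) s(a, b) = s(a, b) :=
        congrArg Subtype.val (Sum.inr_injective hg)
      rw [Sym2.map_mk, Sym2.eq_iff] at h1
      rcases h1 with ⟨h1, _⟩ | ⟨h1, _⟩
      · exact Or.inl (congrArg ULift.down h1)
      · exact Or.inr (congrArg ULift.down h1)

theorem fi_comap {G G' : Type*} [Group G] [Group G'] (f : G →* G') (L : Subgroup G')
    (h : L.FiniteIndex) : (L.comap f).FiniteIndex := by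
  refine ⟨?_⟩
  rw [Subgroup.index_comap]
  have h1 : (L.subgroupOf f.range).FiniteIndex := inferInstance
  exact h1.index_ne_zero

theorem fi_sub {G : Type*} [Group G] (H : Subgroup G) (hH : H.FiniteIndex)
    (H' : Subgroup H) (hH' : H'.FiniteIndex) : (H'.map H.subtype).FiniteIndex := by
  refine ⟨?_⟩
  rw [Subgroup.index_map_subtype]
  exact mul_ne_zero hH'.index_ne_zero hH.index_ne_zero

theorem map_inj {K : Type v} [Field K] [CharZero K] :
    Function.Injective
      (GeneralLinearGroup.map (Int.castRingHom K) : GL (Fin 2) ℤ →* GL (Fin 2) K) := by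
  intro a b h
  refine Units.ext (Matrix.ext fun i j => ?_)
  have h0 : (GeneralLinearGroup.map (Int.castRingHom K) a : GL (Fin 2) K).1 =
    (GeneralLinearGroup.map (Int.castRingHom K) b : GL (Fin 2) K).1 := by rw [h]
  have h1 : ((a.1 i j : ℤ) : K) = ((b.1 i j : ℤ) : K) := congrFun (congrFun h0 i) j
  exact_mod_cast h1

theorem exists_smul {K : Type v} [Field K] {A B : GL (Fin 2) K}
    (h : ProjGenLinGroup.mk A = ProjGenLinGroup.mk B) : ∃ a : K, A.1 = a • B.1 := by
  have h1 : A * B⁻¹ ∈ Subgroup.center (GL (Fin 2) K) := by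
    rw [← ProjGenLinGroup.mk_eq_one, map_mul, map_inv, h, mul_inv_cancel]
  rw [GeneralLinearGroup.mem_center_iff_val_mem_range_scalar] at h1
  obtain ⟨c, hc⟩ := h1
  refine ⟨c, ?_⟩
  have h3 : A.1 = (A * B⁻¹).1 * B.1 := by rw [← Units.val_mul, inv_mul_cancel_right]
  rw [h3, ← hc, Matrix.scalar_apply, ← Matrix.smul_eq_diagonal_mul]

/-- The scalars of the blocks. -/
theorem exists_scal {K : Type v} [Field K] (hK : H70.Rig K) {r : ℕ} {d : Fin r → ℕ} {P : Type u}
    [Group P] {τ : P →* GL (TI d) K} {γ : P →* PGL(Fin 2, K)} (hR : RankT d τ γ)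
    (hd : ∀ k h, ((τ h).1.submatrix (Sigma.mk k) (Sigma.mk k)).det = 1 ∨
      ((τ h).1.submatrix (Sigma.mk k) (Sigma.mk k)).det = -1)
    (M : P →* GL (Fin 2) K) (hM : ∀ s, ProjGenLinGroup.mk (M s) = γ s)
    (hM1 : ∀ s, (M s).1.det = 1) (s : P) (k : Fin r) :
    ∃ c : K, (c = 1 ∨ c = -1) ∧
      ∀ i j, (τ s).1 ⟨k, i⟩ ⟨k, j⟩ = c * ten (d k) (M s).1 i j := by
  have := hK.char
  obtain ⟨B, c, hB, hc⟩ := hR.lift s k
  obtain ⟨a, ha⟩ := exists_smul (hB.trans (hM s).symm)
  refine ⟨c * a ^ d k, ?_, fun i j => ?_⟩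
  swap
  · rw [hc, ha, ten_smul, Matrix.smul_apply, smul_eq_mul, mul_assoc]
  · have h1 : (τ s).1.submatrix (Sigma.mk k) (Sigma.mk k) = (c * a ^ d k) • ten (d k) (M s).1 := by
      ext i j
      rw [Matrix.submatrix_apply, hc, ha, ten_smul, Matrix.smul_apply, smul_eq_mul,
        Matrix.smul_apply, smul_eq_mul, mul_assoc]
    have h2 := hd k s
    rw [h1, TX.smul_ten_det, hM1, one_pow, mul_one] at h2
    have h3 : (c * a ^ d k) ^ (2 ^ d k * 2) = 1 := by
      rw [pow_mul]
      rcases h2 with h2 | h2 <;> rw [h2] <;> norm_num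
    obtain ⟨z, hz⟩ := hK.int (c * a ^ d k) (by
      refine IsIntegral.of_pow (n := 2 ^ d k * 2) (by positivity) ?_
      rw [h3]
      exact isIntegral_one)
    rw [hz] at h3 ⊢
    have h4 : z ^ (2 ^ d k * 2) = 1 := by exact_mod_cast h3
    have h5 : IsUnit z := IsUnit.of_pow_eq_one h4 (by positivity)
    rcases Int.isUnit_iff.1 h5 with h6 | h6
    · exact Or.inl (by rw [h6, Int.cast_one])
    · exact Or.inr (by rw [h6, Int.cast_neg, Int.cast_one])

end Mtt2

open Mtt2

/-- The second case: the lifts are conjugate into `GL₂(ℤ)`. -/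
theorem mtt_two {K : Type u} [Field K] (hK : H70.Rig K) {r : ℕ} {d : Fin r → ℕ} (P Q : Type u)
    [Group P] (hP : Group.FG P) [CommGroup Q] (hQ : Group.FG Q) (q : P →* Q) (τ : P →* GL (TI d) K)
    (γ : P →* PGL(Fin 2, K)) (hR : RankT d τ γ)
    (hd : ∀ k h, ((τ h).1.submatrix (Sigma.mk k) (Sigma.mk k)).det = 1 ∨
      ((τ h).1.submatrix (Sigma.mk k) (Sigma.mk k)).det = -1)
    (hinj : ∀ g, q g = 1 → τ g = 1 → γ g = 1 → g = 1)
    (M : P →* GL (Fin 2) K) (hM : ∀ s, ProjGenLinGroup.mk (M s) = γ s)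
    (hM1 : ∀ s, (M s).1.det = 1) (X : GL (Fin 2) K)
    (hX : ∀ s, ∃ g : GL (Fin 2) ℤ,
      X⁻¹ * M s * X = GeneralLinearGroup.map (Int.castRingHom K) g) :
    ∃ (V : Type u) (_ : MulAction P V) (T : SimpleGraph V), TreeAct P T ∧
      ∃ n, ∀ v : V, ∃ F : Subgroup (MulAction.stabilizer P v), F.FiniteIndex ∧ PZ n F := by
  have := hK.char
  -- the homomorphism to `GL₂(ℤ)`
  choose f hf using hX
  let q2 : P →* GL (Fin 2) ℤ :=
    { toFun := f
      map_one' := map_inj (K := K) (by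
        rw [← hf, map_one, mul_one, inv_mul_cancel, map_one])
      map_mul' := fun s t => map_inj (K := K) (by
        rw [map_mul, ← hf, ← hf, ← hf, map_mul]
        group) }
  have hq2 : ∀ s, M s = X * GeneralLinearGroup.map (Int.castRingHom K) (q2 s) * X⁻¹ := by
    intro s
    rw [show GeneralLinearGroup.map (Int.castRingHom K) (q2 s) = X⁻¹ * M s * X from (hf s).symm]
    group
  obtain ⟨V, iV, T, hT, hfin⟩ := tree_gl P q2
  refine ⟨V, iV, T, hT, ?_⟩
  -- the blocks
  let Φ : P →* GL (Fin 2) K × (∀ k : Fin r, (Matrix (Fin (d k) → Fin 2) (Fin (d k) → Fin 2) K)ˣ) :=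
    M.prod (MonoidHom.pi fun k => (TX.blkHom τ hR.tri k).toHomUnits)
  have hΦM : ∀ s, Φ s = 1 → M s = 1 := fun s h => congrArg Prod.fst h
  have hΦb : ∀ s, Φ s = 1 → ∀ k i j, (τ s).1 ⟨k, i⟩ ⟨k, j⟩ =
      (1 : Matrix (Fin (d k) → Fin 2) (Fin (d k) → Fin 2) K) i j := by
    intro s h k i j
    have h1 := congrArg Units.val (congrFun (congrArg Prod.snd h) k)
    exact congrFun (congrFun h1 i) j
  -- finite index in the stabilizers
  have hst : ∀ v : V, (Φ.ker.subgroupOf (MulAction.stabilizer P v)).FiniteIndex := by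
    intro v
    obtain ⟨s, hs, hs'⟩ := hfin v
    let S1 : Set (GL (Fin 2) K) :=
      (fun g => X * GeneralLinearGroup.map (Int.castRingHom K) g * X⁻¹) '' s
    have hS1 : S1.Finite := hs.image _
    let T1 : ∀ k : Fin r, Set (Matrix (Fin (d k) → Fin 2) (Fin (d k) → Fin 2) K)ˣ := fun k =>
      Units.val ⁻¹' ((fun A : GL (Fin 2) K => ten (d k) A.1) '' S1 ∪
        (fun A : GL (Fin 2) K => -ten (d k) A.1) '' S1)
    have hT1 : ∀ k, (T1 k).Finite := fun k =>
      Set.Finite.preimage (Units.val_injective.injOn) ((hS1.image _).union (hS1.image _))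
    have hrange : Finite (Φ.comp (MulAction.stabilizer P v).subtype).range := by
      refine ((hS1.prod (Set.Finite.pi hT1)).subset ?_).to_subtype
      rintro _ ⟨g, rfl⟩
      have h1 : M g.1 ∈ S1 := ⟨q2 g.1, hs' g.1 g.2, (hq2 g.1).symm⟩
      refine ⟨h1, fun k _ => ?_⟩
      obtain ⟨c, hc, hc'⟩ := exists_scal hK hR hd M hM hM1 g.1 k
      rcases hc with rfl | rfl
      · refine Or.inl ⟨M g.1, h1, Matrix.ext fun i j => ?_⟩
        show ten (d k) (M g.1).1 i j = (τ g.1).1 ⟨k, i⟩ ⟨k, j⟩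
        rw [hc' i j, one_mul]
      · refine Or.inr ⟨M g.1, h1, Matrix.ext fun i j => ?_⟩
        show -(ten (d k) (M g.1).1 i j) = (τ g.1).1 ⟨k, i⟩ ⟨k, j⟩
        rw [hc' i j, neg_one_mul]
    have h2 : (Φ.comp (MulAction.stabilizer P v).subtype).ker =
        Φ.ker.subgroupOf (MulAction.stabilizer P v) := by
      ext g
      rfl
    rw [← h2]
    exact Subgroup.finiteIndex_ker _
  -- the kernel of the blocks is virtually poly-`ℤ`
  have hN1 : ∃ (H1 : Subgroup Φ.ker) (m : ℕ), H1.FiniteIndex ∧ PZ m H1 := by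
    have hpz : ∃ n, PZ n (q.comp Φ.ker.subtype).ker := by
      let ρ : P →* GL (TI d) K := (MulAut.conj (TX.tenD d X)⁻¹).toMonoidHom.comp τ
      have hρ : ∀ s, (ρ s).1 = (TX.tenD d X)⁻¹.1 * (τ s).1 * (TX.tenD d X).1 := by
        intro s
        show ((TX.tenD d X)⁻¹ * τ s * ((TX.tenD d X)⁻¹)⁻¹ : GL (TI d) K).1 = _
        rw [inv_inv, Units.val_mul, Units.val_mul]
      refine PL.TRN.kerB (b := fun x : TI d => (x.1 : ℕ)) hP ρ ?_ (⊥ : Subalgebra ℤ K) ?_
        (q.comp Φ.ker.subtype).ker (Φ.ker.subtype.comp (q.comp Φ.ker.subtype).ker.subtype) ?_ ?_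
      · intro s i j hij
        rw [hρ]
        exact TX.tenD_conj_tri X (hR.tri s) hij
      · rintro s ⟨k, i⟩ ⟨l, j⟩ hkl
        have hkl' : k = l := Fin.ext hkl
        subst hkl'
        obtain ⟨c, hc, hc'⟩ := exists_scal hK hR hd M hM hM1 s k
        rw [hρ, TX.tenD_conj_blk X hc' i j]
        have h1 : X⁻¹.1 * (M s).1 * X.1 = ((q2 s).1).map (Int.castRingHom K) := by
          have h2 := congrArg Units.val (hf s)
          rw [Units.val_mul, Units.val_mul] at h2
          exact h2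
        rw [h1, ten_map, Matrix.map_apply]
        have h3 : ∀ z : ℤ, (z : K) ∈ (⊥ : Subalgebra ℤ K) := fun z => by
          have := Subalgebra.algebraMap_mem (⊥ : Subalgebra ℤ K) z
          rwa [eq_intCast] at this
        have h4 : c ∈ (⊥ : Subalgebra ℤ K) := by
          rcases hc with rfl | rfl
          · exact one_mem _
          · exact neg_mem (one_mem _)
        exact mul_mem h4 (h3 _)
      · intro a b hab
        have h1 : ρ a.1.1 = ρ b.1.1 := hab
        have h2 : τ a.1.1 = τ b.1.1 := (MulAut.conj (TX.tenD d X)⁻¹).injective h1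
        have hqa : q a.1.1 = 1 := a.2
        have hqb : q b.1.1 = 1 := b.2
        have hMa : M a.1.1 = 1 := hΦM _ a.1.2
        have hMb : M b.1.1 = 1 := hΦM _ b.1.2
        have h3 : a.1.1 * b.1.1⁻¹ = 1 := by
          refine hinj _ ?_ ?_ ?_
          · rw [map_mul, map_inv, hqa, hqb, inv_one, mul_one]
          · rw [map_mul, map_inv, h2, mul_inv_cancel]
          · rw [← hM, map_mul, map_inv, hMa, hMb, inv_one, mul_one, map_one]
        exact Subtype.ext (Subtype.ext (mul_inv_eq_one.1 h3))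
      · rintro s ⟨k, i⟩ ⟨l, j⟩ hkl
        have hkl' : k = l := Fin.ext hkl
        subst hkl'
        have h1 : ∀ i j, (τ s.1.1).1 ⟨k, i⟩ ⟨k, j⟩ = 1 * ten (d k) (1 : Matrix (Fin 2) (Fin 2) K) i j := by
          intro i j
          rw [one_mul, ten_one]
          exact hΦb _ s.1.2 k i j
        show (ρ s.1.1).1 ⟨k, i⟩ ⟨k, j⟩ = _
        rw [hρ, TX.tenD_conj_blk X h1 i j, mul_one, one_mul, ← Units.val_mul, inv_mul_cancel,
          Units.val_one, ten_one]
        by_cases hij : i = j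
        · rw [hij, Matrix.one_apply_eq, Matrix.one_apply_eq]
        · rw [Matrix.one_apply_ne hij, Matrix.one_apply_ne]
          intro h2
          exact hij (eq_of_heq (Sigma.mk.inj h2).2)
    obtain ⟨n, hn⟩ := hpz
    obtain ⟨H1, _, h2, m, h3⟩ := PL.PZ.finite n Q (q.comp Φ.ker.subtype) hn
    exact ⟨H1, m, h2, h3⟩
  obtain ⟨H1, m, hH1, hm⟩ := hN1
  refine ⟨m, fun v => ?_⟩
  let K1 : Subgroup (MulAction.stabilizer P v) := Φ.ker.subgroupOf (MulAction.stabilizer P v)
  let j : K1 →* Φ.ker :=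
    { toFun := fun s => ⟨s.1.1, s.2⟩
      map_one' := rfl
      map_mul' := fun _ _ => rfl }
  have hj : Function.Injective j := fun a b h =>
    Subtype.ext (Subtype.ext (show (j a).1 = (j b).1 from congrArg Subtype.val h))
  refine ⟨(H1.comap j).map K1.subtype, fi_sub K1 (hst v) _ (fi_comap j H1 hH1), ?_⟩
  let e : (H1.comap j) ≃* ((H1.comap j).map K1.subtype : Subgroup (MulAction.stabilizer P v)) :=
    (H1.comap j).equivMapOfInjective _ Subtype.val_injective
  refine PL.PZ.of_injective m e.symm.toMonoidHom e.symm.injective ?_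
  refine PL.PZ.of_injective m (f := (j.comp (H1.comap j).subtype).codRestrict H1 fun s => s.2) ?_ hm
  intro a b h
  exact Subtype.ext (hj (congrArg Subtype.val h))

end Pool.Agent.NegK.RK
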