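import Pool.Agent.Lib.MP_28303a_al.RK.Arb
import Pool.Agent.Lib.MP_28303a_al.RK.VpDefs2

/-! # Commutative groups are arboreal -/

set_option autoImplicit false
set_option linter.unusedSectionVars false
set_option linter.unusedVariables false

namespace Pool.Agent.NegK.RK

universe u

open Pool.Agent.NegK.TW Pool.Agent.NegK.TT Pool.Agent.NegK.NT
open H1 (TD)

/-- Commutative groups are arboreal. -/
theorem arb_comm (A : Type u) [CommGroup A] : Arb A := by
  intro G _ _ f
  obtain ⟨n, θ, hθ⟩ := AP.exists_zn' f.range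
  let p : Fin n → (Multiplicative (Fin n → ℤ) →* Multiplicative ℤ) := fun i =>
    AddMonoidHom.toMultiplicative (Pi.evalAddMonoidHom (fun _ : Fin n => ℤ) i)
  choose T hT using fun i => H1.exists_TD_line G ((p i).comp (θ.comp f.rangeRestrict))
  refine ⟨Fin n, inferInstance, T, fun g hg => ?_⟩
  obtain ⟨m, hm, h1⟩ := hθ (f.rangeRestrict g) (by
    refine Multiplicative.toAdd.injective (funext fun i => ?_)
    exact congrArg Multiplicative.toAdd (hT i g (hg i)))
  exact ⟨m, hm, congrArg Subtype.val h1⟩

/-- Finitely generated commutative torsion groups are finite. -/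
theorem bur_comm (A : Type u) [CommGroup A] : Bur A := by
  intro S hS ht
  have : Group.FG S := (Group.fg_iff_subgroup_fg S).2 hS
  refine CommGroup.finite_of_fg_isMulTorsion (G := S) fun x => ?_
  obtain ⟨m, hm, h1⟩ := ht x.1 x.2
  exact isOfFinOrder_iff_pow_eq_one.2 ⟨m, hm, Subtype.ext h1⟩

end Pool.Agent.NegK.RK
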