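import Pool.Agent.Lib.MP_28303a_al.RK.Quat
import Pool.Agent.Lib.MP_28303a_al.RK.Abl

/-! # Units of quaternion algebras which are ramified at a place of residue characteristic zero -/

set_option autoImplicit false
set_option linter.unusedSectionVars false
set_option linter.unusedVariables false

namespace Pool.Agent.NegK.RK

universe u w

open Matrix
open scoped MatrixGroups Quaternion
open Pool.Agent.NegK.TW Pool.Agent.NegK.TT Pool.Agent.NegK.NT
open H1 (TD)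

/-- The quaternion algebra `(a, b)` over `K` is ramified at the valuation `v`, whose residue field
has characteristic zero: `a` is a unit whose residue is not a square, and the value of `b` is not the
value of a square. -/
structure Ram {K : Type u} [Field K] {Γ₀ : Type w} [LinearOrderedCommGroupWithZero Γ₀]
    (v : Valuation K Γ₀) (a b : K) : Prop where
  res : ∀ n : ℕ, n ≠ 0 → v (n : K) = 1
  unit : v a = 1
  sq : ∀ x : K, ¬ v (x ^ 2 - a) < 1
  ne : b ≠ 0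
  odd : ∀ c : K, v (b * c ^ 2) ≠ 1

namespace Ram

variable {K : Type u} [Field K] {Γ₀ : Type w} [LinearOrderedCommGroupWithZero Γ₀]
  {v : Valuation K Γ₀} {a b : K}

theorem char (h : Ram v a b) : CharZero K := by
  refine charZero_of_inj_zero fun n hn => ?_
  by_contra h0
  have h1 := h.res n h0
  rw [hn, map_zero] at h1
  exact zero_ne_one h1

theorem int_le (h : Ram v a b) (n : ℤ) : v (n : K) ≤ 1 := by
  have h1 : ∀ m : ℕ, v (m : K) ≤ 1 := fun m => by
    by_cases h0 : m = 0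
    · rw [h0, Nat.cast_zero, map_zero]
      exact zero_le_one
    · exact (h.res m h0).le
  obtain ⟨m, rfl | rfl⟩ := n.eq_nat_or_neg
  · rw [Int.cast_natCast]
    exact h1 m
  · rw [Int.cast_neg, Int.cast_natCast, Valuation.map_neg]
    exact h1 m

theorem int_eq (h : Ram v a b) {n : ℤ} (hn : n ≠ 0) : v (n : K) = 1 := by
  obtain ⟨m, rfl | rfl⟩ := n.eq_nat_or_neg
  · rw [Int.cast_natCast]
    exact h.res m (by exact_mod_cast hn)
  · rw [Int.cast_neg, Int.cast_natCast, Valuation.map_neg]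
    exact h.res m (by
      rintro rfl
      exact hn rfl)

/-- Algebraic integers are zero or units. -/
theorem eq_zero (h : Ram v a b) {e : K} (he : IsIntegral ℤ e) (h1 : v e < 1) : e = 0 := by
  have := h.char
  by_contra h0
  obtain ⟨p, hc, hp⟩ := he.isAlgebraic.exists_nonzero_coeff_and_aeval_eq_zero
    (mem_nonZeroDivisors_of_ne_zero h0)
  have h2 : Polynomial.aeval e p.divX * e + ((p.coeff 0 : ℤ) : K) = 0 := by
    have h3 := congrArg (Polynomial.aeval e) (Polynomial.divX_mul_X_add p)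
    rw [map_add, map_mul, Polynomial.aeval_X, hp] at h3
    rw [← h3]
    congr 1
    simp
  have h3 : Polynomial.aeval e p.divX ∈ v.integer := by
    rw [Polynomial.aeval_eq_sum_range]
    refine Subring.sum_mem _ fun i _ => ?_
    rw [zsmul_eq_mul]
    exact Subring.mul_mem _ (h.int_le _) (Subring.pow_mem _ (h1.le : e ∈ v.integer) _)
  have h4 : v ((p.coeff 0 : ℤ) : K) < 1 := by
    have h5 : ((p.coeff 0 : ℤ) : K) = -(Polynomial.aeval e p.divX * e) := by
      linear_combination h2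
    rw [h5, Valuation.map_neg, map_mul]
    exact (mul_le_of_le_one_left' h3).trans_lt h1
  rw [h.int_eq hc] at h4
  exact lt_irrefl _ h4

theorem y_le (h : Ram v a b) (x y : K) : v (y ^ 2) ≤ v (x ^ 2 - a * y ^ 2) := by
  by_cases hy : y = 0
  · rw [hy, zero_pow two_ne_zero, map_zero]
    exact zero_le
  · have h1 : x ^ 2 - a * y ^ 2 = y ^ 2 * ((x / y) ^ 2 - a) := by
      field_simp
    rw [h1, map_mul]
    exact le_mul_of_one_le_right' (not_lt.1 (h.sq _))

theorem x_le (h : Ram v a b) (x y : K) : v (x ^ 2) ≤ v (x ^ 2 - a * y ^ 2) := by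
  have h1 : x ^ 2 = (x ^ 2 - a * y ^ 2) + a * y ^ 2 := by ring
  have h2 : v (a * y ^ 2) ≤ v (x ^ 2 - a * y ^ 2) := by
    rw [map_mul, h.unit, one_mul]
    exact h.y_le x y
  calc v (x ^ 2) = v ((x ^ 2 - a * y ^ 2) + a * y ^ 2) := by rw [← h1]
    _ ≤ v (x ^ 2 - a * y ^ 2) := v.map_add_le le_rfl h2

theorem exists_sq (h : Ram v a b) (x y : K) : ∃ c : K, v (x ^ 2 - a * y ^ 2) = v (c ^ 2) := by
  rcases le_total (v (x ^ 2)) (v (y ^ 2)) with h1 | h1
  · refine ⟨y, le_antisymm ?_ (h.y_le x y)⟩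
    refine v.map_sub_le h1 ?_
    rw [map_mul, h.unit, one_mul]
  · refine ⟨x, le_antisymm ?_ (h.x_le x y)⟩
    refine v.map_sub_le le_rfl ?_
    rw [map_mul, h.unit, one_mul]
    exact h1

theorem both (h : Ram v a b) (x y z w' : K) :
    v (x ^ 2 - a * y ^ 2) ≤ v ((x ^ 2 - a * y ^ 2) - b * (z ^ 2 - a * w' ^ 2)) ∧
    v (b * (z ^ 2 - a * w' ^ 2)) ≤ v ((x ^ 2 - a * y ^ 2) - b * (z ^ 2 - a * w' ^ 2)) := by
  by_cases h1 : v (x ^ 2 - a * y ^ 2) = v (b * (z ^ 2 - a * w' ^ 2))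
  · have h2 : v (x ^ 2 - a * y ^ 2) = 0 := by
      by_contra h0
      obtain ⟨c, hc⟩ := h.exists_sq x y
      obtain ⟨d, hd⟩ := h.exists_sq z w'
      have hc0 : c ≠ 0 := by
        rintro rfl
        rw [hc, zero_pow two_ne_zero, map_zero] at h0
        exact h0 rfl
      refine h.odd (d / c) ?_
      rw [div_pow, mul_div_assoc', map_div₀, map_mul, ← hd, ← map_mul, ← h1, hc, div_self]
      rw [← hc]
      exact h0
    rw [← h1, h2]
    exact ⟨zero_le, zero_le⟩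
  · have h2 : v ((x ^ 2 - a * y ^ 2) - b * (z ^ 2 - a * w' ^ 2)) =
        max (v (x ^ 2 - a * y ^ 2)) (v (b * (z ^ 2 - a * w' ^ 2))) := by
      rw [sub_eq_add_neg, v.map_add_of_distinct_val (by rwa [Valuation.map_neg]),
        Valuation.map_neg]
    rw [h2]
    exact ⟨le_max_left _ _, le_max_right _ _⟩

theorem nrm_eq (q : ℍ[K,a,b]) : DQ.nrm q = (q.re ^ 2 - a * q.imI ^ 2) -
    b * (q.imJ ^ 2 - a * q.imK ^ 2) := by
  unfold DQ.nrm
  ring

theorem le_nrm (h : Ram v a b) (q : ℍ[K,a,b]) : v (q.re ^ 2) ≤ v (DQ.nrm q) ∧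
    v (q.imI ^ 2) ≤ v (DQ.nrm q) ∧ v (b * q.imJ ^ 2) ≤ v (DQ.nrm q) ∧
    v (b * q.imK ^ 2) ≤ v (DQ.nrm q) := by
  obtain ⟨h1, h2⟩ := h.both q.re q.imI q.imJ q.imK
  rw [← nrm_eq] at h1 h2
  rw [map_mul] at h2
  refine ⟨(h.x_le _ _).trans h1, (h.y_le _ _).trans h1, ?_, ?_⟩
  · rw [map_mul]
    exact (mul_le_mul_right (h.x_le _ _) _).trans h2
  · rw [map_mul]
    exact (mul_le_mul_right (h.y_le _ _) _).trans h2

theorem eq_zero_of_nrm (h : Ram v a b) {q : ℍ[K,a,b]} (hq : DQ.nrm q = 0) : q = 0 := by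
  obtain ⟨h1, h2, h3, h4⟩ := h.le_nrm q
  rw [hq, map_zero, le_zero_iff, map_eq_zero] at h1 h2 h3 h4
  refine QuaternionAlgebra.ext ?_ ?_ ?_ ?_
  · exact pow_eq_zero_iff two_ne_zero |>.1 h1
  · exact pow_eq_zero_iff two_ne_zero |>.1 h2
  · exact pow_eq_zero_iff two_ne_zero |>.1 ((mul_eq_zero.1 h3).resolve_left h.ne)
  · exact pow_eq_zero_iff two_ne_zero |>.1 ((mul_eq_zero.1 h4).resolve_left h.ne)

theorem lt_nrm (h : Ram v a b) {q : ℍ[K,a,b]} (hq : v (DQ.nrm q) ≤ 1) : v (q.imI ^ 2) ≤ 1 ∧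
    v (b * q.imJ ^ 2) < 1 ∧ v (b * q.imK ^ 2) < 1 := by
  obtain ⟨-, h2, h3, h4⟩ := h.le_nrm q
  exact ⟨h2.trans hq, lt_of_le_of_ne (h3.trans hq) (h.odd _),
    lt_of_le_of_ne (h4.trans hq) (h.odd _)⟩

theorem sub_sq {p r : K} (hp : v (b * p ^ 2) < 1) (hr : v (b * r ^ 2) < 1) :
    v (b * (p - r) ^ 2) < 1 := by
  have key : ∀ s : K, v (p - r) ≤ v s → v (b * s ^ 2) < 1 → v (b * (p - r) ^ 2) < 1 :=
    fun s hs h1 => by
      refine lt_of_le_of_lt ?_ h1
      rw [map_mul, map_mul, map_pow, map_pow]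
      exact mul_le_mul_right (pow_le_pow_left₀ zero_le hs 2) _
  rcases le_total (v p) (v r) with h1 | h1
  · exact key r (v.map_sub_le h1 le_rfl) hr
  · exact key p (v.map_sub_le le_rfl h1) hp

theorem mul_lt {p r : K} (hp : v (b * p ^ 2) < 1) (hr : v (b * r ^ 2) < 1) :
    v (b * (p * r)) < 1 := by
  by_contra h1
  have h2 : (1 : Γ₀) ≤ v (b * (p * r)) * v (b * (p * r)) := by
    have h3 := not_lt.1 h1
    calc (1 : Γ₀) = 1 * 1 := (one_mul 1).symm
      _ ≤ v (b * (p * r)) * v (b * (p * r)) := mul_le_mul' h3 h3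
  have h3 : v (b * (p * r)) * v (b * (p * r)) = v (b * p ^ 2) * v (b * r ^ 2) := by
    rw [← map_mul, ← map_mul]
    congr 1
    ring
  rw [h3] at h2
  exact absurd (lt_of_le_of_lt (mul_le_of_le_one_left' hp.le) hr) (not_lt.2 h2)

/-- Commutators of integral quaternions are in the maximal ideal. -/
theorem comm_lt (h : Ram v a b) {q r : ℍ[K,a,b]} (hq : v (DQ.nrm q) ≤ 1)
    (hr : v (DQ.nrm r) ≤ 1) : v (DQ.nrm (q * r - r * q)) < 1 := by
  obtain ⟨q2, q3, q4⟩ := h.lt_nrm hq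
  obtain ⟨r2, r3, r4⟩ := h.lt_nrm hr
  have h2 : v (2 : K) = 1 := by
    have := h.res 2 two_ne_zero
    rwa [Nat.cast_ofNat] at this
  have e : DQ.nrm (q * r - r * q) = ((0 : K) ^ 2 - a * (2 * (b * (q.imK * r.imJ) -
      b * (q.imJ * r.imK))) ^ 2) - b * ((2 * a * (q.imI * r.imK - q.imK * r.imI)) ^ 2 -
      a * (2 * (q.imI * r.imJ - q.imJ * r.imI)) ^ 2) := by
    rw [nrm_eq]
    simp
    ring
  have hI : v (a * (2 * (b * (q.imK * r.imJ) - b * (q.imJ * r.imK))) ^ 2) < 1 := by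
    have h3 : v (b * (q.imK * r.imJ) - b * (q.imJ * r.imK)) < 1 :=
      v.map_sub_lt (mul_lt q4 r3) (mul_lt q3 r4)
    rw [map_mul, h.unit, one_mul, map_pow, map_mul, h2, one_mul]
    exact pow_lt_one₀ zero_le h3 two_ne_zero
  have hy : ∀ {y s : K}, v (y ^ 2) ≤ 1 → v (b * s ^ 2) < 1 → v (b * (y * s) ^ 2) < 1 :=
    fun {y s} hy hs => by
      have e1 : b * (y * s) ^ 2 = y ^ 2 * (b * s ^ 2) := by ring
      rw [e1, map_mul]
      exact lt_of_le_of_lt (mul_le_of_le_one_left' hy) hs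
  have hJ : v (b * (2 * a * (q.imI * r.imK - q.imK * r.imI)) ^ 2) < 1 := by
    have h3 : v (b * (q.imI * r.imK - q.imK * r.imI) ^ 2) < 1 :=
      sub_sq (hy q2 r4) (by rw [mul_comm q.imK]; exact hy r2 q4)
    have e1 : b * (2 * a * (q.imI * r.imK - q.imK * r.imI)) ^ 2 =
        2 ^ 2 * a ^ 2 * (b * (q.imI * r.imK - q.imK * r.imI) ^ 2) := by ring
    rw [e1, map_mul, map_mul, map_pow, map_pow, h2, h.unit, one_pow, one_mul, one_mul]
    exact h3
  have hK : v (b * (a * (2 * (q.imI * r.imJ - q.imJ * r.imI)) ^ 2)) < 1 := by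
    have h3 : v (b * (q.imI * r.imJ - q.imJ * r.imI) ^ 2) < 1 :=
      sub_sq (hy q2 r3) (by rw [mul_comm q.imJ]; exact hy r2 q3)
    have e1 : b * (a * (2 * (q.imI * r.imJ - q.imJ * r.imI)) ^ 2) =
        a * 2 ^ 2 * (b * (q.imI * r.imJ - q.imJ * r.imI) ^ 2) := by ring
    rw [e1, map_mul, map_mul, map_pow, h2, h.unit, one_pow, one_mul, one_mul]
    exact h3
  rw [e, mul_sub b (_ ^ 2)]
  refine v.map_sub_lt (v.map_sub_lt ?_ hI) (v.map_sub_lt hJ hK)
  rw [zero_pow two_ne_zero, map_zero]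
  exact zero_lt_one

/-- The trees. -/
theorem trees (h : Ram v a b) (G : Type u) [Group G] [hG : Group.FG G]
    (f : G →* (ℍ[K,a,b])ˣ) : ∃ (ι : Type) (_ : Finite ι) (T : ι → TD G), ∀ H : Subgroup G,
      (∀ g ∈ H, ∀ i, (T i).Ell g) → ∀ g ∈ H, ∀ g' ∈ H, f (g * g') = f (g' * g) := by
  have hch := h.char
  let L := AlgebraicClosure K
  have hcz : CharZero L := charZero_of_injective_algebraMap (algebraMap K L).injective
  obtain ⟨s, hs⟩ := IsAlgClosed.exists_eq_mul_self (algebraMap K L a)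
  let ρ : (ℍ[K,a,b])ˣ →* GL (Fin 2) L :=
    Units.map (DQ.split (b := b) (algebraMap K L) s hs.symm).toMonoidHom
  obtain ⟨ι1, _, T1, k1⟩ := trees_pglI (K := L) G ((ProjGenLinGroup.mk).comp (ρ.comp f))
  obtain ⟨ι2, _, T2, k2⟩ := arb_comm Kˣ G (DQ.nrmHom.comp f)
  refine ⟨ι1 ⊕ ι2, inferInstance, Sum.elim T1 T2, fun H hH g hg g' hg' => ?_⟩
  have hint : ∀ x ∈ H, IsIntegral ℤ ((2 * (f x : ℍ[K,a,b]).re) ^ 2 / DQ.nrm (f x : ℍ[K,a,b])) :=
    fun x hx => by
      have h2 := k1 x (fun i => hH x hx (Sum.inl i)) (ρ (f x)) rfl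
      have h3 : (ρ (f x)).1.trace = algebraMap K L (2 * (f x : ℍ[K,a,b]).re) :=
        DQ.split_trace _ _ _ _
      have h4 : (ρ (f x)).1.det = algebraMap K L (DQ.nrm (f x : ℍ[K,a,b])) :=
        DQ.split_det _ _ _ _
      rw [h3, h4, ← map_pow, ← map_div₀] at h2
      exact (isIntegral_algHom_iff ((algebraMap K L).toIntAlgHom)
        (algebraMap K L).injective).1 h2
  have hval : ∀ x ∈ H, v (DQ.nrm (f x : ℍ[K,a,b])) = 1 := fun x hx => by
    obtain ⟨n, hn, h1⟩ := k2 x fun i => hH x hx (Sum.inr i)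
    have h2 : DQ.nrm (f x : ℍ[K,a,b]) ^ n = 1 := congrArg Units.val h1
    have h3 : v (DQ.nrm (f x : ℍ[K,a,b])) ^ n = 1 := by rw [← map_pow, h2, map_one]
    exact (pow_eq_one_iff_of_nonneg zero_le hn.ne').1 h3
  let c : G := g * g' * (g' * g)⁻¹
  have hc : c ∈ H := H.mul_mem (H.mul_mem hg hg') (H.inv_mem (H.mul_mem hg' hg))
  have hcN : DQ.nrm (f c : ℍ[K,a,b]) = 1 := by
    have h1 : DQ.nrmHom (f c) = 1 := by
      simp only [c, map_mul, map_inv]
      rw [mul_comm (DQ.nrmHom (f g')) (DQ.nrmHom (f g)), mul_inv_cancel]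
    exact congrArg Units.val h1
  have hcm : ((f c : ℍ[K,a,b]) - 1) * (f (g' * g) : ℍ[K,a,b]) =
      (f g : ℍ[K,a,b]) * (f g' : ℍ[K,a,b]) - (f g' : ℍ[K,a,b]) * (f g : ℍ[K,a,b]) := by
    rw [sub_mul, one_mul]
    congr 1
    · rw [← Units.val_mul, ← map_mul, ← Units.val_mul, ← map_mul]
      simp only [c, inv_mul_cancel_right]
    · rw [map_mul, Units.val_mul]
  have h1 : v (DQ.nrm ((f c : ℍ[K,a,b]) - 1)) < 1 := by
    have h2 := h.comm_lt (hval g hg).le (hval g' hg').le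
    rw [← hcm, DQ.nrm_mul, map_mul, hval _ (H.mul_mem hg' hg), mul_one] at h2
    exact h2
  have h2 : DQ.nrm ((f c : ℍ[K,a,b]) - 1) = 2 - 2 * (f c : ℍ[K,a,b]).re := by
    unfold DQ.nrm at hcN ⊢
    simp
    linear_combination hcN
  have h3 : IsIntegral ℤ (2 * (f c : ℍ[K,a,b]).re) := by
    have h4 := hint c hc
    rw [hcN, div_one] at h4
    exact h4.of_pow two_pos
  have h4 : DQ.nrm ((f c : ℍ[K,a,b]) - 1) = 0 := by
    refine h.eq_zero ?_ h1
    rw [h2]
    exact (isIntegral_natCast 2).sub h3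
  have h5 : f c = 1 := Units.ext (sub_eq_zero.1 (h.eq_zero_of_nrm h4))
  simp only [c] at h5
  rw [map_mul f (g * g'), map_inv, mul_inv_eq_one] at h5
  exact h5

end Ram

end Pool.Agent.NegK.RK
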