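import Pool.Agent.Lib.MP_28303a_al.RK.TenDefs

/-! # Tensor powers of matrices of degree two -/

set_option autoImplicit false

namespace Pool.Agent.NegK.RK

universe u v w

open Matrix

theorem ten_apply {K : Type v} [CommRing K] {d : ℕ} (B : Matrix (Fin 2) (Fin 2) K)
    (i j : Fin d → Fin 2) : ten d B i j = ∏ t, B (i t) (j t) := rfl

theorem ten_one {K : Type v} [CommRing K] (d : ℕ) :
    ten d (1 : Matrix (Fin 2) (Fin 2) K) = 1 := by
  ext i j
  rw [ten_apply]
  by_cases h : i = j
  · subst h
    rw [one_apply_eq]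
    exact Finset.prod_eq_one fun t _ => one_apply_eq _
  · rw [one_apply_ne h]
    obtain ⟨t, ht⟩ := Function.ne_iff.1 h
    exact Finset.prod_eq_zero (Finset.mem_univ t) (one_apply_ne ht)

theorem ten_mul {K : Type v} [CommRing K] (d : ℕ) (A B : Matrix (Fin 2) (Fin 2) K) :
    ten d (A * B) = ten d A * ten d B := by
  ext i j
  rw [mul_apply, ten_apply]
  simp only [mul_apply, ten_apply]
  rw [Finset.prod_univ_sum, Fintype.piFinset_univ]
  exact Finset.sum_congr rfl fun p _ => Finset.prod_mul_distrib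

theorem ten_smul {K : Type v} [CommRing K] (d : ℕ) (c : K) (B : Matrix (Fin 2) (Fin 2) K) :
    ten d (c • B) = c ^ d • ten d B := by
  ext i j
  rw [Matrix.smul_apply, ten_apply, ten_apply, smul_eq_mul]
  simp only [Matrix.smul_apply, smul_eq_mul]
  rw [Finset.prod_mul_distrib, Finset.prod_const, Finset.card_univ, Fintype.card_fin]

theorem ten_pow {K : Type v} [CommRing K] (d : ℕ) (B : Matrix (Fin 2) (Fin 2) K) (n : ℕ) :
    ten d (B ^ n) = ten d B ^ n := by
  induction n with
  | zero => rw [pow_zero, pow_zero, ten_one]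
  | succ n ih => rw [pow_succ, pow_succ, ten_mul, ih]

theorem ten_map {K : Type v} [CommRing K] {L : Type w} [CommRing L] (f : K →+* L) (d : ℕ)
    (B : Matrix (Fin 2) (Fin 2) K) : ten d (B.map f) = (ten d B).map f := by
  ext i j
  rw [ten_apply, map_apply, ten_apply, map_prod]
  rfl

/-- The number with the binary digits `i`. -/
def tb {d : ℕ} (i : Fin d → Fin 2) : ℕ := ∑ t : Fin d, (i t : ℕ) * 2 ^ (t : ℕ)

theorem tb_mono {d : ℕ} {i j : Fin d → Fin 2} (h : ∀ t, i t ≤ j t) : tb i ≤ tb j :=
  Finset.sum_le_sum fun t _ => Nat.mul_le_mul_right _ (h t)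

theorem tb_lt {d : ℕ} {i j : Fin d → Fin 2} (h : ∀ t, i t ≤ j t) (hne : i ≠ j) : tb i < tb j := by
  obtain ⟨t, ht⟩ := Function.ne_iff.1 hne
  refine Finset.sum_lt_sum (fun t _ => Nat.mul_le_mul_right _ (h t)) ⟨t, Finset.mem_univ t, ?_⟩
  exact Nat.mul_lt_mul_of_pos_right (Fin.lt_def.1 (lt_of_le_of_ne (h t) ht)) (by positivity)

theorem tb_inj {d : ℕ} : Function.Injective (tb : (Fin d → Fin 2) → ℕ) := by
  intro i j h
  refine (finFunctionFinEquiv (m := 2) (n := d)).injective (Fin.ext ?_)
  rw [finFunctionFinEquiv_apply, finFunctionFinEquiv_apply]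
  exact h

/-- The tensor power of an upper triangular matrix is triangular for the pointwise order. -/
theorem ten_tri {K : Type v} [CommRing K] {d : ℕ} {B : Matrix (Fin 2) (Fin 2) K} (hB : B 1 0 = 0)
    {i j : Fin d → Fin 2} (h : ten d B i j ≠ 0) : ∀ t, i t ≤ j t := by
  intro t
  by_contra hn
  refine h (Finset.prod_eq_zero (Finset.mem_univ t) ?_)
  have h1 : i t = 1 ∧ j t = 0 := by
    generalize i t = x, j t = y at hn
    fin_cases x <;> fin_cases y <;> simp_all
  rw [h1.1, h1.2, hB]

theorem ten_bt {K : Type v} [CommRing K] {d : ℕ} {B : Matrix (Fin 2) (Fin 2) K}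
    (hB : B 1 0 = 0) : (ten d B).BlockTriangular tb := by
  intro i j hij
  by_contra h
  exact absurd (tb_mono (ten_tri hB h)) (not_le.2 hij)

/-- The number of the letters `1` in `i`. -/
def ones {d : ℕ} (i : Fin d → Fin 2) : ℕ := (Finset.univ.filter fun t => i t = 1).card

theorem ones_le {d : ℕ} (i : Fin d → Fin 2) : ones i ≤ d := by
  have := Finset.card_filter_le (Finset.univ : Finset (Fin d)) (fun t => i t = 1)
  rwa [Finset.card_univ, Fintype.card_fin] at this

theorem ten_diag {K : Type v} [CommRing K] {d : ℕ} (B : Matrix (Fin 2) (Fin 2) K)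
    (i : Fin d → Fin 2) : ten d B i i = B 0 0 ^ (d - ones i) * B 1 1 ^ ones i := by
  classical
  rw [ten_apply, ← Finset.prod_filter_mul_prod_filter_not Finset.univ (fun t => i t = 1), mul_comm]
  congr 1
  · rw [Finset.prod_congr rfl (g := fun _ => B 0 0), Finset.prod_const]
    · congr 1
      have h := Finset.card_filter_add_card_filter_not (s := (Finset.univ : Finset (Fin d)))
        (fun t => i t = 1)
      rw [Finset.card_univ, Fintype.card_fin] at h
      unfold ones
      omega
    · intro t ht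
      have h1 : i t = 0 := by
        have := (Finset.mem_filter.1 ht).2
        generalize i t = x at this
        fin_cases x
        · rfl
        · exact absurd rfl this
      rw [h1]
  · rw [Finset.prod_congr rfl (g := fun _ => B 1 1), Finset.prod_const]
    · rfl
    · intro t ht
      rw [(Finset.mem_filter.1 ht).2]

open scoped Kronecker in
/-- The first slot. -/
theorem ten_succ {K : Type v} [CommRing K] (d : ℕ) (B : Matrix (Fin 2) (Fin 2) K) :
    ten (d + 1) B = (B ⊗ₖ ten d B).submatrix (Fin.consEquiv fun _ => Fin 2).symm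
      (Fin.consEquiv fun _ => Fin 2).symm := by
  ext i j
  rw [ten_apply, Fin.prod_univ_succ, submatrix_apply, kroneckerMap_apply]
  rfl

theorem ten_zero {K : Type v} [CommRing K] (B : Matrix (Fin 2) (Fin 2) K) : ten 0 B = 1 := by
  ext i j
  rw [ten_apply, Fin.prod_univ_zero, Subsingleton.elim i j, one_apply_eq]

theorem ten_det {K : Type v} [CommRing K] (d : ℕ) (B : Matrix (Fin 2) (Fin 2) K) :
    (ten d B).det = B.det ^ (d * 2 ^ (d - 1)) := by
  induction d with
  | zero => rw [ten_zero, det_one, zero_mul, pow_zero]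
  | succ d ih =>
    rw [ten_succ, det_submatrix_equiv_self, det_kronecker, ih, ← pow_mul, Fintype.card_fin,
      Fintype.card_fun, Fintype.card_fin, Fintype.card_fin, ← pow_add]
    congr 1
    cases d with
    | zero => simp
    | succ d =>
      simp only [Nat.add_sub_cancel]
      ring

/-- The tensor power is scalar only if the matrix is. -/
theorem ten_scalar {K : Type v} [Field K] {d : ℕ} (hd : 0 < d) {B : Matrix (Fin 2) (Fin 2) K}
    (hB : B.det ≠ 0) {c : K} (h : ten d B = c • (1 : Matrix (Fin d → Fin 2) (Fin d → Fin 2) K)) :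
    B = B 0 0 • (1 : Matrix (Fin 2) (Fin 2) K) := by
  have hne : ∀ x y : Fin 2, x ≠ y → (fun _ : Fin d => x) ≠ fun _ => y := by
    intro x y hxy he
    exact hxy (congrFun he ⟨0, hd⟩)
  have off : ∀ x y : Fin 2, x ≠ y → B x y = 0 := by
    intro x y hxy
    have h1 := congrFun (congrFun h fun _ => x) fun _ => y
    rw [ten_apply, Matrix.smul_apply, one_apply_ne (hne x y hxy), smul_zero, Finset.prod_const,
      Finset.card_univ, Fintype.card_fin] at h1
    exact pow_eq_zero_iff (by omega) |>.1 h1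
  have h01 := off 0 1 (by decide)
  have h10 := off 1 0 (by decide)
  rw [det_fin_two, h01, zero_mul, sub_zero] at hB
  have h00 : B 0 0 ≠ 0 := left_ne_zero_of_mul hB
  have e0 := congrFun (congrFun h fun _ => 0) fun _ => 0
  rw [ten_apply, Matrix.smul_apply, one_apply_eq, smul_eq_mul, mul_one, Finset.prod_const,
      Finset.card_univ, Fintype.card_fin] at e0
  set i1 : Fin d → Fin 2 := Function.update (fun _ => 0) ⟨0, hd⟩ 1 with hi1
  have e1 := congrFun (congrFun h i1) i1
  rw [ten_apply, Matrix.smul_apply, one_apply_eq, smul_eq_mul, mul_one,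
    ← Finset.mul_prod_erase _ _ (Finset.mem_univ (⟨0, hd⟩ : Fin d))] at e1
  rw [Finset.prod_congr rfl (g := fun _ => B 0 0), Finset.prod_const,
    Finset.card_erase_of_mem (Finset.mem_univ _), Finset.card_univ, Fintype.card_fin,
    ← e0] at e1
  · have h2 : B 0 0 ^ d = B 0 0 * B 0 0 ^ (d - 1) := by
      rw [← pow_succ', Nat.sub_add_cancel hd]
    have h3 : i1 ⟨0, hd⟩ = 1 := by rw [hi1, Function.update_self]
    rw [h2, h3] at e1
    have h11 : B 1 1 = B 0 0 := mul_right_cancel₀ (pow_ne_zero _ h00) e1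
    ext x y
    rw [Matrix.smul_apply, smul_eq_mul]
    fin_cases x <;> fin_cases y
    · simp
    · simpa using h01
    · simpa using h10
    · simpa using h11
  · intro t ht
    rw [hi1, Function.update_of_ne (Finset.ne_of_mem_erase ht)]

theorem ten_scalar_iff {K : Type v} [Field K] {d : ℕ} (hd : 0 < d)
    {B : Matrix (Fin 2) (Fin 2) K} (hB : B.det ≠ 0) :
    (∃ c : K, ten d B = c • (1 : Matrix (Fin d → Fin 2) (Fin d → Fin 2) K)) ↔
      ∃ c : K, B = c • (1 : Matrix (Fin 2) (Fin 2) K) := by
  constructor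
  · rintro ⟨c, h⟩
    exact ⟨_, ten_scalar hd hB h⟩
  · rintro ⟨c, h⟩
    exact ⟨c ^ d, by rw [h, ten_smul, ten_one]⟩

/-- Two invertible matrices with proportional tensor powers are proportional. -/
theorem ten_prop {K : Type v} [Field K] {d : ℕ} (hd : 0 < d) {A B : Matrix (Fin 2) (Fin 2) K}
    (hA : A.det ≠ 0) (hB : B.det ≠ 0) {c : K} (h : ten d A = c • ten d B) :
    ∃ c' : K, A = c' • B := by
  have h1 : ten d (A * B⁻¹) = c • (1 : Matrix (Fin d → Fin 2) (Fin d → Fin 2) K) := by
    rw [ten_mul, h, smul_mul_assoc, ← ten_mul, mul_nonsing_inv B (isUnit_iff_ne_zero.2 hB), ten_one]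
  have h2 : (A * B⁻¹).det ≠ 0 := by
    rw [det_mul, det_nonsing_inv, Ring.inverse_eq_inv']
    exact mul_ne_zero hA (inv_ne_zero hB)
  have h3 := ten_scalar hd h2 h1
  refine ⟨(A * B⁻¹) 0 0, ?_⟩
  calc A = A * B⁻¹ * B := by rw [nonsing_inv_mul_cancel_right _ _ (isUnit_iff_ne_zero.2 hB)]
    _ = _ := by
      conv_lhs => rw [h3]
      rw [smul_mul_assoc, one_mul]

end Pool.Agent.NegK.RK
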