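import Pool.Agent.Lib.MP_28303a_al.RK.Rke
import Pool.Agent.Lib.MP_28303a_al.RK.Ten

/-! # The edge groups of groups of semisimple rank one: tensor blocks -/

set_option autoImplicit false
set_option linter.unusedSectionVars false
set_option linter.unusedVariables false

namespace Pool.Agent.NegK.RK

universe u v w

open Matrix
open scoped MatrixGroups
open Pool.Agent.NegK.TW
open Pool.Agent.NegK.TT
open Pool.Agent.NegK.NT
open Pool.Agent.NegK.PL (PZ tfe trn trn_order)

namespace Rkt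

section blocks

variable {K : Type v} [CommRing K] {r : ℕ} {d : Fin r → ℕ}

/-- The diagonal block `k`. -/
def blk (M : Matrix (TI d) (TI d) K) (k : Fin r) :
    Matrix (Fin (d k) → Fin 2) (Fin (d k) → Fin 2) K :=
  M.submatrix (fun i => ⟨k, i⟩) fun i => ⟨k, i⟩

theorem blk_apply (M : Matrix (TI d) (TI d) K) (k : Fin r) (i j : Fin (d k) → Fin 2) :
    blk M k i j = M ⟨k, i⟩ ⟨k, j⟩ := rfl

theorem blk_mul {M M' : Matrix (TI d) (TI d) K} (h : M.BlockTriangular Sigma.fst)
    (h' : M'.BlockTriangular Sigma.fst) (k : Fin r) : blk (M * M') k = blk M k * blk M' k := by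
  ext i j
  rw [blk_apply, Matrix.mul_apply, Matrix.mul_apply, Fintype.sum_sigma,
    Finset.sum_eq_single_of_mem k (Finset.mem_univ k)]
  · rfl
  · intro l _ hl
    refine Finset.sum_eq_zero fun f _ => ?_
    rcases lt_or_gt_of_ne hl with h1 | h1
    · have h2 : M ⟨k, i⟩ ⟨l, f⟩ = 0 := h h1
      rw [h2, zero_mul]
    · have h2 : M' ⟨l, f⟩ ⟨k, j⟩ = 0 := h' h1
      rw [h2, mul_zero]

theorem blk_one (k : Fin r) : blk (1 : Matrix (TI d) (TI d) K) k = 1 :=
  Matrix.submatrix_one _ fun i j h => eq_of_heq (Sigma.mk.inj h).2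

/-- The diagonal block `k` of block triangular representations. -/
def blkHom {G : Type u} [Group G] (τ : G →* GL (TI d) K)
    (htri : ∀ g, (τ g : Matrix (TI d) (TI d) K).BlockTriangular Sigma.fst) (k : Fin r) :
    G →* Matrix (Fin (d k) → Fin 2) (Fin (d k) → Fin 2) K where
  toFun g := blk (τ g).1 k
  map_one' := by rw [map_one, Units.val_one, blk_one]
  map_mul' g h := by rw [map_mul, Units.val_mul, blk_mul (htri g) (htri h)]

/-- The block diagonal matrix of the tensor powers. -/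
def dT (d : Fin r → ℕ) (P : GL (Fin 2) K) : GL (TI d) K where
  val := Matrix.blockDiagonal' fun k => ten (d k) P.1
  inv := Matrix.blockDiagonal' fun k => ten (d k) P⁻¹.1
  val_inv := by
    rw [← Matrix.blockDiagonal'_mul]
    simp_rw [← ten_mul, ← Units.val_mul, mul_inv_cancel, Units.val_one, ten_one]
    exact Matrix.blockDiagonal'_one
  inv_val := by
    rw [← Matrix.blockDiagonal'_mul]
    simp_rw [← ten_mul, ← Units.val_mul, inv_mul_cancel, Units.val_one, ten_one]
    exact Matrix.blockDiagonal'_one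

theorem dT_tri (P : GL (Fin 2) K) : (dT d P).1.BlockTriangular Sigma.fst := by
  rintro ⟨k, i⟩ ⟨l, j⟩ h
  exact Matrix.blockDiagonal'_apply_ne (fun k => ten (d k) P.1) i j (ne_of_gt h)

theorem dT_inv_tri (P : GL (Fin 2) K) : (dT d P)⁻¹.1.BlockTriangular Sigma.fst := by
  rintro ⟨k, i⟩ ⟨l, j⟩ h
  exact Matrix.blockDiagonal'_apply_ne (fun k => ten (d k) P⁻¹.1) i j (ne_of_gt h)

theorem blk_dT (P : GL (Fin 2) K) (k : Fin r) : blk (dT d P).1 k = ten (d k) P.1 := by
  ext i j
  exact Matrix.blockDiagonal'_apply_eq (fun k => ten (d k) P.1) k i j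

theorem blk_dT_inv (P : GL (Fin 2) K) (k : Fin r) : blk (dT d P)⁻¹.1 k = ten (d k) P⁻¹.1 := by
  ext i j
  exact Matrix.blockDiagonal'_apply_eq (fun k => ten (d k) P⁻¹.1) k i j

/-- The block diagonal sum of two representations. -/
def sumT {Δ : Type u} [Group Δ] (σ : Δ →* GL (TI d) K)
    (q : Δ →* GL (Fin 2) K) : Δ →* Matrix (TI d ⊕ Fin 2) (TI d ⊕ Fin 2) K where
  toFun g := Matrix.fromBlocks (σ g).1 0 0 (q g).1
  map_one' := by
    rw [map_one, map_one, Units.val_one, Units.val_one, Matrix.fromBlocks_one]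
  map_mul' g h := by
    rw [map_mul, map_mul, Units.val_mul, Units.val_mul, Matrix.fromBlocks_multiply]
    simp

end blocks

theorem exists_smul {K : Type v} [Field K] {A B : GL (Fin 2) K}
    (h : ProjGenLinGroup.mk A = ProjGenLinGroup.mk B) : ∃ a : K, A.1 = a • B.1 := by
  have h1 : A * B⁻¹ ∈ Subgroup.center (GL (Fin 2) K) := by
    rw [← ProjGenLinGroup.mk_eq_one, map_mul, map_inv, h, mul_inv_cancel]
  rw [GeneralLinearGroup.mem_center_iff_val_mem_range_scalar] at h1
  obtain ⟨c, hc⟩ := h1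
  refine ⟨c, ?_⟩
  have h3 : A.1 = (A * B⁻¹).1 * B.1 := by rw [← Units.val_mul, inv_mul_cancel_right]
  rw [h3, ← hc, Matrix.scalar_apply, ← Matrix.smul_eq_diagonal_mul]

/-- The order of the indices. -/
def ord {r : ℕ} {d : Fin r → ℕ} : TI d ⊕ Fin 2 → ℕ ×ₗ ℕ :=
  Sum.elim (fun x => toLex ((x.1 : ℕ), tb x.2)) fun i => toLex (r, (i : ℕ))

theorem ord_inj {r : ℕ} {d : Fin r → ℕ} : Function.Injective (ord (d := d)) := by
  intro x y h
  rcases x with x | x <;> rcases y with y | y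
  · obtain ⟨k, i⟩ := x
    obtain ⟨l, j⟩ := y
    have h1 : ((k : ℕ), tb i) = ((l : ℕ), tb j) := toLex.injective h
    have h2 : k = l := Fin.ext (congrArg Prod.fst h1)
    subst h2
    have h3 : i = j := tb_inj (congrArg Prod.snd h1)
    rw [h3]
  · have h1 : ((x.1 : ℕ), tb x.2) = (r, (y : ℕ)) := toLex.injective h
    exact absurd (congrArg Prod.fst h1) x.1.2.ne
  · have h1 : (r, (x : ℕ)) = ((y.1 : ℕ), tb y.2) := toLex.injective h
    exact absurd (congrArg Prod.fst h1) y.1.2.ne'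
  · have h1 : (r, (x : ℕ)) = (r, (y : ℕ)) := toLex.injective h
    rw [Fin.ext (congrArg Prod.snd h1)]

end Rkt

open Rkt

/-- The core of RKT. Finitely generated torsionfree groups of semisimple rank one with integral
invariants and commutators with lifts of trace `2` are virtually poly-`ℤ`. -/
theorem rkt_pz {K : Type u} [Field K] [CharZero K] [IsAlgClosed K]
    {r : ℕ} {d : Fin r → ℕ} (Q : Type u) [Group Q] (hfg : Group.FG Q) (htf : TorsionFree Q)
    (τ : Q →* GL (TI d) K) (γ : Q →* PGL(Fin 2, K)) (hR : RankT d τ γ)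
    (hker : ∀ g, τ g = 1 → γ g = 1 → ∃ m, 0 < m ∧ g ^ m = 1)
    (ht : ∀ g (B : GL (Fin 2) K), ProjGenLinGroup.mk B = γ g →
      IsIntegral ℤ (B.1.trace ^ 2 / B.1.det))
    (hc : ∀ (Gt : Type u) [Group Gt] (q : Gt →* Q) (B : Gt →* GL (Fin 2) K),
      (∀ x, ProjGenLinGroup.mk (B x) = γ (q x)) → ∀ c ∈ commutator Gt, (B c).1.trace = 2)
    (h1 : ∀ g k, IsIntegral ℤ (blk (τ g).1 k).det) :
    ∃ H : Subgroup Q, H.Normal ∧ H.FiniteIndex ∧ ∃ m, PZ m H := by
  obtain ⟨Δ, _, π, q, z, hπ, hdet, hq, hz, hz', hker', hfin, hfgΔ⟩ := P2.exists_lift γ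
  obtain ⟨P, hP⟩ := H80.tri_two q (fun c hcc => hc Δ π q hq c hcc)
  let q' : Δ →* GL (Fin 2) K := (MulAut.conj P⁻¹).toMonoidHom.comp q
  have hq' : ∀ s, q' s = P⁻¹ * q s * P := fun s => by
    show P⁻¹ * q s * P⁻¹⁻¹ = _
    rw [inv_inv]
  let σ : Δ →* GL (TI d) K := (MulAut.conj (dT d P)⁻¹).toMonoidHom.comp (τ.comp π)
  have hσ : ∀ s, σ s = (dT d P)⁻¹ * τ (π s) * dT d P := fun s => by
    show (dT d P)⁻¹ * τ (π s) * (dT d P)⁻¹⁻¹ = _
    rw [inv_inv]
  have hσtri : ∀ s, (σ s).1.BlockTriangular Sigma.fst := fun s => by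
    rw [hσ]
    exact ((dT_inv_tri P).mul (hR.tri (π s))).mul (dT_tri P)
  have hblk : ∀ s k, ∃ c : K, IsIntegral ℤ c ∧ blk (σ s).1 k = c • ten (d k) (q' s).1 := by
    intro s k
    obtain ⟨B, c, hB, hBc⟩ := hR.lift (π s) k
    obtain ⟨a, ha⟩ := exists_smul (hB.trans (hq s).symm)
    have e1 : blk (τ (π s)).1 k = (c * a ^ d k) • ten (d k) (q s).1 := by
      ext i j
      rw [blk_apply, hBc, ha, ten_smul, mul_smul]
      rfl
    refine ⟨c * a ^ d k, ?_, ?_⟩
    · have e2 : (c * a ^ d k) ^ Fintype.card (Fin (d k) → Fin 2) = (blk (τ (π s)).1 k).det := by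
        rw [e1, Matrix.det_smul, ten_det, hdet, one_pow, mul_one]
      refine IsIntegral.of_pow (n := Fintype.card (Fin (d k) → Fin 2)) Fintype.card_pos ?_
      rw [e2]
      exact h1 (π s) k
    · have e3 : (σ s).1 = (dT d P)⁻¹.1 * (τ (π s)).1 * (dT d P).1 := by
        rw [hσ]
        rfl
      rw [e3, blk_mul ((dT_inv_tri P).mul (hR.tri (π s))) (dT_tri P),
        blk_mul (dT_inv_tri P) (hR.tri (π s)), blk_dT, blk_dT_inv, e1, Matrix.mul_smul,
        Matrix.smul_mul, ← ten_mul, ← ten_mul, hq']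
      rfl
  -- the eigenvalues of the lift
  have hq0 : ∀ s, (q' s).1 1 0 = 0 := fun s => by
    rw [hq']
    exact hP s
  have hq1 : ∀ s, (q' s).1 0 0 * (q' s).1 1 1 = 1 := by
    intro s
    have e1 : (q' s).1.det = 1 := by
      rw [hq', Units.val_mul, Units.val_mul, Matrix.det_mul, Matrix.det_mul, hdet, mul_one,
        ← Matrix.det_mul, ← Units.val_mul, inv_mul_cancel, Units.val_one, Matrix.det_one]
    rw [Matrix.det_fin_two, hq0, mul_zero, sub_zero] at e1
    exact e1
  have hq2 : ∀ s, IsIntegral ℤ (((q' s).1 0 0 + (q' s).1 1 1) ^ 2 / 1) := by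
    intro s
    have e1 := ht (π s) (q s) (hq s)
    have e2 : (q s).1.trace = (q' s).1.trace := by
      rw [hq', Units.val_mul, Units.val_mul, Matrix.trace_mul_comm, ← Matrix.mul_assoc,
        ← Units.val_mul, mul_inv_cancel, Units.val_one, Matrix.one_mul]
    rw [hdet, e2, Matrix.trace_fin_two] at e1
    exact e1
  have hq3 : ∀ s i, IsIntegral ℤ ((q' s).1 i i) := by
    intro s i
    have e1 := hq1 s
    fin_cases i
    · refine integral_eig one_ne_zero (x := (q' s).1 0 0) ?_ (hq2 s) isIntegral_one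
      linear_combination -e1
    · refine integral_eig one_ne_zero (x := (q' s).1 1 1) ?_ (hq2 s) isIntegral_one
      linear_combination -e1
  -- the representation of the double cover
  let ρ : Δ →* GL (TI d ⊕ Fin 2) K := (sumT σ q').toHomUnits
  have r11 : ∀ g i j, (ρ g).1 (Sum.inl i) (Sum.inl j) = (σ g).1 i j := fun g i j => rfl
  have r12 : ∀ g i j, (ρ g).1 (Sum.inl i) (Sum.inr j) = 0 := fun g i j => rfl
  have r21 : ∀ g i j, (ρ g).1 (Sum.inr i) (Sum.inl j) = 0 := fun g i j => rfl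
  have r22 : ∀ g i j, (ρ g).1 (Sum.inr i) (Sum.inr j) = (q' g).1 i j := fun g i j => rfl
  have htri : ∀ g, (ρ g : Matrix (TI d ⊕ Fin 2) (TI d ⊕ Fin 2) K).BlockTriangular
      (ord (d := d)) := by
    intro g x y hxy
    rcases x with ⟨k, i⟩ | i <;> rcases y with ⟨l, j⟩ | j
    · rw [r11]
      have h3 : toLex ((l : ℕ), tb j) < toLex ((k : ℕ), tb i) := hxy
      rw [Prod.Lex.toLex_lt_toLex] at h3
      rcases h3 with h3 | ⟨h3, h4⟩
      · exact hσtri g h3
      · have h5 : l = k := Fin.ext h3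
        subst h5
        obtain ⟨c, -, h6⟩ := hblk g l
        have h7 : (σ g).1 ⟨l, i⟩ ⟨l, j⟩ = blk (σ g).1 l i j := rfl
        rw [h7, h6, Matrix.smul_apply, ten_bt (hq0 g) h4, smul_zero]
    · exact r12 g _ j
    · exact r21 g i _
    · rw [r22]
      have h3 : toLex (r, (j : ℕ)) < toLex (r, (i : ℕ)) := hxy
      rw [Prod.Lex.toLex_lt_toLex] at h3
      have h4 : (j : ℕ) < i := by
        rcases h3 with h3 | h3
        · exact absurd h3 (lt_irrefl _)
        · exact h3.2
      have h5 : i = 1 ∧ j = 0 := by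
        revert h4
        fin_cases i <;> fin_cases j <;> simp
      rw [h5.1, h5.2]
      exact hq0 g
  have hint : ∀ s i, IsIntegral ℤ
      ((ρ s : Matrix (TI d ⊕ Fin 2) (TI d ⊕ Fin 2) K) i i) := by
    intro s x
    rcases x with ⟨k, i⟩ | i
    · obtain ⟨c, hci, h6⟩ := hblk s k
      have h7 : (ρ s).1 (Sum.inl ⟨k, i⟩) (Sum.inl ⟨k, i⟩) = blk (σ s).1 k i i := rfl
      rw [h7, h6, Matrix.smul_apply, ten_apply, smul_eq_mul]
      exact hci.mul (IsIntegral.prod _ fun t _ => hq3 s (i t))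
    · exact hq3 s i
  -- the kernel
  have hz1 : z ≠ 1 := by
    intro h
    rw [h, map_one, Units.val_one] at hz'
    have h3 := congrFun (congrFun hz' 0) 0
    rw [Matrix.neg_apply, Matrix.one_apply_eq] at h3
    have h4 : (2 : K) = 0 := by linear_combination h3
    exact two_ne_zero h4
  have hinj : Function.Injective ρ := (injective_iff_map_eq_one ρ).2 fun g hg => by
    have h3 : σ g = 1 := by
      refine Units.ext (Matrix.ext fun i j => ?_)
      rw [← r11, hg, Units.val_one, Units.val_one, Matrix.one_apply, Matrix.one_apply]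
      by_cases h : i = j
      · rw [if_pos h, if_pos (congrArg Sum.inl h)]
      · rw [if_neg h, if_neg fun h' => h (Sum.inl_injective h')]
    have h3' : τ (π g) = 1 := (MulAut.conj (dT d P)⁻¹).injective (h3.trans (map_one _).symm)
    have h4 : q' g = 1 := by
      refine Units.ext (Matrix.ext fun i j => ?_)
      rw [← r22, hg, Units.val_one, Units.val_one, Matrix.one_apply, Matrix.one_apply]
      by_cases h : i = j
      · rw [if_pos h, if_pos (congrArg Sum.inr h)]
      · rw [if_neg h, if_neg fun h' => h (Sum.inr_injective h')]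
    have h4' : q g = 1 := (MulAut.conj P⁻¹).injective (h4.trans (map_one _).symm)
    have h5 : γ (π g) = 1 := by rw [← hq, h4', map_one]
    obtain ⟨m, hm, h6⟩ := hker _ h3' h5
    rcases hker' g (htf _ m hm h6) with h7 | h7
    · exact h7
    · exfalso
      rw [← h7, h4', Units.val_one] at hz'
      have h8 := congrFun (congrFun hz' 0) 0
      rw [Matrix.neg_apply, Matrix.one_apply_eq] at h8
      have h9 : (2 : K) = 0 := by linear_combination h8
      exact two_ne_zero h9
  obtain ⟨H, hN, hF, m, hm⟩ := trn_order (hfgΔ hfg) (ord (d := d)) ρ ord_inj hinj htri hint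
  -- the image of the subgroup
  have hzz : z * z = 1 := by
    rcases hker' (z * z) (by rw [map_mul, hz, one_mul]) with h3 | h3
    · exact h3
    · exact absurd (mul_eq_left.1 h3) hz1
  have hzH : z ∉ H := fun h3 => hz1 (by
    have h4 := pz_tf m hm ⟨z, h3⟩ 2 two_pos (Subtype.ext (by
      show z ^ 2 = 1
      rw [pow_two]
      exact hzz))
    exact congrArg Subtype.val h4)
  have hbij : Function.Bijective (π.subgroupMap H) := by
    refine ⟨(injective_iff_map_eq_one _).2 fun g hg => ?_, π.subgroupMap_surjective H⟩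
    have h3 : π g.1 = 1 := congrArg Subtype.val hg
    rcases hker' g.1 h3 with h4 | h4
    · exact Subtype.ext h4
    · exact absurd (h4 ▸ g.2) hzH
  let e : H ≃* H.map π := MulEquiv.ofBijective (π.subgroupMap H) hbij
  refine ⟨H.map π, hN.map π hπ, ⟨fun h3 => hF.index_ne_zero ?_⟩, m,
    PZ.of_injective m e.symm.toMonoidHom e.symm.injective hm⟩
  exact Nat.eq_zero_of_zero_dvd (h3 ▸ H.index_map_dvd hπ)

/-- RKT. Extensions of torsionfree groups of semisimple rank one with integral invariants and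
commutators with lifts of trace `2` by groups in `𝒩`. -/
theorem rkt (hTfk : TfkStatement.{u}) {K : Type u} [Field K]
    [CharZero K] [IsAlgClosed K] {r : ℕ} {d : Fin r → ℕ} (G Q : Type u) [Group G] [Group Q]
    (p : G →* Q) (hN : InN p.ker) (htf : TorsionFree Q)
    (τ : Q →* GL (TI d) K) (γ : Q →* PGL(Fin 2, K)) (hR : RankT d τ γ)
    (hker : ∀ g, τ g = 1 → γ g = 1 → ∃ m, 0 < m ∧ g ^ m = 1)
    (ht : ∀ g (B : GL (Fin 2) K), ProjGenLinGroup.mk B = γ g →
      IsIntegral ℤ (B.1.trace ^ 2 / B.1.det))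
    (hc : ∀ (Gt : Type u) [Group Gt] (q : Gt →* Q) (B : Gt →* GL (Fin 2) K),
      (∀ x, ProjGenLinGroup.mk (B x) = γ (q x)) → ∀ c ∈ commutator Gt, (B c).1.trace = 2)
    (h1 : ∀ g k, IsIntegral ℤ (blk (τ g).1 k).det) : InRC G := by
  refine ((main.{u}).2.2.2.1 G).2.2.2.2.2.1 fun T => ⟨Subgroup.closure (T : Set G),
    fun s hs => Subgroup.subset_closure hs, inRC_of_inN ?_⟩
  have hfg : Group.FG (Subgroup.closure (T : Set G)) := (Group.fg_iff_subgroup_fg _).2 ⟨T, rfl⟩
  let r : Subgroup.closure (T : Set G) →* Q := p.comp (Subgroup.subtype _)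
  have hfgr : Group.FG r.range := Group.fg_range r
  have htfr : TorsionFree r.range := fun g m hm h =>
    Subtype.ext (htf g.1 m hm (congrArg Subtype.val h))
  obtain ⟨H, _, hF, m, hm⟩ := rkt_pz r.range hfgr htfr (τ.comp r.range.subtype)
    (γ.comp r.range.subtype) (hR.comp _) (fun g h3 h4 => by
      obtain ⟨m, hm, h5⟩ := hker g.1 h3 h4
      exact ⟨m, hm, Subtype.ext h5⟩) (fun g B h3 => ht g.1 B h3)
    (fun Gt _ q B h3 => hc Gt (r.range.subtype.comp q) B h3) (fun g k => h1 g.1 k)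
  have hsur : Function.Surjective r.rangeRestrict := r.rangeRestrict_surjective
  refine hTfk _ _ r.rangeRestrict htfr ?_ (H.comap r.rangeRestrict) m ?_
    (MonoidHom.ker_le_comap r.rangeRestrict H) ?_
  · let i : r.rangeRestrict.ker →* p.ker :=
      { toFun := fun x => ⟨x.1.1, congrArg Subtype.val x.2⟩
        map_one' := rfl
        map_mul' := fun _ _ => rfl }
    refine TT.H66.inN_of_injective i (fun x y hxy => ?_) hN
    exact Subtype.ext (Subtype.ext (congrArg (fun w : p.ker => (w : G)) hxy))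
  · refine ⟨?_⟩
    rw [Subgroup.index_comap_of_surjective H hsur]
    exact hF.index_ne_zero
  · rw [Subgroup.map_comap_eq_self_of_surjective hsur]
    exact hm

/-! ### The condition on the edges of `gpx` -/

/-- The determinants of the diagonal blocks. -/
theorem exists_charsT {K : Type v} [Field K] {r : ℕ} {d : Fin r → ℕ} {G : Type u} [Group G]
    (τ : G →* GL (TI d) K)
    (htri : ∀ g, (τ g : Matrix (TI d) (TI d) K).BlockTriangular Sigma.fst) :
    ∃ χ : Fin r → G →* Kˣ, ∀ k g,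
      ((χ k g : Kˣ) : K) = (blk (τ g).1 k).det :=
  ⟨fun k => (Matrix.detMonoidHom.comp (blkHom τ htri k)).toHomUnits, fun k g => rfl⟩

/-- The condition on the edges in `gpx` over an algebraically closed field, with the determinants
of the blocks as characters. -/
theorem edgesP (hTfk : TfkStatement.{u}) {P : Type u} [Group P]
    {K : Type u} [Field K] [CharZero K] [IsAlgClosed K] {r : ℕ} {d : Fin r → ℕ} {Γ : Type u}
    [Group Γ] {M : Type u} [Group M] (β : Γ →* M) (τ : Γ →* GL (TI d) K)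
    (γ : Γ →* PGL(Fin 2, K)) (hR : RankT d τ γ)
    (htf : ∀ g (m : ℕ), 0 < m → β g ^ m = 1 → τ g ^ m = 1 → γ g ^ m = 1 →
      β g = 1 ∧ τ g = 1 ∧ γ g = 1)
    (hN : InN (β.prod (τ.prod γ)).ker) (φ : Γ →* P)
    (hφ : ∀ g, φ g = 1 → ∃ m, 0 < m ∧ β g ^ m = 1) :
    ∃ χ : Fin r → Γ →* Kˣ, ∀ (G : Type u) [Group G] (f : G →* Γ), Function.Injective f →
      (∀ g, ∃ m, 0 < m ∧ φ (f g) ^ m = 1) →
      (∀ g (B : GL (Fin 2) K), ProjGenLinGroup.mk B = γ (f g) →
        IsIntegral ℤ (B.1.trace ^ 2 / B.1.det)) →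
      (∀ (Gt : Type u) [Group Gt] (q : Gt →* G) (B : Gt →* GL (Fin 2) K),
        (∀ x, ProjGenLinGroup.mk (B x) = γ (f (q x))) → ∀ c ∈ commutator Gt,
          (B c).1.trace = 2) →
      (∀ j g, IsIntegral ℤ ((χ j (f g) : Kˣ) : K)) → InRC G := by
  obtain ⟨χ, hχ⟩ := exists_charsT τ hR.tri
  refine ⟨χ, fun G _ f hf h1 h2 h3 h4 => ?_⟩
  let ω : G →* M × GL (TI d) K × PGL(Fin 2, K) := (β.prod (τ.prod γ)).comp f
  let τ' : ω.range →* GL (TI d) K :=
    (MonoidHom.fst _ _).comp ((MonoidHom.snd _ _).comp ω.range.subtype)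
  let γ' : ω.range →* PGL(Fin 2, K) :=
    (MonoidHom.snd _ _).comp ((MonoidHom.snd _ _).comp ω.range.subtype)
  have hτ' : ∀ g, τ' (ω.rangeRestrict g) = τ (f g) := fun g => rfl
  have hγ' : ∀ g, γ' (ω.rangeRestrict g) = γ (f g) := fun g => rfl
  have hs : Function.Surjective ω.rangeRestrict := ω.rangeRestrict_surjective
  refine rkt hTfk (d := d) G ω.range ω.rangeRestrict ?_ ?_ τ' γ' ⟨fun x => ?_,
    fun x k => ?_⟩ (fun x h5 h6 => ?_) (fun x B h5 => ?_) (fun Gt _ q B h5 c hcc => ?_)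
    (fun x k => ?_)
  · let i : ω.rangeRestrict.ker →* (β.prod (τ.prod γ)).ker :=
      { toFun := fun x => ⟨f x.1, congrArg Subtype.val x.2⟩
        map_one' := Subtype.ext (map_one f)
        map_mul' := fun x y => Subtype.ext (map_mul f x.1 y.1) }
    refine TT.H66.inN_of_injective i (fun x y hxy => ?_) hN
    exact Subtype.ext (hf (congrArg (fun w : (β.prod (τ.prod γ)).ker => (w : Γ)) hxy))
  · refine (range_tf ω).2 fun g m hm hg => ?_
    have e1 : β (f g) ^ m = 1 := congrArg Prod.fst hg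
    have e2 : τ (f g) ^ m = 1 := congrArg (fun x => x.2.1) hg
    have e3 : γ (f g) ^ m = 1 := congrArg (fun x => x.2.2) hg
    obtain ⟨e4, e5, e6⟩ := htf (f g) m hm e1 e2 e3
    exact Prod.ext e4 (Prod.ext e5 e6)
  · obtain ⟨g, rfl⟩ := hs x
    rw [hτ']
    exact hR.tri (f g)
  · obtain ⟨g, rfl⟩ := hs x
    rw [hτ', hγ']
    exact hR.lift (f g) k
  · obtain ⟨g, rfl⟩ := hs x
    rw [hτ'] at h5
    rw [hγ'] at h6
    obtain ⟨m, hm, h7⟩ := h1 g
    obtain ⟨m', hm', h8⟩ := hφ (f g ^ m) (by rw [map_pow]; exact h7)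
    refine ⟨m * m', Nat.mul_pos hm hm', Subtype.ext (Prod.ext ?_ (Prod.ext ?_ ?_))⟩
    · show β (f g) ^ (m * m') = 1
      rw [pow_mul, ← map_pow]
      exact h8
    · show τ (f g) ^ (m * m') = 1
      rw [h5, one_pow]
    · show γ (f g) ^ (m * m') = 1
      rw [h6, one_pow]
  · obtain ⟨g, rfl⟩ := hs x
    exact h2 g B h5
  · -- pull back to the preimage in `G`
    let E : Subgroup (Gt × G) :=
      { carrier := {y | q y.1 = ω.rangeRestrict y.2}
        one_mem' := by
          show q 1 = ω.rangeRestrict 1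
          rw [map_one, map_one]
        mul_mem' := fun {y y'} hy hy' => by
          show q (y.1 * y'.1) = ω.rangeRestrict (y.2 * y'.2)
          have e1 : q y.1 = ω.rangeRestrict y.2 := hy
          have e2 : q y'.1 = ω.rangeRestrict y'.2 := hy'
          rw [map_mul, map_mul, e1, e2]
        inv_mem' := fun {y} hy => by
          show q y.1⁻¹ = ω.rangeRestrict y.2⁻¹
          have e1 : q y.1 = ω.rangeRestrict y.2 := hy
          rw [map_inv, map_inv, e1] }
    let p₁ : E →* Gt := (MonoidHom.fst _ _).comp E.subtype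
    have hp₁ : Function.Surjective p₁ := fun y => by
      obtain ⟨g, hg⟩ := hs (q y)
      exact ⟨⟨(y, g), hg.symm⟩, rfl⟩
    have h6 : c ∈ (commutator E).map p₁ := by
      rw [commutator_def, Subgroup.map_commutator, Subgroup.map_top_of_surjective p₁ hp₁]
      exact hcc
    obtain ⟨c', hc', rfl⟩ := h6
    refine h3 E ((MonoidHom.snd _ _).comp E.subtype) (B.comp p₁) (fun y => ?_) c' hc'
    have e1 : q y.1.1 = ω.rangeRestrict y.1.2 := y.2
    show ProjGenLinGroup.mk (B y.1.1) = γ (f y.1.2)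
    rw [h5, e1, hγ']
  · obtain ⟨g, rfl⟩ := hs x
    have h5 := h4 k g
    rw [hχ] at h5
    exact h5

/-- The condition on the edges in `gpx`. -/
theorem edgesT (hTfk : TfkStatement.{u}) {A : Type u} [CommRing A]
    {K : Type u} [Field K] [CharZero K] [IsAlgClosed K] {r : ℕ} {d : Fin r → ℕ} {Γ : Type u}
    [Group Γ] {M : Type u} [Group M] (β : Γ →* M) (τ : Γ →* GL (TI d) K)
    (γ : Γ →* PGL(Fin 2, K)) (hR : RankT d τ γ)
    (htf : ∀ g (m : ℕ), 0 < m → β g ^ m = 1 → τ g ^ m = 1 → γ g ^ m = 1 →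
      β g = 1 ∧ τ g = 1 ∧ γ g = 1)
    (hN : InN (β.prod (τ.prod γ)).ker) (φ : Γ →* GL (Fin 2) A)
    (hφ : ∀ g, φ g = 1 → ∃ m, 0 < m ∧ β g ^ m = 1) :
    ∃ χ : Fin r → Γ →* Kˣ, ∀ (G : Type u) [Group G] (f : G →* Γ), Function.Injective f →
      (∀ g, ∃ m, 0 < m ∧ φ (f g) ^ m = 1) →
      (∀ g (B : GL (Fin 2) K), ProjGenLinGroup.mk B = γ (f g) →
        IsIntegral ℤ (B.1.trace ^ 2 / B.1.det)) →
      (∀ (Gt : Type u) [Group Gt] (q : Gt →* G) (B : Gt →* GL (Fin 2) K),
        (∀ x, ProjGenLinGroup.mk (B x) = γ (f (q x))) → ∀ c ∈ commutator Gt,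
          (B c).1.trace = 2) →
      (∀ j g, IsIntegral ℤ ((χ j (f g) : Kˣ) : K)) → InRC G :=
  edgesP hTfk β τ γ hR htf hN φ hφ

end Pool.Agent.NegK.RK
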