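import Pool.Agent.Lib.MP_28303a_al.RK.GpxP
import Pool.Agent.Lib.MP_28303a_al.RK.Rkt
import Pool.Agent.Lib.MP_28303a_al.RK.Tfk

/-! # Linear groups of semisimple rank one and arboreal groups: the reduction theorem -/

set_option autoImplicit false
set_option linter.unusedSectionVars false
set_option linter.unusedVariables false

namespace Pool.Agent.NegK.RK

universe u v w

open Matrix
open scoped MatrixGroups
open Pool.Agent.NegK.TW Pool.Agent.NegK.TT Pool.Agent.NegK.NT Pool.Agent.NegK.NT5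

theorem map_gl_eq_oneP {K L : Type u} [Field K] [Field L] (e : K →+* L) {ι : Type} [Fintype ι]
    [DecidableEq ι] {x : GL ι K} (h : GeneralLinearGroup.map e x = 1) : x = 1 := by
  refine Units.ext (Matrix.ext fun i j => e.injective ?_)
  have h1 : (GeneralLinearGroup.map e x).1 i j = (1 : Matrix ι ι L) i j := by
    rw [h]
    rfl
  have h2 : e (x.1 i j) = (1 : Matrix ι ι L) i j := h1
  rw [h2, Units.val_one, Matrix.one_apply, Matrix.one_apply]
  split_ifs
  · rw [map_one]
  · rw [map_zero]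

theorem rankT_mapP {K L : Type u} [Field K] [Field L] (e : K →+* L) {r : ℕ} {d : Fin r → ℕ}
    {Γ : Type u} [Group Γ] {τ : Γ →* GL (TI d) K} {γ : Γ →* PGL(Fin 2, K)}
    (h : RankT d τ γ) : RankT d ((GeneralLinearGroup.map e).comp τ)
      ((ProjGenLinGroup.map e).comp γ) := by
  refine ⟨fun g i j hij => ?_, fun g k => ?_⟩
  · show e ((τ g).1 i j) = 0
    rw [h.tri g hij, map_zero]
  · obtain ⟨B, c, h1, h2⟩ := h.lift g k
    refine ⟨GeneralLinearGroup.map e B, e c, ?_, fun i j => ?_⟩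
    · show _ = ProjGenLinGroup.map e (γ g)
      rw [← h1, ProjGenLinGroup.map_mk]
    · show e ((τ g).1 ⟨k, i⟩ ⟨k, j⟩) = _
      rw [h2, map_mul]
      refine congrArg₂ _ rfl ?_
      show e (∏ t, B.1 (i t) (j t)) = ∏ t, e (B.1 (i t) (j t))
      rw [map_prod]

theorem tfkP : TfkStatement.{u} := fun S Q _ _ q htf hk H n hfi hH h =>
  tfk S Q q htf hk H n hfi hH h

open Rkt in
/-- The condition on the edges in `gpxP` over an algebraically closed field, with the determinants
of the blocks as characters. -/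
theorem edgesTP (hTfk : TfkStatement.{u}) {K : Type u} [Field K] [CharZero K] [IsAlgClosed K]
    {r : ℕ} {d : Fin r → ℕ} {Γ : Type u}
    [Group Γ] {M : Type u} [Group M] (β : Γ →* M) (τ : Γ →* GL (TI d) K)
    (γ : Γ →* PGL(Fin 2, K)) (hR : RankT d τ γ)
    (htf : ∀ g (m : ℕ), 0 < m → β g ^ m = 1 → τ g ^ m = 1 → γ g ^ m = 1 →
      β g = 1 ∧ τ g = 1 ∧ γ g = 1)
    (hN : InN (β.prod (τ.prod γ)).ker) :
    ∃ χ : Fin r → Γ →* Kˣ, ∀ (G : Type u) [Group G] (f : G →* Γ), Function.Injective f →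
      (∀ g, ∃ m, 0 < m ∧ β (f g) ^ m = 1) →
      (∀ g (B : GL (Fin 2) K), ProjGenLinGroup.mk B = γ (f g) →
        IsIntegral ℤ (B.1.trace ^ 2 / B.1.det)) →
      (∀ (Gt : Type u) [Group Gt] (q : Gt →* G) (B : Gt →* GL (Fin 2) K),
        (∀ x, ProjGenLinGroup.mk (B x) = γ (f (q x))) → ∀ c ∈ commutator Gt,
          (B c).1.trace = 2) →
      (∀ j g, IsIntegral ℤ ((χ j (f g) : Kˣ) : K)) → InRC G := by
  obtain ⟨χ, hχ⟩ := exists_charsT τ hR.tri
  refine ⟨χ, fun G _ f hf h1 h2 h3 h4 => ?_⟩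
  let ω : G →* M × GL (TI d) K × PGL(Fin 2, K) := (β.prod (τ.prod γ)).comp f
  let τ' : ω.range →* GL (TI d) K :=
    (MonoidHom.fst _ _).comp ((MonoidHom.snd _ _).comp ω.range.subtype)
  let γ' : ω.range →* PGL(Fin 2, K) :=
    (MonoidHom.snd _ _).comp ((MonoidHom.snd _ _).comp ω.range.subtype)
  have hτ' : ∀ g, τ' (ω.rangeRestrict g) = τ (f g) := fun g => rfl
  have hγ' : ∀ g, γ' (ω.rangeRestrict g) = γ (f g) := fun g => rfl
  have hs : Function.Surjective ω.rangeRestrict := ω.rangeRestrict_surjective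
  refine rkt hTfk (d := d) G ω.range ω.rangeRestrict ?_ ?_ τ' γ' ⟨fun x => ?_,
    fun x k => ?_⟩ (fun x h5 h6 => ?_) (fun x B h5 => ?_) (fun Gt _ q B h5 c hcc => ?_)
    (fun x k => ?_)
  · let i : ω.rangeRestrict.ker →* (β.prod (τ.prod γ)).ker :=
      { toFun := fun x => ⟨f x.1, congrArg Subtype.val x.2⟩
        map_one' := Subtype.ext (map_one f)
        map_mul' := fun x y => Subtype.ext (map_mul f x.1 y.1) }
    refine TT.H66.inN_of_injective i (fun x y hxy => ?_) hN
    exact Subtype.ext (hf (congrArg (fun w : (β.prod (τ.prod γ)).ker => (w : Γ)) hxy))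
  · refine (range_tf ω).2 fun g m hm hg => ?_
    have e1 : β (f g) ^ m = 1 := congrArg Prod.fst hg
    have e2 : τ (f g) ^ m = 1 := congrArg (fun x => x.2.1) hg
    have e3 : γ (f g) ^ m = 1 := congrArg (fun x => x.2.2) hg
    obtain ⟨e4, e5, e6⟩ := htf (f g) m hm e1 e2 e3
    exact Prod.ext e4 (Prod.ext e5 e6)
  · obtain ⟨g, rfl⟩ := hs x
    rw [hτ']
    exact hR.tri (f g)
  · obtain ⟨g, rfl⟩ := hs x
    rw [hτ', hγ']
    exact hR.lift (f g) k
  · obtain ⟨g, rfl⟩ := hs x
    rw [hτ'] at h5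
    rw [hγ'] at h6
    obtain ⟨m, hm, h7⟩ := h1 g
    refine ⟨m, hm, Subtype.ext (Prod.ext h7 (Prod.ext ?_ ?_))⟩
    · show τ (f g) ^ m = 1
      rw [h5, one_pow]
    · show γ (f g) ^ m = 1
      rw [h6, one_pow]
  · obtain ⟨g, rfl⟩ := hs x
    exact h2 g B h5
  · -- pull back to the preimage in `G`
    let E : Subgroup (Gt × G) :=
      { carrier := {y | q y.1 = ω.rangeRestrict y.2}
        one_mem' := by
          show q 1 = ω.rangeRestrict 1
          rw [map_one, map_one]
        mul_mem' := fun {y y'} hy hy' => by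
          show q (y.1 * y'.1) = ω.rangeRestrict (y.2 * y'.2)
          have e1 : q y.1 = ω.rangeRestrict y.2 := hy
          have e2 : q y'.1 = ω.rangeRestrict y'.2 := hy'
          rw [map_mul, map_mul, e1, e2]
        inv_mem' := fun {y} hy => by
          show q y.1⁻¹ = ω.rangeRestrict y.2⁻¹
          have e1 : q y.1 = ω.rangeRestrict y.2 := hy
          rw [map_inv, map_inv, e1] }
    let p₁ : E →* Gt := (MonoidHom.fst _ _).comp E.subtype
    have hp₁ : Function.Surjective p₁ := fun y => by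
      obtain ⟨g, hg⟩ := hs (q y)
      exact ⟨⟨(y, g), hg.symm⟩, rfl⟩
    have h6 : c ∈ (commutator E).map p₁ := by
      rw [commutator_def, Subgroup.map_commutator, Subgroup.map_top_of_surjective p₁ hp₁]
      exact hcc
    obtain ⟨c', hc', rfl⟩ := h6
    refine h3 E ((MonoidHom.snd _ _).comp E.subtype) (B.comp p₁) (fun y => ?_) c' hc'
    have e1 : q y.1.1 = ω.rangeRestrict y.1.2 := y.2
    show ProjGenLinGroup.mk (B y.1.1) = γ (f y.1.2)
    rw [h5, e1, hγ']
  · obtain ⟨g, rfl⟩ := hs x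
    have h5 := h4 k g
    rw [hχ] at h5
    exact h5

section

variable {P : Type u} [Group P] (hP : Arb P)
  {K : Type u} [Field K] [CharZero K] {r : ℕ} {d : Fin r → ℕ} {Γ : Type u} [Group Γ]
  (β : Γ →* P)
  (τ : Γ →* GL (TI d) K) (γ : Γ →* PGL(Fin 2, K)) (hR1 : RankT d τ γ)
  (htf : TorsionFree (β.prod (τ.prod γ)).range) (hker : InN (β.prod (τ.prod γ)).ker)

include hP hR1 htf hker

/-- The theorem for `K₀` over algebraically closed fields. -/
theorem rktP_closed [IsAlgClosed K] (k : Type u) [Ring k] (hk : RegularRing k) :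
    ⨆ H : {H : Subgroup Γ // H.FG ∧ AlgP γ H}, img k H.1 = ⊤ := by
  obtain ⟨χ, hχ⟩ := edgesTP tfkP β τ γ hR1 (fun g l hl h1 h2 h3 => by
    have h4 := (range_tf (β.prod (τ.prod γ))).1 htf g l hl (Prod.ext h1 (Prod.ext h2 h3))
    exact ⟨congrArg Prod.fst h4, congrArg (fun x => x.2.1) h4, congrArg (fun x => x.2.2) h4⟩)
    hker
  exact gpxP P hP K Γ β γ χ hχ k hk

/-- The theorem for `K₀`. -/
theorem rktP_zero (k : Type u) [Ring k] (hk : RegularRing k) :
    ⨆ H : {H : Subgroup Γ // H.FG ∧ AlgP γ H}, img k H.1 = ⊤ := by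
  let L := AlgebraicClosure K
  let e : K →+* L := algebraMap K L
  have hcz : CharZero L := charZero_of_injective_algebraMap e.injective
  let τ' : Γ →* GL (TI d) L := (GeneralLinearGroup.map e).comp τ
  let γ' : Γ →* PGL(Fin 2, L) := (ProjGenLinGroup.map e).comp γ
  have h1 : ∀ g, τ' g = 1 ↔ τ g = 1 := fun g => ⟨fun h => map_gl_eq_oneP e h, fun h => by
    show GeneralLinearGroup.map e (τ g) = 1
    rw [h, map_one]⟩
  have h2 : ∀ g, γ' g = 1 ↔ γ g = 1 := fun g =>
    ⟨fun h => P2.map_injective e (h.trans (map_one _).symm), fun h => by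
      show ProjGenLinGroup.map e (γ g) = 1
      rw [h, map_one]⟩
  have h3 : ∀ g, β.prod (τ'.prod γ') g = 1 ↔ β.prod (τ.prod γ) g = 1 := by
    intro g
    constructor
    · intro h
      have a1 : β g = 1 := congrArg Prod.fst h
      have a2 : τ' g = 1 := congrArg (fun x => x.2.1) h
      have a3 : γ' g = 1 := congrArg (fun x => x.2.2) h
      exact Prod.ext a1 (Prod.ext ((h1 g).1 a2) ((h2 g).1 a3))
    · intro h
      have a1 : β g = 1 := congrArg Prod.fst h
      have a2 : τ g = 1 := congrArg (fun x => x.2.1) h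
      have a3 : γ g = 1 := congrArg (fun x => x.2.2) h
      exact Prod.ext a1 (Prod.ext ((h1 g).2 a2) ((h2 g).2 a3))
  rw [eq_top_iff, ← rktP_closed hP β τ' γ' (rankT_mapP e hR1) ?_ ?_ k hk]
  · refine iSup_le fun H => ?_
    refine le_iSup (fun H : {H : Subgroup Γ // H.FG ∧ AlgP γ H} => img k H.1)
      ⟨H.1, H.2.1, fun h hh B hB => ?_⟩
    have h4 := H.2.2 h hh (GeneralLinearGroup.map e B) (by
      show _ = ProjGenLinGroup.map e (γ h)
      rw [← hB, ProjGenLinGroup.map_mk])
    have h5 : (GeneralLinearGroup.map e B).1.trace ^ 2 / (GeneralLinearGroup.map e B).1.det =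
        e (B.1.trace ^ 2 / B.1.det) := by
      rw [Matrix.trace_fin_two, Matrix.det_fin_two, Matrix.trace_fin_two, Matrix.det_fin_two,
        map_div₀, map_pow, map_add, map_sub, map_mul, map_mul]
      rfl
    rw [h5] at h4
    exact (alg_iff e _).1 h4
  · refine (range_tf _).2 fun g l hl hg => ?_
    rw [h3]
    refine (range_tf _).1 htf g l hl ?_
    rw [← map_pow] at hg ⊢
    exact (h3 _).1 hg
  · have h4 : (β.prod (τ'.prod γ')).ker = (β.prod (τ.prod γ)).ker := by
      ext g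
      rw [MonoidHom.mem_ker, MonoidHom.mem_ker, h3]
    rw [h4]
    exact hker

/-- The reduction theorem for groups of semisimple rank one, tensor form, with an arboreal group. -/
theorem rkatP (R : Type u) [Ring R] (hR : RegularRing R) (i : ℕ) :
    ⨆ H : {H : Subgroup Γ // H.FG ∧ AlgP γ H}, ((KNegFun i).hom (mdr R H.1.subtype)).range = ⊤ :=
  ER71.kneg_of_gen (fun H => H.FG ∧ AlgP γ H) (fun k _ hk =>
    rktP_zero hP β τ γ hR1 htf hker k hk) i R hR

end

end Pool.Agent.NegK.RK
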