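import Pool.Agent.Lib.MP_28303a_al.RK.EdgW
import Pool.Agent.Lib.MP_28303a_al.RK.RkatP

/-! # Groups of semisimple rank one and arboreal groups whose finitely generated torsion subgroups
are finite, virtually polycyclic kernels: the reduction theorem -/

set_option autoImplicit false
set_option linter.unusedSectionVars false
set_option linter.unusedVariables false

namespace Pool.Agent.NegK.RK

universe u v w

open Matrix
open scoped MatrixGroups
open Pool.Agent.NegK.TW Pool.Agent.NegK.TT Pool.Agent.NegK.NT Pool.Agent.NegK.NT5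

section

variable {P : Type u} [Group P] (hP : Arb P)
  (hB : ∀ S : Subgroup P, S.FG → (∀ x ∈ S, ∃ m, 0 < m ∧ x ^ m = 1) → Finite S)

include hP hB

/-- The theorem for `K₀` over algebraically closed fields. -/
theorem rktW_closed {K : Type u} [Field K] [CharZero K] [IsAlgClosed K] {r : ℕ} {d : Fin r → ℕ}
    {Γ D : Type u} [Group Γ] [Group D] (δ : Γ →* D) (β : Γ →* P) (τ : Γ →* GL (TI d) K)
    (γ : Γ →* PGL(Fin 2, K)) (hR1 : RankT d τ γ) (n : ℕ) (hV : VK n δ (β.prod (τ.prod γ)))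
    (k : Type u) [Ring k] (hk : RegularRing k) :
    ⨆ H : {H : Subgroup Γ // H.FG ∧ AlgP γ H}, img k H.1 = ⊤ := by
  obtain ⟨χ, hχ⟩ := edgW δ β τ γ hR1 n hV hB
  exact gpxP P hP K Γ β γ χ hχ k hk

/-- The theorem for `K₀`; `τ` is over an extension of the field of `γ`. -/
theorem rktW_zero {K L₀ : Type u} [Field K] [CharZero K] [Field L₀] (e₀ : K →+* L₀) {r : ℕ}
    {d : Fin r → ℕ} {Γ D : Type u} [Group Γ] [Group D] (δ : Γ →* D) (β : Γ →* P)
    (τ : Γ →* GL (TI d) L₀) (γ : Γ →* PGL(Fin 2, K))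
    (hR1 : RankT d τ ((ProjGenLinGroup.map e₀).comp γ)) (n : ℕ)
    (hV : VK n δ (β.prod (τ.prod γ)))
    (k : Type u) [Ring k] (hk : RegularRing k) :
    ⨆ H : {H : Subgroup Γ // H.FG ∧ AlgP γ H}, img k H.1 = ⊤ := by
  have hcz₀ : CharZero L₀ := charZero_of_injective_ringHom e₀.injective
  let L := AlgebraicClosure L₀
  let a : L₀ →+* L := algebraMap L₀ L
  have hcz : CharZero L := charZero_of_injective_algebraMap a.injective
  let τ' : Γ →* GL (TI d) L := (GeneralLinearGroup.map a).comp τ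
  let γ' : Γ →* PGL(Fin 2, L) := (ProjGenLinGroup.map a).comp ((ProjGenLinGroup.map e₀).comp γ)
  have h1 : ∀ g, τ' g = 1 ↔ τ g = 1 := fun g => ⟨fun h => map_gl_eq_oneP a h, fun h => by
    show GeneralLinearGroup.map a (τ g) = 1
    rw [h, map_one]⟩
  have h2 : ∀ g, γ' g = 1 ↔ γ g = 1 := fun g =>
    ⟨fun h => P2.map_injective e₀ (Eq.trans (P2.map_injective a (h.trans (map_one _).symm))
      (map_one _).symm), fun h => by
      show ProjGenLinGroup.map a (ProjGenLinGroup.map e₀ (γ g)) = 1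
      rw [h, map_one, map_one]⟩
  rw [eq_top_iff, ← rktW_closed hP hB δ β τ' γ' (rankT_mapP a hR1) n (hV.mono
    (fun g h => by
      have a1 : β g = 1 := congrArg Prod.fst h
      have a2 : τ g = 1 := congrArg (fun x => x.2.1) h
      have a3 : γ g = 1 := congrArg (fun x => x.2.2) h
      exact Prod.ext a1 (Prod.ext ((h1 g).2 a2) ((h2 g).2 a3)))
    fun g h => by
      have a1 : β g = 1 := congrArg Prod.fst h
      have a2 : τ' g = 1 := congrArg (fun x => x.2.1) h
      have a3 : γ' g = 1 := congrArg (fun x => x.2.2) h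
      exact Prod.ext a1 (Prod.ext ((h1 g).1 a2) ((h2 g).1 a3)))
    k hk]
  refine iSup_le fun H => ?_
  refine le_iSup (fun H : {H : Subgroup Γ // H.FG ∧ AlgP γ H} => img k H.1)
    ⟨H.1, H.2.1, fun h hh B hB => ?_⟩
  have h5 := H.2.2 h hh (GeneralLinearGroup.map a (GeneralLinearGroup.map e₀ B)) (by
    show _ = ProjGenLinGroup.map a (ProjGenLinGroup.map e₀ (γ h))
    rw [← hB, ProjGenLinGroup.map_mk, ProjGenLinGroup.map_mk])
  have h6 : (GeneralLinearGroup.map a (GeneralLinearGroup.map e₀ B)).1.trace ^ 2 /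
      (GeneralLinearGroup.map a (GeneralLinearGroup.map e₀ B)).1.det =
      (a.comp e₀) (B.1.trace ^ 2 / B.1.det) := by
    rw [Matrix.trace_fin_two, Matrix.det_fin_two, Matrix.trace_fin_two, Matrix.det_fin_two,
      map_div₀, map_pow, map_add, map_sub, map_mul, map_mul]
    rfl
  rw [h6] at h5
  exact (alg_iff (a.comp e₀) _).1 h5

/-- The reduction theorem for groups of semisimple rank one, tensor form, with an arboreal group
and a virtually polycyclic kernel. -/
theorem rkatW {K L₀ : Type u} [Field K] [CharZero K] [Field L₀] (e₀ : K →+* L₀) {r : ℕ}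
    {d : Fin r → ℕ} {Γ D : Type u} [Group Γ] [Group D] (δ : Γ →* D) (β : Γ →* P)
    (τ : Γ →* GL (TI d) L₀) (γ : Γ →* PGL(Fin 2, K))
    (hR1 : RankT d τ ((ProjGenLinGroup.map e₀).comp γ)) (n : ℕ)
    (hV : VK n δ (β.prod (τ.prod γ)))
    (R : Type u) [Ring R] (hR : RegularRing R) (i : ℕ) :
    ⨆ H : {H : Subgroup Γ // H.FG ∧ AlgP γ H}, ((KNegFun i).hom (mdr R H.1.subtype)).range = ⊤ :=
  ER71.kneg_of_gen (fun H => H.FG ∧ AlgP γ H) (fun k _ hk =>
    rktW_zero hP hB e₀ δ β τ γ hR1 n hV k hk) i R hR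

end

end Pool.Agent.NegK.RK
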