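import Pool.Agent.Lib.MP_28303a_al.RK.LinTT

/-! # Trees for pairs of rank one with the first component over a larger field -/

set_option autoImplicit false
set_option linter.unusedSectionVars false
set_option linter.unusedVariables false

namespace Pool.Agent.NegK.RK

universe u

open Matrix
open scoped MatrixGroups
open Pool.Agent.NegK.TW Pool.Agent.NegK.TT Pool.Agent.NegK.NT Pool.Agent.NegK.AP
open H1 (TD)

/-- The trees of a character, over any field of characteristic zero. -/
theorem trees_charL {L : Type u} [Field L] [CharZero L] (Γ : Type u) [Group Γ]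
    [hfg : Group.FG Γ] (χ : Γ →* Lˣ) :
    ∃ (ι : Type) (_ : Finite ι) (T : ι → TD Γ), ∀ g, (∀ a, (T a).Ell g) →
      IsIntegral ℤ ((χ g : Lˣ) : L) := by
  let D : Lˣ →* Matrix (Fin 2) (Fin 2) L :=
    { toFun := fun x => Matrix.diagonal ![(x : L), 1]
      map_one' := by
        ext p q
        fin_cases p <;> fin_cases q <;> simp
      map_mul' := fun x y => by
        rw [Matrix.diagonal_mul_diagonal]
        congr 1
        funext p
        fin_cases p <;> simp }
  let ψ : Γ →* GL (Fin 2) L := D.toHomUnits.comp χ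
  obtain ⟨S1, hS1⟩ := hfg.out
  obtain ⟨E, hE⟩ := NT5.entries ψ S1
  obtain ⟨L0, _, _, ι, F, m, v, ψ0, -, -, hFv, hFB, hψ0⟩ :=
    P2.exists_field ψ E fun g i j => hE g (by rw [hS1]; exact Subgroup.mem_top g) i j
  have hmap : ∀ (g : Γ) i j, ι ((ψ0 g).1 i j) = (ψ g).1 i j := fun g i j => by
    rw [← hψ0]
    rfl
  have hdet : ∀ g, ι (ψ0 g).1.det = χ g := fun g => by
    rw [Matrix.det_fin_two, map_sub, map_mul, map_mul, hmap, hmap, hmap, hmap,
      ← Matrix.det_fin_two]
    show (Matrix.diagonal ![(χ g : L), 1]).det = _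
    rw [Matrix.det_diagonal, Fin.prod_univ_two]
    simp
  let θ : Fin m → (Γ →* Multiplicative ℤ) := fun i =>
    (WithZero.unitsWithZeroEquiv (α := Multiplicative ℤ)).toMonoidHom.comp
      ((Units.map (v i).toMonoidWithZeroHom.toMonoidHom).comp
        (GeneralLinearGroup.det.comp ψ0))
  choose T hT using fun i => H1.exists_TD_line Γ (θ i)
  refine ⟨Fin m, inferInstance, T, fun g hg => ?_⟩
  rw [← hdet]
  refine IsIntegral.map ι.toIntAlgHom (hFv _ ?_ fun b => ?_)
  · rw [Matrix.det_fin_two]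
    exact Subring.sub_mem _ (Subring.mul_mem _ (hFB g 0 0) (hFB g 1 1))
      (Subring.mul_mem _ (hFB g 0 1) (hFB g 1 0))
  · have h1 := hT b g (hg b)
    have h2 : (Units.map (v b).toMonoidWithZeroHom.toMonoidHom)
        (GeneralLinearGroup.det (ψ0 g)) = 1 := by
      refine (WithZero.unitsWithZeroEquiv (α := Multiplicative ℤ)).injective ?_
      rw [map_one]
      exact h1
    have h3 := congrArg Units.val h2
    exact le_of_eq h3

/-- The trees of a pair of rank one, the first component over a larger field. -/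
theorem trees_TL {K : Type u} [Field K] (hK : H70.Rig K) {L : Type u} [Field L] (e : K →+* L)
    (Γ : Type u) [Group Γ] [Group.FG Γ] {r : ℕ} {d : Fin r → ℕ} (τ : Γ →* GL (TI d) L)
    (γ : Γ →* PGL(Fin 2, K)) (hR : RankT d τ ((ProjGenLinGroup.map e).comp γ)) :
    ∃ (ι : Type) (_ : Finite ι) (T : ι → TD Γ), ∀ g, (∀ a, (T a).Ell g) →
      (∀ B : GL (Fin 2) K, ProjGenLinGroup.mk B = γ g →
        ∃ z : ℤ, B.1.trace ^ 2 = (z : K) * B.1.det) ∧
      ∀ k, IsIntegral ℤ ((τ g).1.submatrix (Sigma.mk k) (Sigma.mk k)).det := by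
  have hc : CharZero K := hK.char
  have hcL : CharZero L := charZero_of_injective_ringHom e.injective
  obtain ⟨χ, hχ⟩ := exists_charsT τ hR.tri
  obtain ⟨ι1, _, T1, k1⟩ := trees_pgl hK Γ γ
  choose ι hι T hT using fun k => trees_charL Γ (χ k)
  refine ⟨ι1 ⊕ (Σ k, ι k), inferInstance, Sum.elim T1 fun a => T a.1 a.2, fun g hg =>
    ⟨k1 g fun a => hg (Sum.inl a), fun k => ?_⟩⟩
  have h1 := hT k g fun a => hg (Sum.inr ⟨k, a⟩)
  rw [hχ] at h1
  exact h1

end Pool.Agent.NegK.RK
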