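import Mathlib.GroupTheory.Schreier
import Mathlib.GroupTheory.Solvable
import Mathlib.GroupTheory.Nilpotent
import Mathlib.GroupTheory.Torsion
import Mathlib.GroupTheory.FiniteAbelian.Basic
import Mathlib.GroupTheory.Commutator.Basic

/-! # Finitely generated torsion groups: solvable groups -/

set_option autoImplicit false
set_option linter.unusedSectionVars false
set_option linter.unusedVariables false

namespace Pool.Agent.NegK.RK

universe u v w

namespace Bs

/-- Every element has finite order. -/
def Tor (G : Type v) [Group G] : Prop := ∀ g : G, ∃ m, 0 < m ∧ g ^ m = 1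

theorem Tor.tor {G : Type v} [Group G] (h : Tor G) : IsMulTorsion G := fun g =>
  isOfFinOrder_iff_pow_eq_one.2 (h g)

theorem Tor.sub {G : Type v} {H : Type w} [Group G] [Group H] (f : H →* G)
    (hf : Function.Injective f) (h : Tor G) : Tor H := by
  intro g
  obtain ⟨m, hm, h1⟩ := h (f g)
  exact ⟨m, hm, hf (by rw [map_pow, h1, map_one])⟩

theorem Tor.quo {G : Type v} {H : Type w} [Group G] [Group H] (f : G →* H)
    (hf : Function.Surjective f) (h : Tor G) : Tor H := by
  intro g
  obtain ⟨x, rfl⟩ := hf g
  obtain ⟨m, hm, h1⟩ := h x
  exact ⟨m, hm, by rw [← map_pow, h1, map_one]⟩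

theorem comm_fin {A : Type v} [CommGroup A] [Group.FG A] (h : Tor A) : Finite A :=
  CommGroup.finite_of_fg_isMulTorsion A h.tor

theorem solv_aux {G : Type v} [Group G] (ht : Tor G) : ∀ (n k : ℕ) (H : Subgroup G), Group.FG H →
    H ≤ derivedSeries G k → derivedSeries G (k + n) = ⊥ → Finite H
  | 0, k, H, _, h1, h2 => by
    rw [add_zero] at h2
    rw [h2, le_bot_iff] at h1
    subst h1
    infer_instance
  | n + 1, k, H, hfg, h1, h2 => by
    have htH : Tor H := ht.sub H.subtype Subtype.val_injective
    have h3 : Finite (H ⧸ commutator H) :=
      have : Group.FG (Abelianization H) :=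
        Group.fg_of_surjective (f := Abelianization.of) QuotientGroup.mk_surjective
      comm_fin (A := Abelianization H) (htH.quo Abelianization.of QuotientGroup.mk_surjective)
    have h4 : (commutator H).FiniteIndex := Subgroup.finiteIndex_of_finite_quotient
    have h5 : Group.FG (commutator H) := inferInstance
    have e : commutator H ≃* ((commutator H).map H.subtype : Subgroup G) :=
      (commutator H).equivMapOfInjective _ H.subtype_injective
    have h6 : Group.FG ((commutator H).map H.subtype : Subgroup G) :=
      Group.fg_of_surjective (f := e.toMonoidHom) e.surjective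
    have h7 : Finite ((commutator H).map H.subtype : Subgroup G) := by
      refine solv_aux ht n (k + 1) _ h6 ?_ ?_
      · rw [Subgroup.map_subtype_commutator, derivedSeries_succ]
        exact Subgroup.commutator_mono h1 h1
      · rw [add_assoc, add_comm 1 n]
        exact h2
    have h8 : Finite (commutator H) := Finite.of_equiv _ e.symm.toEquiv
    exact Finite.of_equiv _ (Subgroup.groupEquivQuotientProdSubgroup (s := commutator H)).symm

/-- Finitely generated solvable torsion groups are finite. -/
theorem solv_fin {G : Type v} [Group G] [Group.IsSolvable G] [hfg : Group.FG G] (ht : Tor G) :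
    Finite G := by
  obtain ⟨n, hn⟩ := Group.IsSolvable.solvable (G := G)
  have h1 : Group.FG (⊤ : Subgroup G) :=
    Group.fg_of_surjective (G := G) (f := (Subgroup.topEquiv (G := G)).symm.toMonoidHom)
      (Subgroup.topEquiv (G := G)).symm.surjective
  have h2 : Finite (⊤ : Subgroup G) := solv_aux ht n 0 ⊤ h1 (by rw [derivedSeries_zero]) (by
    rw [zero_add]
    exact hn)
  exact Finite.of_equiv _ Subgroup.topEquiv.toEquiv

theorem fi_of_range {G : Type v} {A : Type w} [Group G] [Group A] (f : G →* A)
    (h : Finite f.range) : f.ker.FiniteIndex := Subgroup.finiteIndex_ker f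

theorem range_of_fi {G : Type v} {A : Type w} [Group G] [Group A] (f : G →* A)
    (h : f.ker.FiniteIndex) : Finite f.range :=
  Finite.of_equiv _ (QuotientGroup.quotientKerEquivRange f).toEquiv

/-- Homomorphisms with a solvable image. -/
theorem fi_solv {G : Type v} {A : Type w} [Group G] [Group A] [Group.FG G] (ht : Tor G)
    (f : G →* A) (h : Group.IsSolvable f.range) : f.ker.FiniteIndex := by
  have h1 : Group.FG f.range := Group.fg_of_surjective (f := f.rangeRestrict)
    f.rangeRestrict_surjective
  exact fi_of_range f (solv_fin (ht.quo f.rangeRestrict f.rangeRestrict_surjective))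

/-- Homomorphisms with a commutative image. -/
theorem fi_comm {G : Type v} {A : Type w} [Group G] [Group A] [Group.FG G] (ht : Tor G)
    (f : G →* A) (h : ∀ x y, f x * f y = f y * f x) : f.ker.FiniteIndex := by
  refine fi_solv ht f ?_
  have h1 : ∀ x y : f.range, x * y = y * x := by
    rintro ⟨_, x, rfl⟩ ⟨_, y, rfl⟩
    exact Subtype.ext (h x y)
  let i : CommGroup f.range := { (inferInstance : Group f.range) with mul_comm := h1 }
  exact (inferInstance : Group.IsSolvable f.range)

/-- Subgroups of finite index of subgroups of finite index. -/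
theorem fi_map {G : Type v} [Group G] (H : Subgroup G) (hH : H.FiniteIndex) (K : Subgroup H)
    (hK : K.FiniteIndex) : (K.map H.subtype).FiniteIndex := by
  refine ⟨?_⟩
  rw [Subgroup.index_map_subtype]
  exact mul_ne_zero hK.index_ne_zero hH.index_ne_zero

/-- The kernel has finite index if the kernel of the restriction to a subgroup of finite index has
finite index. -/
theorem fi_step {G : Type v} {A : Type w} [Group G] [Group A] (f : G →* A) (H : Subgroup G)
    (hH : H.FiniteIndex) (h : (f.comp H.subtype).ker.FiniteIndex) : f.ker.FiniteIndex := by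
  have h1 := fi_map H hH _ h
  refine Subgroup.finiteIndex_of_le (H := (f.comp H.subtype).ker.map H.subtype) ?_
  rintro _ ⟨g, hg, rfl⟩
  exact hg

end Bs

end Pool.Agent.NegK.RK
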