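import Pool.Agent.Lib.MP_28303a_al.RK.Bs0
import Mathlib.LinearAlgebra.Matrix.Charpoly.Eigs
import Mathlib.LinearAlgebra.Matrix.Nondegenerate
import Mathlib.LinearAlgebra.Matrix.ToLinearEquiv
import Mathlib.LinearAlgebra.Basis.VectorSpace
import Mathlib.FieldTheory.IntermediateField.Adjoin.Basic
import Mathlib.FieldTheory.IsAlgClosed.Spectrum
import Mathlib.FieldTheory.AlgebraicClosure
import Mathlib.Algebra.Algebra.ZMod
import Mathlib.LinearAlgebra.Matrix.GeneralLinearGroup.Defs

/-! # Finitely generated torsion groups of matrices in positive characteristic: the spanning case -/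

set_option autoImplicit false
set_option linter.unusedSectionVars false
set_option linter.unusedVariables false

namespace Pool.Agent.NegK.RK

universe u v w

open Matrix

namespace Bs

/-- Matrices of finite order have algebraic traces. -/
theorem trace_alg {L : Type v} [Field L] [IsAlgClosed L] {E : Type w} [Field E] [Algebra E L]
    {n : Type} [Fintype n] [DecidableEq n] (A : Matrix n n L) (m : ℕ) (hm : 0 < m)
    (hA : A ^ m = 1) : A.trace ∈ algebraicClosure E L := by
  rw [Matrix.trace_eq_sum_roots_charpoly]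
  refine multiset_sum_mem _ fun μ hμ => ?_
  have h1 : μ ∈ spectrum L A :=
    Matrix.mem_spectrum_iff_isRoot_charpoly.2 (Polynomial.isRoot_of_mem_roots hμ)
  have h2 : μ ^ m = 1 := by
    have h3 := spectrum.pow_mem_pow A m h1
    rw [hA] at h3
    rcases isEmpty_or_nonempty n with hn | hn
    · exact absurd (isUnit_of_subsingleton _) (spectrum.mem_iff.1 h1)
    · rw [spectrum.one_eq] at h3
      exact h3
  refine mem_algebraicClosure_iff.2 (IsIntegral.isAlgebraic ?_)
  refine IsIntegral.of_pow hm ?_
  rw [h2]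
  exact isIntegral_one

/-- Coordinates with respect to a basis of matrices in the group are algebraic. -/
theorem coord_alg {L : Type v} [Field L] {E : Type w} [Field E] [Algebra E L] {n : Type}
    [Fintype n] [DecidableEq n] {I : Type*} [Fintype I] [DecidableEq I]
    (F : IntermediateField E L)
    (e : Module.Basis I L (Matrix n n L)) (hG : ∀ i j, (e i * e j).trace ∈ F)
    (y : Matrix n n L) (hy : ∀ i, (e i * y).trace ∈ F) (j : I) : e.repr y j ∈ F := by
  classical
  let G : Matrix I I L := fun i j => (e i * e j).trace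
  let G' : Matrix I I F := fun i j => ⟨(e i * e j).trace, hG i j⟩
  have hGG : G = G'.map (algebraMap F L) := rfl
  have h0 : ∀ c : I → L, G *ᵥ c = 0 → c = 0 := by
    intro c hc
    have h1 : ∀ i, (e i * ∑ j, c j • e j).trace = 0 := by
      intro i
      have h2 := congrFun hc i
      rw [Matrix.mulVec, dotProduct] at h2
      rw [Finset.mul_sum, Matrix.trace_sum]
      refine Eq.trans (Finset.sum_congr rfl fun j _ => ?_) h2
      rw [Matrix.mul_smul, Matrix.trace_smul, smul_eq_mul, mul_comm]
    have h2 : ∀ z : Matrix n n L, (z * ∑ j, c j • e j).trace = 0 := by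
      intro z
      rw [← e.sum_repr z, Finset.sum_mul, Matrix.trace_sum]
      refine Finset.sum_eq_zero fun i _ => ?_
      rw [Matrix.smul_mul, Matrix.trace_smul, h1, smul_zero]
    have h3 : ∑ j, c j • e j = 0 := by
      refine Matrix.ext fun a b => ?_
      have h4 := h2 (Matrix.single b a 1)
      rw [Matrix.trace_single_mul] at h4
      simpa using h4
    exact funext fun j => (Fintype.linearIndependent_iff.1 e.linearIndependent) c h3 j
  have hdet : G.det ≠ 0 := by
    intro h
    obtain ⟨v, hv, hv0⟩ := Matrix.exists_mulVec_eq_zero_iff.2 h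
    exact hv (h0 v hv0)
  have hdet' : IsUnit G'.det := by
    refine IsUnit.mk0 _ fun h => hdet ?_
    rw [hGG, ← RingHom.mapMatrix_apply, ← RingHom.map_det, h, map_zero]
  let t' : I → F := fun i => ⟨(e i * y).trace, hy i⟩
  let c' : I → F := G'⁻¹ *ᵥ t'
  have h1 : G' *ᵥ c' = t' := by
    rw [Matrix.mulVec_mulVec, Matrix.mul_nonsing_inv _ hdet', Matrix.one_mulVec]
  have h2 : G *ᵥ (fun i => algebraMap F L (c' i)) = fun i => algebraMap F L (t' i) := by
    rw [hGG]
    funext i
    rw [← h1]
    rw [Matrix.mulVec, dotProduct, Matrix.mulVec, dotProduct, map_sum]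
    refine Finset.sum_congr rfl fun j _ => ?_
    rw [map_mul]
    rfl
  have h3 : G *ᵥ (fun i => e.repr y i) = fun i => algebraMap F L (t' i) := by
    funext i
    have h4 : (e i * y).trace = ∑ j, (e i * e j).trace * e.repr y j := by
      nth_rw 1 [← e.sum_repr y]
      rw [Finset.mul_sum, Matrix.trace_sum]
      refine Finset.sum_congr rfl fun j _ => ?_
      rw [Matrix.mul_smul, Matrix.trace_smul, smul_eq_mul, mul_comm]
    rw [Matrix.mulVec, dotProduct]
    exact h4.symm
  have h4 : (fun i => e.repr y i) = fun i => algebraMap F L (c' i) := by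
    rw [← sub_eq_zero]
    refine h0 _ ?_
    rw [Matrix.mulVec_sub, h2, h3, sub_self]
  have h5 := congrFun h4 j
  rw [h5]
  exact (c' j).2

/-- Finitely generated torsion groups which span the algebra of matrices. -/
theorem span_fin {L : Type v} [Field L] [IsAlgClosed L] {E : Type w} [Field E] [Finite E]
    [Algebra E L] {n : Type} [Fintype n] [DecidableEq n] {Δ : Type u} [Group Δ] [hfg : Group.FG Δ]
    (ht : Tor Δ) (q : Δ →* GL n L)
    (hs : ⊤ ≤ Submodule.span L (Set.range fun g => (q g).1)) : q.ker.FiniteIndex := by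
  classical
  let e := Module.Basis.ofSpan hs
  have hI := Module.Finite.finite_basis e
  have := Fintype.ofFinite ((linearIndepOn_empty L id).extend
    (Set.empty_subset (Set.range fun g => (q g).1)))
  have hx : ∀ i, ∃ g : Δ, (q g).1 = e i := fun i => Module.Basis.ofSpan_subset hs ⟨i, rfl⟩
  choose x hx using hx
  let F := algebraicClosure E L
  have htr : ∀ g : Δ, (q g).1.trace ∈ F := by
    intro g
    obtain ⟨m, hm, h1⟩ := ht g
    refine trace_alg _ m hm ?_
    rw [← Units.val_pow_eq_pow_val, ← map_pow, h1, map_one, Units.val_one]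
  have hG : ∀ i j, (e i * e j).trace ∈ F := by
    intro i j
    rw [← hx i, ← hx j, ← Units.val_mul, ← map_mul]
    exact htr _
  have hc : ∀ (g : Δ) i j, e.repr ((q g).1 * e i) j ∈ F := by
    intro g i j
    refine coord_alg F e hG _ (fun k => ?_) j
    rw [← hx i, ← hx k, ← Units.val_mul, ← Units.val_mul, ← map_mul, ← map_mul]
    exact htr _
  obtain ⟨S, hS⟩ := hfg.out
  let C : Set L := Set.range fun z : (S ⊕ S) × _ × _ =>
    e.repr ((q (Sum.elim (fun s => s.1) (fun s => s.1⁻¹) z.1)).1 * e z.2.1) z.2.2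
  have hC : C.Finite := Set.finite_range _
  have := hC.to_subtype
  have hCF : ∀ z ∈ C, IsIntegral E z := by
    rintro _ ⟨z, rfl⟩
    exact (mem_algebraicClosure_iff.1 (hc _ _ _)).isIntegral
  let M := IntermediateField.adjoin E C
  have hM : FiniteDimensional E M := IntermediateField.finiteDimensional_adjoin hCF
  have hMf : Finite M := Module.finite_of_finite E
  let Λ : Set (Matrix n n L) := {y | ∀ j, e.repr y j ∈ M}
  have hΛ : Finite Λ := by
    refine Finite.of_injective (fun (y : Λ) j => (⟨e.repr y.1 j, y.2 j⟩ : M)) fun y z hyz => ?_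
    refine Subtype.ext (e.repr.injective (Finsupp.ext fun j => ?_))
    exact congrArg Subtype.val (congrFun hyz j)
  have hst : ∀ (g : Δ), (∀ i j, e.repr ((q g).1 * e i) j ∈ M) → ∀ y ∈ Λ, (q g).1 * y ∈ Λ := by
    intro g hg y hy j
    have h1 : (q g).1 * y = ∑ i, e.repr y i • ((q g).1 * e i) := by
      nth_rw 1 [← e.sum_repr y]
      rw [Finset.mul_sum]
      exact Finset.sum_congr rfl fun i _ => by rw [Matrix.mul_smul]
    rw [h1, map_sum, Finsupp.finsetSum_apply]
    refine sum_mem fun i _ => ?_
    rw [map_smul, Finsupp.smul_apply, smul_eq_mul]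
    exact mul_mem (hy i) (hg i j)
  have hgen : ∀ s ∈ S, (∀ i j, e.repr ((q s).1 * e i) j ∈ M) ∧
      ∀ i j, e.repr ((q s⁻¹).1 * e i) j ∈ M := by
    intro s hs'
    refine ⟨fun i j => IntermediateField.subset_adjoin E C ⟨(Sum.inl ⟨s, hs'⟩, i, j), rfl⟩,
      fun i j => IntermediateField.subset_adjoin E C ⟨(Sum.inr ⟨s, hs'⟩, i, j), rfl⟩⟩
  let U : Subgroup Δ :=
    { carrier := {g | (∀ y ∈ Λ, (q g).1 * y ∈ Λ) ∧ ∀ y ∈ Λ, (q g⁻¹).1 * y ∈ Λ}
      one_mem' := by
        refine ⟨fun y hy => ?_, fun y hy => ?_⟩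
        · rw [map_one, Units.val_one, one_mul]
          exact hy
        · rw [inv_one, map_one, Units.val_one, one_mul]
          exact hy
      mul_mem' := by
        rintro g h ⟨hg, hg'⟩ ⟨hh, hh'⟩
        refine ⟨fun y hy => ?_, fun y hy => ?_⟩
        · rw [map_mul, Units.val_mul, mul_assoc]
          exact hg _ (hh _ hy)
        · rw [_root_.mul_inv_rev, map_mul, Units.val_mul, mul_assoc]
          exact hh' _ (hg' _ hy)
      inv_mem' := by
        rintro g ⟨hg, hg'⟩
        refine ⟨hg', fun y hy => ?_⟩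
        rw [inv_inv]
        exact hg _ hy }
  have hU : ∀ g, g ∈ U := by
    intro g
    have h1 : (⊤ : Subgroup Δ) ≤ U := by
      rw [← hS, Subgroup.closure_le]
      intro s hs'
      exact ⟨hst s (hgen s hs').1, hst s⁻¹ (hgen s hs').2⟩
    exact h1 (Subgroup.mem_top g)
  have he : ∀ i, e i ∈ Λ := by
    intro i j
    rw [Module.Basis.repr_self, Finsupp.single_apply]
    split_ifs
    · exact one_mem M
    · exact zero_mem M
  refine fi_of_range q ?_
  refine Finite.of_injective (fun (g : q.range) i => (⟨g.1.1 * e i, ?_⟩ : Λ)) fun g h hgh => ?_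
  · obtain ⟨_, g, rfl⟩ := g
    exact (hU g).1 _ (he i)
  · refine Subtype.ext (Units.ext ?_)
    have h1 : ∀ i, g.1.1 * e i = h.1.1 * e i := fun i => congrArg Subtype.val (congrFun hgh i)
    have h2 : g.1.1 * 1 = h.1.1 * 1 := by
      rw [← e.sum_repr (1 : Matrix n n L), Finset.mul_sum, Finset.mul_sum]
      refine Finset.sum_congr rfl fun i _ => ?_
      rw [Matrix.mul_smul, Matrix.mul_smul, h1 i]
    rwa [mul_one, mul_one] at h2

end Bs

end Pool.Agent.NegK.RK
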