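import Pool.Agent.Lib.MP_28303a_al.RK.Bs1
import Mathlib.LinearAlgebra.Dual.Lemmas
import Mathlib.LinearAlgebra.Matrix.Charpoly.Coeff

/-! # Finitely generated torsion groups of matrices of size two in positive characteristic -/

set_option autoImplicit false
set_option linter.unusedSectionVars false
set_option linter.unusedVariables false

namespace Pool.Agent.NegK.RK

universe u v w

open Matrix

namespace Bs

/-- Matrices which fix a vector. -/
theorem fix_shape {L : Type v} [Field L] (A : Matrix (Fin 2) (Fin 2) L) (s t r : L)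
    (hs : s ≠ 0) (hr : r = t / s) (h0 : A 0 0 * s + A 0 1 * t = s)
    (h1 : A 1 0 * s + A 1 1 * t = t) (hd : A 0 0 * A 1 1 - A 0 1 * A 1 0 = 1) :
    A 0 0 = 1 - A 0 1 * r ∧ A 1 1 = 1 + A 0 1 * r ∧ A 1 0 = - (A 0 1 * r ^ 2) := by
  have ht : t = r * s := by
    rw [hr]
    field_simp
  subst ht
  have e0 : A 0 0 = 1 - A 0 1 * r := by
    have h2 : s * (A 0 0 - (1 - A 0 1 * r)) = 0 := by linear_combination h0
    exact sub_eq_zero.1 ((mul_eq_zero.1 h2).resolve_left hs)
  have e1 : A 1 0 = (1 - A 1 1) * r := by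
    have h2 : s * (A 1 0 - (1 - A 1 1) * r) = 0 := by linear_combination h1
    exact sub_eq_zero.1 ((mul_eq_zero.1 h2).resolve_left hs)
  have e2 : A 1 1 = 1 + A 0 1 * r := by
    rw [e0, e1] at hd
    linear_combination hd
  refine ⟨e0, e2, ?_⟩
  rw [e1, e2]
  ring

theorem fix_comm {L : Type v} [Field L] (A B : Matrix (Fin 2) (Fin 2) L) (u : Fin 2 → L)
    (hu : u ≠ 0) (hA : A *ᵥ u = u) (hB : B *ᵥ u = u) (dA : A.det = 1) (dB : B.det = 1) :
    A * B = B * A := by
  have e0 := congrFun hA 0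
  have e1 := congrFun hA 1
  have f0 := congrFun hB 0
  have f1 := congrFun hB 1
  rw [Matrix.mulVec, dotProduct, Fin.sum_univ_two] at e0 e1 f0 f1
  rw [Matrix.det_fin_two] at dA dB
  have hu' : u 0 ≠ 0 ∨ u 0 = 0 ∧ u 1 ≠ 0 := by
    by_contra hc
    push Not at hc
    refine hu (funext fun i => ?_)
    fin_cases i
    · exact hc.1
    · exact hc.2 hc.1
  rcases hu' with h | ⟨h, h'⟩
  · obtain ⟨a1, a2, a3⟩ := fix_shape A _ _ (u 1 / u 0) h rfl e0 e1 dA
    obtain ⟨b1, b2, b3⟩ := fix_shape B _ _ (u 1 / u 0) h rfl f0 f1 dB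
    generalize u 1 / u 0 = r at *
    ext i j
    rw [Matrix.mul_apply, Matrix.mul_apply, Fin.sum_univ_two, Fin.sum_univ_two]
    fin_cases i <;> fin_cases j
    · show A 0 0 * B 0 0 + A 0 1 * B 1 0 = B 0 0 * A 0 0 + B 0 1 * A 1 0
      rw [a1, a3, b1, b3]
      ring
    · show A 0 0 * B 0 1 + A 0 1 * B 1 1 = B 0 0 * A 0 1 + B 0 1 * A 1 1
      rw [a1, a2, b1, b2]
      ring
    · show A 1 0 * B 0 0 + A 1 1 * B 1 0 = B 1 0 * A 0 0 + B 1 1 * A 1 0
      rw [a1, a2, a3, b1, b2, b3]
      ring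
    · show A 1 0 * B 0 1 + A 1 1 * B 1 1 = B 1 0 * A 0 1 + B 1 1 * A 1 1
      rw [a2, a3, b2, b3]
      ring
  · rw [h, mul_zero, zero_add] at e0 e1 f0 f1
    have a1 : A 0 1 = 0 := (mul_eq_zero.1 e0).resolve_right h'
    have b1 : B 0 1 = 0 := (mul_eq_zero.1 f0).resolve_right h'
    have a2 : A 1 1 = 1 := mul_right_cancel₀ h' (e1.trans (one_mul _).symm)
    have b2 : B 1 1 = 1 := mul_right_cancel₀ h' (f1.trans (one_mul _).symm)
    rw [a1, a2, zero_mul, sub_zero, mul_one] at dA
    rw [b1, b2, zero_mul, sub_zero, mul_one] at dB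
    ext i j
    rw [Matrix.mul_apply, Matrix.mul_apply, Fin.sum_univ_two, Fin.sum_univ_two]
    fin_cases i <;> fin_cases j
    · show A 0 0 * B 0 0 + A 0 1 * B 1 0 = B 0 0 * A 0 0 + B 0 1 * A 1 0
      rw [a1, b1, dA, dB]
      ring
    · show A 0 0 * B 0 1 + A 0 1 * B 1 1 = B 0 0 * A 0 1 + B 0 1 * A 1 1
      rw [a1, b1]
      ring
    · show A 1 0 * B 0 0 + A 1 1 * B 1 0 = B 1 0 * A 0 0 + B 1 1 * A 1 0
      rw [a2, b2, dA, dB]
      ring
    · show A 1 0 * B 0 1 + A 1 1 * B 1 1 = B 1 0 * A 0 1 + B 1 1 * A 1 1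
      rw [a1, b1, a2, b2]
      ring

/-- Groups with a common eigenvector. -/
theorem eig_fin {L : Type v} [Field L] {Δ : Type u} [Group Δ] [hfg : Group.FG Δ] (ht : Tor Δ)
    (q : Δ →* GL (Fin 2) L) (u : Fin 2 → L) (hu : u ≠ 0)
    (h : ∀ g, ∃ c : L, (q g).1 *ᵥ u = c • u) : q.ker.FiniteIndex := by
  classical
  choose χ hχ using h
  have hinj : ∀ a b : L, a • u = b • u → a = b := fun a b hab => smul_left_injective L hu hab
  let X : Δ →* L :=
    { toFun := χ
      map_one' := hinj _ _ (by rw [← hχ, map_one, Units.val_one, Matrix.one_mulVec, one_smul])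
      map_mul' := fun g h => hinj _ _ (by
        rw [← hχ, map_mul, Units.val_mul, ← Matrix.mulVec_mulVec, hχ h, Matrix.mulVec_smul, hχ g,
          smul_smul, mul_comm]) }
  let D : Δ →* L := Matrix.detMonoidHom.comp ((Units.coeHom _).comp q)
  have h1 : X.toHomUnits.ker.FiniteIndex := fi_comm ht _ fun x y => mul_comm _ _
  have h2 : D.toHomUnits.ker.FiniteIndex := fi_comm ht _ fun x y => mul_comm _ _
  let H : Subgroup Δ := X.toHomUnits.ker ⊓ D.toHomUnits.ker
  have hH : H.FiniteIndex := inferInstance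
  have hfgH : Group.FG H := inferInstance
  refine fi_step q H hH (fi_comm (ht.sub H.subtype Subtype.val_injective) _ fun g h => ?_)
  have key : ∀ g : H, (q g.1).1 *ᵥ u = u ∧ (q g.1).1.det = 1 := by
    intro g
    have h3 : X g.1 = 1 := congrArg Units.val g.2.1
    have h4 : D g.1 = 1 := congrArg Units.val g.2.2
    refine ⟨?_, h4⟩
    have h5 : χ g.1 = 1 := h3
    rw [hχ, h5, one_smul]
  exact Units.ext (fix_comm _ _ u hu (key g).1 (key h).1 (key g).2 (key h).2)

/-- Linear functionals on matrices are given by the trace form. -/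
theorem exists_tr {L : Type v} [Field L] (f : Matrix (Fin 2) (Fin 2) L →ₗ[L] L) :
    ∃ x : Matrix (Fin 2) (Fin 2) L, ∀ y, f y = (x * y).trace := by
  refine ⟨!![f (Matrix.single 0 0 1), f (Matrix.single 1 0 1);
    f (Matrix.single 0 1 1), f (Matrix.single 1 1 1)], fun y => ?_⟩
  have h1 : y = y 0 0 • Matrix.single 0 0 (1 : L) + y 0 1 • Matrix.single 0 1 (1 : L) +
      y 1 0 • Matrix.single 1 0 (1 : L) + y 1 1 • Matrix.single 1 1 (1 : L) := by
    ext i j
    fin_cases i <;> fin_cases j <;> simp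
  conv_lhs => rw [h1]
  rw [map_add, map_add, map_add, map_smul, map_smul, map_smul, map_smul, Matrix.trace_fin_two,
    Matrix.mul_apply, Matrix.mul_apply, Fin.sum_univ_two, Fin.sum_univ_two]
  simp only [smul_eq_mul, Matrix.of_apply, Matrix.cons_val', Matrix.cons_val_zero,
    Matrix.cons_val_one, Matrix.cons_val_fin_one]
  ring

theorem sandwich {L : Type v} [Field L] (x y : Matrix (Fin 2) (Fin 2) L) (hx : x.det = 0) :
    x * y * x = (x * y).trace • x := by
  rw [Matrix.det_fin_two] at hx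
  ext i j
  rw [Matrix.smul_apply, Matrix.trace_fin_two, Matrix.mul_apply, Fin.sum_univ_two]
  simp only [Matrix.mul_apply, Fin.sum_univ_two, smul_eq_mul]
  fin_cases i <;> fin_cases j
  · show (x 0 0 * y 0 0 + x 0 1 * y 1 0) * x 0 0 + (x 0 0 * y 0 1 + x 0 1 * y 1 1) * x 1 0 =
      (x 0 0 * y 0 0 + x 0 1 * y 1 0 + (x 1 0 * y 0 1 + x 1 1 * y 1 1)) * x 0 0
    linear_combination (- y 1 1) * hx
  · show (x 0 0 * y 0 0 + x 0 1 * y 1 0) * x 0 1 + (x 0 0 * y 0 1 + x 0 1 * y 1 1) * x 1 1 =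
      (x 0 0 * y 0 0 + x 0 1 * y 1 0 + (x 1 0 * y 0 1 + x 1 1 * y 1 1)) * x 0 1
    linear_combination (y 0 1) * hx
  · show (x 1 0 * y 0 0 + x 1 1 * y 1 0) * x 0 0 + (x 1 0 * y 0 1 + x 1 1 * y 1 1) * x 1 0 =
      (x 0 0 * y 0 0 + x 0 1 * y 1 0 + (x 1 0 * y 0 1 + x 1 1 * y 1 1)) * x 1 0
    linear_combination (y 1 0) * hx
  · show (x 1 0 * y 0 0 + x 1 1 * y 1 0) * x 0 1 + (x 1 0 * y 0 1 + x 1 1 * y 1 1) * x 1 1 =
      (x 0 0 * y 0 0 + x 0 1 * y 1 0 + (x 1 0 * y 0 1 + x 1 1 * y 1 1)) * x 1 1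
    linear_combination (- y 0 0) * hx

theorem ker_line {L : Type v} [Field L] (x : Matrix (Fin 2) (Fin 2) L) (hx : x ≠ 0)
    (u w : Fin 2 → L) (hu : u ≠ 0) (h1 : x *ᵥ u = 0) (h2 : x *ᵥ w = 0) : ∃ c : L, w = c • u := by
  have h3 : u 0 * w 1 = u 1 * w 0 := by
    obtain ⟨i, hi⟩ : ∃ i, x i 0 ≠ 0 ∨ x i 1 ≠ 0 := by
      by_contra hc
      push Not at hc
      refine hx (Matrix.ext fun i j => ?_)
      fin_cases j
      · exact (hc i).1
      · exact (hc i).2
    have e1 := congrFun h1 i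
    have e2 := congrFun h2 i
    rw [Matrix.mulVec, dotProduct, Fin.sum_univ_two] at e1 e2
    rcases hi with hi | hi
    · refine mul_left_cancel₀ hi ?_
      have e1' : x i 0 * u 0 + x i 1 * u 1 = 0 := e1
      have e2' : x i 0 * w 0 + x i 1 * w 1 = 0 := e2
      linear_combination w 1 * e1' - u 1 * e2'
    · refine mul_left_cancel₀ hi ?_
      have e1' : x i 0 * u 0 + x i 1 * u 1 = 0 := e1
      have e2' : x i 0 * w 0 + x i 1 * w 1 = 0 := e2
      linear_combination u 0 * e2' - w 0 * e1'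
  by_cases h0 : u 0 = 0
  · have h4 : u 1 ≠ 0 := fun h => hu (funext fun i => by fin_cases i <;> assumption)
    refine ⟨w 1 / u 1, funext fun i => ?_⟩
    fin_cases i
    · show w 0 = w 1 / u 1 * u 0
      rw [h0, zero_mul] at h3
      rw [h0, mul_zero]
      exact (mul_eq_zero.1 h3.symm).resolve_left h4
    · show w 1 = w 1 / u 1 * u 1
      rw [div_mul_cancel₀ _ h4]
  · refine ⟨w 0 / u 0, funext fun i => ?_⟩
    fin_cases i
    · show w 0 = w 0 / u 0 * u 0
      rw [div_mul_cancel₀ _ h0]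
    · show w 1 = w 0 / u 0 * u 1
      refine mul_left_cancel₀ h0 ?_
      rw [h3]
      field_simp

/-- Finitely generated torsion groups of matrices of size two over an algebraically closed field of
positive characteristic. -/
theorem bs2 {L : Type v} [Field L] [IsAlgClosed L] {E : Type w} [Field E] [Finite E]
    [Algebra E L] {Δ : Type u} [Group Δ] [hfg : Group.FG Δ]
    (ht : Tor Δ) (q : Δ →* GL (Fin 2) L) : q.ker.FiniteIndex := by
  classical
  by_cases hs : Submodule.span L (Set.range fun g => (q g).1) = ⊤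
  · exact span_fin (E := E) ht q hs.ge
  · obtain ⟨f, hf, hle⟩ := Submodule.exists_le_ker_of_lt_top _ (lt_top_iff_ne_top.2 hs)
    obtain ⟨x₀, hx₀⟩ := exists_tr f
    let V : Matrix (Fin 2) (Fin 2) L → Prop := fun x => ∀ g, (x * (q g).1).trace = 0
    have hV0 : V x₀ := by
      intro g
      rw [← hx₀]
      exact hle (Submodule.subset_span ⟨g, rfl⟩)
    have hx0 : x₀ ≠ 0 := by
      rintro rfl
      refine hf (LinearMap.ext fun y => ?_)
      rw [hx₀, zero_mul, Matrix.trace_zero]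
      rfl
    have hVg : ∀ x, V x → ∀ g, V (x * (q g).1) := by
      intro x hx g h
      rw [mul_assoc, ← Units.val_mul, ← map_mul]
      exact hx _
    by_cases hsing : ∃ x, V x ∧ x ≠ 0 ∧ x.det = 0
    · obtain ⟨x, hx, hx1, hx2⟩ := hsing
      -- a nonzero column of `x` is an eigenvector
      obtain ⟨j, hj⟩ : ∃ j, (fun i => x i j) ≠ 0 := by
        by_contra hc
        push Not at hc
        exact hx1 (Matrix.ext fun i j => congrFun (hc j) i)
      let u : Fin 2 → L := x *ᵥ Pi.single j 1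
      have hu : u = fun i => x i j := by
        show x *ᵥ Pi.single j 1 = _
        rw [Matrix.mulVec_single_one]
        rfl
      have hu0 : u ≠ 0 := by
        rw [hu]
        exact hj
      have h1 : ∀ g, x *ᵥ ((q g).1 *ᵥ u) = 0 := by
        intro g
        rw [Matrix.mulVec_mulVec, Matrix.mulVec_mulVec, sandwich x _ hx2, hx g, zero_smul,
          Matrix.zero_mulVec]
      have h2 : x *ᵥ u = 0 := by
        have h3 := h1 1
        rw [map_one, Units.val_one, Matrix.one_mulVec] at h3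
        exact h3
      exact eig_fin ht q u hu0 fun g => ker_line x hx1 u _ hu0 h2 (h1 g)
    · push Not at hsing
      -- scalar matrices
      have hsc : ∀ g, ∃ μ : L, (q g).1 = μ • (1 : Matrix (Fin 2) (Fin 2) L) := by
        intro g
        obtain ⟨μ, hμ⟩ := IsAlgClosed.exists_root (q g).1.charpoly (by
          rw [Matrix.charpoly_degree_eq_dim]
          simp)
        have h3 : ((q g).1 - μ • (1 : Matrix (Fin 2) (Fin 2) L)).det = 0 := by
          have h4 := hμ
          rw [Polynomial.IsRoot, Matrix.eval_charpoly] at h4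
          rw [← neg_sub, Matrix.det_neg]
          have h5 : μ • (1 : Matrix (Fin 2) (Fin 2) L) = Matrix.scalar (Fin 2) μ := by
            rw [Matrix.smul_one_eq_diagonal, Matrix.scalar_apply]
          rw [h5, h4, mul_zero]
        refine ⟨μ, ?_⟩
        let y := x₀ * ((q g).1 - μ • (1 : Matrix (Fin 2) (Fin 2) L))
        have hy : V y := by
          intro h
          show (x₀ * ((q g).1 - μ • (1 : Matrix (Fin 2) (Fin 2) L)) * (q h).1).trace = 0
          rw [mul_sub, sub_mul, Matrix.trace_sub, hVg x₀ hV0 g h, Matrix.mul_smul, mul_one,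
            Matrix.smul_mul, Matrix.trace_smul, hV0 h, smul_zero, sub_zero]
        have hy0 : y = 0 := by
          by_contra hc
          refine hsing y hy hc ?_
          rw [Matrix.det_mul, h3, mul_zero]
        have h4 : IsUnit x₀ := by
          rw [Matrix.isUnit_iff_isUnit_det]
          exact IsUnit.mk0 _ (hsing x₀ hV0 hx0)
        have h5 : x₀ * ((q g).1 - μ • (1 : Matrix (Fin 2) (Fin 2) L)) = x₀ * 0 := by
          rw [mul_zero]
          exact hy0
        exact sub_eq_zero.1 (h4.mul_left_cancel h5)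
      refine fi_comm ht q fun g h => Units.ext ?_
      obtain ⟨a, ha⟩ := hsc g
      obtain ⟨b, hb⟩ := hsc h
      rw [Units.val_mul, Units.val_mul, ha, hb, Matrix.smul_mul, Matrix.smul_mul, one_mul, one_mul,
        smul_smul, smul_smul, mul_comm]

end Bs

end Pool.Agent.NegK.RK
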