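import Pool.Agent.Lib.MP_28303a_al.RK.Emx
import Mathlib.GroupTheory.Nilpotent

/-! # Homomorphisms to groups of matrices over the algebraic numbers: tensor powers

Row EMT of `rkone_modules`. -/

set_option autoImplicit false
set_option linter.unusedSectionVars false
set_option linter.unusedVariables false

namespace Pool.Agent.NegK.RK

universe u v w

open Matrix
open scoped MatrixGroups
open Pool.Agent.NegK.NT
open Pool.Agent.NegK.NT5

namespace Emt

/-- The entries of the tensor powers multiply. -/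
theorem prod_mul {R : Type v} [CommRing R] {d : ℕ} (A B : Matrix (Fin 2) (Fin 2) R)
    (i j : Fin d → Fin 2) :
    ∑ l : Fin d → Fin 2, (∏ t, A (i t) (l t)) * ∏ t, B (l t) (j t) =
      ∏ t, (A * B) (i t) (j t) := by
  simp_rw [Matrix.mul_apply, ← Finset.prod_mul_distrib]
  rw [Finset.prod_univ_sum]
  rw [Fintype.piFinset_univ]

/-- A nonzero entry of a tensor power. -/
theorem exists_ne {K : Type v} [Field K] {d : ℕ} (A : GL (Fin 2) K) :
    ∃ i j : Fin d → Fin 2, ∏ t, A.1 (i t) (j t) ≠ 0 := by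
  obtain ⟨a, b, hab⟩ : ∃ a b, A.1 a b ≠ 0 := by
    by_contra h
    push Not at h
    have h2 : A.1.det ≠ 0 := ((Matrix.isUnit_iff_isUnit_det _).1 A.isUnit).ne_zero
    refine h2 ?_
    rw [Matrix.det_fin_two, h, h, h, h]
    ring
  refine ⟨fun _ => a, fun _ => b, ?_⟩
  rw [Finset.prod_const]
  exact pow_ne_zero _ hab

/-- Two lifts differ by a scalar. -/
theorem exists_scalar {L : Type v} [Field L] {A B : GL (Fin 2) L}
    (h : ProjGenLinGroup.mk A = ProjGenLinGroup.mk B) :
    ∃ c : L, ∀ i j, B.1 i j = c * A.1 i j := by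
  have h1 : ProjGenLinGroup.mk (A⁻¹ * B) = 1 := by
    rw [map_mul, map_inv, h, inv_mul_cancel]
  rw [ProjGenLinGroup.mk_eq_one, GeneralLinearGroup.mem_center_iff_val_mem_range_scalar] at h1
  obtain ⟨c, hc⟩ := h1
  refine ⟨c, fun i j => ?_⟩
  have h2 : B = A * (A⁻¹ * B) := by rw [mul_inv_cancel_left]
  have h3 := congrArg (fun X : GL (Fin 2) L => X.1 i j) h2
  have h4 : B.1 i j = (A.1 * (A⁻¹ * B).1) i j := h3
  rw [h4, ← hc, Matrix.scalar_apply, Matrix.mul_diagonal]
  ring

/-- The diagonal blocks of a block triangular homomorphism. -/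
theorem blk_mul {K : Type v} [CommRing K] {r : ℕ} {ι : Fin r → Type} [∀ k, Fintype (ι k)]
    [∀ k, DecidableEq (ι k)] {A B : Matrix (Σ k : Fin r, ι k) (Σ k : Fin r, ι k) K}
    (hA : A.BlockTriangular Sigma.fst) (hB : B.BlockTriangular Sigma.fst) (k : Fin r)
    (i j : ι k) : (A * B) ⟨k, i⟩ ⟨k, j⟩ = ∑ l : ι k, A ⟨k, i⟩ ⟨k, l⟩ * B ⟨k, l⟩ ⟨k, j⟩ := by
  rw [Matrix.mul_apply, Fintype.sum_sigma]
  refine Finset.sum_eq_single k (fun k' _ hk => ?_) fun h => absurd (Finset.mem_univ _) h
  refine Finset.sum_eq_zero fun l _ => ?_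
  rcases lt_or_gt_of_ne hk with h | h
  · rw [hA (i := ⟨k, i⟩) (j := ⟨k', l⟩) h, zero_mul]
  · rw [hB (i := ⟨k', l⟩) (j := ⟨k, j⟩) h, mul_zero]

end Emt

open Emt in
/-- The homomorphism for one tensor block. -/
theorem emt_blk {K : Type u} [Field K] [CharZero K] {r : ℕ} (d : Fin r → ℕ) {H : Type u}
    [Group H] [hfg : Group.FG H] (τ : H →* GL (Σ k : Fin r, (Fin (d k) → Fin 2)) K)
    (γ : H →* PGL(Fin 2, K)) (htri : ∀ g, (τ g).1.BlockTriangular Sigma.fst) (k : Fin r)
    (hR : ∀ g, ∃ (B : GL (Fin 2) K) (c : K), ProjGenLinGroup.mk B = γ g ∧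
      ∀ i j, (τ g).1 ⟨k, i⟩ ⟨k, j⟩ = c * ∏ t, B.1 (i t) (j t))
    (halg : ∀ g (B : GL (Fin 2) K), ProjGenLinGroup.mk B = γ g →
      IsAlgebraic ℤ (B.1.trace ^ 2 / B.1.det)) :
    ∃ ψ : H →* GL (Fin 2) (AlgebraicClosure ℚ), ∀ h, γ h = 1 → (ψ h = 1 ↔
      ∀ i j, (τ h).1 ⟨k, i⟩ ⟨k, j⟩ = (1 : Matrix (Fin (d k) → Fin 2) (Fin (d k) → Fin 2) K) i j) := by
  classical
  let L := AlgebraicClosure K
  let ι : K →+* L := algebraMap K L
  have hcz : CharZero L := charZero_of_injective_algebraMap (algebraMap K L).injective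
  obtain ⟨Δ, _, π, q, z, hπ, hdet, hq, hz, hz', hker', hfin, hfgΔ⟩ :=
    P2.exists_lift ((ProjGenLinGroup.map (algebraMap K L)).comp γ)
  -- the block is a scalar times the tensor power of `q`
  have key : ∀ x : Δ, ∃ c : L, ∀ i j : Fin (d k) → Fin 2,
      ι ((τ (π x)).1 ⟨k, i⟩ ⟨k, j⟩) = c * ∏ t, (q x).1 (i t) (j t) := by
    intro x
    obtain ⟨B, c, hB, hc⟩ := hR (π x)
    have h1 : ProjGenLinGroup.mk (q x) =
        ProjGenLinGroup.mk (GeneralLinearGroup.map (algebraMap K L) B) := by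
      rw [hq, ← ProjGenLinGroup.map_mk, hB]
      rfl
    obtain ⟨s, hs⟩ := exists_scalar h1
    refine ⟨ι c * s ^ d k, fun i j => ?_⟩
    rw [hc, map_mul, map_prod]
    have h2 : ∀ t, ι (B.1 (i t) (j t)) = s * (q x).1 (i t) (j t) := fun t => hs (i t) (j t)
    simp_rw [h2]
    rw [Finset.prod_mul_distrib, Finset.prod_const, Finset.card_univ, Fintype.card_fin]
    ring
  choose c hc using key
  have hmul : ∀ x y, c (x * y) = c x * c y := by
    intro x y
    obtain ⟨i, j, hij⟩ := exists_ne (d := d k) (q (x * y))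
    have h1 : c (x * y) * ∏ t, (q (x * y)).1 (i t) (j t) =
        c x * c y * ∏ t, (q (x * y)).1 (i t) (j t) := by
      rw [← hc, map_mul π, map_mul τ, Units.val_mul, blk_mul (htri _) (htri _), map_sum]
      simp_rw [map_mul ι, hc]
      rw [map_mul q, Units.val_mul, ← prod_mul, Finset.mul_sum]
      refine Finset.sum_congr rfl fun l _ => ?_
      ring
    exact mul_right_cancel₀ hij h1
  have hone : c 1 = 1 := by
    have h1 := hc 1 (fun _ => 0) (fun _ => 0)
    rw [map_one π, map_one τ, map_one q, Units.val_one, Units.val_one, Matrix.one_apply_eq,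
      Matrix.one_apply_eq, map_one, Finset.prod_const_one, mul_one] at h1
    exact h1.symm
  have hzc : c z * (-1) ^ d k = 1 := by
    have h1 := hc z (fun _ => 0) (fun _ => 0)
    rw [hz, map_one τ, Units.val_one, Matrix.one_apply_eq, hz', Matrix.neg_apply,
      Matrix.one_apply_eq, map_one, Finset.prod_const, Finset.card_univ, Fintype.card_fin] at h1
    exact h1.symm
  have hne : ∀ x, c x ≠ 0 := by
    intro x h0
    have h1 := hmul x x⁻¹
    rw [mul_inv_cancel, hone, h0, zero_mul] at h1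
    exact one_ne_zero h1
  let cH : Δ →* Lˣ := MonoidHom.mk' (fun x => Units.mk0 (c x) (hne x)) fun x y =>
    Units.ext (hmul x y)
  have hcH : ∀ x, (cH x : L) = c x := fun x => rfl
  -- the value of a block at elements of the kernel of `γ`
  have hker : ∀ x, γ (π x) = 1 → (q x).1 = 1 ∨ (q x).1 = -1 := by
    intro x hx
    have h1 : ProjGenLinGroup.mk (q x) = 1 := by
      rw [hq]
      show ProjGenLinGroup.map (algebraMap K L) (γ (π x)) = 1
      rw [hx, map_one]
    obtain ⟨s, -, hs⟩ := P2.scalar_of_mk h1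
    have h2 := hdet x
    rw [Matrix.det_fin_two, hs, hs, hs, hs] at h2
    have h4 : s ^ 2 = 1 := by
      simpa [sq] using h2
    rcases sq_eq_one_iff.1 h4 with h5 | h5
    · refine Or.inl (Matrix.ext fun i j => ?_)
      rw [hs, h5, Matrix.one_apply]
    · refine Or.inr (Matrix.ext fun i j => ?_)
      rw [hs, h5, Matrix.neg_apply, Matrix.one_apply]
      split_ifs <;> simp
  have hblk : ∀ x, γ (π x) = 1 → ((∀ i j, (τ (π x)).1 ⟨k, i⟩ ⟨k, j⟩ =
      (1 : Matrix (Fin (d k) → Fin 2) (Fin (d k) → Fin 2) K) i j) ↔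
      ((q x).1 = 1 ∧ c x = 1) ∨ ((q x).1 = -1 ∧ c x * (-1) ^ d k = 1)) := by
    intro x hx
    have hone' : ∀ i j : Fin (d k) → Fin 2,
        ∏ t, (1 : Matrix (Fin 2) (Fin 2) L) (i t) (j t) =
          (1 : Matrix (Fin (d k) → Fin 2) (Fin (d k) → Fin 2) L) i j := by
      intro i j
      rw [Matrix.one_apply]
      split_ifs with h
      · subst h
        exact Finset.prod_eq_one fun t _ => Matrix.one_apply_eq _
      · obtain ⟨t, ht⟩ := Function.ne_iff.1 h
        exact Finset.prod_eq_zero (Finset.mem_univ t) (Matrix.one_apply_ne ht)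
    have h1 : ∀ e : L, (∀ i j, ι ((τ (π x)).1 ⟨k, i⟩ ⟨k, j⟩) =
        e * (1 : Matrix (Fin (d k) → Fin 2) (Fin (d k) → Fin 2) L) i j) →
        ((∀ i j, (τ (π x)).1 ⟨k, i⟩ ⟨k, j⟩ =
          (1 : Matrix (Fin (d k) → Fin 2) (Fin (d k) → Fin 2) K) i j) ↔ e = 1) := by
      intro e he
      constructor
      · intro h
        have h2 := he (fun _ => 0) (fun _ => 0)
        rw [h, Matrix.one_apply_eq, map_one, Matrix.one_apply_eq, mul_one] at h2
        exact h2.symm
      · rintro rfl i j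
        apply ι.injective
        rw [he, one_mul, Matrix.one_apply, Matrix.one_apply]
        split_ifs
        · exact (map_one ι).symm
        · exact (map_zero ι).symm
    have hn1 : (1 : Matrix (Fin 2) (Fin 2) L) ≠ -1 := by
      intro h
      have h2 := congrFun (congrFun h 0) 0
      rw [Matrix.neg_apply, Matrix.one_apply_eq] at h2
      have h3 : (2 : L) = 0 := by linear_combination h2
      exact two_ne_zero h3
    rcases hker x hx with h | h
    · rw [h1 (c x) fun i j => by rw [hc, h, hone']]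
      constructor
      · exact fun h2 => Or.inl ⟨h, h2⟩
      · rintro (h2 | h2)
        · exact h2.2
        · exact absurd (h.symm.trans h2.1) hn1
    · rw [h1 (c x * (-1) ^ d k) fun i j => by
        rw [hc, h]
        have h2 : ∀ t, (-1 : Matrix (Fin 2) (Fin 2) L) (i t) (j t) =
            (-1) * (1 : Matrix (Fin 2) (Fin 2) L) (i t) (j t) := fun t => by
          rw [Matrix.neg_apply]
          ring
        simp_rw [h2]
        rw [Finset.prod_mul_distrib, Finset.prod_const, Finset.card_univ, Fintype.card_fin,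
          hone']
        ring]
      constructor
      · exact fun h2 => Or.inr ⟨h, h2⟩
      · rintro (h2 | h2)
        · exact absurd (h2.1.symm.trans h) hn1
        · exact h2.2
  -- the homomorphism to `GL₂(L)`
  obtain ⟨F, hF1, hF2, hF3⟩ : ∃ F : Δ →* GL (Fin 2) L, F z = 1 ∧
      (∀ x, IsAlgebraic ℤ ((F x).1.trace ^ 2 / (F x).1.det)) ∧
      ∀ x, γ (π x) = 1 → (F x = 1 ↔ ((q x).1 = 1 ∧ c x = 1) ∨
        ((q x).1 = -1 ∧ c x * (-1) ^ d k = 1)) := by
    have hs : ∀ x i j, (GeneralLinearGroup.scalar (Fin 2) (cH x)).1 i j =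
        if i = j then c x else 0 := by
      intro x i j
      rw [GeneralLinearGroup.coe_scalar, Matrix.scalar_apply, Matrix.diagonal_apply]
      rfl
    rcases Nat.even_or_odd (d k) with hev | hodd
    · rw [hev.neg_one_pow, mul_one] at hzc
      refine ⟨(GeneralLinearGroup.scalar (Fin 2)).comp cH, ?_, fun x => ?_, fun x hx => ?_⟩
      · refine Units.ext (Matrix.ext fun i j => ?_)
        show (GeneralLinearGroup.scalar (Fin 2) (cH z)).1 i j = (1 : Matrix _ _ L) i j
        rw [hs, hzc, Matrix.one_apply]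
      · have h1 : ((GeneralLinearGroup.scalar (Fin 2)).comp cH x).1.trace ^ 2 /
            ((GeneralLinearGroup.scalar (Fin 2)).comp cH x).1.det = algebraMap ℤ L 4 := by
          have h2 := hne x
          show (GeneralLinearGroup.scalar (Fin 2) (cH x)).1.trace ^ 2 /
            (GeneralLinearGroup.scalar (Fin 2) (cH x)).1.det = _
          rw [Matrix.trace_fin_two, Matrix.det_fin_two, hs, hs, hs, hs, if_pos rfl, if_pos rfl,
            if_neg (by decide), if_neg (by decide), mul_zero, sub_zero,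
            div_eq_iff (mul_ne_zero h2 h2)]
          have h5 : algebraMap ℤ L 4 = 4 := by simp
          rw [h5]
          ring
        rw [h1]
        exact isAlgebraic_algebraMap _
      · rw [hev.neg_one_pow, mul_one]
        have h1 : (GeneralLinearGroup.scalar (Fin 2)).comp cH x = 1 ↔ c x = 1 := by
          constructor
          · intro h
            have h2 : (GeneralLinearGroup.scalar (Fin 2) (cH x)).1 0 0 = 1 := by
              have h3 : GeneralLinearGroup.scalar (Fin 2) (cH x) = 1 := h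
              rw [h3, Units.val_one, Matrix.one_apply_eq]
            rw [hs, if_pos rfl] at h2
            exact h2
          · intro h
            refine Units.ext (Matrix.ext fun i j => ?_)
            show (GeneralLinearGroup.scalar (Fin 2) (cH x)).1 i j = (1 : Matrix _ _ L) i j
            rw [hs, h, Matrix.one_apply]
        rw [h1]
        constructor
        · intro h
          rcases hker x hx with h2 | h2
          · exact Or.inl ⟨h2, h⟩
          · exact Or.inr ⟨h2, h⟩
        · rintro (h | h)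
          · exact h.2
          · exact h.2
    · rw [hodd.neg_one_pow] at hzc
      have hzc' : c z = -1 := by linear_combination -hzc
      let F : Δ →* GL (Fin 2) L := MonoidHom.mk' (fun x =>
        GeneralLinearGroup.scalar (Fin 2) (cH x) * q x) fun x y => by
          rw [map_mul, map_mul, map_mul]
          rw [mul_assoc, mul_assoc, ← mul_assoc (q x), ← GeneralLinearGroup.scalar_commute,
            mul_assoc]
      have hFv : ∀ x i j, (F x).1 i j = c x * (q x).1 i j := by
        intro x i j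
        show (GeneralLinearGroup.scalar (Fin 2) (cH x) * q x).1 i j = _
        rw [Units.val_mul, Matrix.mul_apply, Finset.sum_eq_single i]
        · rw [hs, if_pos rfl]
        · intro l _ hl
          rw [hs, if_neg (Ne.symm hl), zero_mul]
        · intro h
          exact absurd (Finset.mem_univ _) h
      refine ⟨F, ?_, fun x => ?_, fun x hx => ?_⟩
      · refine Units.ext (Matrix.ext fun i j => ?_)
        rw [hFv, hzc', hz', Matrix.neg_apply, Units.val_one]
        ring
      · have h1 : (F x).1.trace ^ 2 / (F x).1.det = (q x).1.trace ^ 2 := by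
          have h2 := hne x
          have h3 : (F x).1.det = c x ^ 2 := by
            have h4 := hdet x
            rw [Matrix.det_fin_two] at h4 ⊢
            rw [hFv, hFv, hFv, hFv]
            linear_combination c x ^ 2 * h4
          rw [h3, Matrix.trace_fin_two, Matrix.trace_fin_two, hFv, hFv,
            div_eq_iff (pow_ne_zero 2 h2)]
          ring
        rw [h1]
        obtain ⟨B, hB⟩ := ProjGenLinGroup.mk_surjective (γ (π x))
        have h1 : ProjGenLinGroup.mk (q x) =
            ProjGenLinGroup.mk (GeneralLinearGroup.map (algebraMap K L) B) := by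
          rw [hq]
          show ProjGenLinGroup.map (algebraMap K L) (γ (π x)) = _
          rw [← hB]
          rfl
        have h2 := ratio_eq h1
        rw [hdet, div_one] at h2
        have h3 : (GeneralLinearGroup.map (algebraMap K L) B).1.trace ^ 2 /
            (GeneralLinearGroup.map (algebraMap K L) B).1.det =
            algebraMap K L (B.1.trace ^ 2 / B.1.det) := by
          rw [map_div₀, map_pow, Matrix.trace_fin_two, Matrix.trace_fin_two, Matrix.det_fin_two,
            Matrix.det_fin_two]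
          simp [GeneralLinearGroup.map_apply]
        rw [h2, h3]
        exact (halg (π x) B hB).algebraMap
      · rw [hodd.neg_one_pow]
        have h1 : F x = 1 ↔ ∀ i j, c x * (q x).1 i j = (1 : Matrix (Fin 2) (Fin 2) L) i j := by
          constructor
          · intro h i j
            rw [← hFv, h, Units.val_one]
          · intro h
            refine Units.ext (Matrix.ext fun i j => ?_)
            rw [hFv, h, Units.val_one]
        rw [h1]
        constructor
        · intro h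
          have h2 := h 0 0
          rcases hker x hx with h3 | h3
          · rw [h3, Matrix.one_apply_eq, mul_one] at h2
            exact Or.inl ⟨h3, h2⟩
          · rw [h3, Matrix.neg_apply, Matrix.one_apply_eq] at h2
            exact Or.inr ⟨h3, h2⟩
        · rintro (⟨h2, h3⟩ | ⟨h2, h3⟩) i j
          · rw [h2, h3, one_mul]
          · rw [h2, Matrix.neg_apply]
            linear_combination (1 : Matrix (Fin 2) (Fin 2) L) i j * h3
  obtain ⟨F', hF'⟩ := H80.descend π hπ F fun g hg => by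
    rcases hker' g hg with rfl | rfl
    · exact map_one F
    · exact hF1
  obtain ⟨ψ, hψ⟩ := emb_all F' fun h => by
    obtain ⟨x, rfl⟩ := hπ h
    rw [hF']
    exact hF2 x
  refine ⟨ψ, fun h hh => ?_⟩
  obtain ⟨x, rfl⟩ := hπ h
  rw [hψ, hF', hF3 x hh, hblk x hh]

/-- EMT. -/
theorem emt {K : Type u} [Field K] [CharZero K] {r : ℕ} (d : Fin r → ℕ) {H : Type u}
    [Group H] [hfg : Group.FG H] (τ : H →* GL (Σ k : Fin r, (Fin (d k) → Fin 2)) K)
    (γ : H →* PGL(Fin 2, K)) (htri : ∀ g, (τ g).1.BlockTriangular Sigma.fst)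
    (hR : ∀ g k, ∃ (B : GL (Fin 2) K) (c : K), ProjGenLinGroup.mk B = γ g ∧
      ∀ i j, (τ g).1 ⟨k, i⟩ ⟨k, j⟩ = c * ∏ t, B.1 (i t) (j t))
    (halg : ∀ g (B : GL (Fin 2) K), ProjGenLinGroup.mk B = γ g →
      IsAlgebraic ℤ (B.1.trace ^ 2 / B.1.det)) :
    ∃ ψ : H →* (Fin r → GL (Fin 2) (AlgebraicClosure ℚ)) × PGL(Fin 2, AlgebraicClosure ℚ),
      ∀ h, ψ h = 1 ↔ γ h = 1 ∧ ∀ k i j, (τ h).1 ⟨k, i⟩ ⟨k, j⟩ =
        (1 : Matrix (Fin (d k) → Fin 2) (Fin (d k) → Fin 2) K) i j := by
  choose ψ1 hψ1 using fun k => emt_blk d τ γ htri k (fun g => hR g k) halg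
  obtain ⟨ψ2, hψ2⟩ := emx_pgl γ halg
  refine ⟨(MonoidHom.pi ψ1).prod ψ2, fun h => ?_⟩
  rw [MonoidHom.prod_apply, Prod.mk_eq_one, hψ2, and_comm]
  refine and_congr_right fun h1 => ⟨fun h2 k => (hψ1 k h h1).1 (congrFun h2 k), fun h2 =>
    funext fun k => (hψ1 k h h1).2 (h2 k)⟩

/-- EMT for subgroups. -/
theorem emt_sub {K : Type u} [Field K] [CharZero K] {r : ℕ} (d : Fin r → ℕ) {Γ : Type u}
    [Group Γ] (τ : Γ →* GL (Σ k : Fin r, (Fin (d k) → Fin 2)) K)
    (γ : Γ →* PGL(Fin 2, K)) (htri : ∀ g, (τ g).1.BlockTriangular Sigma.fst)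
    (hR : ∀ g k, ∃ (B : GL (Fin 2) K) (c : K), ProjGenLinGroup.mk B = γ g ∧
      ∀ i j, (τ g).1 ⟨k, i⟩ ⟨k, j⟩ = c * ∏ t, B.1 (i t) (j t))
    (H : Subgroup Γ) (hfg : H.FG)
    (halg : ∀ g ∈ H, ∀ B : GL (Fin 2) K, ProjGenLinGroup.mk B = γ g →
      IsAlgebraic ℤ (B.1.trace ^ 2 / B.1.det)) :
    ∃ ψ : H →* (Fin r → GL (Fin 2) (AlgebraicClosure ℚ)) × PGL(Fin 2, AlgebraicClosure ℚ),
      ∀ h, ψ h = 1 ↔ γ h.1 = 1 ∧ ∀ k i j, (τ h.1).1 ⟨k, i⟩ ⟨k, j⟩ =
        (1 : Matrix (Fin (d k) → Fin 2) (Fin (d k) → Fin 2) K) i j := by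
  have : Group.FG H := (Group.fg_iff_subgroup_fg _).2 hfg
  exact emt d (τ.comp H.subtype) (γ.comp H.subtype) (fun g => htri g.1)
    (fun g k => hR g.1 k) fun g B hB => halg g.1 g.2 B hB

section

variable {K : Type v} [Field K] {ι : Type w} [Fintype ι] [DecidableEq ι] (b : ι → ℕ)

/-- Matrices with entries on and above the block diagonal number `s` only. -/
def JacI (s : ℕ) (x : Matrix ι ι K) : Prop := ∀ i j, b j < b i + s → x i j = 0

variable {b}

theorem JacI.mul {s t : ℕ} {x y : Matrix ι ι K} (hx : JacI b s x) (hy : JacI b t y) :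
    JacI b (s + t) (x * y) := by
  intro i j hij
  rw [Matrix.mul_apply]
  refine Finset.sum_eq_zero fun l _ => ?_
  rcases lt_or_ge (b l) (b i + s) with h | h
  · rw [hx i l h, zero_mul]
  · rw [hy l j (by omega), mul_zero]

theorem JacI.sub {s : ℕ} {x y : Matrix ι ι K} (hx : JacI b s x) (hy : JacI b s y) :
    JacI b s (x - y) := fun i j hij => by
  rw [Matrix.sub_apply, hx i j hij, hy i j hij, sub_zero]

theorem JacI.add {s : ℕ} {x y : Matrix ι ι K} (hx : JacI b s x) (hy : JacI b s y) :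
    JacI b s (x + y) := fun i j hij => by
  rw [Matrix.add_apply, hx i j hij, hy i j hij, add_zero]

theorem JacI.eq_zero {x : Matrix ι ι K} (hx : JacI b ((∑ i, b i) + 1) x) : x = 0 := by
  refine Matrix.ext fun i j => hx i j ?_
  have := Finset.single_le_sum (f := b) (fun _ _ => Nat.zero_le _) (Finset.mem_univ j)
  omega

/-- Groups of block unitriangular matrices are nilpotent. -/
theorem nilI (b : ι → ℕ) {N : Type u} [Group N] (ρ : N →* GL ι K)
    (hinj : Function.Injective ρ) (h0 : ∀ g i j, b j < b i → (ρ g).1 i j = 0)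
    (h1 : ∀ g i j, b i = b j → (ρ g).1 i j = (1 : Matrix ι ι K) i j) :
    Group.IsNilpotent N := by
  have hJ0 : ∀ g, JacI b 0 (ρ g).1 := fun g i j hij => h0 g i j (by omega)
  have hJ1 : ∀ g, JacI b 1 ((ρ g).1 - 1) := by
    intro g i j hij
    rw [Matrix.sub_apply]
    rcases lt_or_ge (b j) (b i) with h | h
    · rw [h0 g i j h, Matrix.one_apply_ne (by
        rintro rfl
        omega), sub_zero]
    · rw [h1 g i j (by omega), sub_self]
  have hinv : ∀ g : N, (ρ g).1 * (ρ g⁻¹).1 = 1 := fun g => by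
    rw [← Units.val_mul, ← map_mul, mul_inv_cancel, map_one, Units.val_one]
  let H : ℕ → Subgroup N := fun s =>
    { carrier := {g | JacI b (s + 1) ((ρ g).1 - 1)}
      one_mem' := by
        intro i j _
        rw [map_one, Units.val_one, sub_self, Matrix.zero_apply]
      mul_mem' := by
        intro g h hg hh
        have h2 : (ρ (g * h)).1 - 1 = ((ρ g).1 - 1) * (ρ h).1 + ((ρ h).1 - 1) := by
          rw [map_mul, Units.val_mul, sub_mul, one_mul]
          abel
        show JacI b (s + 1) ((ρ (g * h)).1 - 1)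
        rw [h2]
        exact JacI.add (JacI.mul (s := s + 1) (t := 0) hg (hJ0 h)) hh
      inv_mem' := by
        intro g hg
        have h2 : (ρ g⁻¹).1 - 1 = 0 - ((ρ g).1 - 1) * (ρ g⁻¹).1 := by
          rw [sub_mul, hinv, one_mul]
          abel
        show JacI b (s + 1) ((ρ g⁻¹).1 - 1)
        rw [h2]
        exact JacI.sub (fun i j _ => rfl) (JacI.mul (s := s + 1) (t := 0) hg (hJ0 g⁻¹)) }
  refine (Subgroup.nilpotent_iff_finite_descending_central_series N).2 ⟨∑ i, b i, H, ⟨?_, ?_⟩, ?_⟩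
  · rw [eq_top_iff]
    exact fun g _ => hJ1 g
  · intro g s hg h
    show JacI b (s + 1 + 1) ((ρ (g * h * g⁻¹ * h⁻¹)).1 - 1)
    have h2 : (ρ (g * h * g⁻¹ * h⁻¹)).1 - 1 = (((ρ g).1 - 1) * ((ρ h).1 - 1) - ((ρ h).1 - 1) *
        ((ρ g).1 - 1)) * ((ρ g⁻¹).1 * (ρ h⁻¹).1) := by
      have h3 : (((ρ g).1 - 1) * ((ρ h).1 - 1) - ((ρ h).1 - 1) * ((ρ g).1 - 1)) =
          (ρ g).1 * (ρ h).1 - (ρ h).1 * (ρ g).1 := by
        noncomm_ring
      have h4 : (ρ (g * h * g⁻¹ * h⁻¹)).1 = (ρ g).1 * (ρ h).1 * (ρ g⁻¹).1 * (ρ h⁻¹).1 := by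
        rw [map_mul, map_mul, map_mul, Units.val_mul, Units.val_mul,
          Units.val_mul]
      rw [h3, h4, sub_mul]
      have h5 : (ρ h).1 * (ρ g).1 * ((ρ g⁻¹).1 * (ρ h⁻¹).1) = 1 := by
        rw [mul_assoc, ← mul_assoc (ρ g).1, hinv, one_mul, hinv]
      rw [h5, ← mul_assoc]
    rw [h2]
    refine JacI.mul (t := 0) (JacI.sub (JacI.mul (t := 1) hg (hJ1 h)) ?_)
      (JacI.mul (s := 0) (t := 0) (hJ0 _) (hJ0 _))
    have h3 := JacI.mul (hJ1 h) hg
    rwa [add_comm] at h3
  · rw [eq_bot_iff]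
    intro g hg
    rw [Subgroup.mem_bot]
    refine hinj ?_
    rw [map_one]
    refine Units.ext ?_
    exact sub_eq_zero.1 (JacI.eq_zero hg)

end

/-- Finitely generated subgroups as in `emt_sub` have a homomorphism to `GL₂(ℚ̄)ʳ × PGL₂(ℚ̄)` with
a nilpotent kernel. -/
theorem emt_nil {K : Type u} [Field K] {r : ℕ} (d : Fin r → ℕ) {Γ : Type u} [Group Γ]
    (τ : Γ →* GL (Σ k : Fin r, (Fin (d k) → Fin 2)) K) (γ : Γ →* PGL(Fin 2, K))
    (htri : ∀ g, (τ g).1.BlockTriangular Sigma.fst)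
    (hinj : ∀ g, τ g = 1 → γ g = 1 → g = 1) (H : Subgroup Γ)
    (h : ∃ ψ : H →* (Fin r → GL (Fin 2) (AlgebraicClosure ℚ)) × PGL(Fin 2, AlgebraicClosure ℚ),
      ∀ h, ψ h = 1 ↔ γ h.1 = 1 ∧ ∀ k i j, (τ h.1).1 ⟨k, i⟩ ⟨k, j⟩ =
        (1 : Matrix (Fin (d k) → Fin 2) (Fin (d k) → Fin 2) K) i j) :
    ∃ (m : ℕ) (ψ : H →* (Fin m → GL (Fin 2) (AlgebraicClosure ℚ)) ×
      PGL(Fin 2, AlgebraicClosure ℚ)), Group.IsNilpotent ψ.ker := by
  obtain ⟨ψ, hψ⟩ := h
  refine ⟨r, ψ, ?_⟩
  refine nilI (fun x => (x.1 : ℕ)) ((τ.comp H.subtype).comp ψ.ker.subtype) ?_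
    (fun g i j hij => htri g.1.1 hij) fun g i j hij => ?_
  · refine (injective_iff_map_eq_one _).2 fun g hg => ?_
    exact Subtype.ext (Subtype.ext (hinj g.1.1 hg ((hψ g.1).1 g.2).1))
  · obtain ⟨k, i⟩ := i
    obtain ⟨k', j⟩ := j
    have hk : k = k' := Fin.ext hij
    subst hk
    refine (((hψ g.1).1 g.2).2 k i j).trans ?_
    rw [Matrix.one_apply, Matrix.one_apply]
    by_cases h1 : i = j
    · rw [if_pos h1, if_pos (by rw [h1])]
    · rw [if_neg h1, if_neg fun h2 => h1 (eq_of_heq (Sigma.mk.inj h2).2)]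

end Pool.Agent.NegK.RK
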