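import Pool.Agent.Lib.MP_28303a_al.RK.Pos

/-! # Torsionfree groups of semisimple rank one over a field of positive characteristic -/

set_option autoImplicit false
set_option linter.unusedSectionVars false
set_option linter.unusedVariables false

namespace Pool.Agent.NegK.RK

universe u v

open Matrix
open scoped MatrixGroups
open Pool.Agent.NegK.TW Pool.Agent.NegK.TT Pool.Agent.NegK.NT

/-- The diagonal blocks of block triangular matrices. -/
theorem blk_mul {K : Type v} [CommRing K] {r : ℕ} {d : Fin r → Type} [∀ k, Fintype (d k)]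
    [∀ k, DecidableEq (d k)] {M N : Matrix (Σ k, d k) (Σ k, d k) K}
    (hM : M.BlockTriangular Sigma.fst) (hN : N.BlockTriangular Sigma.fst) (k : Fin r) :
    (M * N).submatrix (Sigma.mk k) (Sigma.mk k) =
      M.submatrix (Sigma.mk k) (Sigma.mk k) * N.submatrix (Sigma.mk k) (Sigma.mk k) := by
  ext i j
  rw [Matrix.submatrix_apply, Matrix.mul_apply, Matrix.mul_apply, Fintype.sum_sigma,
    Finset.sum_eq_single k]
  · rfl
  · intro l _ hl
    refine Finset.sum_eq_zero fun x _ => ?_
    rcases lt_or_gt_of_ne hl with h | h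
    · rw [hM (i := ⟨k, i⟩) (j := ⟨l, x⟩) h, zero_mul]
    · rw [hN (i := ⟨l, x⟩) (j := ⟨k, j⟩) h, mul_zero]
  · intro h
    exact absurd (Finset.mem_univ _) h

/-- The homomorphism to a diagonal block. -/
def blkHom {K : Type v} [CommRing K] {r : ℕ} {d : Fin r → Type} [∀ k, Fintype (d k)]
    [∀ k, DecidableEq (d k)] {Γ : Type u} [Group Γ] (τ : Γ →* GL (Σ k, d k) K)
    (htri : ∀ g, (τ g).1.BlockTriangular Sigma.fst) (k : Fin r) : Γ →* Matrix (d k) (d k) K where
  toFun g := (τ g).1.submatrix (Sigma.mk k) (Sigma.mk k)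
  map_one' := by
    rw [map_one, Units.val_one]
    exact Matrix.submatrix_one _ sigma_mk_injective
  map_mul' g h := by
    rw [map_mul, Units.val_mul]
    exact blk_mul (htri g) (htri h) k

/-- Torsionfree groups of semisimple rank one over a field of positive characteristic. -/
theorem posT {K : Type u} [Field K] (p : ℕ) (hp : 0 < p) (hpK : (p : K) = 0) {r : ℕ}
    (d : Fin r → ℕ) {Γ : Type u} [Group Γ] (htf : TorsionFree Γ)
    (τ : Γ →* GL (Σ k : Fin r, (Fin (d k) → Fin 2)) K)
    (htri : ∀ g, (τ g).1.BlockTriangular Sigma.fst) (γ : Γ →* PGL(Fin 2, K))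
    (hR : ∀ g k, ∃ (B : GL (Fin 2) K) (c : K), ProjGenLinGroup.mk B = γ g ∧
      ∀ i j, (τ g).1 ⟨k, i⟩ ⟨k, j⟩ = c * ∏ t, B.1 (i t) (j t))
    (hinj : ∀ g, τ g = 1 → γ g = 1 → g = 1) : InK Γ := by
  classical
  let χ : Fin r → Γ →* K := fun k => Matrix.detMonoidHom.comp (blkHom τ htri k)
  let D : Γ →* Matrix (Fin r) (Fin r) K :=
    { toFun := fun g => Matrix.diagonal fun k => χ k g
      map_one' := by
        simp only [map_one]
        exact Matrix.diagonal_one
      map_mul' := fun g h => by
        simp only [map_mul]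
        exact (Matrix.diagonal_mul_diagonal _ _).symm }
  refine pos p hp hpK (fun i : Fin r => (i : ℕ)) (fun k => ?_) htf D.toHomUnits (fun g i j h => ?_)
    γ fun g h1 h2 => ?_
  · refine (Finset.card_le_one.2 fun a ha b hb => ?_).trans one_le_two
    rw [Finset.mem_filter] at ha hb
    exact Fin.ext (ha.2.trans hb.2.symm)
  · exact Matrix.diagonal_apply_ne _ (by
      rintro rfl
      exact lt_irrefl _ h)
  · -- the elements of the kernel are torsion
    have hχ : ∀ k, χ k g = 1 := fun k => by
      have h3 : D g = 1 := congrArg Units.val h1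
      have h4 := congrFun (congrFun h3 k) k
      rw [Matrix.one_apply_eq] at h4
      have h5 : D g k k = χ k g := Matrix.diagonal_apply_eq _ _
      rw [← h5, h4]
    have hscal : ∀ k, ∃ e : K, blkHom τ htri k g = Matrix.scalar _ e := by
      intro k
      obtain ⟨B, c, hB, hc⟩ := hR g k
      rw [h2, ProjGenLinGroup.mk_eq_one,
        GeneralLinearGroup.mem_center_iff_val_mem_range_scalar] at hB
      obtain ⟨b, hb⟩ := hB
      refine ⟨c * b ^ d k, Matrix.ext fun i j => ?_⟩
      have h3 : blkHom τ htri k g i j = c * ∏ t, B.1 (i t) (j t) := hc i j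
      rw [h3, ← hb, Matrix.scalar_apply, Matrix.scalar_apply, Matrix.diagonal_apply]
      split_ifs with hij
      · rw [hij]
        simp
      · have h4 : ∃ t, i t ≠ j t := by
          by_contra h5
          push Not at h5
          exact hij (funext h5)
        obtain ⟨t, ht⟩ := h4
        have h5 : ∏ t, Matrix.diagonal (fun _ : Fin 2 => b) (i t) (j t) = 0 :=
          Finset.prod_eq_zero (Finset.mem_univ t) (Matrix.diagonal_apply_ne _ ht)
        rw [h5, mul_zero]
    choose e he using hscal
    have hpow : ∀ k, e k ^ (2 ^ d k) = 1 := by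
      intro k
      have h3 := hχ k
      have h4 : χ k g = (blkHom τ htri k g).det := rfl
      rw [h4, he k, Matrix.scalar_apply, Matrix.det_diagonal, Finset.prod_const] at h3
      rw [← h3, Finset.card_univ]
      congr 1
      simp
    let M : ℕ := ∏ k, 2 ^ d k
    have hM : 0 < M := Finset.prod_pos fun k _ => by positivity
    have hblk : ∀ k, blkHom τ htri k (g ^ M) = 1 := by
      intro k
      obtain ⟨M', hM'⟩ : 2 ^ d k ∣ M := Finset.dvd_prod_of_mem _ (Finset.mem_univ k)
      rw [map_pow, he k, ← map_pow, hM', pow_mul, hpow k, one_pow, map_one]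
    obtain ⟨s, hs⟩ := H80.strict_nilp (fun i : Σ k : Fin r, (Fin (d k) → Fin 2) => (i.1 : ℕ))
      (x := (τ (g ^ M)).1 - 1) (by
        rintro ⟨k, i⟩ ⟨l, j⟩ hkl
        rw [Matrix.sub_apply]
        rcases Nat.lt_or_ge (l : ℕ) (k : ℕ) with h | h
        · rw [htri (g ^ M) (i := ⟨k, i⟩) (j := ⟨l, j⟩) (Fin.lt_def.2 h), Matrix.one_apply_ne (by
            intro h5
            have h6 : k = l := congrArg Sigma.fst h5
            rw [h6] at h
            exact lt_irrefl _ h), sub_zero]
        · have h5 : k = l := Fin.ext (le_antisymm h hkl)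
          subst h5
          have h6 := congrFun (congrFun (hblk k) i) j
          have h7 : blkHom τ htri k (g ^ M) i j = (τ (g ^ M)).1 ⟨k, i⟩ ⟨k, j⟩ := rfl
          rw [← h7, h6, Matrix.one_apply, Matrix.one_apply]
          by_cases hij : i = j
          · rw [if_pos hij, if_pos (by rw [hij]), sub_self]
          · rw [if_neg hij, if_neg (fun h8 => hij (sigma_mk_injective h8)), sub_self])
    have hMK : ((p : ℕ) : Matrix (Σ k : Fin r, (Fin (d k) → Fin 2))
        (Σ k : Fin r, (Fin (d k) → Fin 2)) K) = 0 := by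
      have := congrArg (algebraMap K (Matrix (Σ k : Fin r, (Fin (d k) → Fin 2))
        (Σ k : Fin r, (Fin (d k) → Fin 2)) K)) hpK
      rw [map_natCast, map_zero] at this
      exact this
    obtain ⟨m, hm, hm'⟩ := H80.unip hp hMK s _ hs
    rw [add_sub_cancel] at hm'
    have h3 : τ (g ^ (M * m)) = 1 := by
      refine Units.ext ?_
      rw [pow_mul, map_pow, Units.val_pow_eq_pow_val, hm', Units.val_one]
    have h4 : γ (g ^ (M * m)) = 1 := by rw [map_pow, h2, one_pow]
    exact htf g (M * m) (Nat.mul_pos hM hm) (hinj _ h3 h4)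

end Pool.Agent.NegK.RK
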