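import Pool.Agent.Lib.MP_28303a_al.RK.Bs2
import Pool.Agent.Lib.MP_28303a_al.RK.PosT
import Pool.Agent.Lib.MP_28303a_al.RK.Emt

/-! # Finitely generated torsion groups of semisimple rank one in positive characteristic -/

set_option autoImplicit false
set_option linter.unusedSectionVars false
set_option linter.unusedVariables false

namespace Pool.Agent.NegK.RK

universe u v w

open Matrix
open scoped MatrixGroups
open Pool.Agent.NegK.TW Pool.Agent.NegK.TT Pool.Agent.NegK.NT

namespace Bs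

/-- Homomorphisms to `PGL₂` in positive characteristic. -/
theorem bs_pgl {K : Type u} [Field K] (p : ℕ) (hp : 0 < p) (hpK : (p : K) = 0) {G : Type u}
    [Group G] (hfg : Group.FG G) (ht : Tor G) (γ : G →* PGL(Fin 2, K)) : γ.ker.FiniteIndex := by
  obtain ⟨p', hp'⟩ := CharP.exists K
  have h0 : p' ≠ 0 := by
    rintro rfl
    have := hp'
    have h1 := (CharP.cast_eq_zero_iff K 0 p).1 hpK
    rw [Nat.eq_zero_of_zero_dvd h1] at hp
    exact lt_irrefl _ hp
  have hpr : p'.Prime := (CharP.char_is_prime_or_zero K p').resolve_right h0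
  have : Fact p'.Prime := ⟨hpr⟩
  let L := AlgebraicClosure K
  have : CharP L p' := charP_of_injective_algebraMap (algebraMap K L).injective p'
  let i : Algebra (ZMod p') L := ZMod.algebra L p'
  let γ' : G →* PGL(Fin 2, L) := (ProjGenLinGroup.map (algebraMap K L)).comp γ
  obtain ⟨Δ, _, π, q, z, hπ, hdet, hq, hz, hz', hker, hfin, hfgΔ⟩ := P2.exists_lift γ'
  have := hfgΔ hfg
  have htΔ : Tor Δ := by
    intro x
    obtain ⟨m, hm, h1⟩ := ht (π x)
    have h2 : π (x ^ m) = 1 := by rw [map_pow, h1]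
    obtain ⟨l, hl, h3⟩ : ∃ l, 0 < l ∧ (⟨x ^ m, h2⟩ : π.ker) ^ l = 1 :=
      isOfFinOrder_iff_pow_eq_one.1 (isOfFinOrder_of_finite _)
    refine ⟨m * l, Nat.mul_pos hm hl, ?_⟩
    rw [pow_mul]
    exact congrArg Subtype.val h3
  have h1 := bs2 (E := ZMod p') htΔ q
  have h2 : q.ker ≤ (γ'.ker).comap π := by
    intro x hx
    show γ' (π x) = 1
    rw [← hq, show q x = 1 from hx, map_one]
  have h3 : ((γ'.ker).comap π).FiniteIndex := Subgroup.finiteIndex_of_le h2
  have h4 : γ'.ker = γ.ker := by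
    ext g
    rw [MonoidHom.mem_ker, MonoidHom.mem_ker]
    exact ⟨fun h => P2.map_injective (algebraMap K L) (h.trans (map_one _).symm), fun h => by
      show ProjGenLinGroup.map (algebraMap K L) (γ g) = 1
      rw [h, map_one]⟩
  rw [← h4]
  refine ⟨?_⟩
  rw [← Subgroup.index_comap_of_surjective _ hπ]
  exact h3.index_ne_zero

/-- The diagonal blocks are scalars if the image in `PGL₂` is trivial. -/
theorem blk_scal {K : Type u} [Field K] {r : ℕ} {d : Fin r → ℕ} {Γ : Type u} [Group Γ]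
    (τ : Γ →* GL (Σ k : Fin r, (Fin (d k) → Fin 2)) K)
    (htri : ∀ g, (τ g).1.BlockTriangular Sigma.fst) (γ : Γ →* PGL(Fin 2, K))
    (hR : ∀ g k, ∃ (B : GL (Fin 2) K) (c : K), ProjGenLinGroup.mk B = γ g ∧
      ∀ i j, (τ g).1 ⟨k, i⟩ ⟨k, j⟩ = c * ∏ t, B.1 (i t) (j t)) (g : Γ) (hg : γ g = 1)
    (k : Fin r) : ∃ e : K, blkHom τ htri k g = Matrix.scalar _ e := by
  obtain ⟨B, c, hB, hc⟩ := hR g k
  rw [hg, ProjGenLinGroup.mk_eq_one,
    GeneralLinearGroup.mem_center_iff_val_mem_range_scalar] at hB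
  obtain ⟨b, hb⟩ := hB
  refine ⟨c * b ^ d k, Matrix.ext fun i j => ?_⟩
  have h3 : blkHom τ htri k g i j = c * ∏ t, B.1 (i t) (j t) := hc i j
  rw [h3, ← hb, Matrix.scalar_apply, Matrix.scalar_apply, Matrix.diagonal_apply]
  split_ifs with hij
  · rw [hij]
    simp
  · have h4 : ∃ t, i t ≠ j t := by
      by_contra h5
      push Not at h5
      exact hij (funext h5)
    obtain ⟨t, ht⟩ := h4
    have h5 : ∏ t, Matrix.diagonal (fun _ : Fin 2 => b) (i t) (j t) = 0 :=
      Finset.prod_eq_zero (Finset.mem_univ t) (Matrix.diagonal_apply_ne _ ht)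
    rw [h5, mul_zero]

/-- Finitely generated torsion groups with a pair of rank one in positive characteristic: the kernel
of the pair has finite index. -/
theorem bs3 {K : Type u} [Field K] (p : ℕ) (hp : 0 < p) (hpK : (p : K) = 0) {r : ℕ}
    (d : Fin r → ℕ) {G : Type u} [Group G] (hfg : Group.FG G) (ht : Tor G)
    (τ : G →* GL (Σ k : Fin r, (Fin (d k) → Fin 2)) K)
    (htri : ∀ g, (τ g).1.BlockTriangular Sigma.fst) (γ : G →* PGL(Fin 2, K))
    (hR : ∀ g k, ∃ (B : GL (Fin 2) K) (c : K), ProjGenLinGroup.mk B = γ g ∧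
      ∀ i j, (τ g).1 ⟨k, i⟩ ⟨k, j⟩ = c * ∏ t, B.1 (i t) (j t)) :
    (τ.prod γ).ker.FiniteIndex := by
  classical
  have h1 := bs_pgl p hp hpK hfg ht γ
  have hfg1 : Group.FG γ.ker := inferInstance
  have ht1 : Tor γ.ker := ht.sub γ.ker.subtype Subtype.val_injective
  refine fi_step (τ.prod γ) γ.ker h1 ?_
  -- the diagonal blocks
  let D : γ.ker →* ∀ k : Fin r, (Matrix (Fin (d k) → Fin 2) (Fin (d k) → Fin 2) K)ˣ :=
    MonoidHom.pi fun k => (blkHom τ htri k).toHomUnits.comp γ.ker.subtype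
  have h2 : D.ker.FiniteIndex := by
    refine fi_comm ht1 D fun x y => funext fun k => Units.ext ?_
    obtain ⟨a, ha⟩ := blk_scal τ htri γ hR x.1 x.2 k
    obtain ⟨b, hb⟩ := blk_scal τ htri γ hR y.1 y.2 k
    show blkHom τ htri k x.1 * blkHom τ htri k y.1 = blkHom τ htri k y.1 * blkHom τ htri k x.1
    rw [ha, hb, ← map_mul, ← map_mul, mul_comm]
  have hfg2 : Group.FG D.ker := inferInstance
  have ht2 : Tor D.ker := ht1.sub D.ker.subtype Subtype.val_injective
  refine fi_step _ D.ker h2 ?_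
  -- the unipotent part
  let t : D.ker →* GL (Σ k : Fin r, (Fin (d k) → Fin 2)) K :=
    (τ.comp γ.ker.subtype).comp D.ker.subtype
  have h3 : t.ker.FiniteIndex := by
    refine fi_solv ht2 t ?_
    have h4 : Group.IsNilpotent (ULift.{u} t.range) := by
      refine nilI (fun x : (Σ k : Fin r, (Fin (d k) → Fin 2)) => (x.1 : ℕ))
        (t.range.subtype.comp (MulEquiv.ulift (α := t.range)).toMonoidHom)
        (Subtype.val_injective.comp (MulEquiv.ulift (α := t.range)).injective) ?_ ?_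
      · rintro ⟨_, g, rfl⟩ i j hij
        exact htri g.1.1 hij
      · rintro ⟨_, g, rfl⟩ i j hij
        obtain ⟨k, i⟩ := i
        obtain ⟨k', j⟩ := j
        have hk : k = k' := Fin.ext hij
        subst hk
        have h5 : blkHom τ htri k g.1.1 = 1 :=
          congrArg (fun w => (w k : Matrix (Fin (d k) → Fin 2) (Fin (d k) → Fin 2) K))
            (show D g.1 = 1 from g.2)
        have h6 : (τ g.1.1).1 ⟨k, i⟩ ⟨k, j⟩ =
            (1 : Matrix (Fin (d k) → Fin 2) (Fin (d k) → Fin 2) K) i j :=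
          congrFun (congrFun h5 i) j
        refine h6.trans ?_
        rw [Matrix.one_apply, Matrix.one_apply]
        by_cases h1 : i = j
        · rw [if_pos h1, if_pos (by rw [h1])]
        · rw [if_neg h1, if_neg fun h2 => h1 (eq_of_heq (Sigma.mk.inj h2).2)]
    have h5 : Group.IsNilpotent t.range :=
      Group.nilpotent_of_mulEquiv (MulEquiv.ulift (α := t.range))
    exact inferInstance
  refine Subgroup.finiteIndex_of_le (H := t.ker) fun x hx => ?_
  exact Prod.ext hx x.1.2

end Bs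

end Pool.Agent.NegK.RK
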