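import Pool.Agent.Lib.MP_28303a_al.RK.Bs2
import Pool.Agent.Lib.MP_28303a_al.RK.VpDefs2
import Pool.Agent.Lib.MP_28303a_al.P2.Lift

/-! # Finitely generated torsion subgroups in positive characteristic -/

set_option autoImplicit false
set_option linter.unusedSectionVars false
set_option linter.unusedVariables false

namespace Pool.Agent.NegK.RK

universe u v

open Matrix
open scoped MatrixGroups
open Bs

/-- Homomorphisms of finitely generated torsion groups to `GL₂(F)` have kernels of finite index. -/
theorem fi_gl2 {F : Type u} [Field F] (p : ℕ) (hp : 0 < p) (hpF : (p : F) = 0) {S : Type v}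
    [Group S] [Group.FG S] (ht : Tor S) (q : S →* GL (Fin 2) F) : q.ker.FiniteIndex := by
  obtain ⟨p', hp'⟩ := CharP.exists F
  have hne : p' ≠ 0 := by
    rintro rfl
    exact hp.ne' (Nat.eq_zero_of_zero_dvd ((CharP.cast_eq_zero_iff F 0 p).1 hpF))
  have hpr : p'.Prime := (CharP.char_is_prime_or_zero F p').resolve_right hne
  have := Fact.mk hpr
  let L := AlgebraicClosure F
  have hL : CharP L p' := charP_of_injective_algebraMap (algebraMap F L).injective p'
  letI : Algebra (ZMod p') L := ZMod.algebra L p'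
  have h1 := bs2 (L := L) (E := ZMod p') ht ((GeneralLinearGroup.map (algebraMap F L)).comp q)
  have h2 : ((GeneralLinearGroup.map (algebraMap F L)).comp q).ker = q.ker := by
    ext g
    rw [MonoidHom.mem_ker, MonoidHom.mem_ker, MonoidHom.comp_apply]
    constructor
    · intro h
      refine Units.ext (Matrix.ext fun i j => (algebraMap F L).injective ?_)
      have h3 := congrArg (fun A : GL (Fin 2) L => A.1 i j) h
      refine Eq.trans h3 ?_
      rw [Units.val_one, Units.val_one, Matrix.one_apply, Matrix.one_apply, apply_ite (algebraMap F L),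
        map_one, map_zero]
    · intro h
      rw [h, map_one]
  rwa [h2] at h1

/-- Finitely generated torsion subgroups are finite if all homomorphisms from finitely generated
torsion groups have kernels of finite index. -/
theorem bur_of {B : Type u} [Group B] (h : ∀ (S : Subgroup B), Group.FG S → Tor S →
    (S.subtype).ker.FiniteIndex) : Bur B := by
  intro S hS ht
  have h1 := h S ((Group.fg_iff_subgroup_fg S).2 hS) fun x => by
    obtain ⟨m, hm, h2⟩ := ht x.1 x.2
    exact ⟨m, hm, Subtype.ext h2⟩
  rw [Subgroup.ker_subtype] at h1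
  have h2 : Nat.card S ≠ 0 := by
    rw [← Subgroup.index_bot]
    exact h1.index_ne_zero
  exact Nat.finite_of_card_ne_zero h2

/-- Finitely generated torsion subgroups of `GL₂(F)` are finite. -/
theorem bur_gl2 (F : Type u) [Field F] (p : ℕ) (hp : 0 < p) (hpF : (p : F) = 0) :
    Bur (GL (Fin 2) F) :=
  bur_of fun S hS ht => fi_gl2 p hp hpF ht S.subtype

/-- Homomorphisms of finitely generated torsion groups to `PGL₂(F)` have kernels of finite
index. -/
theorem fi_pgl2 {F : Type u} [Field F] (p : ℕ) (hp : 0 < p) (hpF : (p : F) = 0) {S : Type u}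
    [Group S] [hfg : Group.FG S] (ht : Tor S) (γ : S →* PGL(Fin 2, F)) : γ.ker.FiniteIndex := by
  let L := AlgebraicClosure F
  let ψ1 : S →* PGL(Fin 2, L) := (ProjGenLinGroup.map (algebraMap F L)).comp γ
  have hψ1 : ∀ g, ψ1 g = 1 → γ g = 1 := fun g hg =>
    P2.map_injective (algebraMap F L) (hg.trans (map_one _).symm)
  obtain ⟨Δ, _, π, q, z, hπ, hdet, hq, hz, hz', hker, hfin, hfgΔ⟩ := P2.exists_lift ψ1
  have := hfgΔ hfg
  have htΔ : Tor Δ := by
    intro g
    obtain ⟨m, hm, h1⟩ := ht (π g)
    have h2 : g ^ m ∈ π.ker := by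
      rw [MonoidHom.mem_ker, map_pow, h1]
    obtain ⟨n, hn, h3⟩ := isOfFinOrder_iff_pow_eq_one.1
      (isOfFinOrder_of_finite (⟨g ^ m, h2⟩ : π.ker))
    refine ⟨m * n, Nat.mul_pos hm hn, ?_⟩
    rw [pow_mul]
    exact congrArg Subtype.val h3
  have h1 : q.ker.FiniteIndex := fi_gl2 p hp (F := L) (by
    rw [← map_natCast (algebraMap F L), hpF, map_zero]) htΔ q
  have h2 : (q.ker.map π) ≤ γ.ker := by
    rintro _ ⟨g, hg, rfl⟩
    refine hψ1 _ ?_
    rw [← hq, (show q g = 1 from hg), map_one]
  have h3 : (q.ker.map π).FiniteIndex :=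
    ⟨fun h4 => h1.index_ne_zero (Nat.eq_zero_of_zero_dvd (h4 ▸ Subgroup.index_map_dvd q.ker hπ))⟩
  exact Subgroup.finiteIndex_of_le h2

/-- Finitely generated torsion subgroups of `PGL₂(F)` are finite. -/
theorem bur_pgl2 (F : Type u) [Field F] (p : ℕ) (hp : 0 < p) (hpF : (p : F) = 0) :
    Bur PGL(Fin 2, F) :=
  bur_of fun S hS ht => fi_pgl2 p hp hpF ht S.subtype

end Pool.Agent.NegK.RK
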