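import Pool.Agent.Lib.MP_28303a_al.RK.BurG
import Pool.Agent.Lib.MP_28303a_al.NT.H80.Block
import Mathlib.RingTheory.Ideal.MinimalPrime.Noetherian
import Mathlib.RingTheory.FiniteType

/-! # Finitely generated torsion groups of block triangular matrices in positive characteristic -/

set_option autoImplicit false
set_option linter.unusedSectionVars false
set_option linter.unusedVariables false

namespace Pool.Agent.NegK.RK

universe u v w

open Matrix
open scoped MatrixGroups
open Bs

section

variable {K : Type v} [CommRing K] {ι : Type w} [Fintype ι] [DecidableEq ι] (b : ι → ℕ)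

/-- Matrices with entries on and above the block diagonal number `s` only. -/
def JaC (s : ℕ) (x : Matrix ι ι K) : Prop := ∀ i j, b j < b i + s → x i j = 0

variable {b}

theorem JaC.mul {s t : ℕ} {x y : Matrix ι ι K} (hx : JaC b s x) (hy : JaC b t y) :
    JaC b (s + t) (x * y) := by
  intro i j hij
  rw [Matrix.mul_apply]
  refine Finset.sum_eq_zero fun l _ => ?_
  rcases lt_or_ge (b l) (b i + s) with h | h
  · rw [hx i l h, zero_mul]
  · rw [hy l j (by omega), mul_zero]

theorem JaC.sub {s : ℕ} {x y : Matrix ι ι K} (hx : JaC b s x) (hy : JaC b s y) :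
    JaC b s (x - y) := fun i j hij => by
  rw [Matrix.sub_apply, hx i j hij, hy i j hij, sub_zero]

theorem JaC.add {s : ℕ} {x y : Matrix ι ι K} (hx : JaC b s x) (hy : JaC b s y) :
    JaC b s (x + y) := fun i j hij => by
  rw [Matrix.add_apply, hx i j hij, hy i j hij, add_zero]

theorem JaC.eq_zero {x : Matrix ι ι K} (hx : JaC b ((∑ i, b i) + 1) x) : x = 0 := by
  refine Matrix.ext fun i j => hx i j ?_
  have := Finset.single_le_sum (f := b) (fun _ _ => Nat.zero_le _) (Finset.mem_univ j)
  omega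

/-- Groups of block unitriangular matrices are nilpotent. -/
theorem nilC (b : ι → ℕ) {N : Type u} [Group N] (ρ : N →* GL ι K)
    (hinj : Function.Injective ρ) (h0 : ∀ g i j, b j < b i → (ρ g).1 i j = 0)
    (h1 : ∀ g i j, b i = b j → (ρ g).1 i j = (1 : Matrix ι ι K) i j) :
    Group.IsNilpotent N := by
  have hJ0 : ∀ g, JaC b 0 (ρ g).1 := fun g i j hij => h0 g i j (by omega)
  have hJ1 : ∀ g, JaC b 1 ((ρ g).1 - 1) := by
    intro g i j hij
    rw [Matrix.sub_apply]
    rcases lt_or_ge (b j) (b i) with h | h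
    · rw [h0 g i j h, Matrix.one_apply_ne (by
        rintro rfl
        omega), sub_zero]
    · rw [h1 g i j (by omega), sub_self]
  have hinv : ∀ g : N, (ρ g).1 * (ρ g⁻¹).1 = 1 := fun g => by
    rw [← Units.val_mul, ← map_mul, mul_inv_cancel, map_one, Units.val_one]
  let H : ℕ → Subgroup N := fun s =>
    { carrier := {g | JaC b (s + 1) ((ρ g).1 - 1)}
      one_mem' := by
        intro i j _
        rw [map_one, Units.val_one, sub_self, Matrix.zero_apply]
      mul_mem' := by
        intro g h hg hh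
        have h2 : (ρ (g * h)).1 - 1 = ((ρ g).1 - 1) * (ρ h).1 + ((ρ h).1 - 1) := by
          rw [map_mul, Units.val_mul, sub_mul, one_mul]
          abel
        show JaC b (s + 1) ((ρ (g * h)).1 - 1)
        rw [h2]
        exact JaC.add (JaC.mul (s := s + 1) (t := 0) hg (hJ0 h)) hh
      inv_mem' := by
        intro g hg
        have h2 : (ρ g⁻¹).1 - 1 = 0 - ((ρ g).1 - 1) * (ρ g⁻¹).1 := by
          rw [sub_mul, hinv, one_mul]
          abel
        show JaC b (s + 1) ((ρ g⁻¹).1 - 1)
        rw [h2]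
        exact JaC.sub (fun i j _ => rfl) (JaC.mul (s := s + 1) (t := 0) hg (hJ0 g⁻¹)) }
  refine (Subgroup.nilpotent_iff_finite_descending_central_series N).2 ⟨∑ i, b i, H, ⟨?_, ?_⟩, ?_⟩
  · rw [eq_top_iff]
    exact fun g _ => hJ1 g
  · intro g s hg h
    show JaC b (s + 1 + 1) ((ρ (g * h * g⁻¹ * h⁻¹)).1 - 1)
    have h2 : (ρ (g * h * g⁻¹ * h⁻¹)).1 - 1 = (((ρ g).1 - 1) * ((ρ h).1 - 1) - ((ρ h).1 - 1) *
        ((ρ g).1 - 1)) * ((ρ g⁻¹).1 * (ρ h⁻¹).1) := by
      have h3 : (((ρ g).1 - 1) * ((ρ h).1 - 1) - ((ρ h).1 - 1) * ((ρ g).1 - 1)) =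
          (ρ g).1 * (ρ h).1 - (ρ h).1 * (ρ g).1 := by
        noncomm_ring
      have h4 : (ρ (g * h * g⁻¹ * h⁻¹)).1 = (ρ g).1 * (ρ h).1 * (ρ g⁻¹).1 * (ρ h⁻¹).1 := by
        rw [map_mul, map_mul, map_mul, Units.val_mul, Units.val_mul,
          Units.val_mul]
      rw [h3, h4, sub_mul]
      have h5 : (ρ h).1 * (ρ g).1 * ((ρ g⁻¹).1 * (ρ h⁻¹).1) = 1 := by
        rw [mul_assoc, ← mul_assoc (ρ g).1, hinv, one_mul, hinv]
      rw [h5, ← mul_assoc]
    rw [h2]
    refine JaC.mul (t := 0) (JaC.sub (JaC.mul (t := 1) hg (hJ1 h)) ?_)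
      (JaC.mul (s := 0) (t := 0) (hJ0 _) (hJ0 _))
    have h3 := JaC.mul (hJ1 h) hg
    rwa [add_comm] at h3
  · rw [eq_bot_iff]
    intro g hg
    rw [Subgroup.mem_bot]
    refine hinj ?_
    rw [map_one]
    refine Units.ext ?_
    exact sub_eq_zero.1 (JaC.eq_zero hg)

end

/-- The reduction to the quotients by powers of an ideal. -/
theorem fi_pow {B : Type v} [CommRing B] (I : Ideal B) {S : Type u} [Group S] [Group.FG S]
    (ht : Tor S) (ψ : S →* GL (Fin 2) B)
    (h1 : ((GeneralLinearGroup.map (Ideal.Quotient.mk I)).comp ψ).ker.FiniteIndex) :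
    ∀ j : ℕ, ((GeneralLinearGroup.map (Ideal.Quotient.mk (I ^ (j + 1)))).comp ψ).ker.FiniteIndex
  | 0 => by
    rw [zero_add, pow_one]
    exact h1
  | j + 1 => by
    have ih := fi_pow I ht ψ h1 j
    let H := ((GeneralLinearGroup.map (Ideal.Quotient.mk (I ^ (j + 1)))).comp ψ).ker
    have hfgH : Group.FG H := inferInstance
    refine fi_step _ H ih (fi_comm (ht.sub H.subtype Subtype.val_injective) _ fun g h => ?_)
    have key : ∀ g : H, ∀ a b, (ψ g.1).1 a b - (1 : Matrix (Fin 2) (Fin 2) B) a b ∈ I ^ (j + 1) := by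
      intro g a b
      have h2 : (GeneralLinearGroup.map (Ideal.Quotient.mk (I ^ (j + 1)))) (ψ g.1) = 1 := g.2
      have h3 := congrArg (fun z : GL (Fin 2) (B ⧸ I ^ (j + 1)) => z.1 a b) h2
      have h4 : Ideal.Quotient.mk (I ^ (j + 1)) ((ψ g.1).1 a b) =
          (1 : Matrix (Fin 2) (Fin 2) (B ⧸ I ^ (j + 1))) a b := h3
      refine Ideal.Quotient.eq.1 ?_
      rw [h4, Matrix.one_apply, Matrix.one_apply, apply_ite (Ideal.Quotient.mk (I ^ (j + 1))),
        map_one, map_zero]
    have hle : ∀ x y : B, x ∈ I ^ (j + 1) → y ∈ I ^ (j + 1) → x * y ∈ I ^ (j + 1 + 1) := by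
      intro x y hx hy
      have h2 := Ideal.mul_mem_mul hx hy
      rw [← pow_add] at h2
      exact Ideal.pow_le_pow_right (by omega) h2
    have e1 : GeneralLinearGroup.map (Ideal.Quotient.mk (I ^ (j + 1 + 1))) (ψ g.1 * ψ h.1) =
        GeneralLinearGroup.map (Ideal.Quotient.mk (I ^ (j + 1 + 1))) (ψ h.1 * ψ g.1) := by
      refine Units.ext (Matrix.ext fun a b => ?_)
      show Ideal.Quotient.mk (I ^ (j + 1 + 1)) (((ψ g.1).1 * (ψ h.1).1) a b) =
        Ideal.Quotient.mk (I ^ (j + 1 + 1)) (((ψ h.1).1 * (ψ g.1).1) a b)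
      refine Ideal.Quotient.eq.2 ?_
      have e2 : (ψ g.1).1 * (ψ h.1).1 - (ψ h.1).1 * (ψ g.1).1 =
          ((ψ g.1).1 - 1) * ((ψ h.1).1 - 1) - ((ψ h.1).1 - 1) * ((ψ g.1).1 - 1) := by
        noncomm_ring
      rw [← Matrix.sub_apply, e2, Matrix.sub_apply, Matrix.mul_apply, Matrix.mul_apply]
      exact sub_mem (sum_mem fun c _ => hle _ _ (key g a c) (key h c b))
        (sum_mem fun c _ => hle _ _ (key h a c) (key g c b))
    rw [map_mul, map_mul] at e1
    exact e1

/-- Matrices over finitely generated rings of positive characteristic. -/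
theorem fi_ft (B : Type v) [CommRing B] [Algebra.FiniteType ℤ B] (N : ℕ) (hN : 0 < N)
    (hB : (N : B) = 0) {S : Type u} [Group S] [Group.FG S] (ht : Tor S)
    (ψ : S →* GL (Fin 2) B) : ψ.ker.FiniteIndex := by
  classical
  have hnoeth : IsNoetherianRing B := Algebra.FiniteType.isNoetherianRing ℤ B
  have hfin : (minimalPrimes B).Finite := minimalPrimes.finite_of_isNoetherianRing B
  have key : ∀ P : minimalPrimes B,
      ((GeneralLinearGroup.map (Ideal.Quotient.mk P.1)).comp ψ).ker.FiniteIndex := by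
    intro P
    have hP : P.1.IsPrime := P.2.1.1
    let D := B ⧸ P.1
    let K := FractionRing D
    have h1 := fi_gl2 (F := K) N hN (by
      have h2 := congrArg (algebraMap D K) (congrArg (Ideal.Quotient.mk P.1) hB)
      rw [map_natCast, map_natCast, map_zero, map_zero] at h2
      exact h2) ht ((GeneralLinearGroup.map (algebraMap D K)).comp
        ((GeneralLinearGroup.map (Ideal.Quotient.mk P.1)).comp ψ))
    have h3 : ((GeneralLinearGroup.map (algebraMap D K)).comp
        ((GeneralLinearGroup.map (Ideal.Quotient.mk P.1)).comp ψ)).ker ≤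
        ((GeneralLinearGroup.map (Ideal.Quotient.mk P.1)).comp ψ).ker := by
      intro g hg
      refine Units.ext (Matrix.ext fun a b => IsFractionRing.injective D K ?_)
      have h4 := congrArg (fun z : GL (Fin 2) K => z.1 a b) (MonoidHom.mem_ker.1 hg)
      refine Eq.trans h4 ?_
      rw [Units.val_one, Units.val_one, Matrix.one_apply, Matrix.one_apply,
        apply_ite (algebraMap D K), map_one, map_zero]
    exact Subgroup.finiteIndex_of_le h3
  have : Finite (minimalPrimes B) := hfin
  have h1 : (⨅ P : minimalPrimes B,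
      ((GeneralLinearGroup.map (Ideal.Quotient.mk P.1)).comp ψ).ker).FiniteIndex :=
    Subgroup.finiteIndex_iInf key
  have h2 : ((GeneralLinearGroup.map (Ideal.Quotient.mk (nilradical B))).comp ψ).ker.FiniteIndex := by
    refine Subgroup.finiteIndex_of_le (H := ⨅ P : minimalPrimes B,
      ((GeneralLinearGroup.map (Ideal.Quotient.mk P.1)).comp ψ).ker) fun g hg => ?_
    rw [Subgroup.mem_iInf] at hg
    refine Units.ext (Matrix.ext fun a b => ?_)
    have h6 : (ψ g).1 a b - (1 : Matrix (Fin 2) (Fin 2) B) a b ∈ nilradical B := by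
      rw [nilradical, Ideal.zero_eq_bot, ← Ideal.sInf_minimalPrimes, Submodule.mem_sInf]
      intro P hP
      have h3 : (GeneralLinearGroup.map (Ideal.Quotient.mk P)) (ψ g) = 1 := hg ⟨P, hP⟩
      have h4 : Ideal.Quotient.mk P ((ψ g).1 a b) = (1 : Matrix (Fin 2) (Fin 2) (B ⧸ P)) a b :=
        congrArg (fun z : GL (Fin 2) (B ⧸ P) => z.1 a b) h3
      refine Ideal.Quotient.eq.1 ?_
      rw [h4, Matrix.one_apply, Matrix.one_apply, apply_ite (Ideal.Quotient.mk P),
        map_one, map_zero]
    have h7 : Ideal.Quotient.mk (nilradical B) ((ψ g).1 a b) =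
        Ideal.Quotient.mk (nilradical B) ((1 : Matrix (Fin 2) (Fin 2) B) a b) :=
      Ideal.Quotient.eq.2 h6
    refine Eq.trans h7 ?_
    rw [Units.val_one, Matrix.one_apply, Matrix.one_apply,
      apply_ite (Ideal.Quotient.mk (nilradical B)), map_one, map_zero]
  obtain ⟨n, hn⟩ := IsNoetherianRing.isNilpotent_nilradical B
  have h3 := fi_pow (nilradical B) ht ψ h2 n
  refine Subgroup.finiteIndex_of_le (H := ((GeneralLinearGroup.map
    (Ideal.Quotient.mk (nilradical B ^ (n + 1)))).comp ψ).ker) fun g hg => ?_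
  refine Units.ext (Matrix.ext fun a b => ?_)
  have h4 : (GeneralLinearGroup.map (Ideal.Quotient.mk (nilradical B ^ (n + 1)))) (ψ g) = 1 := hg
  have h5 : Ideal.Quotient.mk (nilradical B ^ (n + 1)) ((ψ g).1 a b) =
      (1 : Matrix (Fin 2) (Fin 2) (B ⧸ nilradical B ^ (n + 1))) a b :=
    congrArg (fun z : GL (Fin 2) (B ⧸ nilradical B ^ (n + 1)) => z.1 a b) h4
  have h6 : (ψ g).1 a b - (1 : Matrix (Fin 2) (Fin 2) B) a b ∈ nilradical B ^ (n + 1) := by
    refine Ideal.Quotient.eq.1 ?_
    rw [h5, Matrix.one_apply, Matrix.one_apply,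
      apply_ite (Ideal.Quotient.mk (nilradical B ^ (n + 1))), map_one, map_zero]
  rw [pow_succ, hn, zero_mul] at h6
  exact sub_eq_zero.1 h6

/-- Homomorphisms of finitely generated torsion groups to `GL₂(A)`, `A` a commutative ring of
positive characteristic, have kernels of finite index. -/
theorem fi_ring (A : Type v) [CommRing A] (N : ℕ) (hN : 0 < N) (hA : (N : A) = 0)
    {Γ : Type u} [Group Γ] [hfg : Group.FG Γ] (ht : Tor Γ)
    (φ : Γ →* GeneralLinearGroup (Fin 2) A) : φ.ker.FiniteIndex := by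
  classical
  obtain ⟨S, hS⟩ := hfg.out
  let E : Finset A := S.biUnion fun s => Finset.univ.image (fun x : Fin 2 × Fin 2 =>
    (φ s).1 x.1 x.2) ∪ Finset.univ.image (fun x : Fin 2 × Fin 2 => (φ s⁻¹).1 x.1 x.2)
  let B : Subalgebra ℤ A := Algebra.adjoin ℤ (E : Set A)
  have hB : Algebra.FiniteType ℤ B := (Subalgebra.fg_iff_finiteType B).1 ⟨E, rfl⟩
  have hmul : ∀ g h : Γ, (∀ i j, (φ g).1 i j ∈ B) → (∀ i j, (φ h).1 i j ∈ B) →
      ∀ i j, (φ (g * h)).1 i j ∈ B := by
    intro g h hg hh i j
    rw [map_mul, Units.val_mul, Matrix.mul_apply]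
    exact Subalgebra.sum_mem _ fun k _ => Subalgebra.mul_mem _ (hg _ _) (hh _ _)
  have hE : ∀ g : Γ, (∀ i j, (φ g).1 i j ∈ B) ∧ ∀ i j, (φ g⁻¹).1 i j ∈ B := by
    intro g
    have hg : g ∈ Subgroup.closure (S : Set Γ) := by rw [hS]; trivial
    induction hg using Subgroup.closure_induction with
    | mem s hs =>
      refine ⟨fun i j => Algebra.subset_adjoin ?_, fun i j => Algebra.subset_adjoin ?_⟩
      · simp only [E, Finset.coe_biUnion, Set.mem_iUnion]
        refine ⟨s, hs, ?_⟩
        rw [Finset.mem_coe, Finset.mem_union]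
        exact Or.inl (Finset.mem_image.2 ⟨(i, j), Finset.mem_univ _, rfl⟩)
      · simp only [E, Finset.coe_biUnion, Set.mem_iUnion]
        refine ⟨s, hs, ?_⟩
        rw [Finset.mem_coe, Finset.mem_union]
        exact Or.inr (Finset.mem_image.2 ⟨(i, j), Finset.mem_univ _, rfl⟩)
    | one =>
      have h1 : ∀ i j, (φ (1 : Γ)).1 i j ∈ B := by
        intro i j
        rw [map_one, Units.val_one, Matrix.one_apply]
        split_ifs
        · exact Subalgebra.one_mem _
        · exact Subalgebra.zero_mem _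
      exact ⟨h1, by rw [inv_one]; exact h1⟩
    | mul g h _ _ ih1 ih2 =>
      exact ⟨hmul g h ih1.1 ih2.1, by rw [_root_.mul_inv_rev]; exact hmul _ _ ih2.2 ih1.2⟩
    | inv g _ ih => exact ⟨ih.2, by rw [inv_inv]; exact ih.1⟩
  let χ : Γ →* Matrix (Fin 2) (Fin 2) B :=
    { toFun := fun g => Matrix.of fun i j => ⟨(φ g).1 i j, (hE g).1 i j⟩
      map_one' := by
        ext i j
        change (φ 1).1 i j = (((1 : Matrix (Fin 2) (Fin 2) B) i j : B) : A)
        rw [map_one, Units.val_one, Matrix.one_apply, Matrix.one_apply]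
        split_ifs <;> rfl
      map_mul' := fun g h => by
        ext i j
        rw [Matrix.mul_apply]
        change (φ (g * h)).1 i j = ((∑ k, _ : B) : A)
        rw [map_mul, Units.val_mul, Matrix.mul_apply, AddSubmonoidClass.coe_finsetSum]
        rfl }
  have h1 := fi_ft B N hN (Subtype.ext (by simpa using hA)) ht χ.toHomUnits
  refine Subgroup.finiteIndex_of_le (H := χ.toHomUnits.ker) fun g hg => ?_
  refine Units.ext (Matrix.ext fun i j => ?_)
  have h2 : χ.toHomUnits g = 1 := hg
  have h3 : (φ g).1 i j = (((1 : Matrix (Fin 2) (Fin 2) B) i j : B) : A) :=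
    congrArg (fun z : GeneralLinearGroup (Fin 2) B => ((z.1 i j : B) : A)) h2
  refine h3.trans ?_
  rw [Units.val_one, Matrix.one_apply, Matrix.one_apply]
  split_ifs <;> rfl

open Pool.Agent.NegK.NT.H80 in
/-- The diagonal blocks of block triangular matrices. -/
theorem exists_diag' {A : Type u} [CommRing A] {n : ℕ}
    (b : Fin n → ℕ) (hb : ∀ k, (Finset.univ.filter fun i => b i = k).card ≤ 2)
    {Γ : Type v} [Group Γ] (χ : Γ →* GL (Fin n) A)
    (htri : ∀ g, (χ g : Matrix (Fin n) (Fin n) A).BlockTriangular b) :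
    ∃ (r : ℕ) (φ : Γ →* GL (Fin 2) (Fin r → A)), ∀ g, φ g = 1 → ∀ i j, b i = b j →
      (χ g : Matrix (Fin n) (Fin n) A) i j = (1 : Matrix (Fin n) (Fin n) A) i j := by
  classical
  -- positions in the blocks
  have hf : ∀ k : ℕ, ∃ f : {i // b i = k} → Fin 2, Function.Injective f := fun k => by
    have h1 : Fintype.card {i // b i = k} ≤ Fintype.card (Fin 2) := by
      rw [Fintype.card_fin, Fintype.card_subtype]
      exact hb k
    obtain ⟨f⟩ := Function.Embedding.nonempty_of_card_le h1
    exact ⟨f, f.injective⟩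
  choose f hf using hf
  let e : Fin n → Fin 2 := fun i => f (b i) ⟨i, rfl⟩
  have he : ∀ i j, b i = b j → e i = e j → i = j := by
    intro i j h1 h2
    have h3 : ∀ (k l : ℕ) (hk : b i = k) (hl : b j = l), k = l →
        f k ⟨i, hk⟩ = f l ⟨j, hl⟩ → i = j := by
      intro k l hk hl hkl h4
      subst hkl
      exact congrArg Subtype.val (hf k h4)
    exact h3 _ _ rfl rfl h1 h2
  let r : ℕ := (∑ i, b i) + 1
  have hr : ∀ i, b i < r := fun i => Nat.lt_succ_of_le
    (Finset.single_le_sum (f := b) (fun _ _ => Nat.zero_le _) (Finset.mem_univ i))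
  have htri' : ∀ g i j, b j < b i → (χ g : Matrix (Fin n) (Fin n) A) i j = 0 :=
    fun g i j h => htri g h
  let φ : Γ →* Matrix (Fin 2) (Fin 2) (Fin r → A) :=
    { toFun := fun g => Matrix.of fun p q k => DB b e (k : ℕ) (χ g : Matrix (Fin n) (Fin n) A) p q
      map_one' := by
        refine Matrix.ext fun p q => funext fun k => ?_
        rw [Matrix.of_apply, map_one, Units.val_one, DB_one, Matrix.one_apply, Matrix.one_apply]
        split_ifs <;> rfl
      map_mul' := fun g h => by
        refine Matrix.ext fun p q => funext fun k => ?_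
        rw [Matrix.of_apply, map_mul, Units.val_mul, DB_mul he k (htri' g) (htri' h),
          Matrix.mul_apply, Matrix.mul_apply, Finset.sum_apply]
        rfl }
  refine ⟨r, φ.toHomUnits, fun g hg i j hij => ?_⟩
  have h1 : ∀ k : Fin r, DB b e (k : ℕ) (χ g : Matrix (Fin n) (Fin n) A) = 1 := by
    intro k
    have h2 : φ g = 1 := congrArg Units.val hg
    refine Matrix.ext fun p q => ?_
    have h3 := congrFun (congrFun (congrFun h2 p) q) k
    have h4 : (1 : Matrix (Fin 2) (Fin 2) (Fin r → A)) p q k = (1 : Matrix (Fin 2) (Fin 2) A) p q := by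
      rw [Matrix.one_apply, Matrix.one_apply]
      split_ifs <;> rfl
    exact h3.trans h4
  exact DB_inj he (b i) (h1 ⟨b i, hr i⟩) i j rfl hij.symm

/-- Homomorphisms of finitely generated torsion groups to groups of block triangular matrices with
blocks of size at most two over a commutative ring of positive characteristic have kernels of finite
index. -/
theorem fi_tri (A : Type u) [CommRing A] (N : ℕ) (hN : 0 < N) (hA : (N : A) = 0) {n : ℕ}
    (b : Fin n → ℕ) (hb : ∀ k, (Finset.univ.filter fun i => b i = k).card ≤ 2)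
    {S : Type v} [Group S] [Group.FG S] (ht : Tor S) (χ : S →* GL (Fin n) A)
    (htri : ∀ g, (χ g : Matrix (Fin n) (Fin n) A).BlockTriangular b) : χ.ker.FiniteIndex := by
  obtain ⟨r, φ, hφ⟩ := exists_diag' b hb χ htri
  have hA' : (N : Fin r → A) = 0 := funext fun i => hA
  have h1 := fi_ring (Fin r → A) N hN hA' ht φ
  have hfg : Group.FG φ.ker := inferInstance
  refine fi_step χ φ.ker h1 (fi_solv (ht.sub φ.ker.subtype Subtype.val_injective) _ ?_)
  have h2 : Group.IsNilpotent (χ.comp φ.ker.subtype).range := by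
    refine nilC b (χ.comp φ.ker.subtype).range.subtype Subtype.val_injective ?_ ?_
    · rintro ⟨_, g, rfl⟩ i j hij
      exact htri g.1 hij
    · rintro ⟨_, g, rfl⟩ i j hij
      exact hφ g.1 g.2 i j hij
  infer_instance

/-- Finitely generated torsion subgroups are finite: block triangular groups with blocks of size at
most two over a commutative ring of positive characteristic. -/
theorem bur_tri (A : Type u) [CommRing A] (N : ℕ) (hN : 0 < N) (hA : (N : A) = 0) {n : ℕ}
    (b : Fin n → ℕ) (hb : ∀ k, (Finset.univ.filter fun i => b i = k).card ≤ 2) (P : Type u)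
    [Group P] (β : P →* GL (Fin n) A) (hβ : Function.Injective β)
    (htri : ∀ g, (β g : Matrix (Fin n) (Fin n) A).BlockTriangular b) : Bur P := by
  refine bur_of fun S hS ht => ?_
  have h1 := fi_tri A N hN hA b hb ht (β.comp S.subtype) fun g => htri g.1
  have h2 : (β.comp S.subtype).ker = S.subtype.ker := by
    ext g
    exact ⟨fun hg => hβ ((show β g.1 = 1 from hg).trans (map_one β).symm), fun hg => by
      show β g.1 = 1
      rw [show g.1 = 1 from hg, map_one]⟩
  rwa [h2] at h1

/-- Extensions. -/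
theorem Bur.ext {B B' : Type u} [Group B] [Group B'] (f : B →* B') (h : Bur B')
    (hk : Bur f.ker) : Bur B := by
  refine bur_of fun S hS ht => ?_
  have h1 : Finite (f.comp S.subtype).range := by
    refine h _ ?_ ?_
    · refine (Group.fg_iff_subgroup_fg _).1 ?_
      exact Group.fg_of_surjective (f := (f.comp S.subtype).rangeRestrict)
        (f.comp S.subtype).rangeRestrict_surjective
    · rintro _ ⟨g, rfl⟩
      obtain ⟨m, hm, h2⟩ := ht g
      exact ⟨m, hm, by rw [← map_pow, h2, map_one]⟩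
  have h2 := fi_of_range _ h1
  have hfg : Group.FG (f.comp S.subtype).ker := inferInstance
  refine fi_step S.subtype (f.comp S.subtype).ker h2 ?_
  let i : (f.comp S.subtype).ker →* f.ker :=
    ⟨⟨fun g => ⟨g.1.1, g.2⟩, rfl⟩, fun _ _ => rfl⟩
  have hi : Function.Injective i := fun x y hxy =>
    Subtype.ext (Subtype.ext (congrArg (fun z : f.ker => (z : B)) hxy))
  have h3 : Finite i.range := by
    refine hk _ ?_ ?_
    · refine (Group.fg_iff_subgroup_fg _).1 ?_
      exact Group.fg_of_surjective (f := i.rangeRestrict) i.rangeRestrict_surjective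
    · rintro _ ⟨g, rfl⟩
      obtain ⟨m, hm, h4⟩ := ht g.1
      refine ⟨m, hm, ?_⟩
      rw [← map_pow]
      have h5 : g ^ m = 1 := Subtype.ext h4
      rw [h5, map_one]
  have h4 := fi_of_range i h3
  refine Subgroup.finiteIndex_of_le (H := i.ker) fun g hg => ?_
  have h5 : i g = i 1 := (show i g = 1 from hg).trans (map_one i).symm
  rw [hi h5]
  exact one_mem _

/-- Solvable groups. -/
theorem bur_solv {B : Type u} [Group B] [Group.IsSolvable B] : Bur B :=
  bur_of fun S hS ht => fi_solv ht S.subtype inferInstance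

end Pool.Agent.NegK.RK
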