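import Pool.Agent.Lib.MP_28303a_al.RK.Soa
import Pool.Agent.Lib.MP_28303a_al.RK.VpDefs2

/-! # Finitely generated torsion groups over totally real fields -/

set_option autoImplicit false
set_option linter.unusedSectionVars false
set_option linter.unusedVariables false

namespace Pool.Agent.NegK.RK.Bura

universe u

open Matrix

/-- Kronecker: bounded algebraic integers in a number field. -/
theorem finite_nf {E : Type u} [Field E] [CharZero E] (hE : TotReal E)
    (k : IntermediateField ℚ E) [FiniteDimensional ℚ k] (B : ℕ) :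
    {c : E | c ∈ k ∧ IsIntegral ℤ c ∧ IsSumSq ((B : E) + c) ∧ IsSumSq ((B : E) - c)}.Finite := by
  have hnf : NumberField k := ⟨⟩
  have h := NumberField.Embeddings.finite_of_norm_le k ℂ (B : ℝ)
  refine (h.image (fun x : k => (x : E))).subset ?_
  rintro c ⟨hc, hci, h1, h2⟩
  have hx : IsIntegral ℤ (⟨c, hc⟩ : k) :=
    (isIntegral_algHom_iff (k.val.restrictScalars ℤ) k.val.injective).1 hci
  refine ⟨⟨c, hc⟩, ⟨hx, fun φ => ?_⟩, rfl⟩
  have key : ∀ y : k, IsSumSq (y : E) → IsIntegral ℤ (y : E) →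
      ∃ r : ℝ, 0 ≤ r ∧ φ y = r := fun y hy hyi => by
    refine hE.nonneg _ hy hyi _ ?_
    have h3 : Polynomial.aeval y (minpoly ℤ (y : E)) = 0 := by
      refine k.val.injective ?_
      rw [map_zero]
      have h4 := Polynomial.aeval_algHom_apply (k.val.restrictScalars ℤ) y (minpoly ℤ (y : E))
      exact h4.symm.trans (minpoly.aeval ℤ (y : E))
    have h5 := Polynomial.aeval_algHom_apply (φ.toIntAlgHom) y (minpoly ℤ (y : E))
    rw [h3, map_zero] at h5
    exact h5
  obtain ⟨r1, hr1, e1⟩ := key ((B : k) + ⟨c, hc⟩) (by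
    push_cast
    exact h1) (by
    push_cast
    exact (isIntegral_natCast _).add hci)
  obtain ⟨r2, hr2, e2⟩ := key ((B : k) - ⟨c, hc⟩) (by
    push_cast
    exact h2) (by
    push_cast
    exact (isIntegral_natCast _).sub hci)
  rw [map_add, map_natCast] at e1
  rw [map_sub, map_natCast] at e2
  have e3 : φ ⟨c, hc⟩ = ((r1 - B : ℝ) : ℂ) := by
    push_cast
    linear_combination e1
  have e4 : r2 = B - (r1 - B) := by
    have : ((r2 : ℝ) : ℂ) = ((B - (r1 - B) : ℝ) : ℂ) := by
      rw [← e2, e3]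
      push_cast
      ring
    exact_mod_cast this
  rw [e3, Complex.norm_real, Real.norm_eq_abs, abs_le]
  constructor <;> linarith

/-- BURA. A finitely generated group of units of a finite-dimensional algebra over a totally real
field is finite if the traces are integral and bounded. -/
theorem bura {E : Type u} [Field E] [CharZero E] (hE : TotReal E) {A : Type u} [Ring A]
    [Algebra E A] [Module.Finite E A] (τ : A →ₗ[E] E) (σ : A →ₗ[E] A)
    (hτ : ∀ a, τ (a * σ a) = 0 → a = 0) (B : ℕ) (S : Subgroup Aˣ) (hS : S.FG)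
    (hσ : ∀ s ∈ S, σ (s : A) = ((s⁻¹ : Aˣ) : A))
    (hint : ∀ s ∈ S, IsIntegral ℤ (τ ((s : Aˣ) : A)))
    (hB : ∀ s ∈ S, IsSumSq ((B : E) + τ ((s : Aˣ) : A)) ∧ IsSumSq ((B : E) - τ ((s : Aˣ) : A))) :
    Finite S := by
  classical
  obtain ⟨b, hbS, hspan, hli⟩ := exists_linearIndependent E {x : A | ∃ s ∈ S, ((s : Aˣ) : A) = x}
  have hbf : Finite b := hli.finite_of_isNoetherian
  have := Fintype.ofFinite b
  choose u huS hu using fun i : b => hbS i.2
  -- coordinates
  have hcoord : ∀ x ∈ Submodule.span E b, ∃ e : b → E, ∑ i, e i • (i : A) = x := by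
    intro x hx
    have h1 : Submodule.span E b = Submodule.span E (Set.range (fun i : b => (i : A))) := by
      rw [Subtype.range_coe]
    rw [h1] at hx
    exact (Submodule.mem_span_range_iff_exists_fun E).1 hx
  have hSspan : ∀ s ∈ S, ((s : Aˣ) : A) ∈ Submodule.span E b := fun s hs => by
    rw [hspan]
    exact Submodule.subset_span ⟨s, hs, rfl⟩
  have hσu : ∀ i : b, σ (i : A) = (((u i)⁻¹ : Aˣ) : A) := fun i => by
    rw [← hσ _ (huS i), hu]
  -- the form determines the elements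
  have hzero : ∀ x ∈ Submodule.span E b, (∀ j : b, τ (x * σ (j : A)) = 0) → x = 0 := by
    intro x hx h0
    obtain ⟨e, rfl⟩ := hcoord x hx
    refine hτ _ ?_
    rw [map_sum σ, Finset.mul_sum, map_sum]
    refine Finset.sum_eq_zero fun j _ => ?_
    rw [map_smul, mul_smul_comm, map_smul, h0, smul_zero]
  let M : Matrix b b E := Matrix.of fun i j => τ ((i : A) * σ (j : A))
  have hdet : M.det ≠ 0 := by
    intro h0
    obtain ⟨v, hv, h1⟩ := Matrix.exists_vecMul_eq_zero_iff.2 h0
    refine hv ?_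
    have h2 : ∑ i, v i • (i : A) = 0 := by
      refine hzero _ (Submodule.sum_mem _ fun i _ =>
        Submodule.smul_mem _ _ (Submodule.subset_span i.2)) fun j => ?_
      have h3 := congrFun h1 j
      rw [Finset.sum_mul, map_sum]
      refine Eq.trans (Finset.sum_congr rfl fun i _ => ?_) h3
      rw [smul_mul_assoc, map_smul]
      rfl
    exact funext fun i => (Fintype.linearIndependent_iff.1 hli) v h2 i
  -- the number field
  obtain ⟨T, hT⟩ := hS
  have hTS : ∀ g ∈ T, g ∈ S := fun g hg => hT ▸ Subgroup.subset_closure hg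
  let Q : Set Aˣ := {1} ∪ Set.range u ∪
    ((fun p : Aˣ × b => p.1 * u p.2) '' (((T : Set Aˣ) ∪ (T : Set Aˣ)⁻¹) ×ˢ Set.univ))
  have hQf : Q.Finite := by
    refine Set.Finite.union (Set.Finite.union (Set.finite_singleton 1) (Set.finite_range u)) ?_
    exact ((T.finite_toSet.union T.finite_toSet.inv).prod Set.finite_univ).image _
  have hQS : ∀ q ∈ Q, q ∈ S := by
    rintro q ((hq | ⟨i, rfl⟩) | ⟨⟨g, i⟩, ⟨hg, -⟩, rfl⟩)
    · rw [Set.mem_singleton_iff] at hq
      rw [hq]
      exact S.one_mem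
    · exact huS i
    · refine S.mul_mem ?_ (huS i)
      rcases hg with hg | hg
      · exact hTS g hg
      · have := hTS _ (Set.mem_inv.1 hg)
        exact inv_inv g ▸ S.inv_mem this
  let F : Set E := (fun i : b => τ (i : A)) '' Set.univ ∪
    (fun p : Aˣ × b => τ ((p.1 : A) * σ (p.2 : A))) '' (Q ×ˢ Set.univ)
  have hFf : F.Finite := (Set.finite_univ.image _).union ((hQf.prod Set.finite_univ).image _)
  have hFint : ∀ x ∈ F, IsIntegral ℚ x := by
    rintro x (⟨i, -, rfl⟩ | ⟨⟨q, i⟩, ⟨hq, -⟩, rfl⟩)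
    · have h1 := (hint _ (huS i)).tower_top (A := ℚ)
      rwa [hu] at h1
    · have h1 := (hint _ (S.mul_mem (hQS q hq) (S.inv_mem (huS i)))).tower_top (A := ℚ)
      rw [Units.val_mul, ← hσu] at h1
      exact h1
  let k : IntermediateField ℚ E := IntermediateField.adjoin ℚ F
  have : Finite F := hFf
  have hkf : FiniteDimensional ℚ k := IntermediateField.finiteDimensional_adjoin hFint
  have hFk : ∀ x ∈ F, x ∈ k := fun x hx => IntermediateField.subset_adjoin ℚ F hx
  have hMk : ∀ i j, M i j ∈ k := fun i j => hFk _ (Or.inr ⟨(u i, j),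
    ⟨Or.inl (Or.inr ⟨i, rfl⟩), Set.mem_univ _⟩, by
      show τ ((u i : A) * σ (j : A)) = τ ((i : A) * σ (j : A))
      rw [hu]⟩)
  let M' : Matrix b b k := Matrix.of fun i j => ⟨M i j, hMk i j⟩
  have hM' : M = M'.map (algebraMap k E) := rfl
  have hdet' : M'.det ≠ 0 := by
    intro h0
    refine hdet ?_
    rw [hM', ← RingHom.mapMatrix_apply, ← RingHom.map_det, h0, map_zero]
  -- the elements with coordinates in the number field
  let P : A → Prop := fun x => ∃ d : b → E, (∀ i, d i ∈ k) ∧ ∑ i, d i • (i : A) = x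
  have hPmem : ∀ x ∈ Submodule.span E b, (∀ j : b, τ (x * σ (j : A)) ∈ k) → P x := by
    intro x hx hk
    let w : b → k := fun j => ⟨_, hk j⟩
    let d : b → k := w ᵥ* M'⁻¹
    have h1 : d ᵥ* M' = w := by
      show (w ᵥ* M'⁻¹) ᵥ* M' = w
      rw [Matrix.vecMul_vecMul, Matrix.nonsing_inv_mul _ (isUnit_iff_ne_zero.2 hdet'),
        Matrix.vecMul_one]
    refine ⟨fun i => (d i : E), fun i => (d i).2, ?_⟩
    refine sub_eq_zero.1 (hzero _ (Submodule.sub_mem _ (Submodule.sum_mem _ fun i _ =>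
        Submodule.smul_mem _ _ (Submodule.subset_span i.2)) hx) fun j => ?_)
    rw [sub_mul, map_sub, sub_eq_zero, Finset.sum_mul, map_sum]
    have h2 := congrArg (algebraMap k E) (congrFun h1 j)
    refine Eq.trans ?_ h2
    rw [Matrix.vecMul, dotProduct, map_sum]
    refine Finset.sum_congr rfl fun i _ => ?_
    rw [smul_mul_assoc, map_smul]
    exact (map_mul (algebraMap k E) (d i) (M' i j)).symm
  have hPadd : ∀ (ι : Type u) (s : Finset ι) (c : ι → E) (x : ι → A), (∀ i ∈ s, c i ∈ k) →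
      (∀ i ∈ s, P (x i)) → P (∑ i ∈ s, c i • x i) := by
    intro ι s c x hc hx
    induction s using Finset.induction_on with
    | empty => exact ⟨fun _ => 0, fun _ => k.zero_mem, by simp⟩
    | insert a s ha ih =>
      obtain ⟨d1, k1, e1⟩ := hx a (Finset.mem_insert_self a s)
      obtain ⟨d2, k2, e2⟩ := ih (fun i hi => hc i (Finset.mem_insert_of_mem hi))
        (fun i hi => hx i (Finset.mem_insert_of_mem hi))
      refine ⟨fun i => c a * d1 i + d2 i, fun i =>
        k.add_mem (k.mul_mem (hc a (Finset.mem_insert_self a s)) (k1 i)) (k2 i), ?_⟩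
      rw [Finset.sum_insert ha, ← e1, ← e2, Finset.smul_sum, ← Finset.sum_add_distrib]
      exact Finset.sum_congr rfl fun i _ => by rw [add_smul, mul_smul]
  have hPQ : ∀ q ∈ Q, P ((q : Aˣ) : A) := fun q hq =>
    hPmem _ (hSspan q (hQS q hq)) fun j => hFk _ (Or.inr ⟨(q, j), ⟨hq, Set.mem_univ _⟩, rfl⟩)
  have hPg : ∀ g : Aˣ, (g ∈ (T : Set Aˣ) ∪ (T : Set Aˣ)⁻¹) → ∀ y : Aˣ, P (y : A) →
      P ((g * y : Aˣ) : A) := by
    rintro g hg y ⟨d, hd, hy⟩
    rw [Units.val_mul, ← hy, Finset.mul_sum]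
    have h1 : ∑ i, (g : A) * d i • (i : A) = ∑ i, d i • ((g : A) * (i : A)) :=
      Finset.sum_congr rfl fun i _ => mul_smul_comm _ _ _
    rw [h1]
    refine hPadd b Finset.univ d (fun i => (g : A) * (i : A)) (fun i _ => hd i) fun i _ => ?_
    have h2 := hPQ (g * u i) (Or.inr ⟨(g, i), ⟨hg, Set.mem_univ _⟩, rfl⟩)
    rw [Units.val_mul, hu] at h2
    exact h2
  have hPS : ∀ s ∈ S, P ((s : Aˣ) : A) := by
    intro s hs
    rw [← hT] at hs
    induction hs using Subgroup.closure_induction_left with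
    | one => exact hPQ 1 (Or.inl (Or.inl rfl))
    | mul_left x hx y hy h => exact hPg x (Or.inl hx) y h
    | inv_mul_cancel x hx y hy h => exact hPg x⁻¹ (Or.inr (Set.inv_mem_inv.2 hx)) y h
  have hτk : ∀ s ∈ S, τ ((s : Aˣ) : A) ∈ k := by
    intro s hs
    obtain ⟨d, hd, h1⟩ := hPS s hs
    rw [← h1, map_sum]
    refine sum_mem fun i _ => ?_
    rw [map_smul, smul_eq_mul]
    exact k.mul_mem (hd i) (hFk _ (Or.inl ⟨i, Set.mem_univ _, rfl⟩))
  -- finiteness
  have hfin := finite_nf hE k B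
  have : Finite {c : E | c ∈ k ∧ IsIntegral ℤ c ∧ IsSumSq ((B : E) + c) ∧
      IsSumSq ((B : E) - c)} := hfin
  refine Finite.of_injective (β := b → {c : E | c ∈ k ∧ IsIntegral ℤ c ∧
    IsSumSq ((B : E) + c) ∧ IsSumSq ((B : E) - c)}) (fun s j => ⟨τ (((s.1 * (u j)⁻¹ : Aˣ)) : A),
      hτk _ (S.mul_mem s.2 (S.inv_mem (huS j))), hint _ (S.mul_mem s.2 (S.inv_mem (huS j))),
      (hB _ (S.mul_mem s.2 (S.inv_mem (huS j)))).1,
      (hB _ (S.mul_mem s.2 (S.inv_mem (huS j)))).2⟩) ?_
  intro s s' h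
  refine Subtype.ext (Units.ext (sub_eq_zero.1 (hzero _ (Submodule.sub_mem _ (hSspan s.1 s.2)
    (hSspan s'.1 s'.2)) fun j => ?_)))
  have h1 := congrArg Subtype.val (congrFun h j)
  change τ (((s.1 * (u j)⁻¹ : Aˣ)) : A) = τ (((s'.1 * (u j)⁻¹ : Aˣ)) : A) at h1
  rw [Units.val_mul, Units.val_mul, ← hσu] at h1
  rw [sub_mul, map_sub, h1, sub_self]

end Pool.Agent.NegK.RK.Bura
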