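import Mathlib

/-! # Totally real fields -/

set_option autoImplicit false
set_option linter.unusedSectionVars false
set_option linter.unusedVariables false

namespace Pool.Agent.NegK.RK

universe u

/-- The field `E` is totally real: its characteristic is zero and the complex conjugates of every
algebraic integer in `E` which is a sum of squares in `E` are nonnegative real numbers. -/
structure TotReal (E : Type u) [Field E] : Prop where
  char : CharZero E
  nonneg : ∀ s : E, IsSumSq s → IsIntegral ℤ s → ∀ z : ℂ, Polynomial.aeval z (minpoly ℤ s) = 0 →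
    ∃ r : ℝ, 0 ≤ r ∧ z = r

theorem TotReal.semireal {E : Type u} [Field E] (hE : TotReal E) : IsSemireal E := by
  have := hE.char
  refine isSemireal_iff_not_isSumSq_neg_one.2 fun h => ?_
  have hint : IsIntegral ℤ (-1 : E) := IsIntegral.neg isIntegral_one
  obtain ⟨r, hr, h3⟩ := hE.nonneg _ h hint (-1) (by
    have h2 := minpoly.eq_X_sub_C_of_algebraMap_inj (A := ℤ) (B := E) (-1)
      (RingHom.injective_int (algebraMap ℤ E))
    rw [show (algebraMap ℤ E) (-1) = (-1 : E) by simp] at h2
    rw [h2]
    simp)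
  have h4 : (-1 : ℝ) = r := by exact_mod_cast h3
  linarith

/-- Semireal fields are formally real. -/
theorem add_eq_zero {E : Type u} [Field E] (hE : IsSemireal E) {s t : E} (hs : IsSumSq s)
    (ht : IsSumSq t) (h : s + t = 0) : s = 0 := by
  by_contra h0
  refine IsSemireal.one_add_ne_zero (R := E) (s := s⁻¹ * s⁻¹ * (s * t)) ?_ ?_
  · exact (IsSumSq.mul_self _).mul (hs.mul ht)
  · have h1 : t = -s := by linear_combination h
    rw [h1]
    field_simp
    ring

theorem TotReal.sq_eq {E : Type u} [Field E] (hE : TotReal E) {s t : E} (hs : IsSumSq s)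
    (ht : IsSumSq t) (h : s + t = 0) : s = 0 ∧ t = 0 :=
  ⟨add_eq_zero hE.semireal hs ht h, add_eq_zero hE.semireal ht hs (by rw [add_comm]; exact h)⟩

/-- A sum of squares which is a root of unity. -/
theorem eq_one_of_pow {E : Type u} [Field E] (hE : IsSemireal E) {s : E} (hs : IsSumSq s) {n : ℕ}
    (hn : 0 < n) (h : s ^ n = 1) : s = 1 := by
  obtain ⟨m, rfl⟩ := Nat.exists_eq_succ_of_ne_zero hn.ne'
  have h1 : (∑ i ∈ Finset.range (m + 1), s ^ i) * (s - 1) = s ^ (m + 1) - 1 :=
    geom_sum_mul s (m + 1)
  have hp : ∀ i, IsSumSq (s ^ i) := fun i => by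
    induction i with
    | zero => rw [pow_zero]; exact IsSumSq.one
    | succ i ih => rw [pow_succ]; exact ih.mul hs
  have h2 : (∑ i ∈ Finset.range (m + 1), s ^ i) ≠ 0 := by
    rw [Finset.sum_range_succ', pow_zero, add_comm]
    exact IsSemireal.one_add_ne_zero (IsSumSq.sum fun i _ => hp _)
  have h3 : s - 1 = 0 := by
    refine (mul_eq_zero.1 (h1.trans ?_)).resolve_left h2
    rw [h, sub_self]
  linear_combination h3

/-- Kronecker: bounded algebraic integers in a number field. -/
theorem TotReal.finite {E : Type u} [Field E] [CharZero E] (hE : TotReal E) (t : E)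
    (ht : IsIntegral ℤ t) (B : ℕ) :
    {c : E | c ∈ IntermediateField.adjoin ℚ {t} ∧ IsIntegral ℤ c ∧ IsSumSq ((B : E) + c) ∧
      IsSumSq ((B : E) - c)}.Finite := by
  have hti : IsIntegral ℚ t := ht.tower_top
  have hfd : FiniteDimensional ℚ (IntermediateField.adjoin ℚ {t}) :=
    IntermediateField.adjoin.finiteDimensional hti
  have hnf : NumberField (IntermediateField.adjoin ℚ {t}) := ⟨⟩
  have h := NumberField.Embeddings.finite_of_norm_le (IntermediateField.adjoin ℚ {t}) ℂ (B : ℝ)
  refine (h.image (fun x : IntermediateField.adjoin ℚ {t} => (x : E))).subset ?_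
  rintro c ⟨hc, hci, h1, h2⟩
  have hx : IsIntegral ℤ (⟨c, hc⟩ : IntermediateField.adjoin ℚ {t}) :=
    (isIntegral_algHom_iff ((IntermediateField.adjoin ℚ {t}).val.restrictScalars ℤ)
      (IntermediateField.adjoin ℚ {t}).val.injective).1 hci
  refine ⟨⟨c, hc⟩, ⟨hx, fun φ => ?_⟩, rfl⟩
  have key : ∀ y : IntermediateField.adjoin ℚ {t}, IsSumSq (y : E) → IsIntegral ℤ (y : E) →
      ∃ r : ℝ, 0 ≤ r ∧ φ y = r := fun y hy hyi => by
    refine hE.nonneg _ hy hyi _ ?_
    have h3 : Polynomial.aeval y (minpoly ℤ (y : E)) = 0 := by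
      refine (IntermediateField.adjoin ℚ {t}).val.injective ?_
      rw [map_zero]
      have h4 := Polynomial.aeval_algHom_apply
        ((IntermediateField.adjoin ℚ {t}).val.restrictScalars ℤ) y (minpoly ℤ (y : E))
      exact h4.symm.trans (minpoly.aeval ℤ (y : E))
    have h5 := Polynomial.aeval_algHom_apply (φ.toIntAlgHom) y (minpoly ℤ (y : E))
    rw [h3, map_zero] at h5
    exact h5
  obtain ⟨r1, hr1, e1⟩ := key ((B : IntermediateField.adjoin ℚ {t}) + ⟨c, hc⟩) (by
    push_cast
    exact h1) (by
    push_cast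
    exact (isIntegral_natCast _).add hci)
  obtain ⟨r2, hr2, e2⟩ := key ((B : IntermediateField.adjoin ℚ {t}) - ⟨c, hc⟩) (by
    push_cast
    exact h2) (by
    push_cast
    exact (isIntegral_natCast _).sub hci)
  rw [map_add, map_natCast] at e1
  rw [map_sub, map_natCast] at e2
  have e3 : φ ⟨c, hc⟩ = ((r1 - B : ℝ) : ℂ) := by
    push_cast
    linear_combination e1
  have e4 : r2 = B - (r1 - B) := by
    have : ((r2 : ℝ) : ℂ) = ((B - (r1 - B) : ℝ) : ℂ) := by
      rw [← e2, e3]
      push_cast
      ring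
    exact_mod_cast this
  rw [e3, Complex.norm_real, Real.norm_eq_abs, abs_le]
  constructor <;> linarith

/-- A sequence in a finite set which determines its predecessors is periodic. -/
theorem exists_period {α : Type*} (x : ℕ → α) (S : Set α) (hS : S.Finite) (hx : ∀ m, x m ∈ S)
    (G : α → α) (hG : ∀ m, x m = G (x (m + 1))) : ∃ M, 0 < M ∧ x M = x 0 := by
  have h1 : ¬ Function.Injective x := fun h =>
    (Set.infinite_range_of_injective h) (hS.subset (Set.range_subset_iff.2 hx))
  simp only [Function.Injective, not_forall] at h1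
  obtain ⟨m, m', h2, h3⟩ := h1
  have key : ∀ j k, x j = G^[k] (x (j + k)) := fun j k => by
    induction k with
    | zero => rfl
    | succ k ih => rw [ih, hG (j + k), Function.iterate_succ_apply]; rfl
  have aux : ∀ a b : ℕ, a < b → x a = x b → ∃ M, 0 < M ∧ x M = x 0 := fun a b hab h => by
    refine ⟨b - a, Nat.sub_pos_of_lt hab, ?_⟩
    rw [key 0 a, key (b - a) a, zero_add, Nat.sub_add_cancel hab.le, h]
  rcases lt_or_gt_of_ne h3 with h | h
  · exact aux _ _ h h2
  · exact aux _ _ h h2.symm

end Pool.Agent.NegK.RK
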