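import Pool.Agent.Lib.MP_28303a_al.RK.TreeI
import Pool.Agent.Lib.MP_28303a_al.RK.Tot
import Pool.Agent.Lib.MP_28303a_al.RK.Arb

/-! # Units of definite quaternion algebras -/

set_option autoImplicit false
set_option linter.unusedSectionVars false
set_option linter.unusedVariables false

namespace Pool.Agent.NegK.RK

universe u

open Matrix
open scoped MatrixGroups Quaternion
open Pool.Agent.NegK.TW Pool.Agent.NegK.TT Pool.Agent.NegK.NT
open H1 (TD)

namespace DQ

variable {E : Type u} [Field E] {a b : E}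

/-- The norm of a quaternion. -/
def nrm (q : ℍ[E,a,b]) : E :=
  q.re * q.re + (-a) * (q.imI * q.imI) + (-b) * (q.imJ * q.imJ) + (-a) * (-b) * (q.imK * q.imK)

theorem nrm_one : nrm (1 : ℍ[E,a,b]) = 1 := by
  simp [nrm]

theorem nrm_mul (q r : ℍ[E,a,b]) : nrm (q * r) = nrm q * nrm r := by
  simp only [nrm, QuaternionAlgebra.re_mul, QuaternionAlgebra.imI_mul, QuaternionAlgebra.imJ_mul,
    QuaternionAlgebra.imK_mul]
  ring

theorem nrm_sumSq (ha : IsSumSq (-a)) (hb : IsSumSq (-b)) (q : ℍ[E,a,b]) : IsSumSq (nrm q) :=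
  (((IsSumSq.mul_self _).add (ha.mul (IsSumSq.mul_self _))).add
    (hb.mul (IsSumSq.mul_self _))).add ((ha.mul hb).mul (IsSumSq.mul_self _))

theorem eq_zero_of_nrm (hE : IsSemireal E) (ha0 : a ≠ 0) (hb0 : b ≠ 0) (ha : IsSumSq (-a))
    (hb : IsSumSq (-b)) {q : ℍ[E,a,b]} (h : nrm q = 0) : q = 0 := by
  have h1 : IsSumSq (q.re * q.re) := IsSumSq.mul_self _
  have h2 : IsSumSq ((-a) * (q.imI * q.imI)) := ha.mul (IsSumSq.mul_self _)
  have h3 : IsSumSq ((-b) * (q.imJ * q.imJ)) := hb.mul (IsSumSq.mul_self _)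
  have h4 : IsSumSq ((-a) * (-b) * (q.imK * q.imK)) := (ha.mul hb).mul (IsSumSq.mul_self _)
  unfold nrm at h
  have e4 := add_eq_zero hE h4 ((h1.add h2).add h3) (by rw [add_comm]; exact h)
  rw [e4, add_zero] at h
  have e3 := add_eq_zero hE h3 (h1.add h2) (by rw [add_comm]; exact h)
  rw [e3, add_zero] at h
  have e2 := add_eq_zero hE h2 h1 (by rw [add_comm]; exact h)
  rw [e2, add_zero] at h
  have ha1 : -a ≠ 0 := neg_ne_zero.2 ha0
  have hb1 : -b ≠ 0 := neg_ne_zero.2 hb0
  refine QuaternionAlgebra.ext (mul_self_eq_zero.1 h) ?_ ?_ ?_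
  · exact mul_self_eq_zero.1 ((mul_eq_zero.1 e2).resolve_left ha1)
  · exact mul_self_eq_zero.1 ((mul_eq_zero.1 e3).resolve_left hb1)
  · exact mul_self_eq_zero.1 ((mul_eq_zero.1 e4).resolve_left (mul_ne_zero ha1 hb1))

/-- The norm as a homomorphism. -/
def nrmHom : (ℍ[E,a,b])ˣ →* Eˣ :=
  Units.map { toFun := nrm, map_one' := nrm_one, map_mul' := nrm_mul }

/-- The splitting of the quaternion algebra over a field with a square root of `a`. -/
def split {L : Type u} [Field L] (i : E →+* L) (s : L) (hs : s * s = i a) :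
    ℍ[E,a,b] →+* Matrix (Fin 2) (Fin 2) L where
  toFun q := !![i q.re + s * i q.imI, i b * (i q.imJ + s * i q.imK);
    i q.imJ - s * i q.imK, i q.re - s * i q.imI]
  map_one' := by
    ext x y
    fin_cases x <;> fin_cases y <;> simp
  map_zero' := by
    ext x y
    fin_cases x <;> fin_cases y <;> simp
  map_add' q r := by
    ext x y
    fin_cases x <;> fin_cases y <;> simp <;> ring
  map_mul' q r := by
    ext x y
    fin_cases x <;> fin_cases y <;>
      simp [Matrix.mul_apply, Fin.sum_univ_two]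
    · linear_combination (- (i q.imI) * i r.imI + i b * i q.imK * i r.imK) * hs
    · linear_combination (i b * (i q.imK * i r.imI - i q.imI * i r.imK)) * hs
    · linear_combination (i q.imK * i r.imI - i q.imI * i r.imK) * hs
    · linear_combination (- (i q.imI * i r.imI) + i b * (i q.imK * i r.imK)) * hs

theorem split_trace {L : Type u} [Field L] (i : E →+* L) (s : L) (hs : s * s = i a)
    (q : ℍ[E,a,b]) : (split (b := b) i s hs q).trace = i (2 * q.re) := by
  rw [Matrix.trace_fin_two]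
  simp only [split, RingHom.coe_mk, MonoidHom.coe_mk, OneHom.coe_mk, Matrix.of_apply,
    Matrix.cons_val', Matrix.cons_val_zero, Matrix.cons_val_one, Matrix.cons_val_fin_one,
    map_mul, map_ofNat]
  ring

theorem split_det {L : Type u} [Field L] (i : E →+* L) (s : L) (hs : s * s = i a)
    (q : ℍ[E,a,b]) : (split (b := b) i s hs q).det = i (nrm q) := by
  rw [Matrix.det_fin_two]
  simp only [split, RingHom.coe_mk, MonoidHom.coe_mk, OneHom.coe_mk, Matrix.of_apply,
    Matrix.cons_val', Matrix.cons_val_zero, Matrix.cons_val_one, Matrix.cons_val_fin_one,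
    map_mul, map_add, map_neg, nrm]
  linear_combination (- (i q.imI * i q.imI) + i b * (i q.imK * i q.imK)) * hs

/-- The trace of the powers. -/
theorem pow_re {q : ℍ[E,a,b]} (hq : nrm q = 1) (m : ℕ) :
    2 * (q ^ (m + 2)).re = (2 * q.re) * (2 * (q ^ (m + 1)).re) - 2 * (q ^ m).re := by
  have h1 : q * q = (2 * q.re) • q - 1 := by
    unfold nrm at hq
    refine QuaternionAlgebra.ext ?_ ?_ ?_ ?_
    · simp
      linear_combination -hq
    · simp
      ring
    · simp
      ring
    · simp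
      ring
  have h2 : q ^ (m + 2) = (2 * q.re) • q ^ (m + 1) - q ^ m := by
    rw [pow_succ, pow_succ, mul_assoc, h1, mul_sub, mul_smul_comm, mul_one, ← pow_succ]
  rw [h2]
  simp
  ring

/-- Elements of norm one with integral trace. -/
theorem exists_pow (hE : TotReal E) (ha0 : a ≠ 0) (hb0 : b ≠ 0) (ha : IsSumSq (-a))
    (hb : IsSumSq (-b)) {q : ℍ[E,a,b]} (hq : nrm q = 1) (ht : IsIntegral ℤ (2 * q.re)) :
    ∃ M, 0 < M ∧ q ^ M = 1 := by
  have hch := hE.char
  have hn : ∀ m, nrm (q ^ m) = 1 := fun m => by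
    induction m with
    | zero => rw [pow_zero]; exact nrm_one
    | succ m ih => rw [pow_succ, nrm_mul, ih, hq, one_mul]
  let c : ℕ → E := fun m => 2 * (q ^ m).re
  have hc0 : c 0 = 2 := by simp [c]
  have hc1 : c 1 = 2 * q.re := by simp [c]
  have hrec : ∀ m, c (m + 2) = 2 * q.re * c (m + 1) - c m := fun m => pow_re hq m
  have hmem : ∀ m, (c m ∈ IntermediateField.adjoin ℚ {2 * q.re} ∧ IsIntegral ℤ (c m)) ∧
      (c (m + 1) ∈ IntermediateField.adjoin ℚ {2 * q.re} ∧ IsIntegral ℤ (c (m + 1))) := fun m => by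
    have h0 : 2 * q.re ∈ IntermediateField.adjoin ℚ {2 * q.re} :=
      IntermediateField.mem_adjoin_simple_self ℚ _
    induction m with
    | zero =>
      refine ⟨⟨?_, ?_⟩, ?_, ?_⟩
      · rw [hc0]
        exact ofNat_mem _ 2
      · rw [hc0]
        exact isIntegral_natCast 2
      · rw [zero_add, hc1]
        exact h0
      · rw [zero_add, hc1]
        exact ht
    | succ m ih =>
      refine ⟨ih.2, ?_, ?_⟩
      · rw [hrec]
        exact sub_mem (mul_mem h0 ih.2.1) ih.1.1
      · rw [hrec]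
        exact (ht.mul ih.2.2).sub ih.1.2
  have hs1 : ∀ m, IsSumSq (((2 : ℕ) : E) + c m) := fun m => by
    have h1 : ((2 : ℕ) : E) + c m = nrm (1 + q ^ m) := by
      have h2 := hn m
      unfold nrm at h2 ⊢
      simp [c]
      linear_combination -h2
    rw [h1]
    exact nrm_sumSq ha hb _
  have hs2' : ∀ m, 2 - c m = nrm (1 - q ^ m) := fun m => by
    have h2 := hn m
    unfold nrm at h2 ⊢
    simp [c]
    linear_combination -h2
  have hs2 : ∀ m, IsSumSq (((2 : ℕ) : E) - c m) := fun m => by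
    rw [Nat.cast_ofNat, hs2']
    exact nrm_sumSq ha hb _
  have hfin := hE.finite (2 * q.re) ht 2
  obtain ⟨M, hM, h⟩ := exists_period (fun m => (c m, c (m + 1))) _ (hfin.prod hfin)
    (fun m => ⟨⟨(hmem m).1.1, (hmem m).1.2, hs1 m, hs2 m⟩,
      ⟨(hmem m).2.1, (hmem m).2.2, hs1 (m + 1), hs2 (m + 1)⟩⟩)
    (fun y => (2 * q.re * y.1 - y.2, y.1)) (fun m => by
      refine Prod.ext ?_ rfl
      show c m = 2 * q.re * c (m + 1) - c (m + 1 + 1)
      rw [hrec m]
      ring)
  refine ⟨M, hM, ?_⟩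
  have h1 : c M = c 0 := congrArg Prod.fst h
  have h2 := hs2' M
  rw [h1, hc0, sub_self] at h2
  have h3 := eq_zero_of_nrm hE.semireal ha0 hb0 ha hb h2.symm
  exact (sub_eq_zero.1 h3).symm

theorem split_injective {L : Type u} [Field L] (i : E →+* L) (s : L) (hs : s * s = i a)
    (h : ∀ q : ℍ[E,a,b], nrm q = 0 → q = 0) : Function.Injective (split (b := b) i s hs) := by
  refine (injective_iff_map_eq_zero _).2 fun q hq => h q (i.injective ?_)
  rw [← split_det i s hs, hq, map_zero, Matrix.det_fin_two]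
  simp

end DQ

/-- The units of a totally definite quaternion algebra. -/
theorem arb_quat {E : Type u} [Field E] (hE : TotReal E) {a b : E} (ha0 : a ≠ 0) (hb0 : b ≠ 0)
    (ha : IsSumSq (-a)) (hb : IsSumSq (-b)) (hA : Arb Eˣ) : Arb (ℍ[E,a,b])ˣ := by
  have hch := hE.char
  intro G _ hG f
  let L := AlgebraicClosure E
  have hcz : CharZero L := charZero_of_injective_algebraMap (algebraMap E L).injective
  obtain ⟨s, hs⟩ := IsAlgClosed.exists_eq_mul_self (algebraMap E L a)
  let ρ : (ℍ[E,a,b])ˣ →* GL (Fin 2) L :=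
    Units.map (DQ.split (b := b) (algebraMap E L) s hs.symm).toMonoidHom
  obtain ⟨ι1, _, T1, k1⟩ := trees_pglI (K := L) G ((ProjGenLinGroup.mk).comp (ρ.comp f))
  obtain ⟨ι2, _, T2, k2⟩ := hA G (DQ.nrmHom.comp f)
  refine ⟨ι1 ⊕ ι2, inferInstance, Sum.elim T1 T2, fun g hg => ?_⟩
  obtain ⟨n, hn, h1⟩ := k2 g fun i => hg (Sum.inr i)
  have h2 := k1 g (fun i => hg (Sum.inl i)) (ρ (f g)) rfl
  have hN : DQ.nrm (f g : ℍ[E,a,b]) = 1 :=
    eq_one_of_pow hE.semireal (DQ.nrm_sumSq ha hb _) hn (congrArg Units.val h1)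
  have h3 : (ρ (f g)).1.trace = algebraMap E L (2 * (f g : ℍ[E,a,b]).re) :=
    DQ.split_trace _ _ _ _
  have h4 : (ρ (f g)).1.det = 1 := by
    refine (DQ.split_det _ _ _ _).trans ?_
    rw [hN, map_one]
  rw [h3, h4, div_one, ← map_pow] at h2
  have h5 : IsIntegral ℤ ((2 * (f g : ℍ[E,a,b]).re) ^ 2) :=
    (isIntegral_algHom_iff ((algebraMap E L).toIntAlgHom) (algebraMap E L).injective).1 h2
  obtain ⟨M, hM, h6⟩ := DQ.exists_pow hE ha0 hb0 ha hb hN (h5.of_pow two_pos)
  exact ⟨M, hM, Units.ext (by rw [Units.val_pow_eq_pow_val, h6, Units.val_one])⟩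

end Pool.Agent.NegK.RK
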