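import Pool.Agent.Lib.MP_28303a_al.RK.Bura
import Pool.Agent.Lib.MP_28303a_al.RK.Quat

/-! # Finitely generated torsion subgroups of orthogonal groups and of quaternion algebras -/

set_option autoImplicit false
set_option linter.unusedSectionVars false
set_option linter.unusedVariables false

namespace Pool.Agent.NegK.RK

universe u

open Matrix
open scoped MatrixGroups Quaternion

/-- The traces of matrices of finite order are integral. -/
theorem int_trace {K : Type u} [Field K] {n : Type} [Fintype n] [DecidableEq n]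
    (A : Matrix n n K) {m : ℕ} (hm : 0 < m) (h : A ^ m = 1) : IsIntegral ℤ A.trace := by
  let L := AlgebraicClosure K
  let A' : Matrix n n L := (algebraMap K L).mapMatrix A
  have h1 : A' ^ m = 1 := by
    show (algebraMap K L).mapMatrix A ^ m = 1
    rw [← map_pow, h, map_one]
  have h2 : A'.trace = algebraMap K L A.trace := by
    rw [Matrix.trace, Matrix.trace, map_sum]
    rfl
  refine (isIntegral_algHom_iff ((algebraMap K L).toIntAlgHom) (algebraMap K L).injective).1 ?_
  show IsIntegral ℤ (algebraMap K L A.trace)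
  rw [← h2, Matrix.trace_eq_sum_roots_charpoly]
  refine IsIntegral.multiset_sum fun x hx => ?_
  have hr := (Polynomial.mem_roots'.1 hx).2
  rw [Polynomial.IsRoot, Matrix.eval_charpoly] at hr
  obtain ⟨v, hv, h3⟩ := Matrix.exists_mulVec_eq_zero_iff.2 hr
  have h4 : A' *ᵥ v = x • v := by
    rw [Matrix.sub_mulVec, sub_eq_zero] at h3
    rw [← h3]
    ext i
    simp [Matrix.scalar_apply, Matrix.mulVec_diagonal]
  have h5 : ∀ k : ℕ, A' ^ k *ᵥ v = x ^ k • v := by
    intro k
    induction k with
    | zero => rw [pow_zero, pow_zero, Matrix.one_mulVec, one_smul]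
    | succ k ih =>
      rw [pow_succ, ← Matrix.mulVec_mulVec, h4, Matrix.mulVec_smul, ih, smul_smul, mul_comm,
        ← pow_succ]
  have h6 := h5 m
  rw [h1, Matrix.one_mulVec] at h6
  have h7 : x ^ m = 1 := by
    obtain ⟨i, hi⟩ := Function.ne_iff.1 hv
    have h8 := congrFun h6 i
    rw [Pi.smul_apply, smul_eq_mul] at h8
    exact mul_right_cancel₀ hi (by rw [one_mul]; exact h8.symm)
  refine ⟨Polynomial.X ^ m - 1, Polynomial.monic_X_pow_sub_C 1 hm.ne', ?_⟩
  simp [h7]

/-- Finitely generated torsion subgroups of orthogonal groups over totally real fields. -/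
theorem bur_orth {E : Type u} [Field E] (hE : TotReal E) {n : Type} [Fintype n] [DecidableEq n]
    {B : Type u} [Group B] (β : B →* GL n E) (h : ∀ g, (β g).1ᵀ * (β g).1 = 1)
    (hb : Function.Injective β) : Bur B := by
  have hsr : IsSemireal E := hE.semireal
  have hc : CharZero E := hE.char
  intro S hS ht
  have hmem : ∀ s ∈ S.map β, s.1ᵀ * s.1 = 1 ∧ ∃ m, 0 < m ∧ s.1 ^ m = 1 := by
    rintro _ ⟨g, hg, rfl⟩
    obtain ⟨m, hm, h1⟩ := ht g hg
    refine ⟨h g, m, hm, ?_⟩
    rw [← Units.val_pow_eq_pow_val, ← map_pow, h1, map_one, Units.val_one]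
  have hfg : (S.map β).FG := by
    classical
    obtain ⟨T, hT⟩ := hS
    exact ⟨T.image β, by rw [Finset.coe_image, ← MonoidHom.map_closure, hT]⟩
  have hfin : Finite (S.map β) := by
    refine Bura.bura hE (A := Matrix n n E) (Matrix.traceLinearMap n E E)
      (Matrix.transposeLinearEquiv n n E E).toLinearMap (fun a ha => ?_) (Fintype.card n) (S.map β)
      hfg (fun s hs => ?_) (fun s hs => ?_) fun s hs => ⟨?_, ?_⟩
    · exact Soa.eq0_trace a ha
    · exact (Units.inv_eq_of_mul_eq_one_left (hmem s hs).1).symm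
    · obtain ⟨m, hm, h1⟩ := (hmem s hs).2
      exact int_trace s.1 hm h1
    · exact Soa.ss_card_add s.1 (mul_eq_one_comm.1 (hmem s hs).1)
    · exact Soa.ss_card_sub s.1 (mul_eq_one_comm.1 (hmem s hs).1)
  exact Finite.of_injective (S.equivMapOfInjective β hb) (S.equivMapOfInjective β hb).injective

/-- Finitely generated torsion groups of rotations over totally real fields. -/
theorem bur_so3 {E : Type u} [Field E] (hE : TotReal E) {B : Type u} [Group B]
    (β : B →* SpecialLinearGroup (Fin 3) E) (h : ∀ g, (β g).1ᵀ * (β g).1 = 1)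
    (hb : Function.Injective β) : Bur B := by
  refine bur_orth hE (SpecialLinearGroup.toGL.comp β) (fun g => h g) fun x y hxy => hb ?_
  exact Subtype.ext (congrArg Units.val hxy)

/-- Finitely generated torsion groups of units of definite quaternion algebras over totally real
fields. -/
theorem bur_quat {E : Type u} [Field E] (hE : TotReal E) {a b : E} (ha0 : a ≠ 0) (hb0 : b ≠ 0)
    (ha : IsSumSq (-a)) (hb : IsSumSq (-b)) : Bur (ℍ[E,a,b])ˣ := by
  have hsr : IsSemireal E := hE.semireal
  have hc : CharZero E := hE.char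
  intro S hS ht
  have hnrm : ∀ s ∈ S, DQ.nrm (s : ℍ[E,a,b]) = 1 := by
    intro s hs
    obtain ⟨m, hm, h1⟩ := ht s hs
    refine eq_one_of_pow hsr (DQ.nrm_sumSq ha hb _) hm ?_
    have h2 := congrArg Units.val (congrArg (DQ.nrmHom (a := a) (b := b)) h1)
    rw [map_pow, map_one] at h2
    exact h2
  have hmul : ∀ q : ℍ[E,a,b], q * star q = algebraMap E _ (DQ.nrm q) := by
    intro q
    rw [DQ.nrm]
    ext <;> simp <;> ring
  let τ : ℍ[E,a,b] →ₗ[E] E :=
    { toFun := fun q => 2 * q.re
      map_add' := fun p q => by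
        rw [QuaternionAlgebra.re_add]
        ring
      map_smul' := fun c q => by
        rw [QuaternionAlgebra.re_smul]
        simp only [smul_eq_mul, RingHom.id_apply]
        ring }
  let σ : ℍ[E,a,b] →ₗ[E] ℍ[E,a,b] :=
    { toFun := fun q => star q
      map_add' := fun p q => star_add p q
      map_smul' := fun c q => by
        ext <;> simp }
  refine Bura.bura hE τ σ (fun q hq => ?_) 2 S hS (fun s hs => ?_) (fun s hs => ?_)
    fun s hs => ⟨?_, ?_⟩
  · have h1 : 2 * (q * star q).re = 0 := hq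
    rw [hmul] at h1
    refine DQ.eq_zero_of_nrm hsr ha0 hb0 ha hb ?_
    have h2 : (algebraMap E ℍ[E,a,b] (DQ.nrm q)).re = DQ.nrm q := rfl
    rw [h2] at h1
    exact (mul_eq_zero.1 h1).resolve_left two_ne_zero
  · refine (Units.inv_eq_of_mul_eq_one_right ?_).symm
    show (s : ℍ[E,a,b]) * star (s : ℍ[E,a,b]) = 1
    rw [hmul, hnrm s hs, map_one]
  · obtain ⟨m, hm, h1⟩ := ht s hs
    show IsIntegral ℤ (2 * (s : ℍ[E,a,b]).re)
    let L := AlgebraicClosure E
    obtain ⟨c, hc'⟩ := IsAlgClosed.exists_pow_nat_eq (algebraMap E L a) (n := 2) two_pos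
    have hcc : c * c = algebraMap E L a := by rw [← sq, hc']
    have h2 := DQ.split_trace (b := b) (algebraMap E L) c hcc (s : ℍ[E,a,b])
    refine (isIntegral_algHom_iff ((algebraMap E L).toIntAlgHom) (algebraMap E L).injective).1 ?_
    show IsIntegral ℤ (algebraMap E L (2 * (s : ℍ[E,a,b]).re))
    rw [← h2]
    refine int_trace _ hm ?_
    rw [← map_pow, ← Units.val_pow_eq_pow_val, h1, Units.val_one, map_one]
  · have h1 : ((2 : ℕ) : E) + 2 * (s : ℍ[E,a,b]).re = DQ.nrm (1 + (s : ℍ[E,a,b])) := by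
      have h2 := hnrm s hs
      rw [DQ.nrm] at h2 ⊢
      simp
      linear_combination -h2
    exact h1 ▸ DQ.nrm_sumSq ha hb _
  · have h1 : ((2 : ℕ) : E) - 2 * (s : ℍ[E,a,b]).re = DQ.nrm (1 - (s : ℍ[E,a,b])) := by
      have h2 := hnrm s hs
      rw [DQ.nrm] at h2 ⊢
      simp
      linear_combination -h2
    exact h1 ▸ DQ.nrm_sumSq ha hb _

end Pool.Agent.NegK.RK
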