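import Mathlib

/-!
# Homomorphisms to the integers: powers and the reduction modulo three
-/

set_option autoImplicit false

namespace Pool.Agent.NegK.RK.Bvx

universe u v w

section ring

variable {R : Type v} [Ring R]

theorem pow_form (a b : R) (j : ℕ) (hj : 1 ≤ j) (hb : a = 1 + 3 ^ j * b) (i : ℕ) :
    ∃ t, a ^ i = 1 + 3 * t := by
  induction i with
  | zero => exact ⟨0, by simp⟩
  | succ i ih =>
    obtain ⟨t, ht⟩ := ih
    obtain ⟨j', rfl⟩ : ∃ j', j = j' + 1 := ⟨j - 1, by omega⟩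
    refine ⟨t + 3 ^ j' * b + 3 * t * (3 ^ j' * b), ?_⟩
    rw [pow_succ, ht, hb, pow_succ]
    have h3 : Commute (3 : R) t := (Nat.cast_commute 3 t : Commute ((3 : ℕ) : R) t)
    noncomm_ring

theorem sum_form (a b : R) (j : ℕ) (hj : 1 ≤ j) (hb : a = 1 + 3 ^ j * b) (e : ℕ) :
    ∃ t, ∑ i ∈ Finset.range e, a ^ i = (e : R) + 3 * t := by
  induction e with
  | zero => exact ⟨0, by simp⟩
  | succ e ih =>
    obtain ⟨t, ht⟩ := ih
    obtain ⟨s, hs⟩ := pow_form a b j hj hb e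
    refine ⟨t + s, ?_⟩
    rw [Finset.sum_range_succ, ht, hs, Nat.cast_succ]
    noncomm_ring

theorem mul_sum_eq (htf : ∀ (n : ℕ) (r : R), 0 < n → (n : R) * r = 0 → r = 0) (a b : R) (j : ℕ)
    (hb : a = 1 + 3 ^ j * b) (e : ℕ) (h : a ^ e = 1) :
    b * ∑ i ∈ Finset.range e, a ^ i = 0 := by
  apply htf (3 ^ j) _ (by positivity)
  have h1 : (a - 1) * ∑ i ∈ Finset.range e, a ^ i = a ^ e - 1 := mul_geom_sum a e
  rw [h, sub_self, hb] at h1
  rw [← mul_assoc]
  push_cast
  rw [add_sub_cancel_left] at h1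
  rw [← h1, hb]

/-- One step: the exponent is prime to three. -/
theorem step_prime (htf : ∀ (n : ℕ) (r : R), 0 < n → (n : R) * r = 0 → r = 0) (a b : R) (j : ℕ)
    (hj : 1 ≤ j) (hb : a = 1 + 3 ^ j * b) (e : ℕ) (he : ¬ 3 ∣ e) (h : a ^ e = 1) :
    ∃ c, b = 3 * c := by
  obtain ⟨t, ht⟩ := sum_form a b j hj hb e
  have h1 := mul_sum_eq htf a b j hb e h
  rw [ht] at h1
  have hc : IsCoprime (e : ℤ) 3 := by
    have h2 : Nat.Coprime e 3 := ((Nat.Prime.coprime_iff_not_dvd Nat.prime_three).2 he).symm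
    exact_mod_cast Nat.isCoprime_iff_coprime.2 h2
  obtain ⟨u, v, huv⟩ := hc
  refine ⟨v * b - u * (b * t), ?_⟩
  have h2 : ((u * e + v * 3 : ℤ) : R) * b = b := by
    rw [huv]
    simp
  have h3 : (e : R) * b = b * e := (Nat.cast_commute e b).eq
  have h4 : b * (e : R) = - (b * (3 * t)) := by
    rw [mul_add] at h1
    exact eq_neg_of_add_eq_zero_left h1
  have h5 : b * (3 * t) = 3 * (b * t) := by
    rw [← mul_assoc, ← mul_assoc]
    congr 1
    exact ((Nat.cast_commute 3 b : Commute ((3 : ℕ) : R) b)).eq.symm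
  have h6 : (u : R) * 3 = 3 * u := ((Nat.cast_commute 3 (u : R) : Commute ((3 : ℕ) : R) u)).eq.symm
  have h7 : (v : R) * 3 = 3 * v := ((Nat.cast_commute 3 (v : R) : Commute ((3 : ℕ) : R) v)).eq.symm
  calc b = ((u * e + v * 3 : ℤ) : R) * b := h2.symm
    _ = (u : R) * ((e : R) * b) + (v : R) * 3 * b := by
      push_cast
      rw [add_mul, mul_assoc]
    _ = (u : R) * (-(3 * (b * t))) + 3 * v * b := by rw [h3, h4, h5, h7]
    _ = 3 * (v * b - u * (b * t)) := by
      rw [mul_neg, ← mul_assoc, h6, mul_sub, mul_assoc 3 (v : R) b, mul_assoc 3 (u : R)]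
      abel

/-- One step: the exponent is three. -/
theorem step_three (htf : ∀ (n : ℕ) (r : R), 0 < n → (n : R) * r = 0 → r = 0) (a b : R) (j : ℕ)
    (hj : 1 ≤ j) (hb : a = 1 + 3 ^ j * b) (h : a ^ 3 = 1) :
    ∃ c, b = 3 * c := by
  have h1 := mul_sum_eq htf a b j hb 3 h
  obtain ⟨j', rfl⟩ : ∃ j', j = j' + 1 := ⟨j - 1, by omega⟩
  have hs : ∑ i ∈ Finset.range 3, a ^ i = 3 * (1 + 3 * (3 ^ j' * b) + 3 * (3 ^ j' * b * (3 ^ j' * b))) := by
    rw [Finset.sum_range_succ, Finset.sum_range_succ, Finset.sum_range_succ, Finset.sum_range_zero,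
      hb, pow_succ 3 j']
    have h3 : (3 : R) ^ j' * 3 = 3 * 3 ^ j' := (pow_succ (3 : R) j').symm.trans (pow_succ' 3 j')
    rw [h3, mul_assoc]
    noncomm_ring
  rw [hs] at h1
  have h5 : ∀ x : R, b * (3 * x) = 3 * (b * x) := by
    intro x
    rw [← mul_assoc, ← mul_assoc]
    congr 1
    exact ((Nat.cast_commute 3 b : Commute ((3 : ℕ) : R) b)).eq.symm
  rw [h5] at h1
  have h6 : b * (1 + 3 * (3 ^ j' * b) + 3 * (3 ^ j' * b * (3 ^ j' * b))) = 0 :=
    htf 3 _ (by norm_num) (by rw [Nat.cast_ofNat]; exact h1)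
  refine ⟨-(b * (3 ^ j' * b) + b * (3 ^ j' * b * (3 ^ j' * b))), ?_⟩
  rw [mul_add, mul_add, mul_one, h5, h5] at h6
  rw [mul_neg, mul_add]
  rw [add_assoc] at h6
  exact eq_neg_of_add_eq_zero_left h6

/-- The lemma of Minkowski. -/
theorem minkowski (htf : ∀ (n : ℕ) (r : R), 0 < n → (n : R) * r = 0 → r = 0)
    (hsep : ∀ r : R, (∀ j : ℕ, ∃ s, r = 3 ^ j * s) → r = 0) :
    ∀ (e : ℕ), 0 < e → ∀ (a b : R), a = 1 + 3 * b → a ^ e = 1 → a = 1 := by
  have key : ∀ (e : ℕ), (¬ 3 ∣ e ∨ e = 3) → ∀ (a b : R), a = 1 + 3 * b → a ^ e = 1 → a = 1 := by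
    intro e he a b hb h
    have h1 : ∀ j : ℕ, ∃ c, a = 1 + 3 ^ (j + 1) * c := by
      intro j
      induction j with
      | zero => exact ⟨b, by rw [hb, zero_add, pow_one]⟩
      | succ j ih =>
        obtain ⟨c, hc⟩ := ih
        have h2 : ∃ d, c = 3 * d := by
          rcases he with he | rfl
          · exact step_prime htf a c (j + 1) (by omega) hc e he h
          · exact step_three htf a c (j + 1) (by omega) hc h
        obtain ⟨d, rfl⟩ := h2
        exact ⟨d, by rw [hc, pow_succ 3 (j + 1), mul_assoc]⟩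
    have h2 : a - 1 = 0 := by
      apply hsep
      intro j
      obtain ⟨c, hc⟩ := h1 j
      exact ⟨3 * c, by rw [hc, add_sub_cancel_left, pow_succ, mul_assoc]⟩
    exact sub_eq_zero.1 h2
  intro e
  induction e using Nat.strong_induction_on with
  | _ e ih =>
    intro he a b hb h
    by_cases h3 : 3 ∣ e
    · obtain ⟨e', rfl⟩ := h3
      have he' : 0 < e' := by omega
      obtain ⟨t, ht⟩ := pow_form a b 1 le_rfl (by rw [pow_one]; exact hb) e'
      have h4 : a ^ e' = 1 := key 3 (Or.inr rfl) (a ^ e') t ht (by rw [← pow_mul, mul_comm, h])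
      exact ih e' (by omega) he' a b hb h4
    · exact key e (Or.inl h3) a b hb h

end ring

section hom

variable {C : Type u} [Group C]

/-- The additive functions on a group. -/
def addFun (C : Type u) [Group C] : AddSubgroup (C → ℤ) where
  carrier := {ψ | ∀ x y, ψ (x * y) = ψ x + ψ y}
  add_mem' := fun {a b} ha hb x y => by
    show a (x * y) + b (x * y) = a x + b x + (a y + b y)
    rw [ha x y, hb x y]
    ring
  zero_mem' := fun x y => by simp
  neg_mem' := fun {a} ha x y => by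
    show -a (x * y) = -a x + -a y
    rw [ha x y]
    ring

theorem addFun_add (ψ : addFun C) (x y : C) : ψ.1 (x * y) = ψ.1 x + ψ.1 y := ψ.2 x y

/-- The composition with an endomorphism. -/
def comp (σ : C →* C) : AddMonoid.End (addFun C) where
  toFun ψ := ⟨fun c => ψ.1 (σ c), fun x y => by
    show ψ.1 (σ (x * y)) = ψ.1 (σ x) + ψ.1 (σ y)
    rw [map_mul, addFun_add]⟩
  map_zero' := rfl
  map_add' := fun _ _ => rfl

theorem comp_apply (σ : C →* C) (ψ : addFun C) (c : C) : (comp σ ψ).1 c = ψ.1 (σ c) := rfl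

theorem comp_pow (σ : C →* C) (e : ℕ) (ψ : addFun C) (c : C) :
    ((comp σ ^ e) ψ).1 c = ψ.1 (σ^[e] c) := by
  induction e generalizing c with
  | zero => rfl
  | succ e ih =>
    rw [pow_succ', Function.iterate_succ_apply]
    show (comp σ ((comp σ ^ e) ψ)).1 c = _
    rw [comp_apply, ih]

theorem div_three (σ : C →* C)
    (h3 : ∀ (θ : C →* Multiplicative (ZMod 3)) (c : C), θ (σ c) = θ c) (ψ : addFun C) (c : C) :
    (3 : ℤ) ∣ ψ.1 (σ c) - ψ.1 c := by
  let θ : C →* Multiplicative (ZMod 3) :=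
    { toFun := fun c => Multiplicative.ofAdd ((ψ.1 c : ℤ) : ZMod 3)
      map_one' := by
        have h1 := addFun_add ψ 1 1
        rw [mul_one] at h1
        have h2 : ψ.1 1 = 0 := by linarith
        rw [h2, Int.cast_zero]
        rfl
      map_mul' := fun x y => by
        rw [addFun_add, Int.cast_add]
        rfl }
  have h1 : ((ψ.1 (σ c) : ℤ) : ZMod 3) = ((ψ.1 c : ℤ) : ZMod 3) := h3 θ c
  have h2 := (ZMod.intCast_eq_intCast_iff _ _ 3).1 h1
  exact (Int.modEq_iff_dvd.1 h2.symm)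

theorem mink_add (σ : C →* C) (e : ℕ) (he : 0 < e)
    (h3 : ∀ (θ : C →* Multiplicative (ZMod 3)) (c : C), θ (σ c) = θ c)
    (h1 : ∀ (ψ : addFun C) (c : C), ψ.1 (σ^[e] c) = ψ.1 c) (ψ : addFun C) (c : C) :
    ψ.1 (σ c) = ψ.1 c := by
  have hd := div_three σ h3
  let b : AddMonoid.End (addFun C) :=
    { toFun := fun ψ => ⟨fun c => (ψ.1 (σ c) - ψ.1 c) / 3, fun x y => by
        obtain ⟨m, hm⟩ := hd ψ x
        obtain ⟨n, hn⟩ := hd ψ y
        show (ψ.1 (σ (x * y)) - ψ.1 (x * y)) / 3 = (ψ.1 (σ x) - ψ.1 x) / 3 + (ψ.1 (σ y) - ψ.1 y) / 3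
        have h2 : ψ.1 (σ (x * y)) - ψ.1 (x * y) = 3 * (m + n) := by
          rw [map_mul, addFun_add, addFun_add]
          linarith
        rw [h2, hm, hn]
        simp⟩
      map_zero' := by
        apply Subtype.ext
        funext c
        show ((0 : ℤ) - 0) / 3 = 0
        norm_num
      map_add' := fun ψ χ => by
        apply Subtype.ext
        funext c
        obtain ⟨m, hm⟩ := hd ψ c
        obtain ⟨n, hn⟩ := hd χ c
        show ((ψ.1 (σ c) + χ.1 (σ c)) - (ψ.1 c + χ.1 c)) / 3 =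
          (ψ.1 (σ c) - ψ.1 c) / 3 + (χ.1 (σ c) - χ.1 c) / 3
        have h2 : (ψ.1 (σ c) + χ.1 (σ c)) - (ψ.1 c + χ.1 c) = 3 * (m + n) := by linarith
        rw [h2, hm, hn]
        simp }
  have hcast : ∀ (n : ℕ) (r : AddMonoid.End (addFun C)) (ψ : addFun C) (c : C),
      (((n : AddMonoid.End (addFun C)) * r) ψ).1 c = n * (r ψ).1 c := by
    intro n r ψ c
    rw [← nsmul_eq_mul]
    show (n • (r ψ)).1 c = _
    show n • ((r ψ).1 c) = _
    rw [nsmul_eq_mul]
  have hb : comp σ = 1 + 3 * b := by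
    ext ψ c
    have h2 := hcast 3 b ψ c
    obtain ⟨m, hm⟩ := hd ψ c
    have h4 : (b ψ).1 c = (ψ.1 (σ c) - ψ.1 c) / 3 := rfl
    show ψ.1 (σ c) = ψ.1 c + ((3 * b) ψ).1 c
    have h5 : ((3 * b : AddMonoid.End (addFun C)) ψ).1 c = 3 * (b ψ).1 c := by
      exact_mod_cast h2
    rw [h5, h4, hm]
    rw [Int.mul_ediv_cancel_left _ (by norm_num)]
    linarith
  have hpow : comp σ ^ e = 1 := by
    ext ψ c
    rw [comp_pow, h1]
    rfl
  have h2 := minkowski (R := AddMonoid.End (addFun C)) ?_ ?_ e he (comp σ) b hb hpow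
  · rw [← comp_apply, h2]
    rfl
  · intro n r hn hr
    ext ψ c
    have h3 := hcast n r ψ c
    rw [hr] at h3
    have h4 : (n : ℤ) * (r ψ).1 c = 0 := h3.symm
    exact (mul_eq_zero.1 h4).resolve_left (by exact_mod_cast hn.ne')
  · intro r hr
    ext ψ c
    have h4 : ∀ j : ℕ, ((3 ^ j : ℕ) : ℤ) ∣ (r ψ).1 c := by
      intro j
      obtain ⟨s, hs⟩ := hr j
      refine ⟨(s ψ).1 c, ?_⟩
      rw [← hcast, hs]
      push_cast
      rfl
    show (r ψ).1 c = 0
    apply Int.eq_zero_of_abs_lt_dvd (h4 ((r ψ).1 c).natAbs)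
    have h5 : ((r ψ).1 c).natAbs < 3 ^ ((r ψ).1 c).natAbs := Nat.lt_pow_self (by norm_num)
    rw [Int.abs_eq_natAbs]
    exact_mod_cast h5

/-- The lemma of Minkowski for homomorphisms to the integers. -/
theorem mink_hom (σ : C →* C) (e : ℕ) (he : 0 < e)
    (h3 : ∀ (θ : C →* Multiplicative (ZMod 3)) (c : C), θ (σ c) = θ c)
    (h1 : ∀ (ψ : C →* Multiplicative ℤ) (c : C), ψ (σ^[e] c) = ψ c)
    (ψ : C →* Multiplicative ℤ) (c : C) : ψ (σ c) = ψ c := by
  have h2 := mink_add σ e he h3 (fun χ c => ?_) ⟨fun c => (ψ c).toAdd, fun x y => ?_⟩ c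
  · exact h2
  · let χ' : C →* Multiplicative ℤ :=
      { toFun := fun c => Multiplicative.ofAdd (χ.1 c)
        map_one' := by
          have h4 := addFun_add χ 1 1
          rw [mul_one] at h4
          have h5 : χ.1 1 = 0 := by linarith
          rw [h5]
          rfl
        map_mul' := fun x y => by
          rw [addFun_add]
          rfl }
    exact h1 χ' c
  · show (ψ (x * y)).toAdd = (ψ x).toAdd + (ψ y).toAdd
    rw [map_mul]
    rfl

end hom

end Pool.Agent.NegK.RK.Bvx
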