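import Pool.Agent.Lib.MP_28303a_al.RK.VpDefs2
import Pool.Agent.Lib.MP_28303a_al.RK.BvxA

/-!
# Torsionfree extensions of virtually poly-`ℤ` groups by groups of finite exponent

Let `N` be torsionfree, `f : N → E` a homomorphism with virtually poly-`ℤ` kernel `V`, and let `E`
have a finite chain of normal subgroups with commutative factors of finite exponent. Then `N` is
virtually poly-`ℤ`. We may assume that `V` is poly-`ℤ`. Let `φ : V → ℤ` be a homomorphism with
poly-`ℤ` kernel. The group `N` acts on `Hom(V, ℤ)` through a group of finite exponent, so the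
subgroup of finite index which acts trivially on `Hom(V, ℤ / 3)` acts trivially on `Hom(V, ℤ)` by
the lemma of Minkowski. So we may assume that `φ` is invariant. Then `x ↦ φ(x ^ e)` is a
homomorphism from `N` to `ℤ`, and the intersection of its kernel with `V` is the kernel of `φ`.
-/

set_option autoImplicit false
set_option linter.unusedSectionVars false
set_option linter.unusedVariables false

namespace Pool.Agent.NegK.RK.Bvx

universe u v w

open Pool.Agent.NegK.TW Pool.Agent.NegK.TT Pool.Agent.NegK.PL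
open scoped commutatorElement

theorem mult_tf (a : Multiplicative ℤ) (e : ℕ) (he : 0 < e) (h : a ^ e = 1) : a = 1 := by
  have h1 : e • a.toAdd = 0 := h
  have h2 : a.toAdd = 0 := by
    rw [nsmul_eq_mul] at h1
    exact (mul_eq_zero.1 h1).resolve_left (by exact_mod_cast he.ne')
  exact h2

/-- One step: an invariant homomorphism to the integers on the kernel of a homomorphism to a
commutative group of exponent `e`. -/
theorem step {M : Type v} {A : Type w} [Group M] [CommGroup A] (h : M →* A) (e : ℕ) (he : 0 < e)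
    (hA : ∀ x, h x ^ e = 1) (ψ : M → Multiplicative ℤ)
    (hm : ∀ x y, h x = 1 → h y = 1 → ψ (x * y) = ψ x * ψ y)
    (hc : ∀ g x, h x = 1 → ψ (g * x * g⁻¹) = ψ x) (x y : M) :
    ψ ((x * y) ^ e) = ψ (x ^ e) * ψ (y ^ e) := by
  have h1 : ψ 1 = 1 := by
    have h2 := hm 1 1 (map_one h) (map_one h)
    rw [mul_one] at h2
    exact (mul_eq_left.1 h2.symm)
  have hinv : ∀ z, h z = 1 → ψ z⁻¹ = (ψ z)⁻¹ := by
    intro z hz
    have h2 := hm z z⁻¹ hz (by rw [map_inv, hz, inv_one])
    rw [mul_inv_cancel, h1] at h2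
    exact (inv_eq_of_mul_eq_one_right h2.symm).symm
  have hcom : ∀ a b : M, h ⁅a, b⁆ = 1 := by
    intro a b
    rw [map_commutatorElement, commutatorElement_eq_one_iff_mul_comm]
    exact mul_comm _ _
  have hc2 : ∀ a b c : M, ψ ⁅a, b * c⁆ = ψ ⁅a, b⁆ * ψ ⁅a, c⁆ := by
    intro a b c
    have h2 : ⁅a, b * c⁆ = ⁅a, b⁆ * (b * ⁅a, c⁆ * b⁻¹) := by
      rw [commutatorElement_def, commutatorElement_def, commutatorElement_def]
      group
    rw [h2, hm _ _ (hcom a b) (by rw [map_mul, map_mul, hcom, mul_one, map_inv, mul_inv_cancel]),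
      hc b _ (hcom a c)]
  have hc3 : ∀ (a b : M) (n : ℕ), ψ ⁅a, b ^ n⁆ = ψ ⁅a, b⁆ ^ n := by
    intro a b n
    induction n with
    | zero => rw [pow_zero, pow_zero, commutatorElement_one_right, h1]
    | succ n ih => rw [pow_succ, hc2, ih, pow_succ]
  have hc4 : ∀ a b : M, ψ ⁅a, b⁆ = 1 := by
    intro a b
    apply mult_tf _ e he
    rw [← hc3, commutatorElement_def]
    have h2 : h (b ^ e) = 1 := by rw [map_pow, hA]
    have h3 : h (a * b ^ e * a⁻¹) = 1 := by
      rw [map_mul, map_mul, h2, mul_one, map_inv, mul_inv_cancel]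
    rw [hm _ _ h3 (by rw [map_inv, h2, inv_one]), hc a _ h2, hinv _ h2, mul_inv_cancel]
  let D : Subgroup M :=
    { carrier := {z | h z = 1 ∧ ψ z = 1}
      mul_mem' := fun {a b} ha hb => ⟨by rw [map_mul, ha.1, hb.1, mul_one],
        by rw [hm a b ha.1 hb.1, ha.2, hb.2, mul_one]⟩
      one_mem' := ⟨map_one h, h1⟩
      inv_mem' := fun {a} ha => ⟨by rw [map_inv, ha.1, inv_one],
        by rw [hinv a ha.1, ha.2, inv_one]⟩ }
  have hD : commutator M ≤ D := by
    rw [commutator_def, Subgroup.commutator_le]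
    exact fun a _ b _ => ⟨hcom a b, hc4 a b⟩
  have h2 : (x * y) ^ e * (x ^ e * y ^ e)⁻¹ ∈ commutator M := by
    rw [← Abelianization.ker_of, MonoidHom.mem_ker, map_mul, map_inv, map_pow, map_mul, map_mul,
      map_pow, map_pow, mul_pow, mul_inv_cancel]
  obtain ⟨h3, h4⟩ := hD h2
  have hx : h (x ^ e) = 1 := by rw [map_pow, hA]
  have hy : h (y ^ e) = 1 := by rw [map_pow, hA]
  have h5 := hm _ (x ^ e * y ^ e) h3 (by rw [map_mul, hx, hy, mul_one])
  rw [inv_mul_cancel_right, h4, one_mul, hm _ _ hx hy] at h5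
  exact h5

theorem chain : ∀ (k : ℕ) (N E : Type u) [Group N] [Group E] (f : N →* E), BX k E →
    ∃ e : ℕ, 0 < e ∧ (∀ x, f x ^ e = 1) ∧ ∀ ψ : N → Multiplicative ℤ,
      (∀ x y, f x = 1 → f y = 1 → ψ (x * y) = ψ x * ψ y) →
      (∀ g x, f x = 1 → ψ (g * x * g⁻¹) = ψ x) →
      ∀ x y, ψ ((x * y) ^ e) = ψ (x ^ e) * ψ (y ^ e)
  | 0, N, E, _, _, f, h => by
    have hs : Subsingleton E := h
    refine ⟨1, one_pos, fun x => Subsingleton.elim _ _, fun ψ hm hc x y => ?_⟩
    rw [pow_one, pow_one, pow_one]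
    exact hm x y (Subsingleton.elim _ _) (Subsingleton.elim _ _)
  | k + 1, N, E, _, _, f, ⟨A, _, e, g, he, hA, hk⟩ => by
    let f₁ : (g.comp f).ker →* g.ker :=
      { toFun := fun x => ⟨f x.1, x.2⟩
        map_one' := Subtype.ext (map_one f)
        map_mul' := fun x y => Subtype.ext (map_mul f x.1 y.1) }
    obtain ⟨e₁, he₁, h1, h2⟩ := chain k (g.comp f).ker g.ker f₁ hk
    have h1' : ∀ x, g (f x) = 1 → f (x ^ e₁) = 1 := by
      intro x hx
      rw [map_pow]
      exact congrArg Subtype.val (h1 ⟨x, hx⟩)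
    refine ⟨e * e₁, Nat.mul_pos he he₁, fun x => ?_, fun ψ hm hc x y => ?_⟩
    · rw [pow_mul, ← map_pow, ← map_pow]
      exact h1' (x ^ e) (by rw [map_pow, map_pow, hA])
    · rw [pow_mul, pow_mul, pow_mul]
      refine step (g.comp f) e he (fun x => hA _) (fun z => ψ (z ^ e₁)) ?_ ?_ x y
      · intro a b ha hb
        exact h2 (fun z => ψ z.1)
          (fun c d hc' hd => hm c.1 d.1 (congrArg Subtype.val hc') (congrArg Subtype.val hd))
          (fun c d hd => hc c.1 d.1 (congrArg Subtype.val hd)) ⟨a, ha⟩ ⟨b, hb⟩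
      · intro a b hb
        show ψ ((a * b * a⁻¹) ^ e₁) = ψ (b ^ e₁)
        rw [conj_pow]
        exact hc a _ (h1' b hb)

theorem tf_sub {N : Type u} [Group N] (h : TorsionFree N) (S : Subgroup N) : TorsionFree S :=
  fun g n hn hg => Subtype.ext (h g.1 n hn (congrArg Subtype.val hg))

/-- The stabilizer of a homomorphism to the integers has finite index. -/
theorem stab_fi {N : Type u} [Group N] (C : Subgroup N) [hCn : C.Normal] (hfg : Group.FG C)
    (e : ℕ) (he : 0 < e) (hC : ∀ x : N, x ^ e ∈ C) (φ : C →* Multiplicative ℤ) :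
    ∃ S : Subgroup N, S.FiniteIndex ∧ ∀ g ∈ S, ∀ c : C, φ (MulAut.conjNormal g c) = φ c := by
  have hY : Finite (C →* Multiplicative (ZMod 3)) := finite_hom hfg
  let act : N →* Equiv.Perm (C →* Multiplicative (ZMod 3)) :=
    { toFun := fun g =>
        { toFun := fun θ => θ.comp (MulAut.conjNormal g⁻¹ : C ≃* C).toMonoidHom
          invFun := fun θ => θ.comp (MulAut.conjNormal g : C ≃* C).toMonoidHom
          left_inv := fun θ => by
            ext c
            show θ (MulAut.conjNormal g⁻¹ (MulAut.conjNormal g c)) = θ c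
            rw [← MulAut.mul_apply, ← map_mul, inv_mul_cancel, map_one, MulAut.one_apply]
          right_inv := fun θ => by
            ext c
            show θ (MulAut.conjNormal g (MulAut.conjNormal g⁻¹ c)) = θ c
            rw [← MulAut.mul_apply, ← map_mul, mul_inv_cancel, map_one, MulAut.one_apply] }
      map_one' := by
        ext θ c
        show θ (MulAut.conjNormal (1 : N)⁻¹ c) = θ c
        rw [inv_one, map_one, MulAut.one_apply]
      map_mul' := fun g h => by
        ext θ c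
        show θ (MulAut.conjNormal (g * h)⁻¹ c) =
          θ (MulAut.conjNormal h⁻¹ (MulAut.conjNormal g⁻¹ c))
        rw [← MulAut.mul_apply, ← map_mul, mul_inv_rev] }
  have h1 : Finite (Equiv.Perm (C →* Multiplicative (ZMod 3))) := inferInstance
  refine ⟨act.ker, Subgroup.finiteIndex_ker _, fun g hg c => ?_⟩
  have hg' : act g⁻¹ = 1 := by rw [map_inv, (show act g = 1 from hg), inv_one]
  refine mink_hom (MulAut.conjNormal g : C ≃* C).toMonoidHom e he (fun θ c => ?_)
    (fun ψ c => ?_) φ c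
  · have h2 : act g⁻¹ θ = θ := by rw [hg']; rfl
    have h3 := congrArg (fun χ : C →* Multiplicative (ZMod 3) => χ c) h2
    have h4 : (act g⁻¹ θ) c = θ (MulAut.conjNormal (g⁻¹)⁻¹ c) := rfl
    rw [inv_inv] at h4
    exact h4.symm.trans h3
  · have h2 : ∀ n : ℕ, ∀ c : C, ((MulAut.conjNormal g : C ≃* C).toMonoidHom)^[n] c =
        MulAut.conjNormal (g ^ n) c := by
      intro n
      induction n with
      | zero =>
        intro c
        rw [pow_zero, map_one, MulAut.one_apply, Function.iterate_zero_apply]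
      | succ n ih =>
        intro c
        rw [Function.iterate_succ_apply, ih, pow_succ, map_mul, MulAut.mul_apply]
        rfl
    have h3 : MulAut.conjNormal (g ^ e) c = (⟨g ^ e, hC g⟩ : C) * c * (⟨g ^ e, hC g⟩ : C)⁻¹ := by
      apply Subtype.ext
      rw [MulAut.conjNormal_apply]
      rfl
    rw [h2, h3, map_mul, map_mul, map_inv, mul_comm (ψ _) (ψ c), mul_inv_cancel_right]

theorem main : ∀ (n : ℕ) (N E : Type u) [Group N] [Group E] (f : N →* E) (k : ℕ),
    TorsionFree N → BX k E → PZ n f.ker → ∃ m, VZ m N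
  | 0, N, E, _, _, f, k, htf, hk, h => by
    have hs : Subsingleton f.ker := h
    obtain ⟨e, he, h1, _⟩ := chain k N E f hk
    have h2 : ∀ x : N, x = 1 := by
      intro x
      apply htf x e he
      have h3 : (⟨x ^ e, by rw [MonoidHom.mem_ker, map_pow, h1]⟩ : f.ker) = 1 :=
        Subsingleton.elim _ _
      exact congrArg Subtype.val h3
    have h3 : Subsingleton N := ⟨fun x y => (h2 x).trans (h2 y).symm⟩
    refine ⟨0, ⊤, inferInstance, ?_⟩
    exact (inferInstance : Subsingleton (⊤ : Subgroup N))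
  | n + 1, N, E, _, _, f, k, htf, hk, ⟨φ, hφ⟩ => by
    classical
    have hfg : Group.FG f.ker := fg_of_pz (n + 1) f.ker ⟨φ, hφ⟩
    obtain ⟨e₀, he₀, h0, _⟩ := chain k N E f hk
    obtain ⟨S, hS, hinv⟩ := stab_fi f.ker hfg e₀ he₀
      (fun x => by rw [MonoidHom.mem_ker, map_pow, h0]) φ
    obtain ⟨e, he, h1, h2⟩ := chain k S E (f.comp S.subtype) hk
    let ψ : S → Multiplicative ℤ := fun x => if h : f x.1 = 1 then φ ⟨x.1, h⟩ else 1
    have hψ : ∀ (x : S) (h : f x.1 = 1), ψ x = φ ⟨x.1, h⟩ := fun x h => dif_pos h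
    have hmul := h2 ψ (fun x y hx hy => by
      have hx' : f x.1 = 1 := hx
      have hy' : f y.1 = 1 := hy
      have hxy : f (x * y).1 = 1 := by
        show f (x.1 * y.1) = 1
        rw [map_mul, hx', hy', mul_one]
      rw [hψ x hx', hψ y hy', hψ (x * y) hxy, ← map_mul]
      rfl) (fun g x hx => by
      have hx' : f x.1 = 1 := hx
      have hgx : f (g * x * g⁻¹).1 = 1 := by
        show f (g.1 * x.1 * g.1⁻¹) = 1
        rw [map_mul, map_mul, hx', mul_one, map_inv, mul_inv_cancel]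
      rw [hψ x hx', hψ _ hgx, ← hinv g.1 g.2 ⟨x.1, hx'⟩]
      have h3 : ((MulAut.conjNormal g.1 (⟨x.1, hx'⟩ : f.ker) : f.ker) : N) = g.1 * x.1 * g.1⁻¹ :=
        MulAut.conjNormal_apply g.1 (⟨x.1, hx'⟩ : f.ker)
      exact congrArg φ (Subtype.ext h3.symm))
    let Φ : S →* Multiplicative ℤ := MonoidHom.mk' (fun x => ψ (x ^ e)) hmul
    obtain ⟨m, hm⟩ := main n Φ.ker E ((f.comp S.subtype).comp Φ.ker.subtype) k
      (tf_sub (tf_sub htf S) Φ.ker) hk (by
        have hk1 : ∀ x : ((f.comp S.subtype).comp Φ.ker.subtype).ker,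
            φ ⟨x.1.1.1, x.2⟩ = 1 := by
          intro x
          have hx : f x.1.1.1 = 1 := x.2
          have h3 : ψ (x.1.1 ^ e) = 1 := x.1.2
          have h4 : f (x.1.1 ^ e : S).1 = 1 := by
            show f (x.1.1.1 ^ e) = 1
            rw [map_pow, hx, one_pow]
          rw [hψ _ h4] at h3
          apply mult_tf _ e he
          rw [← map_pow]
          exact h3
        refine PZ.of_injective n (f := (⟨⟨fun x => ⟨⟨x.1.1.1, x.2⟩, hk1 x⟩, rfl⟩,
          fun _ _ => rfl⟩ : ((f.comp S.subtype).comp Φ.ker.subtype).ker →* φ.ker))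
          (fun x y hxy => ?_) hφ
        exact Subtype.ext (Subtype.ext (Subtype.ext
          (congrArg (fun z : φ.ker => (z.1.1 : N)) hxy))))
    exact ⟨m + 1, VZ.of_index S hS (VZ.cyc Φ hm)⟩

theorem bx_ext : ∀ (k : ℕ) (G E : Type u) [Group G] [Group E] (h : G →* E), BX k E →
    (∀ x y, h x = 1 → h y = 1 → x * y = y * x) → ∀ e, 0 < e → (∀ x, h x = 1 → x ^ e = 1) →
    BX (k + 1) G
  | 0, G, E, iG, _, h, hk, hc, e, he, hx => by
    have hs : Subsingleton E := hk
    have h1 : ∀ x, h x = 1 := fun x => Subsingleton.elim _ _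
    refine ⟨G, { iG with mul_comm := fun x y => hc x y (h1 x) (h1 y) }, e, MonoidHom.id G, he,
      fun x => hx x (h1 x), ?_⟩
    refine ⟨fun x y => Subtype.ext ?_⟩
    exact (show x.1 = 1 from x.2).trans (show y.1 = 1 from y.2).symm
  | k + 1, G, E, _, _, h, ⟨A, _, a, g, ha, hA, hk⟩, hc, e, he, hx => by
    let f₁ : (g.comp h).ker →* g.ker :=
      { toFun := fun x => ⟨h x.1, x.2⟩
        map_one' := Subtype.ext (map_one h)
        map_mul' := fun x y => Subtype.ext (map_mul h x.1 y.1) }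
    refine ⟨A, _, a, g.comp h, ha, hA, bx_ext k (g.comp h).ker g.ker f₁ hk ?_ e he ?_⟩
    · intro x y h1 h2
      exact Subtype.ext (hc x.1 y.1 (congrArg Subtype.val h1) (congrArg Subtype.val h2))
    · intro x h1
      exact Subtype.ext (hx x.1 (congrArg Subtype.val h1))

/-- Row BVX. -/
theorem bvx : BvxStatement.{u} := by
  intro N E _ _ f k n htf hE hV
  have hfg := hV.fg
  obtain ⟨H, hH, hn⟩ := hV
  obtain ⟨C, hC, hCH, hCc⟩ := exists_char hfg H hH
  let C' : Subgroup N := C.map f.ker.subtype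
  have hC'n : C'.Normal := by
    refine ⟨?_⟩
    rintro _ ⟨x, hx, rfl⟩ g
    refine ⟨MulAut.conjNormal g x, hCc (MulAut.conjNormal g) x hx, ?_⟩
    show ((MulAut.conjNormal g x : f.ker) : N) = g * x * g⁻¹
    rw [MulAut.conjNormal_apply]
  have hC'k : C' ≤ f.ker := by
    rintro _ ⟨x, _, rfl⟩
    exact x.2
  let π := QuotientGroup.mk' C'
  have hπ : Function.Surjective π := QuotientGroup.mk'_surjective C'
  let F : Subgroup (N ⧸ C') := f.ker.map π
  have hFn : F.Normal := Subgroup.Normal.map inferInstance π hπ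
  have hFfin : Finite F := by
    have h1 : Finite (f.ker ⧸ C) := inferInstance
    let t : f.ker ⧸ C → F := Quotient.lift (fun x : f.ker => (⟨π x.1, x.1, x.2, rfl⟩ : F)) (by
      intro x y hxy
      have h2 : x⁻¹ * y ∈ C := QuotientGroup.leftRel_apply.1 hxy
      apply Subtype.ext
      refine QuotientGroup.eq.2 ?_
      exact ⟨_, h2, rfl⟩)
    refine Finite.of_surjective t ?_
    rintro ⟨_, x, hx, rfl⟩
    exact ⟨((⟨x, hx⟩ : f.ker) : f.ker ⧸ C), rfl⟩
  let κ : (N ⧸ C') →* MulAut F := MulAut.conjNormal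
  have hfinA : Finite (MulAut F) := Finite.of_injective (fun a : MulAut F => (a : F → F))
    (fun a b hab => MulEquiv.ext fun x => congrFun hab x)
  have hκ : κ.ker.FiniteIndex := Subgroup.finiteIndex_ker _
  let N₁ : Subgroup N := κ.ker.comap π
  have hN₁ : N₁.FiniteIndex := Vp.fi_comap π κ.ker hκ
  let f₁ : N₁ →* κ.ker :=
    { toFun := fun x => ⟨π x.1, x.2⟩
      map_one' := Subtype.ext (map_one π)
      map_mul' := fun x y => Subtype.ext (map_mul π x.1 y.1) }
  let fb : (N ⧸ C') →* E := QuotientGroup.lift C' f hC'k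
  have hF : ∀ y : N ⧸ C', fb y = 1 → y ∈ F := by
    intro y hy
    obtain ⟨x, rfl⟩ := hπ y
    exact ⟨x, hy, rfl⟩
  have hBX : BX (k + 1) κ.ker := by
    refine bx_ext k κ.ker E (fb.comp κ.ker.subtype) hE ?_ (Nat.card F) Nat.card_pos ?_
    · intro x y _ hy
      have h1 : κ x.1 ⟨y.1, hF y.1 hy⟩ = ⟨y.1, hF y.1 hy⟩ := by
        rw [(show κ x.1 = 1 from x.2)]
        rfl
      have h2 := congrArg Subtype.val h1
      rw [MulAut.conjNormal_apply] at h2
      apply Subtype.ext
      show x.1 * y.1 = y.1 * x.1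
      exact mul_inv_eq_iff_eq_mul.1 h2
    · intro x hx
      have h1 : (⟨x.1, hF x.1 hx⟩ : F) ^ Nat.card F = 1 := pow_card_eq_one'
      have h2 : x.1 ^ Nat.card F = 1 := congrArg Subtype.val h1
      exact Subtype.ext h2
  have hPZ : PZ n f₁.ker := by
    have hk : ∀ x : f₁.ker, ∃ c : f.ker, c ∈ C ∧ c.1 = x.1.1 := by
      intro x
      have h1 : π x.1.1 = 1 := congrArg Subtype.val (show f₁ x.1 = 1 from x.2)
      have h2 : x.1.1 ∈ C' := (QuotientGroup.eq_one_iff _).1 h1
      obtain ⟨c, hc, h3⟩ := h2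
      exact ⟨c, hc, h3⟩
    have hk2 : ∀ x : f₁.ker, ∀ h : x.1.1 ∈ f.ker, (⟨x.1.1, h⟩ : f.ker) ∈ H := by
      intro x h
      obtain ⟨c, hc, h3⟩ := hk x
      have h4 : (⟨x.1.1, h⟩ : f.ker) = c := Subtype.ext h3.symm
      rw [h4]
      exact hCH hc
    have hk1 : ∀ x : f₁.ker, x.1.1 ∈ f.ker := by
      intro x
      obtain ⟨c, _, h3⟩ := hk x
      rw [← h3]
      exact c.2
    refine PZ.of_injective n (f := (⟨⟨fun x => ⟨⟨x.1.1, hk1 x⟩, hk2 x _⟩, rfl⟩,
      fun _ _ => rfl⟩ : f₁.ker →* H)) (fun x y hxy => ?_) hn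
    exact Subtype.ext (Subtype.ext (congrArg (fun z : H => (z.1.1 : N)) hxy))
  obtain ⟨m, hm⟩ := main n N₁ κ.ker f₁ (k + 1) (tf_sub htf N₁) hBX hPZ
  exact ⟨m, VZ.of_index N₁ hN₁ hm⟩

end Pool.Agent.NegK.RK.Bvx
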