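import Pool.Agent.Lib.MP_28303a_al.NT.H80.Pgl

/-! # Groups of matrices such that the commutators have the trace `2` -/

set_option autoImplicit false
set_option linter.unusedSectionVars false
set_option linter.unusedVariables false

namespace Pool.Agent.NegK.RK

universe u v

open Matrix
open Pool.Agent.NegK.NT
open H22.G (dt mulE tr_eq dt_eq tr_comm_uni tr_adj dt_comm ext2)

theorem tri_two_trace {H : Type u} [Group H] {K : Type v} [Field K] (ψ : H →* GL (Fin 2) K)
    (P : GL (Fin 2) K) (hP : ∀ h, (P⁻¹ * ψ h * P).1 1 0 = 0) (c : H) (hc : c ∈ commutator H) :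
    (ψ c).1.trace = 2 := by
  let T : H →* GL (Fin 2) K := (MulAut.conj P⁻¹).toMonoidHom.comp ψ
  have hT : ∀ h, T h = P⁻¹ * ψ h * P := fun h => by
    show P⁻¹ * ψ h * P⁻¹⁻¹ = _
    rw [inv_inv]
  have hT0 : ∀ h, (T h).1 1 0 = 0 := fun h => by rw [hT]; exact hP h
  let d : Fin 2 → H →* K := fun i =>
    { toFun := fun h => (T h).1 i i
      map_one' := by rw [map_one, Units.val_one, Matrix.one_apply_eq]
      map_mul' := fun g h => by
        rw [map_mul, Units.val_mul, Matrix.mul_apply, Fin.sum_univ_two]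
        fin_cases i
        · show (T g).1 0 0 * (T h).1 0 0 + (T g).1 0 1 * (T h).1 1 0 =
            (T g).1 0 0 * (T h).1 0 0
          rw [hT0, mul_zero, add_zero]
        · show (T g).1 1 0 * (T h).1 0 1 + (T g).1 1 1 * (T h).1 1 1 =
            (T g).1 1 1 * (T h).1 1 1
          rw [hT0, zero_mul, zero_add] }
  have h1 : ∀ i, d i c = 1 := fun i => by
    have h2 := Abelianization.commutator_subset_ker (d i).toHomUnits hc
    exact congrArg (fun x : Kˣ => (x : K)) h2
  have h3 : (T c).1.trace = 2 := by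
    rw [Matrix.trace_fin_two]
    have e0 : (T c).1 0 0 = 1 := h1 0
    have e1 : (T c).1 1 1 = 1 := h1 1
    rw [e0, e1]
    norm_num
  rw [← h3]
  exact (Matrix.trace_units_conj P⁻¹ (ψ c).1).symm

/-- If all commutators have the trace `2` then so have the elements of the commutator subgroup. -/
theorem comm_two {H : Type u} [Group H] {K : Type v} [Field K] (ψ : H →* GL (Fin 2) K)
    (hc : ∀ x y, (ψ (x * y * x⁻¹ * y⁻¹)).1.trace = 2) (c : H) (hcc : c ∈ commutator H) :
    (ψ c).1.trace = 2 := by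
  by_cases hall : ∀ x y, ψ (x * y * x⁻¹ * y⁻¹) = 1
  · have h1 : commutator H ≤ ψ.ker := by
      rw [commutator_def, Subgroup.commutator_le]
      intro x _ y _
      rw [MonoidHom.mem_ker, commutatorElement_def]
      exact hall x y
    have h2 : ψ c = 1 := h1 hcc
    rw [h2, Units.val_one, Matrix.trace_one, Fintype.card_fin]
    norm_num
  · push Not at hall
    obtain ⟨x, y, hxy⟩ := hall
    obtain ⟨Φ, hΦ⟩ : ∃ Φ : H →* Matrix (Fin 2) (Fin 2) K, ∀ h, Φ h = (ψ h).1 :=
      ⟨(Units.coeHom _).comp ψ, fun _ => rfl⟩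
    have hcT : ∀ x y, H22.G.tr (Φ (x * y * x⁻¹ * y⁻¹)) = 2 := fun x y => by
      rw [hΦ, ← tr_eq]
      exact hc x y
    obtain ⟨e, hed⟩ : ∃ e, x * y * x⁻¹ * y⁻¹ = e := ⟨_, rfl⟩
    have htc : H22.G.tr (Φ e) = 2 := by rw [← hed]; exact hcT x y
    have hdc : dt (Φ e) = 1 := by rw [← hed]; exact dt_comm Φ x y
    have hne : Φ e ≠ 1 := fun h => hxy (Units.ext (by rw [hed, ← hΦ, h]; rfl))
    obtain ⟨α, hα⟩ : ∃ α, Φ e 0 0 - 1 = α := ⟨_, rfl⟩
    have h00 : Φ e 0 0 = 1 + α := by rw [← hα]; ring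
    have h11 : Φ e 1 1 = 1 - α := by
      rw [H22.G.tr] at htc
      linear_combination htc - h00
    have h0 : α ^ 2 + Φ e 0 1 * Φ e 1 0 = 0 := by
      have := hdc
      rw [dt, h00, h11] at this
      linear_combination -this
    have hτ : ∀ h, α * (Φ h 0 0 - Φ h 1 1) + Φ e 0 1 * Φ h 1 0 + Φ e 1 0 * Φ h 0 1 = 0 := by
      intro h
      have h1 := hcT e h
      have h2 := tr_adj Φ e h
      rw [h1, tr_comm_uni (Φ e) (Φ h) α hdc h00 h11, hdc] at h2
      have h3 : (α * (Φ h 0 0 - Φ h 1 1) + Φ e 0 1 * Φ h 1 0 + Φ e 1 0 * Φ h 0 1) ^ 2 = 0 := by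
        linear_combination h2
      exact pow_eq_zero_iff (two_ne_zero) |>.1 h3
    obtain ⟨P, hP⟩ : ∃ P : GL (Fin 2) K, ∀ s, (P⁻¹ * ψ s * P).1 1 0 = 0 := by
      by_cases hu : α ≠ 0 ∨ Φ e 1 0 ≠ 0
      · refine H80.exists_P ψ α (Φ e 1 0) hu fun s => ?_
        rw [← hΦ]
        linear_combination (-Φ e 1 0) * hτ s + Φ s 1 0 * h0
      · rw [not_or, not_not, not_not] at hu
        have h01 : Φ e 0 1 ≠ 0 := by
          intro h01
          apply hne
          refine ext2 ?_ ?_ ?_ ?_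
          · rw [h00, hu.1, add_zero, Matrix.one_apply_eq]
          · rw [h01, Matrix.one_apply_ne (by decide)]
          · rw [hu.2, Matrix.one_apply_ne (by decide)]
          · rw [h11, hu.1, sub_zero, Matrix.one_apply_eq]
        refine H80.exists_P ψ (Φ e 0 1) (-α) (Or.inl h01) fun s => ?_
        rw [← hΦ]
        linear_combination Φ e 0 1 * hτ s - Φ s 0 1 * h0
    exact tri_two_trace ψ P hP c hcc

end Pool.Agent.NegK.RK
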