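import Pool.Agent.Lib.MP_28303a_al.RK.Vp
import Pool.Agent.Lib.MP_28303a_al.RK.RgtDefs
import Pool.Agent.Lib.MP_28303a_al.RK.Arb

/-!
# Groups of semisimple rank one with virtually poly-`ℤ` kernels: statements

The linear groups may have torsion.  The group `D` is torsionfree and the homomorphisms factor
through the homomorphism `δ` to `D` with kernel in `𝒩`.
-/

set_option autoImplicit false
set_option linter.unusedSectionVars false
set_option linter.unusedVariables false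

namespace Pool.Agent.NegK.RK

universe u

open Matrix
open scoped MatrixGroups
open Pool.Agent.NegK.TW Pool.Agent.NegK.TT Pool.Agent.NegK.NT

/-- The homomorphism `δ` has torsionfree image and kernel in `𝒩`, the homomorphism `σ` is trivial
on this kernel, and the image under `δ` of the kernel of `σ` is virtually poly-`ℤ`. -/
structure VK (n : ℕ) {H D X : Type u} [Group H] [Group D] [Group X] (δ : H →* D) (σ : H →* X) :
    Prop where
  tf : ∀ h (m : ℕ), 0 < m → δ h ^ m = 1 → δ h = 1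
  ker : InN δ.ker
  le : ∀ h, δ h = 1 → σ h = 1
  vz : VZ n (σ.ker.map δ)

theorem VK.comp {n : ℕ} {H D X : Type u} [Group H] [Group D] [Group X] {δ : H →* D} {σ : H →* X}
    (h : VK n δ σ) {G : Type u} [Group G] (f : G →* H) (hf : Function.Injective f) :
    VK n (δ.comp f) (σ.comp f) := by
  refine ⟨fun g m hm hg => h.tf (f g) m hm hg, ?_, fun g hg => h.le (f g) hg, ?_⟩
  · exact TT.H66.inN_of_injective (⟨⟨fun x => ⟨f x.1, x.2⟩, Subtype.ext (map_one f)⟩,
      fun x y => Subtype.ext (map_mul f x.1 y.1)⟩ : (δ.comp f).ker →* δ.ker)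
      (fun x y hxy => Subtype.ext (hf (congrArg Subtype.val hxy))) h.ker
  · refine VZ.of_injective (Subgroup.inclusion ?_) (Subgroup.inclusion_injective _) h.vz
    rintro _ ⟨g, hg, rfl⟩
    exact ⟨f g, hg, rfl⟩

/-- The kernel may be larger. -/
theorem VK.mono {n : ℕ} {H D X Y : Type u} [Group H] [Group D] [Group X] [Group Y] {δ : H →* D}
    {σ : H →* X} {σ' : H →* Y} (h : VK n δ σ) (h1 : ∀ g, σ g = 1 → σ' g = 1)
    (h2 : ∀ g, σ' g = 1 → σ g = 1) : VK n δ σ' := by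
  refine ⟨h.tf, h.ker, fun g hg => h1 g (h.le g hg), ?_⟩
  refine VZ.of_injective (Subgroup.inclusion ?_) (Subgroup.inclusion_injective _) h.vz
  rintro _ ⟨g, hg, rfl⟩
  exact ⟨g, h2 g hg, rfl⟩

/-- Row MIXV. The stabilizers. -/
def MixVStatement : Prop :=
  ∀ (K L : Type u) [Field K] [Field L], H70.Rig K → ∀ (e : K →+* L) (r : ℕ) (d : Fin r → ℕ)
    (H D Q : Type u) [Group H] [Group D] [CommGroup Q] (δ : H →* D) (q : H →* Q)
    (τ : H →* GL (TI d) L) (γ : H →* PGL(Fin 2, K)) (n : ℕ), VK n δ (q.prod (τ.prod γ)) →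
    RankT d τ ((ProjGenLinGroup.map e).comp γ) →
    (∀ h (B : GL (Fin 2) K), ProjGenLinGroup.mk B = γ h →
      ∃ z : ℤ, B.1.trace ^ 2 = (z : K) * B.1.det) →
    (∀ k h, IsIntegral ℤ ((τ h).1.submatrix (Sigma.mk k) (Sigma.mk k)).det) → InRC H

/-- Row MTT-2 over `L`. -/
def MttTwoVStatement : Prop :=
  ∀ (K L : Type u) [Field K] [Field L], H70.Rig K → ∀ (e : K →+* L) (r : ℕ) (d : Fin r → ℕ)
    (P Q : Type u) [Group P] [CommGroup Q], Group.FG P → Group.FG Q →
    ∀ (q : P →* Q) (τ : P →* GL (TI d) L) (γ : P →* PGL(Fin 2, K)),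
    RankT d τ ((ProjGenLinGroup.map e).comp γ) →
    (∀ k h, IsIntegral ℤ ((τ h).1.submatrix (Sigma.mk k) (Sigma.mk k)).det) →
    (∀ h, q h = 1 → τ h = 1 → γ h = 1 → h = 1) →
    ∀ (M : P →* GL (Fin 2) K) (X : GL (Fin 2) K), (∀ s, ProjGenLinGroup.mk (M s) = γ s) →
    (∀ s, (M s).1.det = 1) →
    (∀ s, ∃ g : GL (Fin 2) ℤ, X⁻¹ * M s * X = GeneralLinearGroup.map (Int.castRingHom K) g) →
    ∃ (V : Type u) (_ : MulAction P V) (T : SimpleGraph V), TreeAct P T ∧ ∃ n : ℕ,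
      ∀ v : V, ∃ F : Subgroup (MulAction.stabilizer P v), F.FiniteIndex ∧ PL.PZ n F

/-- Row LINV. The vanishing theorem. -/
def LinVStatement : Prop :=
  ∀ (F : Type u) [Field F] (p : ℕ), 0 < p → (p : F) = 0 → ∀ (P : Type u) [Group P], Arb P →
    ∀ (K L : Type u) [Field K] [Field L], H70.Rig K → ∀ (e : K →+* L) (r : ℕ) (d : Fin r → ℕ)
    (Γ D : Type u) [Group Γ] [Group D] (δ : Γ →* D)
    (α : Γ →* (MvPolynomial (Fin 2) F ≃ₐ[F] MvPolynomial (Fin 2) F)) (β : Γ →* P)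
    (τ : Γ →* GL (TI d) L) (γ : Γ →* PGL(Fin 2, K)) (n : ℕ),
    VK n δ (α.prod (β.prod (τ.prod γ))) → RankT d τ ((ProjGenLinGroup.map e).comp γ) →
    (∀ g (m : ℕ), 0 < m → τ g = 1 → γ g = 1 → α g ^ m = 1 → β g ^ m = 1 → α g = 1 ∧ β g = 1) →
    H19.InL Γ

end Pool.Agent.NegK.RK
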