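import Pool.Agent.Lib.MP_28303a_al.RK.Mtt1
import Pool.Agent.Lib.MP_28303a_al.RK.VpDefs

/-! # The condition on the edges, virtually polycyclic kernels and finite torsion images -/

set_option autoImplicit false
set_option linter.unusedSectionVars false
set_option linter.unusedVariables false

namespace Pool.Agent.NegK.RK

universe u v w

open Matrix
open scoped MatrixGroups
open Pool.Agent.NegK.TW Pool.Agent.NegK.TT Pool.Agent.NegK.NT Pool.Agent.NegK.NT5
open Pool.Agent.NegK.PL (PZ)

open Rkt in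
/-- The condition on the edges in `gpx` and `gpxP` over an algebraically closed field, with the
determinants of the blocks as characters: torsionfree groups and virtually polycyclic kernels. -/
theorem edgW
    {K : Type u} [Field K] [CharZero K] [IsAlgClosed K] {r : ℕ} {d : Fin r → ℕ} {Γ : Type u}
    [Group Γ] {D M : Type u} [Group D] [Group M] (δ : Γ →* D) (β : Γ →* M) (τ : Γ →* GL (TI d) K)
    (γ : Γ →* PGL(Fin 2, K)) (hR : RankT d τ γ) (n : ℕ) (hV : VK n δ (β.prod (τ.prod γ)))
    (hB : ∀ S : Subgroup M, S.FG → (∀ x ∈ S, ∃ m, 0 < m ∧ x ^ m = 1) → Finite S) :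
    ∃ χ : Fin r → Γ →* Kˣ, ∀ (G : Type u) [Group G] (f : G →* Γ), Function.Injective f →
      (∀ g, ∃ m, 0 < m ∧ β (f g) ^ m = 1) →
      (∀ g (B : GL (Fin 2) K), ProjGenLinGroup.mk B = γ (f g) →
        IsIntegral ℤ (B.1.trace ^ 2 / B.1.det)) →
      (∀ (Gt : Type u) [Group Gt] (q : Gt →* G) (B : Gt →* GL (Fin 2) K),
        (∀ x, ProjGenLinGroup.mk (B x) = γ (f (q x))) → ∀ c ∈ commutator Gt,
          (B c).1.trace = 2) →
      (∀ j g, IsIntegral ℤ ((χ j (f g) : Kˣ) : K)) → InRC G := by
  obtain ⟨χ, hχ⟩ := exists_charsT τ hR.tri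
  refine ⟨χ, fun G _ f hf h1 h2 h3 h4 => ?_⟩
  refine ((main.{u}).2.2.2.1 G).2.2.2.2.2.1 fun T => ⟨Subgroup.closure (T : Set G),
    fun s hs => Subgroup.subset_closure hs, inRC_of_inN ?_⟩
  have hfg : Group.FG (Subgroup.closure (T : Set G)) := (Group.fg_iff_subgroup_fg _).2 ⟨T, rfl⟩
  let S := Subgroup.closure (T : Set G)
  let ω : S →* GL (TI d) K × PGL(Fin 2, K) := (τ.prod γ).comp (f.comp S.subtype)
  have hFG : Group.FG ω.range := Group.fg_range ω
  have hs : Function.Surjective ω.rangeRestrict := ω.rangeRestrict_surjective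
  let τ' : ω.range →* GL (TI d) K := (MonoidHom.fst _ _).comp ω.range.subtype
  let γ' : ω.range →* PGL(Fin 2, K) := (MonoidHom.snd _ _).comp ω.range.subtype
  have hτ' : ∀ g, τ' (ω.rangeRestrict g) = τ (f g.1) := fun g => rfl
  have hγ' : ∀ g, γ' (ω.rangeRestrict g) = γ (f g.1) := fun g => rfl
  obtain ⟨H, -, hfi, m, hm⟩ := rkq_pz (d := d) ω.range PUnit.{u + 1} hFG 1 τ' γ'
    ⟨fun x => by
      obtain ⟨g, rfl⟩ := hs x
      rw [hτ']
      exact hR.tri _, fun x k => by
      obtain ⟨g, rfl⟩ := hs x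
      rw [hτ', hγ']
      exact hR.lift _ k⟩
    (fun x _ h5 h6 => Subtype.ext (Prod.ext h5 h6))
    (fun x B h5 => by
      obtain ⟨g, rfl⟩ := hs x
      exact h2 g.1 B h5)
    (fun Gt _ q B h5 c hcc => by
      -- pull back to the preimage in `S`
      let E : Subgroup (Gt × S) :=
        { carrier := {y | q y.1 = ω.rangeRestrict y.2}
          one_mem' := by
            show q 1 = ω.rangeRestrict 1
            rw [map_one, map_one]
          mul_mem' := fun {y y'} hy hy' => by
            show q (y.1 * y'.1) = ω.rangeRestrict (y.2 * y'.2)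
            have e1 : q y.1 = ω.rangeRestrict y.2 := hy
            have e2 : q y'.1 = ω.rangeRestrict y'.2 := hy'
            rw [map_mul, map_mul, e1, e2]
          inv_mem' := fun {y} hy => by
            show q y.1⁻¹ = ω.rangeRestrict y.2⁻¹
            have e1 : q y.1 = ω.rangeRestrict y.2 := hy
            rw [map_inv, map_inv, e1] }
      let p₁ : E →* Gt := (MonoidHom.fst _ _).comp E.subtype
      have hp₁ : Function.Surjective p₁ := fun y => by
        obtain ⟨g, hg⟩ := hs (q y)
        exact ⟨⟨(y, g), hg.symm⟩, rfl⟩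
      have h6 : c ∈ (commutator E).map p₁ := by
        rw [commutator_def, Subgroup.map_commutator, Subgroup.map_top_of_surjective p₁ hp₁]
        exact hcc
      obtain ⟨c', hc', rfl⟩ := h6
      refine h3 E ((S.subtype.comp (MonoidHom.snd _ _)).comp E.subtype) (B.comp p₁)
        (fun y => ?_) c' hc'
      have e1 : q y.1.1 = ω.rangeRestrict y.1.2 := y.2
      show ProjGenLinGroup.mk (B y.1.1) = γ (f y.1.2.1)
      rw [h5, e1, hγ'])
    (fun x k => by
      obtain ⟨g, rfl⟩ := hs x
      have h5 := h4 k g.1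
      rw [hχ] at h5
      exact h5)
  -- the image in `D`
  let δ' : S →* D := δ.comp (f.comp S.subtype)
  have hδ : ∀ s, δ' s = 1 → ω s = 1 := fun s hs1 => by
    have e1 : β.prod (τ.prod γ) (f s.1) = 1 := hV.le (f s.1) hs1
    exact Prod.ext (congrArg (fun x => x.2.1) e1) (congrArg (fun x => x.2.2) e1)
  have hs' : Function.Surjective δ'.rangeRestrict := δ'.rangeRestrict_surjective
  have htfD : TorsionFree δ'.range := by
    rintro ⟨_, s, rfl⟩ l hl hg
    exact Subtype.ext (hV.tf (f s.1) l hl (congrArg Subtype.val hg))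
  have hkD : InN δ'.rangeRestrict.ker := by
    refine TT.H66.inN_of_injective (⟨⟨fun x => ⟨f x.1.1, congrArg Subtype.val x.2⟩,
      Subtype.ext (map_one f)⟩, fun x y => Subtype.ext (map_mul f x.1.1 y.1.1)⟩ :
        δ'.rangeRestrict.ker →* δ.ker) (fun x y hxy => ?_) hV.ker
    exact Subtype.ext (Subtype.ext (hf (congrArg (fun w : δ.ker => (w : Γ)) hxy)))
  -- the homomorphism from the image in `D` to the image of `(τ, γ)`
  let π : δ'.range →* ω.range := (QuotientGroup.lift δ'.ker ω.rangeRestrict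
    (fun s hs1 => Subtype.ext (hδ s hs1))).comp
      (QuotientGroup.quotientKerEquivRange δ').symm.toMonoidHom
  have hπ : ∀ s, π (δ'.rangeRestrict s) = ω.rangeRestrict s := fun s => by
    have e1 : (QuotientGroup.quotientKerEquivRange δ').symm (δ'.rangeRestrict s) =
        (QuotientGroup.mk s : S ⧸ δ'.ker) := by
      rw [MulEquiv.symm_apply_eq]
      rfl
    exact congrArg (QuotientGroup.lift δ'.ker ω.rangeRestrict
      (fun s hs1 => Subtype.ext (hδ s hs1))) e1
  -- the kernel of `β` has finite index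
  let β' : S →* M := β.comp (f.comp S.subtype)
  have hfin : Finite β'.range := by
    refine hB β'.range ((Group.fg_iff_subgroup_fg _).1 (Group.fg_range β')) ?_
    rintro _ ⟨s, rfl⟩
    exact h1 s.1
  have hE0 : β'.ker.FiniteIndex := Subgroup.finiteIndex_ker β'
  let E : Subgroup δ'.range := β'.ker.map δ'.rangeRestrict
  have hE : E.FiniteIndex := by
    refine ⟨fun h0 => hE0.index_ne_zero ?_⟩
    have e1 := Subgroup.index_map_dvd (β'.ker) hs'
    rw [h0] at e1
    exact Nat.eq_zero_of_zero_dvd e1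
  have hVZ : VZ (n + m) E := by
    refine VZ.ext (π.comp E.subtype) ⟨H, hfi, hm⟩ ?_
    refine VZ.of_injective (⟨⟨fun x => ⟨x.1.1.1, ?_⟩, rfl⟩, fun _ _ => rfl⟩ :
      (π.comp E.subtype).ker →* ((β.prod (τ.prod γ)).ker.map δ : Subgroup D))
        (fun x y hxy => ?_) hV.vz
    · obtain ⟨s, hs0, hs1⟩ := x.1.2
      have e1 : ω s = 1 := by
        have e2 : π x.1.1 = 1 := x.2
        rw [← hs1, hπ] at e2
        exact congrArg Subtype.val e2
      exact ⟨f s.1, Prod.ext hs0 (Prod.ext (congrArg Prod.fst e1) (congrArg Prod.snd e1)),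
        congrArg Subtype.val hs1⟩
    · exact Subtype.ext (Subtype.ext (Subtype.ext
        (congrArg (fun w : ((β.prod (τ.prod γ)).ker.map δ : Subgroup D) => (w : D)) hxy)))
  obtain ⟨F, hF, hFz⟩ := VZ.of_index E hE hVZ
  exact tfq S δ'.range δ'.rangeRestrict hs' htfD hkD F (n + m) hF hFz

end Pool.Agent.NegK.RK
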