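import Pool.Agent.Lib.MP_28303a_al.P2.Main

/-! # Homomorphisms to groups of matrices over the algebraic numbers

Row EMX of `rkone_modules`. -/

set_option autoImplicit false
set_option linter.unusedSectionVars false
set_option linter.unusedVariables false

namespace Pool.Agent.NegK.RK

universe u v

open Matrix
open scoped MatrixGroups
open Pool.Agent.NegK.NT
open Pool.Agent.NegK.NT5

/-- The quotients `tr² / det` of two lifts of the same element of `PGL₂` agree. -/
theorem ratio_eq {K : Type v} [Field K] {A B : GL (Fin 2) K}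
    (h : ProjGenLinGroup.mk A = ProjGenLinGroup.mk B) :
    A.1.trace ^ 2 / A.1.det = B.1.trace ^ 2 / B.1.det := by
  have h1 : ProjGenLinGroup.mk (B⁻¹ * A) = 1 := by
    rw [map_mul, map_inv, h, inv_mul_cancel]
  rw [ProjGenLinGroup.mk_eq_one, GeneralLinearGroup.mem_center_iff_val_mem_range_scalar] at h1
  obtain ⟨c, hc⟩ := h1
  have h2 : A.1 = c • B.1 := by
    have h3 : A = B * (B⁻¹ * A) := by rw [mul_inv_cancel_left]
    have h4 : A.1 = B.1 * (B⁻¹ * A).1 := by
      conv_lhs => rw [h3]
      exact Units.val_mul _ _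
    rw [h4, ← hc]
    ext i j
    simp [Matrix.scalar_apply, Matrix.mul_diagonal, mul_comm]
  have hA : A.1.det ≠ 0 := ((Matrix.isUnit_iff_isUnit_det _).1 A.isUnit).ne_zero
  have hB : B.1.det ≠ 0 := ((Matrix.isUnit_iff_isUnit_det _).1 B.isUnit).ne_zero
  have hdet : A.1.det = c ^ 2 * B.1.det := by
    rw [h2, Matrix.det_smul, Fintype.card_fin]
  have hc0 : c ≠ 0 := by
    rintro rfl
    rw [zero_pow two_ne_zero, zero_mul] at hdet
    exact hA hdet
  have htr : A.1.trace = c * B.1.trace := by
    rw [h2, Matrix.trace_smul, smul_eq_mul]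
  rw [hdet, htr, mul_pow, mul_div_mul_left _ _ (pow_ne_zero 2 hc0)]

/-- The block with rows and columns `i` and `j` of block triangular matrices. -/
theorem exists_blk {K : Type v} [Field K] {n : ℕ} (b : Fin n → ℕ)
    (hb : ∀ k, (Finset.univ.filter fun i => b i = k).card ≤ 2) {G : Type*} [Group G]
    (τ : G →* GL (Fin n) K) (htri : ∀ g, (τ g).1.BlockTriangular b) (i j : Fin n) (hij : i ≠ j)
    (hbij : b i = b j) :
    ∃ B : G →* GL (Fin 2) K, ∀ g, (B g).1 = (τ g).1.submatrix ![i, j] ![i, j] := by
  classical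
  have hcls : ∀ l, b l = b i → l = i ∨ l = j := by
    intro l hl
    by_contra hne
    rw [not_or] at hne
    have h1 : ({l, i, j} : Finset (Fin n)) ⊆ Finset.univ.filter fun x => b x = b i := by
      intro x hx
      rw [Finset.mem_filter]
      refine ⟨Finset.mem_univ _, ?_⟩
      rw [Finset.mem_insert, Finset.mem_insert, Finset.mem_singleton] at hx
      rcases hx with rfl | rfl | rfl
      · exact hl
      · rfl
      · exact hbij.symm
    have h2 : ({l, i, j} : Finset (Fin n)).card = 3 := by
      rw [Finset.card_insert_of_notMem, Finset.card_insert_of_notMem, Finset.card_singleton]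
      · rwa [Finset.mem_singleton]
      · rw [Finset.mem_insert, Finset.mem_singleton, not_or]
        exact hne
    have h3 := (Finset.card_le_card h1).trans (hb (b i))
    omega
  have hbe : ∀ p : Fin 2, b ((![i, j] : Fin 2 → Fin n) p) = b i := by
    intro p
    fin_cases p
    · rfl
    · exact hbij.symm
  let B : G →* Matrix (Fin 2) (Fin 2) K :=
    { toFun := fun g => (τ g).1.submatrix ![i, j] ![i, j]
      map_one' := by
        rw [map_one, Units.val_one]
        refine Matrix.submatrix_one _ ?_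
        intro p q hpq
        fin_cases p <;> fin_cases q
        · rfl
        · exact absurd hpq hij
        · exact absurd hpq.symm hij
        · rfl
      map_mul' := fun g h => by
        refine Matrix.ext fun p q => ?_
        rw [Matrix.submatrix_apply, map_mul, Units.val_mul, Matrix.mul_apply, Matrix.mul_apply,
          Fin.sum_univ_two]
        have h1 : ∀ l, l ≠ i → l ≠ j → (τ g).1 ((![i, j] : Fin 2 → Fin n) p) l *
            (τ h).1 l ((![i, j] : Fin 2 → Fin n) q) = 0 := by
          intro l hli hlj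
          have h2 : b l ≠ b i := fun h3 => (hcls l h3).elim hli hlj
          rcases lt_or_gt_of_ne h2 with h3 | h3
          · rw [htri g (show b l < b ((![i, j] : Fin 2 → Fin n) p) by rw [hbe]; exact h3), zero_mul]
          · rw [htri h (show b ((![i, j] : Fin 2 → Fin n) q) < b l by rw [hbe]; exact h3), mul_zero]
        rw [Fintype.sum_eq_add i j hij fun l hl => h1 l hl.1 hl.2]
        rfl }
  exact ⟨B.toHomUnits, fun g => rfl⟩

/-- The diagonal entry `i` of triangular matrices, as scalar matrices. -/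
theorem exists_dia {K : Type v} [Field K] {n : ℕ} (b : Fin n → ℕ) {G : Type*} [Group G]
    (τ : G →* GL (Fin n) K) (htri : ∀ g, (τ g).1.BlockTriangular b) (i : Fin n)
    (hi : ∀ j, b j = b i → j = i) :
    ∃ B : G →* GL (Fin 2) K, ∀ g, (B g).1 = Matrix.scalar (Fin 2) ((τ g).1 i i) := by
  classical
  let χ : G →* K :=
    { toFun := fun g => (τ g).1 i i
      map_one' := by rw [map_one, Units.val_one, Matrix.one_apply_eq]
      map_mul' := fun g h => by
        rw [map_mul, Units.val_mul, Matrix.mul_apply, Finset.sum_eq_single i]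
        · intro l _ hl
          have h2 : b l ≠ b i := fun h3 => hl (hi l h3)
          rcases lt_or_gt_of_ne h2 with h3 | h3
          · rw [htri g h3, zero_mul]
          · rw [htri h h3, mul_zero]
        · intro h1
          exact absurd (Finset.mem_univ _) h1 }
  exact ⟨((Matrix.scalar (Fin 2) : K →+* Matrix (Fin 2) (Fin 2) K).toMonoidHom.comp
    χ).toHomUnits, fun g => rfl⟩

/-- For every index `i` a homomorphism to `GL₂` over the algebraic numbers with the kernel of the
block of `i`. -/
theorem emx_blk {K : Type u} [Field K] [CharZero K] {n : ℕ} (b : Fin n → ℕ)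
    (hb : ∀ k, (Finset.univ.filter fun i => b i = k).card ≤ 2) {H : Type u} [Group H]
    [Group.FG H] (τ : H →* GL (Fin n) K) (htri : ∀ g, (τ g).1.BlockTriangular b)
    (halg : ∀ i j, i < j → b i = b j → ∀ g, IsAlgebraic ℤ
      (((τ g).1.submatrix ![i, j] ![i, j]).trace ^ 2 / ((τ g).1.submatrix ![i, j] ![i, j]).det))
    (i : Fin n) :
    ∃ ψ : H →* GL (Fin 2) (AlgebraicClosure ℚ), ∀ h, ψ h = 1 ↔
      ∀ j k, b j = b i → b k = b i → (τ h).1 j k = (1 : Matrix (Fin n) (Fin n) K) j k := by
  classical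
  by_cases hi : ∀ j, b j = b i → j = i
  · obtain ⟨B, hB⟩ := exists_dia b τ htri i hi
    obtain ⟨ψ, hψ⟩ := emb_all B fun h => by
      have h0 : (τ h).1 i i ≠ 0 := by
        intro h1
        have h2 : (B h).1.det ≠ 0 := ((Matrix.isUnit_iff_isUnit_det _).1 (B h).isUnit).ne_zero
        refine h2 ?_
        rw [hB, h1, map_zero, Matrix.det_zero]
      have h1 : (B h).1.trace ^ 2 / (B h).1.det = algebraMap ℤ K 4 := by
        rw [hB, Matrix.trace_fin_two, Matrix.det_fin_two]
        simp only [Matrix.scalar_apply, Matrix.diagonal_apply]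
        simp
        field_simp
        norm_num
      rw [h1]
      exact isAlgebraic_algebraMap _
    refine ⟨ψ, fun h => ?_⟩
    rw [hψ]
    constructor
    · intro h1 j k hj hk
      rw [hi j hj, hi k hk, Matrix.one_apply_eq]
      have h3 : (B h).1 = 1 := congrArg Units.val h1
      have h2 := congrFun (congrFun h3 0) 0
      rw [hB, Matrix.one_apply_eq] at h2
      simpa [Matrix.scalar_apply] using h2
    · intro h1
      refine Units.ext ?_
      rw [hB, h1 i i rfl rfl, Matrix.one_apply_eq, map_one]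
      rfl
  · push Not at hi
    obtain ⟨j, hj, hji⟩ := hi
    -- ordered
    obtain ⟨i', j', hlt, hb', hcls⟩ : ∃ i' j' : Fin n, i' < j' ∧ b i' = b j' ∧ b i' = b i := by
      rcases lt_or_gt_of_ne hji with h | h
      · exact ⟨j, i, h, hj, hj⟩
      · exact ⟨i, j, h, hj.symm, rfl⟩
    obtain ⟨B, hB⟩ := exists_blk b hb τ htri i' j' (ne_of_lt hlt) hb'
    obtain ⟨ψ, hψ⟩ := emb_all B fun h => by
      rw [hB]
      exact halg i' j' hlt hb' h
    refine ⟨ψ, fun h => ?_⟩
    rw [hψ]
    have hmem : ∀ l, b l = b i → l = i' ∨ l = j' := by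
      intro l hl
      by_contra hne
      rw [not_or] at hne
      have h1 : ({l, i', j'} : Finset (Fin n)) ⊆ Finset.univ.filter fun x => b x = b i := by
        intro x hx
        rw [Finset.mem_filter]
        refine ⟨Finset.mem_univ _, ?_⟩
        rw [Finset.mem_insert, Finset.mem_insert, Finset.mem_singleton] at hx
        rcases hx with rfl | rfl | rfl
        · exact hl
        · exact hcls
        · exact hb'.symm.trans hcls
      have h2 : ({l, i', j'} : Finset (Fin n)).card = 3 := by
        rw [Finset.card_insert_of_notMem, Finset.card_insert_of_notMem, Finset.card_singleton]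
        · rw [Finset.mem_singleton]
          exact ne_of_lt hlt
        · rw [Finset.mem_insert, Finset.mem_singleton, not_or]
          exact hne
      have h3 := (Finset.card_le_card h1).trans (hb (b i))
      omega
    have hinj : Function.Injective (![i', j'] : Fin 2 → Fin n) := by
      intro p q hpq
      fin_cases p <;> fin_cases q
      · rfl
      · exact absurd hpq (ne_of_lt hlt)
      · exact absurd hpq.symm (ne_of_lt hlt)
      · rfl
    constructor
    · intro h1 j k hj hk
      have hp : ∀ l, b l = b i → ∃ p : Fin 2, (![i', j'] : Fin 2 → Fin n) p = l := by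
        intro l hl
        rcases hmem l hl with h2 | h2
        · exact ⟨0, h2.symm⟩
        · exact ⟨1, h2.symm⟩
      obtain ⟨p, rfl⟩ := hp j hj
      obtain ⟨q, rfl⟩ := hp k hk
      have h3 : (B h).1 = 1 := congrArg Units.val h1
      have h2 := congrFun (congrFun h3 p) q
      rw [hB, Matrix.submatrix_apply] at h2
      rw [h2, Matrix.one_apply, Matrix.one_apply]
      simp only [hinj.eq_iff]
    · intro h1
      refine Units.ext (Matrix.ext fun p q => ?_)
      have hbe : ∀ p : Fin 2, b ((![i', j'] : Fin 2 → Fin n) p) = b i := by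
        intro p
        fin_cases p
        · exact hcls
        · exact hb'.symm.trans hcls
      rw [hB, Matrix.submatrix_apply, h1 _ _ (hbe p) (hbe q)]
      show (1 : Matrix (Fin n) (Fin n) K) _ _ = (1 : Matrix (Fin 2) (Fin 2) K) p q
      rw [Matrix.one_apply, Matrix.one_apply]
      simp only [hinj.eq_iff]

/-- The homomorphism to `PGL₂` over the algebraic numbers. -/
theorem emx_pgl {K : Type u} [Field K] [CharZero K] {H : Type u} [Group H] [hfg : Group.FG H]
    (γ : H →* PGL(Fin 2, K))
    (halg : ∀ g (B : GL (Fin 2) K), ProjGenLinGroup.mk B = γ g →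
      IsAlgebraic ℤ (B.1.trace ^ 2 / B.1.det)) :
    ∃ ψ : H →* PGL(Fin 2, AlgebraicClosure ℚ), ∀ h, ψ h = 1 ↔ γ h = 1 := by
  let L := AlgebraicClosure K
  have hcz : CharZero L := charZero_of_injective_algebraMap (algebraMap K L).injective
  let ψ : H →* PGL(Fin 2, L) := (ProjGenLinGroup.map (algebraMap K L)).comp γ
  have hψ : ∀ g, ψ g = 1 ↔ γ g = 1 := fun g =>
    ⟨fun h => P2.map_injective (algebraMap K L) (h.trans (map_one _).symm), fun h => by
      show ProjGenLinGroup.map (algebraMap K L) (γ g) = 1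
      rw [h, map_one]⟩
  obtain ⟨Δ, _, π, q, z, hπ, hdet, hq, hz, hz', hker', hfin, hfgΔ⟩ := P2.exists_lift ψ
  have hfgD : Group.FG Δ := hfgΔ hfg
  obtain ⟨ψ', hψ'⟩ := H80.emb_p2 (fun L _ _ E hE => H70.spec L E hE)
    (fun K _ _ G _ _ χ β h1 h2 => H58.aff χ β h1 h2) π hπ q
    (fun g hg => by
      rw [← ProjGenLinGroup.mk_eq_one, hq, hg, map_one]) hdet z hz' (fun g => by
      obtain ⟨B, hB⟩ := ProjGenLinGroup.mk_surjective (γ (π g))
      have h1 : ProjGenLinGroup.mk (q g) =
          ProjGenLinGroup.mk (GeneralLinearGroup.map (algebraMap K L) B) := by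
        rw [hq]
        show ProjGenLinGroup.map (algebraMap K L) (γ (π g)) = _
        rw [← hB]
        rfl
      have h2 := ratio_eq h1
      rw [hdet, div_one] at h2
      have h3 : (GeneralLinearGroup.map (algebraMap K L) B).1.trace ^ 2 /
          (GeneralLinearGroup.map (algebraMap K L) B).1.det =
          algebraMap K L (B.1.trace ^ 2 / B.1.det) := by
        rw [map_div₀, map_pow, Matrix.trace_fin_two, Matrix.trace_fin_two, Matrix.det_fin_two,
          Matrix.det_fin_two]
        simp [GeneralLinearGroup.map_apply]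
      have h4 : IsAlgebraic ℤ ((q g).1.trace ^ 2) := by
        rw [h2, h3]
        exact (halg (π g) B hB).algebraMap
      exact h4.of_pow two_pos)
  refine ⟨ψ', fun h => ?_⟩
  obtain ⟨g, rfl⟩ := hπ h
  rw [hψ', ← ProjGenLinGroup.mk_eq_one, hq, hψ]

/-- EMX. -/
theorem emx {K : Type u} [Field K] [CharZero K] {n : ℕ} (b : Fin n → ℕ)
    (hb : ∀ k, (Finset.univ.filter fun i => b i = k).card ≤ 2) {H : Type u} [Group H]
    [Group.FG H] (τ : H →* GL (Fin n) K) (γ : H →* PGL(Fin 2, K))
    (htri : ∀ g, (τ g).1.BlockTriangular b)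
    (hlift : ∀ i j, i < j → b i = b j → ∀ g, ∃ B : GL (Fin 2) K,
      B.1 = (τ g).1.submatrix ![i, j] ![i, j] ∧ ProjGenLinGroup.mk B = γ g)
    (halg : ∀ g (B : GL (Fin 2) K), ProjGenLinGroup.mk B = γ g →
      IsAlgebraic ℤ (B.1.trace ^ 2 / B.1.det)) :
    ∃ ψ : H →* (Fin n → GL (Fin 2) (AlgebraicClosure ℚ)) × PGL(Fin 2, AlgebraicClosure ℚ),
      ∀ h, ψ h = 1 ↔ γ h = 1 ∧
        ∀ i j, b i = b j → (τ h).1 i j = (1 : Matrix (Fin n) (Fin n) K) i j := by
  have h1 := emx_blk b hb τ htri fun i j hij hbij g => by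
    obtain ⟨B, hB, hB'⟩ := hlift i j hij hbij g
    rw [← hB]
    exact halg g B hB'
  choose ψ1 hψ1 using h1
  obtain ⟨ψ2, hψ2⟩ := emx_pgl γ halg
  refine ⟨(MonoidHom.pi ψ1).prod ψ2, fun h => ?_⟩
  rw [MonoidHom.prod_apply, Prod.mk_eq_one, hψ2, and_comm]
  refine and_congr_right fun _ => ⟨fun h2 i j hij => ?_, fun h2 => funext fun i => ?_⟩
  · exact (hψ1 j h).1 (congrFun h2 j) i j hij rfl
  · exact (hψ1 i h).2 fun j k hj hk => h2 j k (hj.trans hk.symm)

/-- EMX for subgroups. -/
theorem emx_sub {K : Type u} [Field K] [CharZero K] {n : ℕ} (b : Fin n → ℕ)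
    (hb : ∀ k, (Finset.univ.filter fun i => b i = k).card ≤ 2) {Γ : Type u} [Group Γ]
    (τ : Γ →* GL (Fin n) K) (γ : Γ →* PGL(Fin 2, K))
    (htri : ∀ g, (τ g).1.BlockTriangular b)
    (hlift : ∀ i j, i < j → b i = b j → ∀ g, ∃ B : GL (Fin 2) K,
      B.1 = (τ g).1.submatrix ![i, j] ![i, j] ∧ ProjGenLinGroup.mk B = γ g)
    (H : Subgroup Γ) (hfg : H.FG)
    (halg : ∀ g ∈ H, ∀ B : GL (Fin 2) K, ProjGenLinGroup.mk B = γ g →
      IsAlgebraic ℤ (B.1.trace ^ 2 / B.1.det)) :
    ∃ ψ : H →* (Fin n → GL (Fin 2) (AlgebraicClosure ℚ)) × PGL(Fin 2, AlgebraicClosure ℚ),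
      ∀ h, ψ h = 1 ↔ γ h.1 = 1 ∧
        ∀ i j, b i = b j → (τ h.1).1 i j = (1 : Matrix (Fin n) (Fin n) K) i j := by
  have : Group.FG H := (Group.fg_iff_subgroup_fg _).2 hfg
  exact emx b hb (τ.comp H.subtype) (γ.comp H.subtype) (fun g => htri g.1)
    (fun i j hij hbij g => hlift i j hij hbij g.1) fun g B hB => halg g.1 g.2 B hB

end Pool.Agent.NegK.RK
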