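import Pool.Agent.Lib.MP_28303a_al.RK.Tot

/-! # Examples of totally real fields -/

set_option autoImplicit false
set_option linter.unusedSectionVars false
set_option linter.unusedVariables false

namespace Pool.Agent.NegK.RK

universe u v w

theorem map_sumSq {R : Type u} {S : Type v} [CommRing R] [CommRing S] (f : R →+* S) {s : R}
    (hs : IsSumSq s) : IsSumSq (f s) := by
  induction hs with
  | zero => rw [map_zero]; exact .zero
  | sq_add a hs ih => rw [map_add, map_mul]; exact .sq_add _ ih

/-- Subfields of totally real fields are totally real. -/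
theorem TotReal.of_ringHom {F : Type u} {E : Type v} [Field F] [Field E] (f : F →+* E)
    (hE : TotReal E) : TotReal F := by
  have := hE.char
  refine ⟨(f.charZero_iff f.injective).2 hE.char, fun s hs hi z hz => ?_⟩
  refine hE.nonneg (f s) (map_sumSq f hs) (hi.map f.toIntAlgHom) z ?_
  have h := minpoly.algHom_eq f.toIntAlgHom f.injective s
  rw [show f s = f.toIntAlgHom s from rfl, h]
  exact hz

/-- Formally real fields whose only algebraic integers are the integers. -/
theorem tot_of_int' {E : Type u} [Field E] (hE : IsSemireal E)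
    (h : ∀ x : E, IsIntegral ℤ x → ∃ n : ℤ, (n : E) = x) : TotReal E := by
  refine ⟨inferInstance, fun s hs hi z hz => ?_⟩
  obtain ⟨n, rfl⟩ := h s hi
  have h2 := minpoly.eq_X_sub_C_of_algebraMap_inj (A := ℤ) (B := E) n
    (RingHom.injective_int (algebraMap ℤ E))
  rw [show (algebraMap ℤ E) n = (n : E) by simp] at h2
  rw [h2] at hz
  have h3 : z = (n : ℂ) := by
    simp only [map_sub, Polynomial.aeval_X, Polynomial.aeval_C] at hz
    simpa [sub_eq_zero] using hz
  refine ⟨n, ?_, by rw [h3]; push_cast; rfl⟩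
  by_contra hn
  have hn' : n < 0 := by
    have : (n : ℝ) < 0 := not_le.1 hn
    exact_mod_cast this
  obtain ⟨m, hm⟩ : ∃ m : ℕ, -n = m + 1 := ⟨(-n - 1).toNat, by omega⟩
  refine IsSemireal.one_add_ne_zero (R := E) (s := (m : E) + n) (IsSumSq.add (by simp) hs) ?_
  have h4 : ((-n : ℤ) : E) = m + 1 := by rw [hm]; push_cast; rfl
  push_cast at h4
  linear_combination -h4

theorem tot_of_int {E : Type u} [Field E] (hE : IsSemireal E) (h : IsIntegrallyClosedIn ℤ E) :
    TotReal E :=
  tot_of_int' hE fun x hx => by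
    obtain ⟨n, hn⟩ := IsIntegrallyClosedIn.algebraMap_eq_of_integral hx
    exact ⟨n, by rw [← hn]; simp⟩

theorem tot_rat : TotReal ℚ :=
  tot_of_int' inferInstance fun x hx => by
    obtain ⟨n, hn⟩ := IsIntegrallyClosed.algebraMap_eq_of_integral (R := ℤ) (K := ℚ) hx
    exact ⟨n, by rw [← hn]; simp⟩

/-- Conjugates come from embeddings. -/
theorem exists_hom {k : Type u} [Field k] [CharZero k] [Algebra.IsAlgebraic ℚ k] (a : k)
    (ha : IsIntegral ℤ a) (z : ℂ) (hz : Polynomial.aeval z (minpoly ℤ a) = 0) :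
    ∃ φ : k →+* ℂ, φ a = z := by
  have h1 : minpoly ℚ a = (minpoly ℤ a).map (algebraMap ℤ ℚ) :=
    minpoly.isIntegrallyClosed_eq_field_fractions' ℚ ha
  have h2 : z ∈ (minpoly ℚ a).rootSet ℂ := by
    rw [Polynomial.mem_rootSet]
    refine ⟨minpoly.ne_zero ha.tower_top, ?_⟩
    rw [h1, Polynomial.aeval_map_algebraMap]
    exact hz
  rw [← Algebra.IsAlgebraic.range_eval_eq_rootSet_minpoly ℂ a] at h2
  obtain ⟨ψ, hψ⟩ := h2
  exact ⟨ψ, hψ⟩

theorem nonneg_of_sumSq {k : Type u} [Field k] (φ : k →+* ℂ) (h : ∀ x, ∃ r : ℝ, φ x = r) {s : k}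
    (hs : IsSumSq s) : ∃ r : ℝ, 0 ≤ r ∧ φ s = r := by
  induction hs with
  | zero => exact ⟨0, le_rfl, by simp⟩
  | sq_add a hs ih =>
    obtain ⟨r, hr, e⟩ := ih
    obtain ⟨t, ht⟩ := h a
    refine ⟨t * t + r, add_nonneg (mul_self_nonneg t) hr, ?_⟩
    rw [map_add, map_mul, e, ht]
    push_cast
    rfl

/-- Algebraic extensions of the rationals all of whose complex embeddings are real. -/
theorem tot_alg {k : Type u} [Field k] [CharZero k] [Algebra.IsAlgebraic ℚ k]
    (hk : ∀ (φ : k →+* ℂ) (x : k), ∃ r : ℝ, φ x = r) : TotReal k := by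
  refine ⟨inferInstance, fun s hs hi z hz => ?_⟩
  obtain ⟨φ, rfl⟩ := exists_hom s hi z hz
  exact nonneg_of_sumSq φ (hk φ) hs

/-- Totally real number fields. -/
theorem tot_numberField {k : Type u} [Field k] [NumberField k] [NumberField.IsTotallyReal k] :
    TotReal k :=
  tot_alg fun φ x => by
    have h := NumberField.IsTotallyReal.complexEmbedding_isReal φ
    exact ⟨h.embedding x, (h.coe_embedding_apply x).symm⟩

/-- A polynomial integral over `ℤ` is constant. -/
theorem exists_C {k : Type u} {σ : Type v} [Field k] [Infinite k] (p : MvPolynomial σ k)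
    (hp : IsIntegral ℤ p) : ∃ a, p = MvPolynomial.C a := by
  classical
  obtain ⟨f, hf, h0⟩ := hp
  have hg : f.map (Int.castRingHom k) ≠ 0 := (hf.map _).ne_zero
  have h1 : ∏ r ∈ (f.map (Int.castRingHom k)).roots.toFinset, (p - MvPolynomial.C r) = 0 := by
    refine MvPolynomial.funext fun x => ?_
    rw [map_prod, map_zero]
    refine Finset.prod_eq_zero (i := MvPolynomial.eval x p) ?_ (by simp)
    rw [Multiset.mem_toFinset, Polynomial.mem_roots hg, Polynomial.IsRoot.def, Polynomial.eval_map]
    have := congrArg (MvPolynomial.eval x) h0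
    rw [Polynomial.hom_eval₂, map_zero] at this
    rwa [Subsingleton.elim (Int.castRingHom k)
      ((MvPolynomial.eval x).comp (algebraMap ℤ (MvPolynomial σ k)))]
  obtain ⟨r, _, hr⟩ := Finset.prod_eq_zero_iff.1 h1
  exact ⟨r, sub_eq_zero.1 hr⟩

/-- Clearing denominators in a sum of squares. -/
theorem sumSq_clear {R : Type u} {E : Type v} [CommRing R] [IsDomain R] [Field E] [Algebra R E]
    [IsFractionRing R E] {s : E} (hs : IsSumSq s) :
    ∃ q p : R, q ≠ 0 ∧ IsSumSq p ∧ algebraMap R E p = s * algebraMap R E q ^ 2 := by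
  induction hs with
  | zero => exact ⟨1, 0, one_ne_zero, .zero, by simp⟩
  | sq_add a hs ih =>
    obtain ⟨q, p, hq, hp, e⟩ := ih
    obtain ⟨c, d, hd, rfl⟩ := IsFractionRing.div_surjective (A := R) a
    have hd0 : d ≠ 0 := nonZeroDivisors.ne_zero hd
    have hd1 : algebraMap R E d ≠ 0 := by
      rwa [Ne, map_eq_zero_iff _ (IsFractionRing.injective R E)]
    refine ⟨q * d, (c * q) * (c * q) + (d * d) * p, mul_ne_zero hq hd0,
      (IsSumSq.mul_self _).add ((IsSumSq.mul_self _).mul hp), ?_⟩
    simp only [map_add, map_mul]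
    rw [e]
    field_simp

/-- Rational function fields over totally real fields are totally real. -/
theorem TotReal.ratFunc {k : Type u} {σ : Type v} {E : Type w} [Field k] [Field E]
    [Algebra (MvPolynomial σ k) E] [IsFractionRing (MvPolynomial σ k) E] (hk : TotReal k) :
    TotReal E := by
  have := hk.char
  have hinj := IsFractionRing.injective (MvPolynomial σ k) E
  have hc : CharZero E := (RingHom.charZero_iff
    (((algebraMap (MvPolynomial σ k) E).comp MvPolynomial.C).injective)).1 hk.char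
  refine ⟨hc, fun s hs hi z hz => ?_⟩
  have h1 : IsIntegral (MvPolynomial σ k) s := hi.tower_top
  obtain ⟨p, rfl⟩ := IsIntegrallyClosed.isIntegral_iff.1 h1
  have h2 : IsIntegral ℤ p := (isIntegral_algHom_iff
    ((algebraMap (MvPolynomial σ k) E).toIntAlgHom) hinj).1 hi
  obtain ⟨a, rfl⟩ := exists_C p h2
  have h3 : IsIntegral ℤ a := (isIntegral_algHom_iff
    ((MvPolynomial.C : k →+* MvPolynomial σ k).toIntAlgHom) (MvPolynomial.C_injective σ k)).1 h2
  obtain ⟨q, p', hq, hp', e⟩ := sumSq_clear (R := MvPolynomial σ k) hs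
  have e1 : p' = MvPolynomial.C a * q ^ 2 := hinj (by rw [e, map_mul, map_pow])
  obtain ⟨x, hx⟩ : ∃ x : σ → k, MvPolynomial.eval x q ≠ 0 := by
    by_contra h
    push Not at h
    exact hq (MvPolynomial.funext fun x => by rw [h x, map_zero])
  have h4 : IsSumSq a := by
    have h5 : IsSumSq (MvPolynomial.eval x p') := map_sumSq _ hp'
    rw [e1, map_mul, map_pow, MvPolynomial.eval_C] at h5
    have h6 : a = (a * MvPolynomial.eval x q ^ 2) *
        ((MvPolynomial.eval x q)⁻¹ * (MvPolynomial.eval x q)⁻¹) := by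
      field_simp
    rw [h6]
    exact h5.mul (IsSumSq.mul_self _)
  refine hk.nonneg a h4 h3 z ?_
  have h7 := minpoly.algHom_eq
    ((algebraMap (MvPolynomial σ k) E).comp MvPolynomial.C).toIntAlgHom
    (((algebraMap (MvPolynomial σ k) E).comp MvPolynomial.C).injective) a
  rw [← h7]
  exact hz

/-- Rational functions over a field, algebraic over the rationals, with only real embeddings. -/
theorem tot_ratFunc {k : Type u} {σ : Type v} [Field k] [CharZero k] [Algebra.IsAlgebraic ℚ k]
    (hk : ∀ (φ : k →+* ℂ) (x : k), ∃ r : ℝ, φ x = r) :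
    TotReal (FractionRing (MvPolynomial σ k)) :=
  TotReal.ratFunc (σ := σ) (tot_alg hk)

/-- `ℚ(x_j : j ∈ σ)`. -/
theorem tot_ratFunc_rat (σ : Type v) : TotReal (FractionRing (MvPolynomial σ ℚ)) :=
  TotReal.ratFunc (σ := σ) tot_rat

end Pool.Agent.NegK.RK
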