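import Pool.Agent.Lib.MP_28303a_al.PL.Fvf
import Pool.Agent.Lib.MP_28303a_al.RK.Tfk

/-! # Subgroups of finite index that act on a tree with virtually poly-Z stabilizers -/

set_option autoImplicit false
set_option linter.unusedSectionVars false
set_option linter.unusedVariables false

namespace Pool.Agent.NegK.RK

universe u

open CategoryTheory Pool.Agent.NegK.TT Pool.Agent.NegK.TW Pool.Agent.NegK.PL

namespace Fvp

theorem tf_range {B Q : Type u} [Group B] [Group Q] (f : B →* Q) (htf : TorsionFree Q) :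
    TorsionFree f.range :=
  fun g m hm hg => Subtype.ext (htf g.1 m hm (congrArg Subtype.val hg))

/-- The index of the pull-back of a subgroup of a stabilizer. -/
theorem ri {Q V : Type u} [Group Q] (S : Subgroup Q) [MulAction S V] (v : V)
    (F : Subgroup (MulAction.stabilizer S v)) (hF : F.FiniteIndex) (K : Subgroup Q)
    (hK : K ≤ (MulAction.stabilizer S v).map S.subtype) :
    ((F.map (MulAction.stabilizer S v).subtype).map S.subtype).relIndex K ≠ 0 := by
  intro h
  have h1 := Subgroup.relIndex_eq_zero_of_le_right hK h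
  rw [Subgroup.relIndex_map_map_of_injective _ _ S.subtype_injective] at h1
  rw [Subgroup.relIndex, Subgroup.subgroupOf,
    Subgroup.comap_map_eq_self_of_injective (Subgroup.subtype_injective _)] at h1
  exact hF.index_ne_zero h1

end Fvp

open Fvp

/-- The bound of the projective dimensions over the stabilizers of partial sections. -/
theorem pd_fvp {R G Q V M : Type u} [Ring R] [Group G] [Group Q] (q : G →* Q)
    (htf : TorsionFree Q) (S₁ : Subgroup Q) (hfi : S₁.FiniteIndex) [MulAction S₁ V] (n : ℕ)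
    (hst : ∀ v : V, ∃ F : Subgroup (MulAction.stabilizer S₁ v), F.FiniteIndex ∧ PZ n F)
    [AddCommGroup M] [Module (MonoidAlgebra R G) M] (d : ℕ)
    (hd : PdLe (MonoidAlgebra R (S₁.comap q)) d (Res R (S₁.comap q) M))
    (B B' : Subgroup G) (hB' : B'.FiniteIndex) (g : G) (v : V)
    (hB : ∀ b ∈ B, b ∈ B' → ∃ k : S₁, (k : Q) = (q g)⁻¹ * q b * q g ∧ k • v = v) :
    PdLe (MonoidAlgebra R B) (d + n) (Res R B M) := by
  obtain ⟨F, hF, hPZ⟩ := hst v
  let q' : B →* (q.comp B.subtype).range := (q.comp B.subtype).rangeRestrict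
  have hq' : Function.Surjective q' := MonoidHom.rangeRestrict_surjective _
  have hq'v : ∀ b : B, ((q' b : (q.comp B.subtype).range) : Q) = q b.1 := fun b => rfl
  let f : (q.comp B.subtype).range →* Q :=
    ((MulAut.conj (q g)⁻¹).toMonoidHom).comp (q.comp B.subtype).range.subtype
  have hfv : ∀ x, f x = (q g)⁻¹ * x.1 * q g := fun x => by
    show (q g)⁻¹ * x.1 * (q g)⁻¹⁻¹ = _
    rw [inv_inv]
  have hfinj : Function.Injective f := fun x y hxy => by
    rw [hfv, hfv] at hxy
    exact Subtype.ext (mul_left_cancel (mul_right_cancel hxy))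
  let F' : Subgroup Q := (F.map (MulAction.stabilizer S₁ v).subtype).map S₁.subtype
  let Z₁ : Subgroup (q.comp B.subtype).range := (B'.subgroupOf B).map q'
  have hZ₁ : Z₁.index ≠ 0 := by
    intro h0
    have h1 := Subgroup.index_map_dvd (B'.subgroupOf B) (f := q') hq'
    have h2 : ((B'.subgroupOf B).map q').index = 0 := h0
    rw [h2, zero_dvd_iff] at h1
    have h3 : (B'.subgroupOf B).FiniteIndex := inferInstance
    exact h3.index_ne_zero h1
  have hle : Z₁.map f ≤ (MulAction.stabilizer S₁ v).map S₁.subtype := by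
    rintro _ ⟨_, ⟨b, hb, rfl⟩, rfl⟩
    obtain ⟨k, hk1, hk2⟩ := hB b.1 b.2 hb
    refine ⟨k, hk2, ?_⟩
    rw [hfv]
    exact hk1
  have hZ₂ : (F'.comap f).index ≠ 0 := by
    have h1 : (F'.comap f).relIndex Z₁ ≠ 0 := by
      rw [Subgroup.relIndex_comap]
      exact ri S₁ v F hF _ hle
    have h2 := Subgroup.relIndex_ne_zero_trans h1
      (show Z₁.relIndex ⊤ ≠ 0 by rwa [Subgroup.relIndex_top_right])
    rwa [Subgroup.relIndex_top_right] at h2
  have hfin₂ : (F'.comap f).FiniteIndex := ⟨hZ₂⟩
  have hfin₃ : (S₁.subgroupOf (q.comp B.subtype).range).FiniteIndex := inferInstance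
  let Y : Subgroup (q.comp B.subtype).range :=
    (F'.comap f ⊓ S₁.subgroupOf (q.comp B.subtype).range).normalCore
  have hYle : Y ≤ F'.comap f ⊓ S₁.subgroupOf (q.comp B.subtype).range :=
    Subgroup.normalCore_le _
  have hYn : Y.Normal := Subgroup.normalCore_normal _
  have hYf : Y.FiniteIndex := inferInstance
  have hPF : PZ n F' := by
    have e1 : F ≃* (F.map (MulAction.stabilizer S₁ v).subtype) :=
      F.equivMapOfInjective _ (Subgroup.subtype_injective _)
    have e2 : (F.map (MulAction.stabilizer S₁ v).subtype) ≃* F' :=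
      (F.map (MulAction.stabilizer S₁ v).subtype).equivMapOfInjective _ S₁.subtype_injective
    exact PZ.of_injective n (f := ((e1.trans e2).symm.toMonoidHom : F' →* F))
      (e1.trans e2).symm.injective hPZ
  have hPY : PZ n Y := by
    refine PZ.of_injective n (f := (⟨⟨fun y => ⟨f y.1, (hYle y.2).1⟩, ?_⟩, fun x y => ?_⟩ :
      Y →* F')) ?_ hPF
    · exact Subtype.ext (map_one f)
    · exact Subtype.ext (map_mul f x.1 y.1)
    · exact fun x y hxy => Subtype.ext (hfinj (congrArg Subtype.val hxy))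
  have hd' : PdLe (MonoidAlgebra R (Y.comap q')) d (Res R (Y.comap q') (Res R B M)) := by
    refine rs R B (Res R B M) d (Y.comap q') ((S₁.comap q).subgroupOf B) ?_
      (pd_sub (S₁.comap q) B d hd)
    intro x hx
    exact (hYle (show q' x ∈ Y from hx)).2
  exact ptfq (fil pdStat) R n B (q.comp B.subtype).range q' hq' (tf_range _ htf) Y
    (Y.comap q') hYn hYf (fun x => Iff.rfl) hPY (Res R B M) d hd'

theorem comap_finiteIndex {G Q : Type u} [Group G] [Group Q] (q : G →* Q) (S₁ : Subgroup Q)
    (hfi : S₁.FiniteIndex) : (S₁.comap q).FiniteIndex := by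
  refine ⟨?_⟩
  rw [Subgroup.index_comap]
  intro h
  have h1 : (S₁.subgroupOf q.range).FiniteIndex := inferInstance
  exact h1.index_ne_zero h

/-- FVP. Let `q : G → Q` be a homomorphism to a torsionfree group `Q`, and let a subgroup `S₁` of
finite index of `Q` act on a tree without inversions such that each stabilizer of a vertex has a
poly-Z subgroup of finite index (of length at most `n`). If `q⁻¹ S₁` is in `InRC`, then `G` is. -/
theorem fvp {G Q : Type u} [Group G] [Group Q] (q : G →* Q) (htf : TorsionFree Q)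
    (S₁ : Subgroup Q) (hfi : S₁.FiniteIndex) (V : Type u) [MulAction S₁ V]
    (T : SimpleGraph V) (hT : TreeAct S₁ T) (n : ℕ)
    (hst : ∀ v : V, ∃ F : Subgroup (MulAction.stabilizer S₁ v), F.FiniteIndex ∧ PZ n F)
    (h : InRC (S₁.comap q)) : InRC G := by
  let ql : S₁.comap q →* S₁ :=
    { toFun := fun x => ⟨q x.1, x.2⟩
      map_one' := Subtype.ext (map_one q)
      map_mul' := fun x y => Subtype.ext (map_mul q x.1 y.1) }
  let _i : MulAction (S₁.comap q) V := MulAction.compHom V ql
  have hT' : TreeAct (S₁.comap q) T :=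
    ⟨hT.tree, fun g v w h => hT.adj (ql g) v w h, fun g v w h => hT.noinv (ql g) v w h⟩
  obtain ⟨E, _, O, hO⟩ := TW.H19.tre' (S₁.comap q) V T hT'
  obtain ⟨b⟩ := hT.tree.connected.nonempty
  have hb : Nonempty V := ⟨b⟩
  have hfi' := comap_finiteIndex q S₁ hfi
  refine fnc_inRC (S₁.comap q) (n + 1) hfi' h fun R _ M _ _ d hd => ?_
  refine fli (S₁.comap q) hfi' O
    (TT.tc O b (TW.H12.subt (S₁.comap q) V E T O hT'.tree hO b)).conn (d + n) ?_
  rintro B B' hB' ⟨g, v, hB⟩
  refine pd_fvp q htf S₁ hfi n hst d hd B B' hB' g v fun b hb hb' => ?_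
  obtain ⟨k, hk1, hk2⟩ := hB b hb hb'
  refine ⟨ql k, ?_, hk2⟩
  show q k.1 = _
  rw [hk1, map_mul, map_mul, map_inv]

/-- FVP for groups with a kernel in `InN`. -/
theorem fvp' {G Q : Type u} [Group G] [Group Q] (q : G →* Q) (htf : TorsionFree Q)
    (hk : InN q.ker) (S₁ : Subgroup Q) (hfi : S₁.FiniteIndex) (V : Type u) [MulAction S₁ V]
    (T : SimpleGraph V) (hT : TreeAct S₁ T) (n : ℕ)
    (hst : ∀ v : V, ∃ F : Subgroup (MulAction.stabilizer S₁ v), F.FiniteIndex ∧ PZ n F) :
    InRC G := by
  refine fvp q htf S₁ hfi V T hT n hst ?_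
  let ql : S₁.comap q →* S₁ :=
    { toFun := fun x => ⟨q x.1, x.2⟩
      map_one' := Subtype.ext (map_one q)
      map_mul' := fun x y => Subtype.ext (map_mul q x.1 y.1) }
  let _i : MulAction (S₁.comap q) V := MulAction.compHom V ql
  have hT' : TreeAct (S₁.comap q) T :=
    ⟨hT.tree, fun g v w h => hT.adj (ql g) v w h, fun g v w h => hT.noinv (ql g) v w h⟩
  have hst' : ∀ v : V, InN (MulAction.stabilizer (S₁.comap q) v) := by
    intro v
    obtain ⟨F, hF, hPZ⟩ := hst v
    let r : MulAction.stabilizer (S₁.comap q) v →* MulAction.stabilizer S₁ v :=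
      { toFun := fun x => ⟨ql x.1, x.2⟩
        map_one' := Subtype.ext (map_one ql)
        map_mul' := fun x y => Subtype.ext (map_mul ql x.1 y.1) }
    have hrtf : TorsionFree (MulAction.stabilizer S₁ v) := fun g m hm hg =>
      Subtype.ext (Subtype.ext (htf g.1.1 m hm (congrArg (fun z => (z.1.1 : Q)) hg)))
    refine tfk _ (MulAction.stabilizer S₁ v) r hrtf ?_ (F.comap r) n
      (comap_finiteIndex r F hF) ?_ ?_
    · refine H66.inN_of_injective (⟨⟨fun x => ⟨x.1.1.1, ?_⟩, rfl⟩, fun _ _ => rfl⟩ :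
        r.ker →* q.ker) ?_ hk
      · exact congrArg (fun z => (z.1.1 : Q)) (show r x.1 = 1 from x.2)
      · exact fun x y hxy => Subtype.ext (Subtype.ext (Subtype.ext
          (congrArg (fun z : q.ker => (z : G)) hxy)))
    · intro x hx
      show r x ∈ F
      rw [show r x = 1 from hx]
      exact F.one_mem
    · exact PZ.of_injective n (Subgroup.inclusion (Subgroup.map_comap_le r F))
        (Subgroup.inclusion_injective _) hPZ
  refine H66.wald (S₁.comap q) V T hT' (fun v => inRC_of_inN (hst' v)) fun v w _ => ?_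
  exact H66.inN_of_injective (Subgroup.inclusion inf_le_left)
    (Subgroup.inclusion_injective _) (hst' v)

end Pool.Agent.NegK.RK
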