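import Pool.Agent.Lib.MP_28303a_al.RK.Gpx
import Pool.Agent.Lib.MP_28303a_al.RK.Arb

/-! # Generation for groups with homomorphisms to an arboreal group and to `PGL₂` and finitely many
characters

The theorem of `RK.Gpx` with an arboreal group in place of `GL₂(A)`. -/

set_option autoImplicit false
set_option linter.unusedSectionVars false
set_option linter.unusedVariables false

namespace Pool.Agent.NegK.RK

universe u

open Matrix WithZero
open scoped MatrixGroups commutatorElement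
open Pool.Agent.NegK.TW
open Pool.Agent.NegK.TT
open Pool.Agent.NegK.NT
open Pool.Agent.NegK.NT5
open Pool.Agent.NegK.P2
open H1 (TD)

/-- Finitely generated groups over finitely generated fields. -/
theorem fgxP (hI : ItStatement.{u}) (P : Type u) [Group P] (hP : Arb P) (L : Type u) [Field L] [CharZero L] (E : Set L)
    (hfin : E.Finite)
    (hL : ∀ x : L, ∃ a b : L, a ∈ Subring.closure E ∧ b ∈ Subring.closure E ∧ x = a / b)
    (m : ℕ) (v : Fin m → Valuation L (WithZero (Multiplicative ℤ)))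
    (hv : ∀ a ∈ Subring.closure E, (∀ i, v i a ≤ 1) → IsIntegral ℤ a)
    (Γ Δ : Type u) [Group Γ] [Group Δ] [Group.FG Δ] (p : Δ →* Γ) (hp : Function.Surjective p)
    (hpf : Finite p.ker) (φ : Δ →* P) (ψ : Δ →* GL (Fin 2) L)
    (hd : ∀ g, (ψ g).1.det = 1)
    (hB : ∀ g i j, (ψ g).1 i j ∈ Subring.closure E) {κ : Type} [Finite κ]
    (χ : κ → Δ →* GL (Fin 2) L) (hχ : ∀ a g i j, (χ a g).1 i j ∈ Subring.closure E)
    (hE : ∀ E0 : Subgroup Γ, (∀ g, p g ∈ E0 → ∃ n, 0 < n ∧ φ g ^ n = 1) →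
      (∀ g, p g ∈ E0 → IsIntegral ℤ (ψ g).1.trace) →
      (∀ (Gt : Type u) [Group Gt] (r : Gt →* Δ), (∀ x, p (r x) ∈ E0) →
        ∀ c ∈ commutator Gt, (ψ (r c)).1.trace = 2) →
      (∀ a g, p g ∈ E0 → IsIntegral ℤ (χ a g).1.det) → InRC E0)
    (k : Type u) [Ring k] (hk : RegularRing k) :
    ⨆ H : {H : Subgroup Γ // ∀ g, p g ∈ H → IsAlgebraic ℤ (ψ g).1.trace}, img k H.1 = ⊤ := by
  obtain ⟨ι, _, T, hTA⟩ := hP Δ φ
  obtain ⟨M, w, hw, hgeo⟩ := exists_geo L E hfin hL
  choose T1 hT1 using fun a => H1.exists_TD_gl L (v a)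
  choose T4 hT4 hT4' using fun a => exists_TD_glE L (w a)
  choose T5 hT5 using fun a : κ × Fin m => H1.exists_TD_line _ ((vdet (v a.2)).comp (χ a.1))
  choose D i hi he ha using fun a => exists_desc p hp hpf (T a)
  choose D1 i1 hi1 he1 ha1 using fun a => exists_desc p hp hpf ((T1 a).comp ψ)
  choose D4 i4 hi4 he4 ha4 using fun a => exists_desc p hp hpf ((T4 a).comp ψ)
  choose D5 i5 hi5 he5 ha5 using fun a => exists_desc p hp hpf (T5 a)
  have htr : ∀ g, Matrix.trace (ψ g).1 ∈ Subring.closure E := by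
    intro g
    rw [Matrix.trace_fin_two]
    exact Subring.add_mem _ (hB g 0 0) (hB g 1 1)
  have hdet : ∀ a g, Matrix.det (χ a g).1 ∈ Subring.closure E := by
    intro a g
    rw [Matrix.det_fin_two]
    exact Subring.sub_mem _ (Subring.mul_mem _ (hχ a g 0 0) (hχ a g 1 1))
      (Subring.mul_mem _ (hχ a g 0 1) (hχ a g 1 0))
  have main := it_fin hI Γ (((Fin m ⊕ Fin M) ⊕ ι) ⊕ κ × Fin m)
    (Sum.elim (Sum.elim (Sum.elim D1 D4) D) D5)
    (fun i => ∃ a, i = Sum.inl (Sum.inl (Sum.inr a))) ?_ k hk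
  · rw [eq_top_iff, ← main]
    refine iSup_le fun H => ?_
    refine le_trans ?_ (le_iSup (fun H : {H : Subgroup Γ // ∀ g, p g ∈ H →
      IsAlgebraic ℤ (ψ g).1.trace} => img k H.1) ⟨H.1, fun g hg => ?_⟩)
    · exact le_rfl
    · refine hgeo _ (htr g) fun a => ?_
      obtain ⟨x, hx⟩ := H.2 (Sum.inl (Sum.inl (Sum.inr a))) ⟨a, rfl⟩
      have h1 : (T4 a).Ell (ψ g) :=
        ⟨i4 a x, (he4 a g x).symm.trans (congrArg (i4 a) (hx (p g) hg))⟩
      have h2 := hT4 a (ψ g) h1
      rw [hd g, map_one] at h2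
      exact (pow_le_one_iff two_ne_zero).1 h2
  · rintro _ ⟨a, rfl⟩ H x y hxy hfix hell
    have htv : ∀ g, p g ∈ H → ∀ b, v b (Matrix.trace (ψ g).1) ≤ 1 := by
      intro g hg b
      obtain ⟨x, hx⟩ := hell (p g) hg (Sum.inl (Sum.inl (Sum.inl b)))
      have h1 : (T1 b).Ell (ψ g) := ⟨i1 b x, (he1 b g x).symm.trans (congrArg (i1 b) hx)⟩
      refine hT1 b (ψ g) h1 ?_
      rw [hd g, map_one]
    have hdv : ∀ g, p g ∈ H → ∀ (c : κ) b, v b (Matrix.det (χ c g).1) = 1 := by
      intro g hg c b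
      obtain ⟨x, hx⟩ := hell (p g) hg (Sum.inr (c, b))
      have h1 : (T5 (c, b)).Ell g :=
        ⟨i5 (c, b) x, (he5 (c, b) g x).symm.trans (congrArg (i5 (c, b)) hx)⟩
      exact vdet_eq_one (v b) (hT5 (c, b) g h1)
    have hfin : ∀ g, p g ∈ H → ∃ n, 0 < n ∧ φ g ^ n = 1 := by
      intro g hg
      refine hTA g fun b => ?_
      obtain ⟨x, hx⟩ := hell (p g) hg (Sum.inl (Sum.inr b))
      exact ⟨i b x, (he b g x).symm.trans (congrArg (i b) hx)⟩
    have hti : ∀ g, p g ∈ H → IsIntegral ℤ (Matrix.trace (ψ g).1) := fun g hg =>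
      hv _ (htr g) fun b => htv g hg b
    refine hE H hfin hti (fun Gt _ r hr c hc => ?_)
      fun c g hg => hv _ (hdet c g) fun b => (hdv g hg c b).le
    have h1 := hT4' a (i4 a x) (i4 a y) (ha4 a x y hxy) Gt (ψ.comp r) (fun s => ⟨?_, ?_, ?_⟩) c hc
    · by_contra h2
      have h3 := hw a _ ((hti (r c) (hr c)).sub (by
        exact (isIntegral_algebraMap (R := ℤ) (A := L) (x := (2 : ℤ))))) (sub_ne_zero.2 (by
          simpa using h2))
      have h4 : w a (Matrix.trace (ψ (r c)).1 - 2) < 1 := h1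
      have h5 : (algebraMap ℤ L) 2 = 2 := by simp
      rw [h5] at h3
      rw [h3] at h4
      exact lt_irrefl _ h4
    · exact (he4 a (r s) x).symm.trans (congrArg (i4 a) (hfix (p (r s)) (hr s)).1)
    · exact (he4 a (r s) y).symm.trans (congrArg (i4 a) (hfix (p (r s)) (hr s)).2)
    · show w a (ψ (r s)).1.det = 1
      rw [hd, map_one]

/-- Reduction to subgroups with algebraic traces. -/
theorem algxP (hI : ItStatement.{u}) (P : Type u) [Group P] (hP : Arb P) (K : Type u) [Field K] [CharZero K]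
    (Γ Δ : Type u) [Group Γ] [Group Δ] (p : Δ →* Γ) (hp : Function.Surjective p)
    (hpf : Finite p.ker) (φ : Δ →* P) (ψ : Δ →* GL (Fin 2) K)
    (hd : ∀ g, (ψ g).1.det = 1) {κ : Type} [Finite κ] (χ : κ → Δ →* GL (Fin 2) K)
    (hE : ∀ (G : Type u) [Group G] (f : G →* Γ), Function.Injective f →
      (∀ x g, p g = f x → ∃ n, 0 < n ∧ φ g ^ n = 1) →
      (∀ x g, p g = f x → IsIntegral ℤ (ψ g).1.trace) →
      (∀ (Gt : Type u) [Group Gt] (r : Gt →* Δ), (∀ x, ∃ y, p (r x) = f y) →
        ∀ c ∈ commutator Gt, (ψ (r c)).1.trace = 2) →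
      (∀ a x g, p g = f x → IsIntegral ℤ (χ a g).1.det) → InRC G)
    (k : Type u) [Ring k] (hk : RegularRing k) :
    ⨆ H : {H : Subgroup Γ // ∀ g, p g ∈ H → IsAlgebraic ℤ (ψ g).1.trace}, img k H.1 = ⊤ := by
  classical
  have := Fintype.ofFinite κ
  refine gen_loc Γ (fun H => ∀ g, p g ∈ H → IsAlgebraic ℤ (ψ g).1.trace) k fun S => ?_
  let H := Subgroup.closure (S : Set Γ)
  have hfgH : (H.comap p).FG := comap_fg p hp hpf H ⟨S, rfl⟩
  have hfg : Group.FG (H.comap p) := (Group.fg_iff_subgroup_fg _).2 hfgH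
  obtain ⟨S1, hS1⟩ := hfgH
  -- all representations together
  let ψ' : Option κ → Δ →* GL (Fin 2) K := fun a => a.elim ψ χ
  choose E0 hE0 using fun a => entries (ψ' a) S1
  let E : Finset K := Finset.univ.biUnion E0
  have hent : ∀ a (g : H.comap p) i j, (ψ' a g.1).1 i j ∈ Subring.closure (E : Set K) := by
    intro a g i j
    have hg : g.1 ∈ Subgroup.closure (S1 : Set Δ) := by
      rw [hS1]
      exact g.2
    refine Subring.closure_mono ?_ (hE0 a g.1 hg i j)
    intro x hx
    exact Finset.mem_coe.2 (Finset.mem_biUnion.2 ⟨a, Finset.mem_univ a, hx⟩)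
  obtain ⟨L, _, _, ι, F, m, v, ψ0, hFf, hFL, hFv, hFB, hψ0⟩ :=
    exists_fields (fun a => (ψ' a).comp (H.comap p).subtype) E hent
  have hmap : ∀ a (g : H.comap p) i j, ι ((ψ0 a g).1 i j) = (ψ' a g.1).1 i j := fun a g i j => by
    have h1 : GeneralLinearGroup.map ι (ψ0 a g) = ψ' a g.1 := hψ0 a g
    rw [← h1]
    rfl
  have htr : ∀ a (g : H.comap p), ι (ψ0 a g).1.trace = (ψ' a g.1).1.trace := fun a g => by
    rw [Matrix.trace_fin_two, Matrix.trace_fin_two, map_add, hmap, hmap]
  have hdt : ∀ a (g : H.comap p), ι (ψ0 a g).1.det = (ψ' a g.1).1.det := fun a g => by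
    rw [Matrix.det_fin_two, Matrix.det_fin_two, map_sub, map_mul, map_mul, hmap, hmap, hmap, hmap]
  have hk1 : Finite (p.subgroupComap H).ker := by
    refine Finite.of_injective (β := p.ker) (fun g => ⟨g.1.1, congrArg Subtype.val g.2⟩) ?_
    intro a b hab
    have h1 : a.1.1 = b.1.1 := congrArg (fun x : p.ker => (x : Δ)) hab
    exact Subtype.ext (Subtype.ext h1)
  have main := fgxP hI P hP L F hFf hFL m v hFv H (H.comap p) (p.subgroupComap H)
    (MonoidHom.subgroupComap_surjective_of_surjective p H hp) hk1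
    (φ.comp (H.comap p).subtype) (ψ0 none) (fun g => ?_) (hFB none) (fun a => ψ0 (some a))
    (fun a => hFB (some a)) (fun G h1 h2 h3 h4 => ?_) k hk
  · rw [eq_top_iff, ← main]
    refine iSup_le fun V => ?_
    refine le_trans ?_ (le_iSup (fun V : {V : Subgroup H // ∀ g, p g ∈ V.map H.subtype →
      IsAlgebraic ℤ (ψ g).1.trace} => img k V.1) ⟨V.1, ?_⟩)
    · exact le_rfl
    · rintro g ⟨x, hx, hxg⟩
      have hm : p g ∈ H := by
        rw [← hxg]
        exact x.2
      have h1 := V.2 ⟨g, hm⟩ (by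
        have h2 : (p.subgroupComap H) ⟨g, hm⟩ = x := Subtype.ext hxg.symm
        rw [h2]
        exact hx)
      have h2 := isAlg_map ι h1
      rw [htr] at h2
      exact h2
  · apply ι.injective
    rw [hdt, map_one]
    exact hd g.1
  · -- the edges
    have hmem : ∀ (x : G) (g : Δ), p g = (x.1 : Γ) → ∃ hg : p g ∈ H,
        (p.subgroupComap H) ⟨g, hg⟩ ∈ G := by
      intro x g hg
      have h5 : p g ∈ H := by
        rw [hg]
        exact x.1.2
      refine ⟨h5, ?_⟩
      have h6 : (p.subgroupComap H) ⟨g, h5⟩ = x.1 := Subtype.ext hg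
      rw [h6]
      exact x.2
    refine hE G (H.subtype.comp G.subtype) (Subtype.val_injective.comp Subtype.val_injective)
      (fun x g hg => ?_) (fun x g hg => ?_) (fun Gt _ r hr c hc => ?_) fun a x g hg => ?_
    · obtain ⟨h5, h6⟩ := hmem x g hg
      exact h1 ⟨g, h5⟩ h6
    · obtain ⟨h5, h6⟩ := hmem x g hg
      have h7 := map_isIntegral_int ι (h2 ⟨g, h5⟩ h6)
      rw [htr] at h7
      exact h7
    · have hr1 : ∀ x, r x ∈ H.comap p := by
        intro x
        obtain ⟨y, hy⟩ := hr x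
        exact (hmem y (r x) hy).1
      have h7 := h3 Gt (r.codRestrict (H.comap p) hr1) (fun x => by
        obtain ⟨y, hy⟩ := hr x
        exact (hmem y (r x) hy).2) c hc
      have h8 := congrArg ι h7
      rw [htr, map_ofNat] at h8
      exact h8
    · obtain ⟨h5, h6⟩ := hmem x g hg
      have h7 := map_isIntegral_int ι (h4 a ⟨g, h5⟩ h6)
      rw [hdt] at h7
      exact h7

/-- GPX0. Let `Γ` be a group with homomorphisms `φ` to `GL₂(A)`, `A` of positive characteristic, and
`γ` to `PGL₂(K)`, `K` of characteristic `0`, and finitely many characters `χⱼ` with values in `K`.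
If the subgroups of the edges are in the class `InRC` then `K₀(k[Γ])` is generated by the images of
the `K₀(k[H])`, `H` finitely generated such that the elements `tr² / det` are algebraic. -/
theorem gpxP (P : Type u) [Group P] (hP : Arb P) (K : Type u)
    [Field K] [CharZero K] (Γ : Type u) [Group Γ] (φ : Γ →* P)
    (γ : Γ →* PGL(Fin 2, K)) {κ : Type} [Finite κ] (χ : κ → Γ →* Kˣ)
    (hE : ∀ (G : Type u) [Group G] (f : G →* Γ), Function.Injective f →
      (∀ g, ∃ n, 0 < n ∧ φ (f g) ^ n = 1) →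
      (∀ (g : G) (B : GL (Fin 2) K), ProjGenLinGroup.mk B = γ (f g) →
        IsIntegral ℤ (B.1.trace ^ 2 / B.1.det)) →
      (∀ (Gt : Type u) [Group Gt] (q : Gt →* G) (B : Gt →* GL (Fin 2) K),
        (∀ x, ProjGenLinGroup.mk (B x) = γ (f (q x))) →
        ∀ c ∈ commutator Gt, (B c).1.trace = 2) →
      (∀ j g, IsIntegral ℤ ((χ j (f g) : Kˣ) : K)) → InRC G)
    (k : Type u) [Ring k] (hk : RegularRing k) :
    ⨆ H : {H : Subgroup Γ // H.FG ∧ AlgP γ H}, img k H.1 = ⊤ := by
  classical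
  let L := AlgebraicClosure K
  let i : K →+* L := algebraMap K L
  have hcz : CharZero L := charZero_of_injective_algebraMap i.injective
  let γ' : Γ →* PGL(Fin 2, L) := (ProjGenLinGroup.map i).comp γ
  obtain ⟨Δ, _, p, q, z, hp, hdet, hq, hz, hz', hker', hfin, hfgΔ⟩ := exists_lift γ'
  -- the characters
  let dg : Kˣ →* GL (Fin 2) L := MonoidHom.toHomUnits
    { toFun := fun x => Matrix.diagonal ![i x, 1]
      map_one' := by
        ext a b
        fin_cases a <;> fin_cases b <;> simp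
      map_mul' := fun x y => by
        ext a b
        fin_cases a <;> fin_cases b <;> simp }
  have hdg : ∀ x, (dg x).1.det = i x := fun x => by
    show (Matrix.diagonal ![i x, 1]).det = _
    rw [Matrix.det_fin_two]
    simp
  -- lifts of elements
  have htr2 : ∀ (g : Γ) (δ : Δ) (B : GL (Fin 2) K), p δ = g → ProjGenLinGroup.mk B = γ g →
      i (B.1.trace ^ 2 / B.1.det) = (q δ).1.trace ^ 2 := fun g δ B hδ hB =>
    tr_sq i B (q δ) (hdet δ) (by
      rw [hq, ← ProjGenLinGroup.map_mk, hB, hδ]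
      rfl)
  have main := algxP ER71.itAll P hP L Γ Δ p hp hfin (φ.comp p) q hdet
    (fun j => dg.comp ((χ j).comp p)) (fun G _ f hf h1 h2 h3 h4 => ?_) k hk
  · rw [eq_top_iff, ← main]
    refine iSup_le fun H => ?_
    refine ER71.img_gen (fun G : {G : Subgroup H.1 // G.FG} => G.1) k (fg_gen H.1 k) _
      fun G => ?_
    have hfg0 : (G.1.map H.1.subtype : Subgroup Γ).FG := by
      obtain ⟨S, hS⟩ := G.2
      exact ⟨S.image H.1.subtype, by rw [Finset.coe_image, ← MonoidHom.map_closure, hS]⟩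
    refine le_iSup (fun H : {H : Subgroup Γ // H.FG ∧ AlgP γ H} => img k H.1)
        ⟨G.1.map H.1.subtype, hfg0, ?_⟩
    rintro _ ⟨g, _, rfl⟩ B hB
    obtain ⟨δ, hδ⟩ := hp g.1
    have h5 := (H.2 δ (by
      rw [hδ]
      exact g.2)).pow 2
    rw [← htr2 g.1 δ B hδ hB] at h5
    exact (alg_iff i _).1 h5
  · -- the edges
    refine hE G f hf (fun g => ?_) (fun g B hB => ?_) (fun Gt _ r B hB c hc => ?_) fun j g => ?_
    · obtain ⟨δ, hδ⟩ := hp (f g)
      obtain ⟨n, hn, h5⟩ := h1 g δ hδ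
      refine ⟨n, hn, ?_⟩
      rw [← hδ]
      exact h5
    · obtain ⟨δ, hδ⟩ := hp (f g)
      have h5 := (h2 g δ hδ).pow 2
      rw [← htr2 (f g) δ B hδ hB] at h5
      exact (isIntegral_algHom_iff (i.toIntAlgHom) i.injective).1 h5
    · obtain ⟨d, hd, hBd⟩ := comm_eq γ' ((GeneralLinearGroup.map i).comp B) (f.comp r)
        (fun x => by
          show ProjGenLinGroup.mk (GeneralLinearGroup.map i (B x)) = γ' (f (r x))
          rw [← ProjGenLinGroup.map_mk, hB]
          rfl) p hp q hq c hc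
      have h5 := h3 ((f.comp r).range.comap p) (Subgroup.subtype _) (fun x => by
        obtain ⟨y, hy⟩ := x.2
        exact ⟨r y, hy.symm⟩)
      obtain ⟨d', hd', rfl⟩ : ∃ d' ∈ commutator ((f.comp r).range.comap p),
          (Subgroup.subtype _) d' = d := by
        have h6 : (commutator ((f.comp r).range.comap p)).map (Subgroup.subtype _) =
            ⁅(f.comp r).range.comap p, (f.comp r).range.comap p⁆ := by
          rw [commutator_def, Subgroup.map_commutator, ← MonoidHom.range_eq_map,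
            Subgroup.range_subtype]
        rw [← h6] at hd
        exact hd
      have h7 := h5 d' hd'
      apply i.injective
      rw [map_ofNat, ← h7, ← hBd, Matrix.trace_fin_two, Matrix.trace_fin_two, map_add]
      rfl
    · obtain ⟨δ, hδ⟩ := hp (f g)
      have h5 := h4 j g δ hδ
      have h6 : ((dg.comp ((χ j).comp p)) δ).1.det = i ((χ j (f g) : Kˣ) : K) := by
        rw [← hδ]
        exact hdg _
      rw [h6] at h5
      exact (isIntegral_algHom_iff (i.toIntAlgHom) i.injective).1 h5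

end Pool.Agent.NegK.RK
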