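import Pool.Agent.Lib.MP_28303a_al.RK.RgDefs

/-! # Groups with homomorphisms to automorphisms of the affine plane, to block triangular matrices
in positive characteristic and to block triangular matrices of rank one over a rigid field -/

set_option autoImplicit false
set_option linter.unusedSectionVars false
set_option linter.unusedVariables false

namespace Pool.Agent.NegK.RK

universe u

open Matrix
open Pool.Agent.NegK.TW Pool.Agent.NegK.TT Pool.Agent.NegK.NT Pool.Agent.NegK.AP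
open H1 (TD)

theorem blk_comp {K : Type u} [Field K] {n : ℕ} {b : Fin n → ℕ} {H : Type u} [Group H]
    {τ : H →* GL (Fin n) K} {ψ : Fin n → H →* GL (Fin 2) K} (hB : Blk b τ ψ) {G : Type u}
    [Group G] (f : G →* H) : Blk b (τ.comp f) fun k => (ψ k).comp f :=
  ⟨fun g => hB.tri (f g), hB.card, fun i hi g => hB.single i hi (f g),
    fun i j hij hb g => hB.left i j hij hb (f g), fun i j hij hb g => hB.right i j hij hb (f g),
    fun i j i' j' hij hb hij' hb' g => hB.prop i j i' j' hij hb hij' hb' (f g)⟩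

/-- Finitely many trees. -/
theorem inL_fin (Γ : Type u) [Group Γ] (ι : Type) [Finite ι] (T : ι → TD Γ)
    (hS : ∀ H : Subgroup Γ, (∀ g ∈ H, ∀ a, (T a).Ell g) → InRC H) : H19.InL Γ := by
  have := Fintype.ofFinite ι
  let e := Fintype.equivFin ι
  let Y : Trees Γ := ⟨Fintype.card ι, fun j => (T (e.symm j)).V, fun j => (T (e.symm j)).act,
    fun j => (T (e.symm j)).G, fun j => (T (e.symm j)).tree⟩
  refine trees_inL Y fun v => hS _ fun g hg a => ?_
  have h1 : ∀ j, g • v j = v j := fun j => (Subgroup.mem_iInf.1 hg) j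
  have h2 : (T (e.symm (e a))).Ell g := ⟨v (e a), h1 (e a)⟩
  rwa [e.symm_apply_apply] at h2

/-- The trees of all blocks. -/
theorem trees_blk {K : Type u} [Field K] (hK : H70.Rig K) (Γ : Type u) [Group Γ] [Group.FG Γ]
    {n : ℕ} (ψ : Fin n → Γ →* GL (Fin 2) K) :
    ∃ (ι : Type) (_ : Finite ι) (T : ι → TD Γ), ∀ H : Subgroup Γ,
      (∀ g ∈ H, ∀ a, (T a).Ell g) → ∀ g ∈ H, ∀ k, (∃ z : ℤ, (ψ k g).1.trace = (z : K)) ∧
        ((ψ k g).1.det = 1 ∨ (ψ k g).1.det = -1) := by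
  have := hK.char
  choose ι hι T hT using fun k => trees_K K hK.int Γ (ψ k)
  refine ⟨Σ k, ι k, inferInstance, fun a => T a.1 a.2, fun H hH g hg k => ?_⟩
  exact hT k H (fun g hg a => hH g hg ⟨k, a⟩) g hg

section

variable (hM : MixTStatement.{u}) {A : Type u} [CommRing A] {N : ℕ} (hN : 0 < N)
  (hA : (N : A) = 0) {K : Type u} [Field K] (hK : H70.Rig K) {n : ℕ} {b : Fin n → ℕ}

include hM hN hA hK in
/-- Matrices. -/
theorem gl2T {H : Type u} [Group H] (φ : H →* GL (Fin 2) A) (τ : H →* GL (Fin n) K)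
    (ψ : Fin n → H →* GL (Fin 2) K) (hB : Blk b τ ψ)
    (htf : ∀ (h : H) (m : ℕ), 0 < m → φ h ^ m = 1 → τ h ^ m = 1 → φ h = 1 ∧ τ h = 1)
    (hker : KN H fun h => φ h = 1 ∧ τ h = 1) : H19.InL H := by
  refine ((TT.main.{u}).2.2.2.1 H).2.2.2.2.1 fun S => ⟨Subgroup.closure (S : Set H),
    fun s hs => Subgroup.subset_closure hs, ?_⟩
  let ic : Subgroup.closure (S : Set H) →* H := Subgroup.subtype _
  have hic : Function.Injective ic := Subtype.val_injective
  obtain ⟨ι1, _, T1, k1⟩ := NT5.gl2_trees' A N hN hA _ (φ.comp ic)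
  obtain ⟨ι2, _, T2, k2⟩ := trees_blk hK _ fun k => (ψ k).comp ic
  refine inL_fin _ (ι1 ⊕ ι2) (Sum.elim T1 T2) fun U hU => ?_
  have hφ : ∀ h : U, ∃ m, 0 < m ∧ φ h.1.1 ^ m = 1 := fun h =>
    k1 h.1 fun i => hU h.1 h.2 (Sum.inl i)
  have hψ := k2 U fun g hg i => hU g hg (Sum.inr i)
  have key : ∀ (h : U) (m : ℕ), 0 < m → τ h.1.1 ^ m = 1 → φ h.1.1 = 1 ∧ τ h.1.1 = 1 := by
    intro h m hm h1
    obtain ⟨t, ht, h2⟩ := hφ h
    refine htf h.1.1 (m * t) (Nat.mul_pos hm ht) ?_ ?_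
    · rw [mul_comm, pow_mul, h2, one_pow]
    · rw [pow_mul, h1, one_pow]
  refine hM K hK n b U PUnit.{u + 1} 1 (τ.comp (ic.comp U.subtype))
    (fun k => (ψ k).comp (ic.comp U.subtype)) (blk_comp hB _) (fun k h => (hψ h.1 h.2 k).1)
    (fun k h => (hψ h.1 h.2 k).2) (fun h m hm _ h2 => ⟨rfl, (key h m hm h2).2⟩)
    fun G _ f hf h => ?_
  exact hker G ((ic.comp U.subtype).comp f) ((hic.comp Subtype.val_injective).comp hf) fun x =>
    key (f x) 1 one_pos (by rw [pow_one]; exact (h x).2)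

end

section

variable (hM : MixTStatement.{u}) {F : Type u} [Field F] {p : ℕ} (hp : 0 < p) (hpF : (p : F) = 0)
  {A : Type u} [CommRing A] {N : ℕ} (hN : 0 < N) (hA : (N : A) = 0)
  {K : Type u} [Field K] (hK : H70.Rig K) {n : ℕ} {b : Fin n → ℕ} {Γ : Type u} [Group Γ]
  (α : Γ →* tame F) (φ : Γ →* GL (Fin 2) A) (τ : Γ →* GL (Fin n) K)
  (ψ : Fin n → Γ →* GL (Fin 2) K) (hB : Blk b τ ψ)
  (htf : ∀ (g : Γ) (m : ℕ), 0 < m → α g ^ m = 1 → φ g ^ m = 1 → τ g ^ m = 1 →
    α g = 1 ∧ φ g = 1 ∧ τ g = 1)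
  (hker : KN Γ fun g => α g = 1 ∧ φ g = 1 ∧ τ g = 1)

include hM hN hA hK htf hker hp hpF hB in
/-- The stabilizers of vertices. -/
theorem vertT {H : Type u} [Group H] (f : H →* Γ) (hf : Function.Injective f)
    (l : H →* GL (Fin 2) F) (c : ℕ) (hc : 0 < c) (h1 : ∀ h, α (f h) = 1 → l h = 1)
    (h2 : ∀ h, l h = 1 → α (f h) ^ c = 1) : H19.InL H := by
  have hcast : (((p * N : ℕ) : F × A)) = 0 := by
    refine Prod.ext ?_ ?_
    · show ((p * N : ℕ) : F × A).1 = 0
      rw [Prod.fst_natCast, Nat.cast_mul, hpF, zero_mul]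
    · show ((p * N : ℕ) : F × A).2 = 0
      rw [Prod.snd_natCast, Nat.cast_mul, hA, mul_zero]
  let φ' : H →* GL (Fin 2) (F × A) := (pairG F A).comp (l.prod (φ.comp f))
  have hφ' : ∀ h, φ' h = 1 → l h = 1 ∧ φ (f h) = 1 := by
    intro h h3
    have h4 : (l h, φ (f h)) = 1 := pairG_inj F A (h3.trans (map_one _).symm)
    exact ⟨congrArg Prod.fst h4, congrArg Prod.snd h4⟩
  have key : ∀ h m, 0 < m → φ' h ^ m = 1 → τ (f h) ^ m = 1 →
      α (f h) = 1 ∧ φ (f h) = 1 ∧ τ (f h) = 1 := by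
    intro h m hm h3 h4
    rw [← map_pow] at h3
    obtain ⟨h5, h6⟩ := hφ' _ h3
    have h7 := h2 _ h5
    rw [map_pow, map_pow] at h6 h7
    refine htf (f h) (m * c) (Nat.mul_pos hm hc) ?_ ?_ ?_
    · rw [pow_mul, h7]
    · rw [pow_mul, h6, one_pow]
    · rw [pow_mul, h4, one_pow]
  refine gl2T hM (A := F × A) (Nat.mul_pos hp hN) hcast hK φ' (τ.comp f)
    (fun k => (ψ k).comp f) (blk_comp hB f) (fun h m hm h3 h4 => ?_) fun G _ f' hf' h3 => ?_
  · obtain ⟨h5, h6, h7⟩ := key h m hm h3 h4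
    refine ⟨?_, h7⟩
    show pairG F A (l h, φ (f h)) = 1
    rw [h1 h h5, h6]
    exact map_one _
  · refine hker G (f.comp f') (hf.comp hf') fun g => ?_
    exact key (f' g) 1 one_pos (by rw [pow_one]; exact (h3 g).1) (by rw [pow_one]; exact (h3 g).2)

include hM hK htf hker hB in
/-- The stabilizers of edges. -/
theorem edgeT {H Q : Type u} [Group H] [CommGroup Q] (f : H →* Γ) (hf : Function.Injective f)
    (q : H →* Q) (c : ℕ) (hc : 0 < c) (h1 : ∀ h, α (f h) = 1 → q h = 1)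
    (h2 : ∀ h, q h = 1 → α (f h) ^ c = 1) (hφ : ∀ h, ∃ m, 0 < m ∧ φ (f h) ^ m = 1)
    (ht : ∀ k h, ∃ z : ℤ, (ψ k (f h)).1.trace = (z : K))
    (hd : ∀ k h, (ψ k (f h)).1.det = 1 ∨ (ψ k (f h)).1.det = -1) : InRC H := by
  have key : ∀ h m, 0 < m → q h ^ m = 1 → τ (f h) ^ m = 1 →
      α (f h) = 1 ∧ φ (f h) = 1 ∧ τ (f h) = 1 := by
    intro h n hn h3 h4
    rw [← map_pow] at h3
    have h7 := h2 _ h3
    rw [map_pow, map_pow] at h7
    obtain ⟨m, hm, h8⟩ := hφ h
    refine htf (f h) (n * c * m) (Nat.mul_pos (Nat.mul_pos hn hc) hm) ?_ ?_ ?_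
    · rw [pow_mul, pow_mul, h7, one_pow]
    · rw [mul_comm, pow_mul, h8, one_pow]
    · rw [pow_mul, pow_mul, h4, one_pow, one_pow]
  refine hM K hK n b H Q q (τ.comp f) (fun k => (ψ k).comp f) (blk_comp hB f) ht hd
    (fun h m hm h3 h4 => ?_) fun G _ f' hf' h3 => ?_
  · obtain ⟨h5, h6, h7⟩ := key h m hm h3 h4
    exact ⟨h1 h h5, h7⟩
  · exact hker G (f.comp f') (hf.comp hf') fun g => key (f' g) 1 one_pos
      (by rw [pow_one]; exact (h3 g).1) (by rw [pow_one]; exact (h3 g).2)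

include hM hp hpF hN hA hK htf hker hB in
/-- Finitely generated groups. -/
theorem linT_fg (hO : OneOf.{u} fun G _ => H19.InL G) [Group.FG Γ] : H19.InL Γ := by
  obtain ⟨ι1, _, T1, k1⟩ := NT5.gl2_trees' A N hN hA Γ φ
  obtain ⟨ι2, _, T2, k2⟩ := trees_blk hK Γ ψ
  let _ : MulAction Γ ((tame F ⧸ tA F) ⊕ (tame F ⧸ tB F)) := MulAction.compHom _ α
  have hsl : ∀ (g : Γ) (x : tame F),
      g • (Sum.inl (x : tame F ⧸ tA F) : (tame F ⧸ tA F) ⊕ (tame F ⧸ tB F)) =
        Sum.inl ((α g * x : tame F) : tame F ⧸ tA F) := fun g x => rfl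
  have hsr : ∀ (g : Γ) (x : tame F),
      g • (Sum.inr (x : tame F ⧸ tB F) : (tame F ⧸ tA F) ⊕ (tame F ⧸ tB F)) =
        Sum.inr ((α g * x : tame F) : tame F ⧸ tB F) := fun g x => rfl
  have hconj : ∀ (g x : tame F), x⁻¹ * g * x = ((g * x)⁻¹ * x)⁻¹ := fun g x => by group
  have hSA : ∀ (x : tame F) (g : Γ), g • (Sum.inl (x : tame F ⧸ tA F) :
      (tame F ⧸ tA F) ⊕ (tame F ⧸ tB F)) = Sum.inl (x : tame F ⧸ tA F) →
      x⁻¹ * α g * x ∈ tA F := fun x g hg => by
    have h1 := QuotientGroup.eq.1 (Sum.inl_injective ((hsl g x).symm.trans hg))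
    rw [hconj]
    exact inv_mem h1
  have hSB : ∀ (x : tame F) (g : Γ), g • (Sum.inr (x : tame F ⧸ tB F) :
      (tame F ⧸ tA F) ⊕ (tame F ⧸ tB F)) = Sum.inr (x : tame F ⧸ tB F) →
      x⁻¹ * α g * x ∈ tB F := fun x g hg => by
    have h1 := QuotientGroup.eq.1 (Sum.inr_injective ((hsr g x).symm.trans hg))
    rw [hconj]
    exact inv_mem h1
  have htree : TreeAct Γ (cosetGraph (tA F) (tB F)) := by
    refine ⟨tree, ?_, ?_⟩
    · rintro g v w ⟨x, h⟩
      refine ⟨α g * x, ?_⟩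
      rcases h with ⟨rfl, rfl⟩ | ⟨rfl, rfl⟩
      · exact Or.inl ⟨hsl g x, hsr g x⟩
      · exact Or.inr ⟨hsr g x, hsl g x⟩
    · rintro g v w ⟨x, h⟩ ⟨h1, _⟩
      rcases h with ⟨rfl, rfl⟩ | ⟨rfl, rfl⟩
      · exact Sum.inl_ne_inr ((hsl g x).symm.trans h1)
      · exact Sum.inr_ne_inl ((hsr g x).symm.trans h1)
  -- the triangular part
  have hdg : ∀ {H : Type u} [Group H] (f : H →* Γ) (x : tame F)
      (hx : ∀ h, x⁻¹ * α (f h) * x ∈ (triS F).subgroupOf (tame F)),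
      (∀ h, α (f h) = 1 → (dg F).comp (cj α (triS F) f x hx) h = 1) ∧
      ∀ h, (dg F).comp (cj α (triS F) f x hx) h = 1 → α (f h) ^ (p * p) = 1 := by
    intro H _ f x hx
    refine ⟨fun h h1 => ?_, fun h h1 => ?_⟩
    · rw [MonoidHom.comp_apply, cj_of_eq α _ f x hx h h1, map_one]
    · exact pow_of_cj α _ f x hx h _ (tri_ker hpF _ h1)
  refine oneOf_fin hO Γ (Option (ι1 ⊕ ι2))
    (fun o => o.elim ⟨_, inferInstance, cosetGraph (tA F) (tB F), htree⟩ (Sum.elim T1 T2)) none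
    (fun H hH x y hxy hfix => ?_) fun x => ?_
  · have hφ : ∀ h : H, ∃ m, 0 < m ∧ φ (H.subtype h) ^ m = 1 := fun h =>
      k1 h.1 fun i => hH h.1 h.2 (some (Sum.inl i))
    have hψ := k2 H fun g hg i => hH g hg (some (Sum.inr i))
    obtain ⟨z, hz⟩ : ∃ z : tame F, ∀ g ∈ H, z⁻¹ * α g * z ∈ tB F := by
      obtain ⟨z, hz⟩ := hxy
      refine ⟨z, fun g hg => ?_⟩
      rcases hz with ⟨rfl, rfl⟩ | ⟨rfl, rfl⟩
      · exact hSB z g (hfix g hg).2
      · exact hSB z g (hfix g hg).1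
    obtain ⟨e1, e2⟩ := hdg H.subtype z fun h => hz h.1 h.2
    exact edgeT hM hK α φ τ ψ hB htf hker H.subtype Subtype.val_injective _ (p * p)
      (Nat.mul_pos hp hp) e1 e2 hφ (fun k h => (hψ h.1 h.2 k).1) fun k h => (hψ h.1 h.2 k).2
  · rcases x with x | x
    · obtain ⟨x, rfl⟩ := QuotientGroup.mk_surjective x
      have hx : ∀ h : MulAction.stabilizer Γ (Sum.inl (x : tame F ⧸ tA F) :
          (tame F ⧸ tA F) ⊕ (tame F ⧸ tB F)),
          x⁻¹ * α (Subgroup.subtype _ h) * x ∈ (affS F).subgroupOf (tame F) :=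
        fun h => hSA x h.1 h.2
      refine vertT hM hp hpF hN hA hK α φ τ ψ hB htf hker (Subgroup.subtype _)
        (Subgroup.subtype_injective _) ((lin F).comp (cj α (affS F) (Subgroup.subtype _) x hx)) p hp
        (fun h h1 => ?_) fun h h1 => ?_
      · exact (congrArg (lin F) (cj_of_eq α _ _ x hx h h1)).trans (map_one (lin F))
      · exact pow_of_cj α _ _ x hx h _ (aff_ker hpF _ h1)
    · obtain ⟨x, rfl⟩ := QuotientGroup.mk_surjective x
      obtain ⟨e1, e2⟩ := hdg (MulAction.stabilizer Γ (Sum.inr (x : tame F ⧸ tB F) :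
        (tame F ⧸ tA F) ⊕ (tame F ⧸ tB F))).subtype x fun h => hSB x h.1 h.2
      refine vertT hM hp hpF hN hA hK α φ τ ψ hB htf hker (Subgroup.subtype _)
        (Subgroup.subtype_injective _) ((diaG F).comp ((dg F).comp
          (cj α (triS F) (Subgroup.subtype _) x fun h => hSB x h.1 h.2))) (p * p)
        (Nat.mul_pos hp hp) (fun h h1 => ?_) fun h h1 => ?_
      · exact (congrArg (diaG F) (e1 h h1)).trans (map_one (diaG F))
      · exact e2 h (dia_inj F (h1.trans (map_one _).symm))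

include hM hp hpF hN hA hK htf hker hB in
theorem linT_gen (hO : OneOf.{u} fun G _ => H19.InL G) : H19.InL Γ := by
  refine ((TT.main.{u}).2.2.2.1 Γ).2.2.2.2.1 fun S => ⟨Subgroup.closure (S : Set Γ),
    fun s hs => Subgroup.subset_closure hs, ?_⟩
  exact linT_fg hM hp hpF hN hA hK (α.comp (Subgroup.subtype _))
    (φ.comp (Subgroup.subtype _)) (τ.comp (Subgroup.subtype _))
    (fun k => (ψ k).comp (Subgroup.subtype _)) (blk_comp hB _)
    (fun g n hn h1 h2 h3 => htf g.1 n hn h1 h2 h3) (fun H _ f hf h =>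
      hker H ((Subgroup.subtype _).comp f) (Subtype.val_injective.comp hf) h) hO

end

/-- The theorem on groups with homomorphisms to automorphisms of the affine plane and to block
triangular matrices in positive characteristic and to block triangular matrices of rank one over a
rigid field. -/
theorem linT (hM : MixTStatement.{u}) (hRel : ER.RelStatement.{u}) : LinTStatement.{u} := by
  intro F _ A _ N hN hF hA m c hc K _ hK n b Γ _ α β τ ψ hβ hB htf hker
  obtain ⟨r, φ, h1, h2⟩ := H80.exists_diag hN hA c hc β hβ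
  have hA' : (N : Fin r → A) = 0 := funext fun i => hA
  let te := JK.tameEquiv F
  have hte : ∀ g k, te (α g) ^ k = 1 → α g ^ k = 1 := by
    intro g k h
    rw [← map_pow] at h
    exact te.injective (h.trans (map_one te).symm)
  have key : ∀ g k, 0 < k → te (α g) ^ k = 1 → φ g ^ k = 1 → τ g ^ k = 1 →
      α g = 1 ∧ β g = 1 ∧ τ g = 1 := by
    intro g k hk k1 k2 k3
    have k1' := hte g k k1
    rw [← map_pow] at k2
    obtain ⟨s, hs, k4⟩ := h2 _ k2
    rw [map_pow, ← pow_mul] at k4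
    have h5 := congrArg Subtype.val (htf ⟨(α g, β g, τ g), g, rfl⟩ (k * s) (Nat.mul_pos hk hs)
      (Subtype.ext (Prod.ext (by
        show α g ^ (k * s) = 1
        rw [pow_mul, k1', one_pow]) (Prod.ext k4 (by
        show τ g ^ (k * s) = 1
        rw [pow_mul, k3, one_pow])))))
    exact ⟨congrArg Prod.fst h5, congrArg (fun x => x.2.1) h5, congrArg (fun x => x.2.2) h5⟩
  refine linT_gen hM hN hF hN hA' hK (te.toMonoidHom.comp α) φ τ ψ hB
    (fun g k hk k1 k2 k3 => ?_) (fun H _ f hf h => ?_) (oneOf_inL hRel)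
  · obtain ⟨e1, e2, e3⟩ := key g k hk k1 k2 k3
    refine ⟨?_, h1 g e2, e3⟩
    show te (α g) = 1
    rw [e1, map_one]
  · refine TT.H66.inN_of_injective (f.codRestrict (α.prod (β.prod τ)).ker fun x => ?_)
      (fun a b hab => hf (congrArg Subtype.val hab)) hker
    obtain ⟨e1, e2, e3⟩ := key (f x) 1 one_pos (by rw [pow_one]; exact (h x).1)
      (by rw [pow_one]; exact (h x).2.1) (by rw [pow_one]; exact (h x).2.2)
    exact Prod.ext e1 (Prod.ext e2 e3)

end Pool.Agent.NegK.RK
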