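import Pool.Agent.Lib.MP_28303a_al.PL.PGI
import Pool.Agent.Lib.MP_28303a_al.RK.LinT
import Pool.Agent.Lib.MP_28303a_al.RK.RgtDefs
import Pool.Agent.Lib.MP_28303a_al.RK.Rkt

/-! # Groups with homomorphisms to automorphisms of the affine plane, to block triangular matrices
in positive characteristic and of semisimple rank one over a rigid field -/

set_option autoImplicit false
set_option linter.unusedSectionVars false
set_option linter.unusedVariables false

namespace Pool.Agent.NegK.RK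

universe u

open Matrix
open scoped MatrixGroups
open Pool.Agent.NegK.TW Pool.Agent.NegK.TT Pool.Agent.NegK.NT Pool.Agent.NegK.AP
open H1 (TD)

/-- Integral traces: one element. -/
theorem int_of_lift {K : Type u} [Field K] (hK : H70.Rig K) {L : Type u} [Field L] (i : K →+* L)
    {C : GL (Fin 2) L} (hdet : C.1.det = 1) (hint : IsIntegral ℤ C.1.trace) {A : GL (Fin 2) K}
    (h1 : ProjGenLinGroup.mk (GeneralLinearGroup.map i A) = ProjGenLinGroup.mk C) :
    ∃ z : ℤ, A.1.trace ^ 2 = (z : K) * A.1.det := by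
  obtain ⟨c, hc⟩ := PL.exists_scalar h1
  have hA' : ∀ a b, (GeneralLinearGroup.map i A).1 a b = i (A.1 a b) := fun a b => rfl
  have e1 : C.1.trace = c * i A.1.trace := by
    rw [Matrix.trace_fin_two, Matrix.trace_fin_two, hc, hc, hA', hA', map_add]
    ring
  have e2 : 1 = c ^ 2 * i A.1.det := by
    rw [← hdet, Matrix.det_fin_two, Matrix.det_fin_two, hc, hc, hc, hc, hA', hA', hA', hA',
      map_sub, map_mul, map_mul]
    ring
  have hA0 : A.1.det ≠ 0 := ((Matrix.isUnit_iff_isUnit_det _).1 A.isUnit).ne_zero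
  have e3 : i (A.1.trace ^ 2 / A.1.det) = C.1.trace ^ 2 := by
    have h2 : i A.1.det ≠ 0 := by
      rw [Ne, map_eq_zero]
      exact hA0
    rw [map_div₀, map_pow, e1, div_eq_iff h2]
    linear_combination (i A.1.trace) ^ 2 * e2
  have h2 : IsIntegral ℤ (A.1.trace ^ 2 / A.1.det) := by
    refine (isIntegral_algHom_iff (i.toIntAlgHom) i.injective).1 ?_
    show IsIntegral ℤ (i (A.1.trace ^ 2 / A.1.det))
    rw [e3]
    exact hint.pow 2
  obtain ⟨y, hy⟩ := hK.int _ h2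
  exact ⟨y, by rw [← hy, div_mul_cancel₀ _ hA0]⟩

/-- The trees of a homomorphism to `PGL₂(K)`. -/
theorem trees_pgl {K : Type u} [Field K] (hK : H70.Rig K) (Γ : Type u) [Group Γ]
    [hfg : Group.FG Γ] (γ : Γ →* PGL(Fin 2, K)) :
    ∃ (ι : Type) (_ : Finite ι) (T : ι → TD Γ), ∀ g, (∀ a, (T a).Ell g) →
      ∀ B : GL (Fin 2) K, ProjGenLinGroup.mk B = γ g →
        ∃ z : ℤ, B.1.trace ^ 2 = (z : K) * B.1.det := by
  have hc : CharZero K := hK.char
  let L := AlgebraicClosure K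
  have hcz : CharZero L := charZero_of_injective_algebraMap (algebraMap K L).injective
  obtain ⟨Δ, _, π, q, z, hπ, hdet, hq, hz, hz', hker', hfin, hfgΔ⟩ :=
    P2.exists_lift ((ProjGenLinGroup.map (algebraMap K L)).comp γ)
  have hfg' : Group.FG Δ := hfgΔ hfg
  obtain ⟨S1, hS1⟩ := hfg'.out
  obtain ⟨E, hE⟩ := NT5.entries q S1
  obtain ⟨L0, _, _, ι, F, m, v, ψ0, -, -, hFv, hFB, hψ0⟩ :=
    P2.exists_field q E fun g i j => hE g (by rw [hS1]; exact Subgroup.mem_top g) i j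
  have hmap : ∀ (g : Δ) i j, ι ((ψ0 g).1 i j) = (q g).1 i j := fun g i j => by
    rw [← hψ0]
    rfl
  have htr : ∀ g, ι (Matrix.trace (ψ0 g).1) = Matrix.trace (q g).1 := fun g => by
    rw [Matrix.trace_fin_two, Matrix.trace_fin_two, map_add, hmap, hmap]
  have hdt : ∀ g, (ψ0 g).1.det = 1 := fun g => by
    apply ι.injective
    rw [Matrix.det_fin_two, map_sub, map_mul, map_mul, hmap, hmap, hmap, hmap,
      ← Matrix.det_fin_two, map_one]
    exact hdet g
  choose T1 hT1 using fun a => H1.exists_TD_gl L0 (v a)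
  choose D1 i1 hi1 he1 ha1 using fun a => P2.exists_desc π hπ hfin ((T1 a).comp ψ0)
  refine ⟨Fin m, inferInstance, D1, fun s hs B hB => ?_⟩
  obtain ⟨g, hg⟩ := hπ s
  have hint : IsIntegral ℤ (q g).1.trace := by
    rw [← htr]
    refine IsIntegral.map ι.toIntAlgHom (hFv _ ?_ fun b => ?_)
    · rw [Matrix.trace_fin_two]
      exact Subring.add_mem _ (hFB g 0 0) (hFB g 1 1)
    · obtain ⟨x, hx⟩ := hs b
      refine hT1 b (ψ0 g) ⟨i1 b x, (he1 b g x).symm.trans ?_⟩ ?_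
      · rw [hg]
        exact congrArg (i1 b) hx
      · rw [hdt, map_one]
  refine int_of_lift hK (algebraMap K L) (hdet g) hint ?_
  rw [hq, hg, ← ProjGenLinGroup.map_mk, hB]
  rfl

/-- The trees of a character. -/
theorem trees_char {K : Type u} [Field K] (hK : H70.Rig K) (Γ : Type u) [Group Γ]
    [hfg : Group.FG Γ] (χ : Γ →* Kˣ) :
    ∃ (ι : Type) (_ : Finite ι) (T : ι → TD Γ), ∀ g, (∀ a, (T a).Ell g) →
      (χ g : K) = 1 ∨ (χ g : K) = -1 := by
  have hc : CharZero K := hK.char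
  let D : Kˣ →* Matrix (Fin 2) (Fin 2) K :=
    { toFun := fun x => Matrix.diagonal ![(x : K), 1]
      map_one' := by
        ext p q
        fin_cases p <;> fin_cases q <;> simp
      map_mul' := fun x y => by
        rw [Matrix.diagonal_mul_diagonal]
        congr 1
        funext p
        fin_cases p <;> simp }
  obtain ⟨ι, hι, T, hT⟩ := trees_K K hK.int Γ (D.toHomUnits.comp χ)
  refine ⟨ι, hι, T, fun g hg => ?_⟩
  have h1 := (hT (Subgroup.zpowers g) (fun x hx a => ?_) g (Subgroup.mem_zpowers g)).2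
  · have h2 : ((D.toHomUnits.comp χ) g).1.det = χ g := by
      show (Matrix.diagonal ![(χ g : K), 1]).det = _
      rw [Matrix.det_diagonal, Fin.prod_univ_two]
      simp
    rw [h2] at h1
    exact h1
  · obtain ⟨k, rfl⟩ := Subgroup.mem_zpowers_iff.1 hx
    obtain ⟨y, hy⟩ := hg a
    refine ⟨y, ?_⟩
    have h3 : g ∈ MulAction.stabilizer Γ y := hy
    exact Subgroup.zpow_mem _ h3 k

/-- The trees of a pair of rank one. -/
theorem trees_T {K : Type u} [Field K] (hK : H70.Rig K) (Γ : Type u) [Group Γ] [Group.FG Γ]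
    {r : ℕ} {d : Fin r → ℕ} (τ : Γ →* GL (TI d) K) (γ : Γ →* PGL(Fin 2, K))
    (hR : RankT d τ γ) :
    ∃ (ι : Type) (_ : Finite ι) (T : ι → TD Γ), ∀ g, (∀ a, (T a).Ell g) →
      (∀ B : GL (Fin 2) K, ProjGenLinGroup.mk B = γ g →
        ∃ z : ℤ, B.1.trace ^ 2 = (z : K) * B.1.det) ∧
      ∀ k, ((τ g).1.submatrix (Sigma.mk k) (Sigma.mk k)).det = 1 ∨
        ((τ g).1.submatrix (Sigma.mk k) (Sigma.mk k)).det = -1 := by
  obtain ⟨χ, hχ⟩ := exists_charsT τ hR.tri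
  obtain ⟨ι1, _, T1, k1⟩ := trees_pgl hK Γ γ
  choose ι hι T hT using fun k => trees_char hK Γ (χ k)
  refine ⟨ι1 ⊕ (Σ k, ι k), inferInstance, Sum.elim T1 fun a => T a.1 a.2, fun g hg =>
    ⟨k1 g fun a => hg (Sum.inl a), fun k => ?_⟩⟩
  have h1 := hT k g fun a => hg (Sum.inr ⟨k, a⟩)
  rw [hχ] at h1
  exact h1

/-- The conditions on the stabilizers. -/
def StC {K : Type u} [Field K] {r : ℕ} {d : Fin r → ℕ} (x : GL (TI d) K × PGL(Fin 2, K)) : Prop :=
  (∀ B : GL (Fin 2) K, ProjGenLinGroup.mk B = x.2 →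
    ∃ z : ℤ, B.1.trace ^ 2 = (z : K) * B.1.det) ∧
  ∀ k, (x.1.1.submatrix (Sigma.mk k) (Sigma.mk k)).det = 1 ∨
    (x.1.1.submatrix (Sigma.mk k) (Sigma.mk k)).det = -1

/-- Pairs of rank one. -/
def RkP {K : Type u} [Field K] {r : ℕ} {d : Fin r → ℕ} {Γ : Type u} [Group Γ]
    (σ : Γ →* GL (TI d) K × PGL(Fin 2, K)) : Prop :=
  RankT d ((MonoidHom.fst _ _).comp σ) ((MonoidHom.snd _ _).comp σ)

theorem RkP.comp {K : Type u} [Field K] {r : ℕ} {d : Fin r → ℕ} {Γ : Type u} [Group Γ]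
    {σ : Γ →* GL (TI d) K × PGL(Fin 2, K)} (h : RkP σ) {G : Type u} [Group G] (f : G →* Γ) :
    RkP (σ.comp f) := RankT.comp h f

/-- The statement on the stabilizers for the pair. -/
theorem stab_of (hM : MixTTStatement.{u}) {K : Type u} [Field K] (hK : H70.Rig K) {r : ℕ}
    {d : Fin r → ℕ} {H Q : Type u} [Group H] [CommGroup Q] (q : H →* Q)
    (σ : H →* GL (TI d) K × PGL(Fin 2, K)) (hB : RkP σ) (hc : ∀ h, StC (σ h))
    (htf : ∀ (h : H) (m : ℕ), 0 < m → q h ^ m = 1 → σ h ^ m = 1 → q h = 1 ∧ σ h = 1)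
    (hker : KN H fun h => q h = 1 ∧ σ h = 1) : InRC H := by
  refine hM K hK r d H Q q ((MonoidHom.fst _ _).comp σ) ((MonoidHom.snd _ _).comp σ) hB
    (fun h B hB => (hc h).1 B hB) (fun k h => (hc h).2 k) (fun h m hm h1 h2 h3 => ?_)
    fun G _ f hf h => hker G f hf fun x => ⟨(h x).1, Prod.ext (h x).2.1 (h x).2.2⟩
  obtain ⟨e1, e2⟩ := htf h m hm h1 (Prod.ext h2 h3)
  exact ⟨e1, congrArg Prod.fst e2, congrArg Prod.snd e2⟩

theorem trees_S {K : Type u} [Field K] (hK : H70.Rig K) (Γ : Type u) [Group Γ] [Group.FG Γ]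
    {r : ℕ} {d : Fin r → ℕ} (σ : Γ →* GL (TI d) K × PGL(Fin 2, K)) (hB : RkP σ) :
    ∃ (ι : Type) (_ : Finite ι) (T : ι → TD Γ), ∀ g, (∀ a, (T a).Ell g) → StC (σ g) :=
  trees_T hK Γ ((MonoidHom.fst _ _).comp σ) ((MonoidHom.snd _ _).comp σ) hB

section

variable (hM : MixTTStatement.{u}) {A : Type u} [CommRing A] {N : ℕ} (hN : 0 < N)
  (hA : (N : A) = 0) {K : Type u} [Field K] (hK : H70.Rig K) {r : ℕ} {d : Fin r → ℕ}

include hM hN hA hK in
/-- Matrices. -/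
theorem gl2S {H : Type u} [Group H] (φ : H →* GL (Fin 2) A)
    (σ : H →* GL (TI d) K × PGL(Fin 2, K)) (hB : RkP σ)
    (htf : ∀ (h : H) (m : ℕ), 0 < m → φ h ^ m = 1 → σ h ^ m = 1 → φ h = 1 ∧ σ h = 1)
    (hker : KN H fun h => φ h = 1 ∧ σ h = 1) : H19.InL H := by
  refine ((TT.main.{u}).2.2.2.1 H).2.2.2.2.1 fun S => ⟨Subgroup.closure (S : Set H),
    fun s hs => Subgroup.subset_closure hs, ?_⟩
  let ic : Subgroup.closure (S : Set H) →* H := Subgroup.subtype _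
  have hic : Function.Injective ic := Subtype.val_injective
  obtain ⟨ι1, _, T1, k1⟩ := NT5.gl2_trees' A N hN hA _ (φ.comp ic)
  obtain ⟨ι2, _, T2, k2⟩ := trees_S hK _ (σ.comp ic) (hB.comp ic)
  refine inL_fin _ (ι1 ⊕ ι2) (Sum.elim T1 T2) fun U hU => ?_
  have hφ : ∀ h : U, ∃ m, 0 < m ∧ φ h.1.1 ^ m = 1 := fun h =>
    k1 h.1 fun i => hU h.1 h.2 (Sum.inl i)
  have hψ : ∀ h : U, StC (σ h.1.1) := fun h => k2 h.1 fun i => hU h.1 h.2 (Sum.inr i)
  have key : ∀ (h : U) (m : ℕ), 0 < m → σ h.1.1 ^ m = 1 → φ h.1.1 = 1 ∧ σ h.1.1 = 1 := by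
    intro h m hm h1
    obtain ⟨t, ht, h2⟩ := hφ h
    refine htf h.1.1 (m * t) (Nat.mul_pos hm ht) ?_ ?_
    · rw [mul_comm, pow_mul, h2, one_pow]
    · rw [pow_mul, h1, one_pow]
  refine stab_of hM hK (H := U) (Q := PUnit.{u + 1}) 1 (σ.comp (ic.comp U.subtype))
    (hB.comp _) hψ (fun h m hm _ h2 => ⟨rfl, (key h m hm h2).2⟩) fun G _ f hf h => ?_
  exact hker G ((ic.comp U.subtype).comp f) ((hic.comp Subtype.val_injective).comp hf) fun x =>
    key (f x) 1 one_pos (by rw [pow_one]; exact (h x).2)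

end

section

variable (hM : MixTTStatement.{u}) {F : Type u} [Field F] {p : ℕ} (hp : 0 < p)
  (hpF : (p : F) = 0) {A : Type u} [CommRing A] {N : ℕ} (hN : 0 < N) (hA : (N : A) = 0)
  {K : Type u} [Field K] (hK : H70.Rig K) {r : ℕ} {d : Fin r → ℕ} {Γ : Type u} [Group Γ]
  (α : Γ →* tame F) (φ : Γ →* GL (Fin 2) A) (σ : Γ →* GL (TI d) K × PGL(Fin 2, K))
  (hB : RkP σ)
  (htf : ∀ (g : Γ) (m : ℕ), 0 < m → α g ^ m = 1 → φ g ^ m = 1 → σ g ^ m = 1 →
    α g = 1 ∧ φ g = 1 ∧ σ g = 1)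
  (hker : KN Γ fun g => α g = 1 ∧ φ g = 1 ∧ σ g = 1)

include hM hN hA hK htf hker hp hpF hB in
/-- The stabilizers of vertices. -/
theorem vertS {H : Type u} [Group H] (f : H →* Γ) (hf : Function.Injective f)
    (l : H →* GL (Fin 2) F) (c : ℕ) (hc : 0 < c) (h1 : ∀ h, α (f h) = 1 → l h = 1)
    (h2 : ∀ h, l h = 1 → α (f h) ^ c = 1) : H19.InL H := by
  have hcast : (((p * N : ℕ) : F × A)) = 0 := by
    refine Prod.ext ?_ ?_
    · show ((p * N : ℕ) : F × A).1 = 0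
      rw [Prod.fst_natCast, Nat.cast_mul, hpF, zero_mul]
    · show ((p * N : ℕ) : F × A).2 = 0
      rw [Prod.snd_natCast, Nat.cast_mul, hA, mul_zero]
  let φ' : H →* GL (Fin 2) (F × A) := (pairG F A).comp (l.prod (φ.comp f))
  have hφ' : ∀ h, φ' h = 1 → l h = 1 ∧ φ (f h) = 1 := by
    intro h h3
    have h4 : (l h, φ (f h)) = 1 := pairG_inj F A (h3.trans (map_one _).symm)
    exact ⟨congrArg Prod.fst h4, congrArg Prod.snd h4⟩
  have key : ∀ h m, 0 < m → φ' h ^ m = 1 → σ (f h) ^ m = 1 →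
      α (f h) = 1 ∧ φ (f h) = 1 ∧ σ (f h) = 1 := by
    intro h m hm h3 h4
    rw [← map_pow] at h3
    obtain ⟨h5, h6⟩ := hφ' _ h3
    have h7 := h2 _ h5
    rw [map_pow, map_pow] at h6 h7
    refine htf (f h) (m * c) (Nat.mul_pos hm hc) ?_ ?_ ?_
    · rw [pow_mul, h7]
    · rw [pow_mul, h6, one_pow]
    · rw [pow_mul, h4, one_pow]
  refine gl2S hM (A := F × A) (Nat.mul_pos hp hN) hcast hK φ' (σ.comp f) (hB.comp f)
    (fun h m hm h3 h4 => ?_) fun G _ f' hf' h3 => ?_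
  · obtain ⟨h5, h6, h7⟩ := key h m hm h3 h4
    refine ⟨?_, h7⟩
    show pairG F A (l h, φ (f h)) = 1
    rw [h1 h h5, h6]
    exact map_one _
  · refine hker G (f.comp f') (hf.comp hf') fun g => ?_
    exact key (f' g) 1 one_pos (by rw [pow_one]; exact (h3 g).1) (by rw [pow_one]; exact (h3 g).2)

include hM hK htf hker hB in
/-- The stabilizers of edges. -/
theorem edgeS {H Q : Type u} [Group H] [CommGroup Q] (f : H →* Γ) (hf : Function.Injective f)
    (q : H →* Q) (c : ℕ) (hc : 0 < c) (h1 : ∀ h, α (f h) = 1 → q h = 1)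
    (h2 : ∀ h, q h = 1 → α (f h) ^ c = 1) (hφ : ∀ h, ∃ m, 0 < m ∧ φ (f h) ^ m = 1)
    (ht : ∀ h, StC (σ (f h))) : InRC H := by
  have key : ∀ h m, 0 < m → q h ^ m = 1 → σ (f h) ^ m = 1 →
      α (f h) = 1 ∧ φ (f h) = 1 ∧ σ (f h) = 1 := by
    intro h n hn h3 h4
    rw [← map_pow] at h3
    have h7 := h2 _ h3
    rw [map_pow, map_pow] at h7
    obtain ⟨m, hm, h8⟩ := hφ h
    refine htf (f h) (n * c * m) (Nat.mul_pos (Nat.mul_pos hn hc) hm) ?_ ?_ ?_
    · rw [pow_mul, pow_mul, h7, one_pow]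
    · rw [mul_comm, pow_mul, h8, one_pow]
    · rw [pow_mul, pow_mul, h4, one_pow, one_pow]
  refine stab_of hM hK q (σ.comp f) (hB.comp f) ht (fun h m hm h3 h4 => ?_)
    fun G _ f' hf' h3 => ?_
  · obtain ⟨h5, h6, h7⟩ := key h m hm h3 h4
    exact ⟨h1 h h5, h7⟩
  · exact hker G (f.comp f') (hf.comp hf') fun g => key (f' g) 1 one_pos
      (by rw [pow_one]; exact (h3 g).1) (by rw [pow_one]; exact (h3 g).2)

include hM hp hpF hN hA hK htf hker hB in
/-- Finitely generated groups. -/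
theorem linS_fg (hO : OneOf.{u} fun G _ => H19.InL G) [Group.FG Γ] : H19.InL Γ := by
  obtain ⟨ι1, _, T1, k1⟩ := NT5.gl2_trees' A N hN hA Γ φ
  obtain ⟨ι2, _, T2, k2⟩ := trees_S hK Γ σ hB
  let _ : MulAction Γ ((tame F ⧸ tA F) ⊕ (tame F ⧸ tB F)) := MulAction.compHom _ α
  have hsl : ∀ (g : Γ) (x : tame F),
      g • (Sum.inl (x : tame F ⧸ tA F) : (tame F ⧸ tA F) ⊕ (tame F ⧸ tB F)) =
        Sum.inl ((α g * x : tame F) : tame F ⧸ tA F) := fun g x => rfl
  have hsr : ∀ (g : Γ) (x : tame F),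
      g • (Sum.inr (x : tame F ⧸ tB F) : (tame F ⧸ tA F) ⊕ (tame F ⧸ tB F)) =
        Sum.inr ((α g * x : tame F) : tame F ⧸ tB F) := fun g x => rfl
  have hconj : ∀ (g x : tame F), x⁻¹ * g * x = ((g * x)⁻¹ * x)⁻¹ := fun g x => by group
  have hSA : ∀ (x : tame F) (g : Γ), g • (Sum.inl (x : tame F ⧸ tA F) :
      (tame F ⧸ tA F) ⊕ (tame F ⧸ tB F)) = Sum.inl (x : tame F ⧸ tA F) →
      x⁻¹ * α g * x ∈ tA F := fun x g hg => by
    have h1 := QuotientGroup.eq.1 (Sum.inl_injective ((hsl g x).symm.trans hg))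
    rw [hconj]
    exact inv_mem h1
  have hSB : ∀ (x : tame F) (g : Γ), g • (Sum.inr (x : tame F ⧸ tB F) :
      (tame F ⧸ tA F) ⊕ (tame F ⧸ tB F)) = Sum.inr (x : tame F ⧸ tB F) →
      x⁻¹ * α g * x ∈ tB F := fun x g hg => by
    have h1 := QuotientGroup.eq.1 (Sum.inr_injective ((hsr g x).symm.trans hg))
    rw [hconj]
    exact inv_mem h1
  have htree : TreeAct Γ (cosetGraph (tA F) (tB F)) := by
    refine ⟨tree, ?_, ?_⟩
    · rintro g v w ⟨x, h⟩
      refine ⟨α g * x, ?_⟩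
      rcases h with ⟨rfl, rfl⟩ | ⟨rfl, rfl⟩
      · exact Or.inl ⟨hsl g x, hsr g x⟩
      · exact Or.inr ⟨hsr g x, hsl g x⟩
    · rintro g v w ⟨x, h⟩ ⟨h1, _⟩
      rcases h with ⟨rfl, rfl⟩ | ⟨rfl, rfl⟩
      · exact Sum.inl_ne_inr ((hsl g x).symm.trans h1)
      · exact Sum.inr_ne_inl ((hsr g x).symm.trans h1)
  -- the triangular part
  have hdg : ∀ {H : Type u} [Group H] (f : H →* Γ) (x : tame F)
      (hx : ∀ h, x⁻¹ * α (f h) * x ∈ (triS F).subgroupOf (tame F)),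
      (∀ h, α (f h) = 1 → (dg F).comp (cj α (triS F) f x hx) h = 1) ∧
      ∀ h, (dg F).comp (cj α (triS F) f x hx) h = 1 → α (f h) ^ (p * p) = 1 := by
    intro H _ f x hx
    refine ⟨fun h h1 => ?_, fun h h1 => ?_⟩
    · rw [MonoidHom.comp_apply, cj_of_eq α _ f x hx h h1, map_one]
    · exact pow_of_cj α _ f x hx h _ (tri_ker hpF _ h1)
  refine oneOf_fin hO Γ (Option (ι1 ⊕ ι2))
    (fun o => o.elim ⟨_, inferInstance, cosetGraph (tA F) (tB F), htree⟩ (Sum.elim T1 T2)) none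
    (fun H hH x y hxy hfix => ?_) fun x => ?_
  · have hφ : ∀ h : H, ∃ m, 0 < m ∧ φ (H.subtype h) ^ m = 1 := fun h =>
      k1 h.1 fun i => hH h.1 h.2 (some (Sum.inl i))
    obtain ⟨z, hz⟩ : ∃ z : tame F, ∀ g ∈ H, z⁻¹ * α g * z ∈ tB F := by
      obtain ⟨z, hz⟩ := hxy
      refine ⟨z, fun g hg => ?_⟩
      rcases hz with ⟨rfl, rfl⟩ | ⟨rfl, rfl⟩
      · exact hSB z g (hfix g hg).2
      · exact hSB z g (hfix g hg).1
    obtain ⟨e1, e2⟩ := hdg H.subtype z fun h => hz h.1 h.2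
    exact edgeS hM hK α φ σ hB htf hker H.subtype Subtype.val_injective _ (p * p)
      (Nat.mul_pos hp hp) e1 e2 hφ fun h => k2 h.1 fun i => hH h.1 h.2 (some (Sum.inr i))
  · rcases x with x | x
    · obtain ⟨x, rfl⟩ := QuotientGroup.mk_surjective x
      have hx : ∀ h : MulAction.stabilizer Γ (Sum.inl (x : tame F ⧸ tA F) :
          (tame F ⧸ tA F) ⊕ (tame F ⧸ tB F)),
          x⁻¹ * α (Subgroup.subtype _ h) * x ∈ (affS F).subgroupOf (tame F) :=
        fun h => hSA x h.1 h.2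
      refine vertS hM hp hpF hN hA hK α φ σ hB htf hker (Subgroup.subtype _)
        (Subgroup.subtype_injective _) ((lin F).comp (cj α (affS F) (Subgroup.subtype _) x hx)) p hp
        (fun h h1 => ?_) fun h h1 => ?_
      · exact (congrArg (lin F) (cj_of_eq α _ _ x hx h h1)).trans (map_one (lin F))
      · exact pow_of_cj α _ _ x hx h _ (aff_ker hpF _ h1)
    · obtain ⟨x, rfl⟩ := QuotientGroup.mk_surjective x
      obtain ⟨e1, e2⟩ := hdg (MulAction.stabilizer Γ (Sum.inr (x : tame F ⧸ tB F) :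
        (tame F ⧸ tA F) ⊕ (tame F ⧸ tB F))).subtype x fun h => hSB x h.1 h.2
      refine vertS hM hp hpF hN hA hK α φ σ hB htf hker (Subgroup.subtype _)
        (Subgroup.subtype_injective _) ((diaG F).comp ((dg F).comp
          (cj α (triS F) (Subgroup.subtype _) x fun h => hSB x h.1 h.2))) (p * p)
        (Nat.mul_pos hp hp) (fun h h1 => ?_) fun h h1 => ?_
      · exact (congrArg (diaG F) (e1 h h1)).trans (map_one (diaG F))
      · exact e2 h (dia_inj F (h1.trans (map_one _).symm))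

include hM hp hpF hN hA hK htf hker hB in
theorem linS_gen (hO : OneOf.{u} fun G _ => H19.InL G) : H19.InL Γ := by
  refine ((TT.main.{u}).2.2.2.1 Γ).2.2.2.2.1 fun S => ⟨Subgroup.closure (S : Set Γ),
    fun s hs => Subgroup.subset_closure hs, ?_⟩
  exact linS_fg hM hp hpF hN hA hK (α.comp (Subgroup.subtype _))
    (φ.comp (Subgroup.subtype _)) (σ.comp (Subgroup.subtype _)) (hB.comp _)
    (fun g n hn h1 h2 h3 => htf g.1 n hn h1 h2 h3) (fun H _ f hf h =>
      hker H ((Subgroup.subtype _).comp f) (Subtype.val_injective.comp hf) h) hO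

end

/-- The theorem in tensor form. -/
theorem linTT (hM : MixTTStatement.{u}) (hRel : ER.RelStatement.{u}) : LinTTStatement.{u} := by
  intro F _ A _ N hN hF hA m c hc K _ hK r d Γ _ α β τ γ hβ hB htf hker
  obtain ⟨r', φ, h1, h2⟩ := H80.exists_diag hN hA c hc β hβ
  have hA' : (N : Fin r' → A) = 0 := funext fun i => hA
  let te := JK.tameEquiv F
  let σ : Γ →* GL (TI d) K × PGL(Fin 2, K) := τ.prod γ
  have hte : ∀ g k, te (α g) ^ k = 1 → α g ^ k = 1 := by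
    intro g k h
    rw [← map_pow] at h
    exact te.injective (h.trans (map_one te).symm)
  have key : ∀ g k, 0 < k → te (α g) ^ k = 1 → φ g ^ k = 1 → σ g ^ k = 1 →
      α g = 1 ∧ β g = 1 ∧ σ g = 1 := by
    intro g k hk k1 k2 k3
    have k1' := hte g k k1
    rw [← map_pow] at k2
    obtain ⟨s, hs, k4⟩ := h2 _ k2
    rw [map_pow, ← pow_mul] at k4
    have h5 := congrArg Subtype.val (htf ⟨(α g, β g, σ g), g, rfl⟩ (k * s) (Nat.mul_pos hk hs)
      (Subtype.ext (Prod.ext (by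
        show α g ^ (k * s) = 1
        rw [pow_mul, k1', one_pow]) (Prod.ext k4 (by
        show σ g ^ (k * s) = 1
        rw [pow_mul, k3, one_pow])))))
    exact ⟨congrArg Prod.fst h5, congrArg (fun x => x.2.1) h5, congrArg (fun x => x.2.2) h5⟩
  refine linS_gen hM hN hF hN hA' hK (te.toMonoidHom.comp α) φ σ hB
    (fun g k hk k1 k2 k3 => ?_) (fun H _ f hf h => ?_) (oneOf_inL hRel)
  · obtain ⟨e1, e2, e3⟩ := key g k hk k1 k2 k3
    refine ⟨?_, h1 g e2, e3⟩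
    show te (α g) = 1
    rw [e1, map_one]
  · refine TT.H66.inN_of_injective (f.codRestrict (α.prod (β.prod σ)).ker fun x => ?_)
      (fun a b hab => hf (congrArg Subtype.val hab)) hker
    obtain ⟨e1, e2, e3⟩ := key (f x) 1 one_pos (by rw [pow_one]; exact (h x).1)
      (by rw [pow_one]; exact (h x).2.1) (by rw [pow_one]; exact (h x).2.2)
    exact Prod.ext e1 (Prod.ext e2 e3)

end Pool.Agent.NegK.RK
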