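import Pool.Agent.Lib.MP_28303a_al.RK.Mtt
import Pool.Agent.Lib.MP_28303a_al.RK.Mtt2
import Pool.Agent.Lib.MP_28303a_al.RK.Lft
import Pool.Agent.Lib.MP_28303a_al.RK.Ctwo

/-! # The stabilizers, tensor form -/

set_option autoImplicit false

namespace Pool.Agent.NegK.RK

universe u

open Matrix
open Pool.Agent.NegK.NT

theorem lftS : LftStatement.{u} := by
  intro K _ hK P _ hfg γ ht
  obtain ⟨S, _, hfi, M, hdet, hM, _, h⟩ := lft hK P γ ht
  refine ⟨S, M, hfi, hM, hdet, ?_⟩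
  rcases h with h | ⟨_, X, θ, hX⟩
  · exact Or.inl fun c hc => comm_two M h c hc
  · exact Or.inr ⟨X, fun s => ⟨θ s, hX s⟩⟩

theorem mttTwoS : MttTwoStatement.{u} := by
  intro K _ hK r d P Q _ _ hP hQ q τ γ hR hd hinj M X hM hM1 hX
  exact mtt_two hK P Q hP hQ q τ γ hR hd hinj M hM hM1 X hX

/-- MTT. -/
theorem mixTT : MixTTStatement.{u} := mixTT_of lftS mttTwoS

end Pool.Agent.NegK.RK
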