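import Pool.Agent.Lib.MP_28303a_al.RK.VpDefs
import Pool.Agent.Lib.MP_28303a_al.RK.Mtt1L
import Pool.Agent.Lib.MP_28303a_al.RK.MttAll

/-! # The stabilizers of groups with virtually poly-`ℤ` kernels: the assembly -/

set_option autoImplicit false
set_option linter.unusedSectionVars false
set_option linter.unusedVariables false

namespace Pool.Agent.NegK.RK

universe u

open Matrix
open scoped MatrixGroups
open Pool.Agent.NegK.TW
open Pool.Agent.NegK.TT
open Pool.Agent.NegK.NT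
open Pool.Agent.NegK.PL (PZ)

/-- The statement on the stabilizers for finitely generated groups with injective homomorphisms,
which may have torsion. -/
theorem mixV_core (h2 : MttTwoVStatement.{u}) {K L : Type u} [Field K] [Field L]
    (hK : H70.Rig K) (e : K →+* L) {r : ℕ} {d : Fin r → ℕ} (P Q : Type u) [Group P] [CommGroup Q]
    (hfg : Group.FG P) (hfgQ : Group.FG Q) (q : P →* Q) (τ : P →* GL (TI d) L)
    (γ : P →* PGL(Fin 2, K)) (hR : RankT d τ ((ProjGenLinGroup.map e).comp γ))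
    (ht : ∀ h (B : GL (Fin 2) K), ProjGenLinGroup.mk B = γ h →
      ∃ z : ℤ, B.1.trace ^ 2 = (z : K) * B.1.det)
    (hd : ∀ k h, IsIntegral ℤ ((τ h).1.submatrix (Sigma.mk k) (Sigma.mk k)).det)
    (hinj : ∀ h, q h = 1 → τ h = 1 → γ h = 1 → h = 1) :
    (∃ m, VZ m P) ∨ ∃ P₁ : Subgroup P, P₁.FiniteIndex ∧
      ∃ (V : Type u) (_ : MulAction P₁ V) (T : SimpleGraph V), TreeAct P₁ T ∧ ∃ m : ℕ,
        ∀ v : V, VZ m (MulAction.stabilizer P₁ v) := by
  have := hK.char
  obtain ⟨P₁, M, hfi, hM, hdet, h⟩ := lftS K hK P hfg γ ht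
  have hfg₁ : Group.FG P₁ := inferInstance
  rcases h with h | ⟨X, hX⟩
  · obtain ⟨H, _, hH, m, hm⟩ := mttL_one e P₁ Q hfg₁ (q.comp P₁.subtype) (τ.comp P₁.subtype)
      (γ.comp P₁.subtype) (hR.comp P₁.subtype) (fun g B hB => ht g.1 B hB) (fun k g => hd k g.1)
      (fun g e1 e2 e3 => Subtype.ext (hinj g.1 e1 e2 e3)) M hM h
    exact Or.inl ⟨m, VZ.of_index P₁ hfi ⟨H, hH, hm⟩⟩
  · obtain ⟨V, i, T, hT, n, hst⟩ := h2 K L hK e r d P₁ Q hfg₁ hfgQ (q.comp P₁.subtype)
      (τ.comp P₁.subtype) (γ.comp P₁.subtype) (hR.comp P₁.subtype) (fun k g => hd k g.1)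
      (fun g e1 e2 e3 => Subtype.ext (hinj g.1 e1 e2 e3)) M X hM hdet hX
    exact Or.inr ⟨P₁, hfi, V, i, T, hT, n, hst⟩

/-- Groups with a homomorphism with virtually poly-`ℤ` kernel to a group which acts on a tree, up to
finite index, with virtually poly-`ℤ` stabilizers, and extensions by groups in `𝒩`. -/
theorem inRC_tree {S D P : Type u} [Group S] [Group D] [Group P] (p : S →* D)
    (htf : TorsionFree D) (hp : InN p.ker) (φ : D →* P) (n : ℕ) (hφ : VZ n φ.ker)
    (P₁ : Subgroup P) (hfi : P₁.FiniteIndex) (V : Type u) [MulAction P₁ V] (T : SimpleGraph V)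
    (hT : TreeAct P₁ T) (m : ℕ) (hst : ∀ v : V, VZ m (MulAction.stabilizer P₁ v)) : InRC S := by
  let ψ : P₁.comap φ →* P₁ :=
    { toFun := fun x => ⟨φ x.1, x.2⟩
      map_one' := Subtype.ext (map_one φ)
      map_mul' := fun x y => Subtype.ext (map_mul φ x.1 y.1) }
  let _i : MulAction (P₁.comap φ) V := MulAction.compHom V ψ
  have hT' : TreeAct (P₁.comap φ) T :=
    ⟨hT.tree, fun g v w h => hT.adj (ψ g) v w h, fun g v w h => hT.noinv (ψ g) v w h⟩
  refine fvp' p htf hp (P₁.comap φ) (Vp.fi_comap φ P₁ hfi) V T hT' (n + m) fun v => ?_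
  let ρ : MulAction.stabilizer (P₁.comap φ) v →* MulAction.stabilizer P₁ v :=
    { toFun := fun x => ⟨ψ x.1, x.2⟩
      map_one' := Subtype.ext (map_one ψ)
      map_mul' := fun x y => Subtype.ext (map_mul ψ x.1 y.1) }
  refine VZ.ext ρ (hst v) (VZ.of_injective (⟨⟨fun x => ⟨x.1.1.1, ?_⟩, rfl⟩, fun _ _ => rfl⟩ :
    ρ.ker →* φ.ker) (fun x y hxy => ?_) hφ)
  · exact congrArg (fun z => (z.1.1 : P)) (show ρ x.1 = 1 from x.2)
  · exact Subtype.ext (Subtype.ext (Subtype.ext (congrArg (fun z : φ.ker => (z : D)) hxy)))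

/-- MIXV. -/
theorem mixV_of (h2 : MttTwoVStatement.{u}) : MixVStatement.{u} := by
  intro K L _ _ hK e r d H D Q _ _ _ δ q τ γ n hV hR ht hd
  refine ((main.{u}).2.2.2.1 H).2.2.2.2.2.1 fun T => ⟨Subgroup.closure (T : Set H),
    fun s hs => Subgroup.subset_closure hs, ?_⟩
  have hfg : Group.FG (Subgroup.closure (T : Set H)) := (Group.fg_iff_subgroup_fg _).2 ⟨T, rfl⟩
  let S := Subgroup.closure (T : Set H)
  let ω : S →* Q × GL (TI d) L × PGL(Fin 2, K) := (q.prod (τ.prod γ)).comp S.subtype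
  let δ' : S →* D := δ.comp S.subtype
  have hV' : VK n δ' ω := hV.comp S.subtype S.subtype_injective
  let p : S →* δ'.range := δ'.rangeRestrict
  have hps : Function.Surjective p := δ'.rangeRestrict_surjective
  have htf : TorsionFree δ'.range := (range_tf δ').2 fun g m hm hg => hV'.tf g m hm hg
  have hkp : InN p.ker := by
    have h1 : p.ker = δ'.ker := by
      ext x
      exact ⟨fun h => congrArg Subtype.val h, fun h => Subtype.ext h⟩
    rw [h1]
    exact hV'.ker
  let π : S →* ω.range := ω.rangeRestrict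
  have hπ : Function.Surjective π := ω.rangeRestrict_surjective
  have hle : p.ker ≤ π.ker := fun x hx => Subtype.ext (hV'.le x (congrArg Subtype.val hx))
  let φ : δ'.range →* ω.range := p.liftOfSurjective hps ⟨π, hle⟩
  have hφ : ∀ s, φ (p s) = π s := fun s =>
    p.liftOfRightInverse_comp_apply _ (Function.rightInverse_surjInv hps) ⟨π, hle⟩ s
  have hkφ : VZ n φ.ker := by
    refine VZ.of_injective (⟨⟨fun x => ⟨x.1.1, ?_⟩, rfl⟩, fun _ _ => rfl⟩ :
      φ.ker →* (ω.ker.map δ' : Subgroup D)) (fun x y hxy => ?_) hV'.vz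
    · obtain ⟨s, hs⟩ := hps x.1
      have h1 : π s = 1 := by
        rw [← hφ, hs]
        exact x.2
      exact ⟨s, congrArg Subtype.val h1, congrArg Subtype.val hs⟩
    · exact Subtype.ext (Subtype.ext (congrArg (fun z : (ω.ker.map δ' : Subgroup D) => (z : D)) hxy))
  have hFG : Group.FG ω.range := Group.fg_range ω
  let q₀ : ω.range →* Q := (MonoidHom.fst _ _).comp ω.range.subtype
  let τ' : ω.range →* GL (TI d) L :=
    (MonoidHom.fst _ _).comp ((MonoidHom.snd _ _).comp ω.range.subtype)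
  let γ' : ω.range →* PGL(Fin 2, K) :=
    (MonoidHom.snd _ _).comp ((MonoidHom.snd _ _).comp ω.range.subtype)
  have hτ' : ∀ g, τ' (π g) = τ g.1 := fun g => rfl
  have hγ' : ∀ g, γ' (π g) = γ g.1 := fun g => rfl
  have hFG' : Group.FG q₀.range := Group.fg_range q₀
  have hcore := mixV_core h2 hK e ω.range q₀.range hFG hFG' q₀.rangeRestrict τ' γ'
    ⟨fun x => by
      obtain ⟨g, rfl⟩ := hπ x
      rw [hτ']
      exact hR.tri g.1, fun x k => by
      obtain ⟨g, rfl⟩ := hπ x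
      exact hR.lift g.1 k⟩ (fun x B hB => by
      obtain ⟨g, rfl⟩ := hπ x
      exact ht g.1 B hB) (fun k x => by
      obtain ⟨g, rfl⟩ := hπ x
      exact hd k g.1) (fun x h1 h2 h3 => by
      have h4 : q₀ x = 1 := congrArg Subtype.val h1
      exact Subtype.ext (Prod.ext h4 (Prod.ext h2 h3)))
  rcases hcore with ⟨m, hm⟩ | ⟨P₁, hfi, V, _, T', hT, m, hst⟩
  · obtain ⟨H', hH', hpz⟩ := VZ.ext φ hm hkφ
    exact inRC_of_inN (tfq S δ'.range p hps htf hkp H' (n + m) hH' hpz)
  · exact inRC_tree p htf hkp φ n hkφ P₁ hfi V T' hT m hst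

end Pool.Agent.NegK.RK
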