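import Pool.Agent.Lib.MP_28303a_al.RK.Mtt1

/-! # The stabilizers, tensor form: the assembly -/

set_option autoImplicit false
set_option linter.unusedSectionVars false
set_option linter.unusedVariables false

namespace Pool.Agent.NegK.RK

universe u

open Matrix
open scoped MatrixGroups
open Pool.Agent.NegK.TW
open Pool.Agent.NegK.TT
open Pool.Agent.NegK.NT
open Pool.Agent.NegK.PL (PZ)

/-- Row LFT. -/
def LftStatement : Prop :=
  ∀ (K : Type u) [Field K], H70.Rig K → ∀ (P : Type u) [Group P], Group.FG P →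
    ∀ γ : P →* PGL(Fin 2, K),
    (∀ h (B : GL (Fin 2) K), ProjGenLinGroup.mk B = γ h →
      ∃ z : ℤ, B.1.trace ^ 2 = (z : K) * B.1.det) →
    ∃ (P₁ : Subgroup P) (M : P₁ →* GL (Fin 2) K), P₁.FiniteIndex ∧
      (∀ s : P₁, ProjGenLinGroup.mk (M s) = γ s.1) ∧ (∀ s, (M s).1.det = 1) ∧
      ((∀ c ∈ commutator P₁, (M c).1.trace = 2) ∨
        ∃ X : GL (Fin 2) K, ∀ s, ∃ g : GL (Fin 2) ℤ,
          X⁻¹ * M s * X = GeneralLinearGroup.map (Int.castRingHom K) g)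

/-- Row MTT-2. -/
def MttTwoStatement : Prop :=
  ∀ (K : Type u) [Field K], H70.Rig K → ∀ (r : ℕ) (d : Fin r → ℕ) (P Q : Type u) [Group P]
    [CommGroup Q], Group.FG P → Group.FG Q →
    ∀ (q : P →* Q) (τ : P →* GL (TI d) K) (γ : P →* PGL(Fin 2, K)),
    RankT d τ γ →
    (∀ k h, ((τ h).1.submatrix (Sigma.mk k) (Sigma.mk k)).det = 1 ∨
      ((τ h).1.submatrix (Sigma.mk k) (Sigma.mk k)).det = -1) →
    (∀ h, q h = 1 → τ h = 1 → γ h = 1 → h = 1) →
    ∀ (M : P →* GL (Fin 2) K) (X : GL (Fin 2) K), (∀ s, ProjGenLinGroup.mk (M s) = γ s) →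
    (∀ s, (M s).1.det = 1) →
    (∀ s, ∃ g : GL (Fin 2) ℤ, X⁻¹ * M s * X = GeneralLinearGroup.map (Int.castRingHom K) g) →
    ∃ (V : Type u) (_ : MulAction P V) (T : SimpleGraph V), TreeAct P T ∧ ∃ n : ℕ,
      ∀ v : V, ∃ F : Subgroup (MulAction.stabilizer P v), F.FiniteIndex ∧ PZ n F

/-- The core from the rows LFT and MTT-2. -/
theorem mttCore_of (hL : LftStatement.{u}) (h2 : MttTwoStatement.{u}) : MttCore.{u} := by
  intro K _ hK r d P Q _ _ hfg hfgQ htf q τ γ hR ht hd hinj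
  have := hK.char
  obtain ⟨P₁, M, hfi, hM, hdet, h⟩ := hL K hK P hfg γ ht
  have hfg₁ : Group.FG P₁ := inferInstance
  rcases h with h | ⟨X, hX⟩
  · obtain ⟨H, _, hH, m, hm⟩ := mtt_one P₁ Q hfg₁ (q.comp P₁.subtype) (τ.comp P₁.subtype)
      (γ.comp P₁.subtype) (hR.comp _) (fun g B hB => ht g.1 B hB) (fun k g => hd k g.1)
      (fun g e1 e2 e3 => Subtype.ext (hinj g.1 e1 e2 e3)) M hM h
    refine ⟨H.map P₁.subtype, ⟨?_⟩, Or.inl ⟨m, ?_⟩⟩
    · rw [Subgroup.index_map_subtype]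
      exact mul_ne_zero hH.index_ne_zero hfi.index_ne_zero
    · have e : H ≃* (H.map P₁.subtype : Subgroup P) :=
        H.equivMapOfInjective _ Subtype.val_injective
      exact PZ.of_injective m e.symm.toMonoidHom e.symm.injective hm
  · obtain ⟨V, i, T, hT, n, hst⟩ := h2 K hK r d P₁ Q hfg₁ hfgQ (q.comp P₁.subtype)
      (τ.comp P₁.subtype) (γ.comp P₁.subtype) (hR.comp _) (fun k g => hd k g.1)
      (fun g e1 e2 e3 => Subtype.ext (hinj g.1 e1 e2 e3)) M X hM hdet hX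
    exact ⟨P₁, hfi, Or.inr ⟨V, i, T, hT, n, hst⟩⟩

/-- MTT. -/
theorem mixTT_of (hL : LftStatement.{u}) (h2 : MttTwoStatement.{u}) : MixTTStatement.{u} :=
  mtt_of_core (mttCore_of hL h2)

end Pool.Agent.NegK.RK
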