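import Pool.Agent.Lib.MP_28303a_al.RK.Gpx
import Pool.Agent.Lib.MP_28303a_al.RK.Rkt
import Pool.Agent.Lib.MP_28303a_al.RK.Tfk

/-! # Linear groups of semisimple rank one, tensor form: the reduction theorem -/

set_option autoImplicit false
set_option linter.unusedSectionVars false
set_option linter.unusedVariables false

namespace Pool.Agent.NegK.RK

universe u

open Matrix
open scoped MatrixGroups
open Pool.Agent.NegK.TW Pool.Agent.NegK.TT Pool.Agent.NegK.NT Pool.Agent.NegK.NT5

theorem map_gl_eq_one' {K L : Type u} [Field K] [Field L] (e : K →+* L) {ι : Type} [Fintype ι]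
    [DecidableEq ι] {x : GL ι K} (h : GeneralLinearGroup.map e x = 1) : x = 1 := by
  refine Units.ext (Matrix.ext fun i j => e.injective ?_)
  have h1 : (GeneralLinearGroup.map e x).1 i j = (1 : Matrix ι ι L) i j := by
    rw [h]
    rfl
  have h2 : e (x.1 i j) = (1 : Matrix ι ι L) i j := h1
  rw [h2, Units.val_one, Matrix.one_apply, Matrix.one_apply]
  split_ifs
  · rw [map_one]
  · rw [map_zero]

theorem rankT_map {K L : Type u} [Field K] [Field L] (e : K →+* L) {r : ℕ} {d : Fin r → ℕ}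
    {Γ : Type u} [Group Γ] {τ : Γ →* GL (TI d) K} {γ : Γ →* PGL(Fin 2, K)}
    (h : RankT d τ γ) : RankT d ((GeneralLinearGroup.map e).comp τ)
      ((ProjGenLinGroup.map e).comp γ) := by
  refine ⟨fun g i j hij => ?_, fun g k => ?_⟩
  · show e ((τ g).1 i j) = 0
    rw [h.tri g hij, map_zero]
  · obtain ⟨B, c, h1, h2⟩ := h.lift g k
    refine ⟨GeneralLinearGroup.map e B, e c, ?_, fun i j => ?_⟩
    · show _ = ProjGenLinGroup.map e (γ g)
      rw [← h1, ProjGenLinGroup.map_mk]
    · show e ((τ g).1 ⟨k, i⟩ ⟨k, j⟩) = _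
      rw [h2, map_mul]
      refine congrArg₂ _ rfl ?_
      show e (∏ t, B.1 (i t) (j t)) = ∏ t, e (B.1 (i t) (j t))
      rw [map_prod]

theorem tfk_all : TfkStatement.{u} := fun S Q _ _ q htf hk H n hfi hH h =>
  tfk S Q q htf hk H n hfi hH h

section

variable {A : Type u} [CommRing A] {N : ℕ}
  (hN : 0 < N) (hA : (N : A) = 0) {m : ℕ}
  (c : Fin m → ℕ) (hc : ∀ k, (Finset.univ.filter fun i => c i = k).card ≤ 2)
  {K : Type u} [Field K] [CharZero K] {r : ℕ} {d : Fin r → ℕ} {Γ : Type u} [Group Γ]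
  (β : Γ →* GL (Fin m) A) (hβ : ∀ g, (β g : Matrix (Fin m) (Fin m) A).BlockTriangular c)
  (τ : Γ →* GL (TI d) K) (γ : Γ →* PGL(Fin 2, K)) (hR1 : RankT d τ γ)
  (htf : TorsionFree (β.prod (τ.prod γ)).range) (hker : InN (β.prod (τ.prod γ)).ker)

include hN hA hc hβ hR1 htf hker

/-- The theorem for `K₀` over algebraically closed fields. -/
theorem rkt_closed [IsAlgClosed K] (k : Type u) [Ring k] (hk : RegularRing k) :
    ⨆ H : {H : Subgroup Γ // H.FG ∧ AlgP γ H}, img k H.1 = ⊤ := by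
  obtain ⟨s, φ, hφ', hφ⟩ := H80.exists_diag hN hA c hc β hβ
  have hA' : (N : Fin s → A) = 0 := funext fun i => hA
  obtain ⟨χ, hχ⟩ := edgesT tfk_all β τ γ hR1 (fun g l hl h1 h2 h3 => by
    have h4 := (range_tf (β.prod (τ.prod γ))).1 htf g l hl (Prod.ext h1 (Prod.ext h2 h3))
    exact ⟨congrArg Prod.fst h4, congrArg (fun x => x.2.1) h4, congrArg (fun x => x.2.2) h4⟩)
    hker φ hφ
  exact gpx0 (Fin s → A) N hN hA' K Γ φ γ χ hχ k hk

/-- The theorem for `K₀`. -/
theorem rkt_zero (k : Type u) [Ring k] (hk : RegularRing k) :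
    ⨆ H : {H : Subgroup Γ // H.FG ∧ AlgP γ H}, img k H.1 = ⊤ := by
  let L := AlgebraicClosure K
  let e : K →+* L := algebraMap K L
  have hcz : CharZero L := charZero_of_injective_algebraMap e.injective
  let τ' : Γ →* GL (TI d) L := (GeneralLinearGroup.map e).comp τ
  let γ' : Γ →* PGL(Fin 2, L) := (ProjGenLinGroup.map e).comp γ
  have h1 : ∀ g, τ' g = 1 ↔ τ g = 1 := fun g => ⟨fun h => map_gl_eq_one' e h, fun h => by
    show GeneralLinearGroup.map e (τ g) = 1
    rw [h, map_one]⟩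
  have h2 : ∀ g, γ' g = 1 ↔ γ g = 1 := fun g =>
    ⟨fun h => P2.map_injective e (h.trans (map_one _).symm), fun h => by
      show ProjGenLinGroup.map e (γ g) = 1
      rw [h, map_one]⟩
  have h3 : ∀ g, β.prod (τ'.prod γ') g = 1 ↔ β.prod (τ.prod γ) g = 1 := by
    intro g
    constructor
    · intro h
      have a1 : β g = 1 := congrArg Prod.fst h
      have a2 : τ' g = 1 := congrArg (fun x => x.2.1) h
      have a3 : γ' g = 1 := congrArg (fun x => x.2.2) h
      exact Prod.ext a1 (Prod.ext ((h1 g).1 a2) ((h2 g).1 a3))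
    · intro h
      have a1 : β g = 1 := congrArg Prod.fst h
      have a2 : τ g = 1 := congrArg (fun x => x.2.1) h
      have a3 : γ g = 1 := congrArg (fun x => x.2.2) h
      exact Prod.ext a1 (Prod.ext ((h1 g).2 a2) ((h2 g).2 a3))
  rw [eq_top_iff, ← rkt_closed hN hA c hc β hβ τ' γ' (rankT_map e hR1) ?_ ?_ k hk]
  · refine iSup_le fun H => ?_
    refine le_iSup (fun H : {H : Subgroup Γ // H.FG ∧ AlgP γ H} => img k H.1)
      ⟨H.1, H.2.1, fun h hh B hB => ?_⟩
    have h4 := H.2.2 h hh (GeneralLinearGroup.map e B) (by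
      show _ = ProjGenLinGroup.map e (γ h)
      rw [← hB, ProjGenLinGroup.map_mk])
    have h5 : (GeneralLinearGroup.map e B).1.trace ^ 2 / (GeneralLinearGroup.map e B).1.det =
        e (B.1.trace ^ 2 / B.1.det) := by
      rw [Matrix.trace_fin_two, Matrix.det_fin_two, Matrix.trace_fin_two, Matrix.det_fin_two,
        map_div₀, map_pow, map_add, map_sub, map_mul, map_mul]
      rfl
    rw [h5] at h4
    exact (alg_iff e _).1 h4
  · refine (range_tf _).2 fun g l hl hg => ?_
    rw [h3]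
    refine (range_tf _).1 htf g l hl ?_
    rw [← map_pow] at hg ⊢
    exact (h3 _).1 hg
  · have h4 : (β.prod (τ'.prod γ')).ker = (β.prod (τ.prod γ)).ker := by
      ext g
      rw [MonoidHom.mem_ker, MonoidHom.mem_ker, h3]
    rw [h4]
    exact hker

/-- The reduction theorem for groups of semisimple rank one, tensor form. -/
theorem rkat (R : Type u) [Ring R] (hR : RegularRing R) (i : ℕ) :
    ⨆ H : {H : Subgroup Γ // H.FG ∧ AlgP γ H}, ((KNegFun i).hom (mdr R H.1.subtype)).range = ⊤ :=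
  ER71.kneg_of_gen (fun H => H.FG ∧ AlgP γ H) (fun k _ hk =>
    rkt_zero hN hA c hc β hβ τ γ hR1 htf hker k hk) i R hR

end

end Pool.Agent.NegK.RK
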