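import Pool.Agent.Lib.MP_28303a_al.RK.RgtDefs
import Pool.Agent.Lib.MP_28303a_al.RK.Rkt
import Pool.Agent.Lib.MP_28303a_al.RK.Rkat
import Pool.Agent.Lib.MP_28303a_al.RK.Fvp
import Pool.Agent.Lib.MP_28303a_al.PL.TRNQ

/-! # The stabilizers, tensor form: reduction and the solvable case -/

set_option autoImplicit false
set_option linter.unusedSectionVars false
set_option linter.unusedVariables false

namespace Pool.Agent.NegK.RK

universe u v w

open Matrix
open scoped MatrixGroups commutatorElement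
open Pool.Agent.NegK.TW
open Pool.Agent.NegK.TT
open Pool.Agent.NegK.NT
open Pool.Agent.NegK.PL (PZ trn_comm)

/-- The statement on the torsionfree quotients of the stabilizers. -/
def MttCore : Prop :=
  ∀ (K : Type u) [Field K], H70.Rig K → ∀ (r : ℕ) (d : Fin r → ℕ) (P Q : Type u) [Group P]
    [CommGroup Q], Group.FG P → Group.FG Q → TorsionFree P →
    ∀ (q : P →* Q) (τ : P →* GL (TI d) K) (γ : P →* PGL(Fin 2, K)),
    RankT d τ γ →
    (∀ h (B : GL (Fin 2) K), ProjGenLinGroup.mk B = γ h →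
      ∃ z : ℤ, B.1.trace ^ 2 = (z : K) * B.1.det) →
    (∀ k h, ((τ h).1.submatrix (Sigma.mk k) (Sigma.mk k)).det = 1 ∨
      ((τ h).1.submatrix (Sigma.mk k) (Sigma.mk k)).det = -1) →
    (∀ h, q h = 1 → τ h = 1 → γ h = 1 → h = 1) →
    ∃ P₁ : Subgroup P, P₁.FiniteIndex ∧ ((∃ m, PZ m P₁) ∨
      ∃ (V : Type u) (_ : MulAction P₁ V) (T : SimpleGraph V), TreeAct P₁ T ∧ ∃ n : ℕ,
        ∀ v : V, ∃ F : Subgroup (MulAction.stabilizer P₁ v), F.FiniteIndex ∧ PZ n F)

/-- The reduction to torsionfree finitely generated groups. -/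
theorem mtt_of_core (hCore : MttCore.{u}) : MixTTStatement.{u} := by
  intro K _ hK r d H Q _ _ q τ γ hR ht hd htf hk
  refine ((main.{u}).2.2.2.1 H).2.2.2.2.2.1 fun T => ⟨Subgroup.closure (T : Set H),
    fun s hs => Subgroup.subset_closure hs, ?_⟩
  have hfg : Group.FG (Subgroup.closure (T : Set H)) := (Group.fg_iff_subgroup_fg _).2 ⟨T, rfl⟩
  let S := Subgroup.closure (T : Set H)
  let ω : S →* Q × GL (TI d) K × PGL(Fin 2, K) := (q.prod (τ.prod γ)).comp S.subtype
  let π : S →* ω.range := ω.rangeRestrict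
  have hπ : Function.Surjective π := ω.rangeRestrict_surjective
  have hFG : Group.FG ω.range := Group.fg_range ω
  let q₀ : ω.range →* Q := (MonoidHom.fst _ _).comp ω.range.subtype
  let τ' : ω.range →* GL (TI d) K :=
    (MonoidHom.fst _ _).comp ((MonoidHom.snd _ _).comp ω.range.subtype)
  let γ' : ω.range →* PGL(Fin 2, K) :=
    (MonoidHom.snd _ _).comp ((MonoidHom.snd _ _).comp ω.range.subtype)
  have hτ' : ∀ g, τ' (π g) = τ g.1 := fun g => rfl
  have hγ' : ∀ g, γ' (π g) = γ g.1 := fun g => rfl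
  have hq₀ : ∀ g, q₀ (π g) = q g.1 := fun g => rfl
  have hFG' : Group.FG q₀.range := Group.fg_range q₀
  have htfP : TorsionFree ω.range := by
    refine (range_tf ω).2 fun g m hm hg => ?_
    have e1 : q g.1 ^ m = 1 := congrArg Prod.fst hg
    have e2 : τ g.1 ^ m = 1 := congrArg (fun x => x.2.1) hg
    have e3 : γ g.1 ^ m = 1 := congrArg (fun x => x.2.2) hg
    obtain ⟨e4, e5, e6⟩ := htf g.1 m hm e1 e2 e3
    exact Prod.ext e4 (Prod.ext e5 e6)
  have hkP : InN π.ker := by
    refine hk π.ker (S.subtype.comp π.ker.subtype)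
      (Subtype.val_injective.comp Subtype.val_injective) fun s => ?_
    have h1 : π s.1 = 1 := s.2
    have h2 : (q s.1.1, τ s.1.1, γ s.1.1) = (1 : Q × GL (TI d) K × PGL(Fin 2, K)) :=
      congrArg Subtype.val h1
    exact ⟨congrArg Prod.fst h2, congrArg (fun x => x.2.1) h2, congrArg (fun x => x.2.2) h2⟩
  obtain ⟨P₁, hfi, h⟩ := hCore K hK r d ω.range q₀.range hFG hFG' htfP q₀.rangeRestrict τ' γ'
    ⟨fun x => by
      obtain ⟨g, rfl⟩ := hπ x
      rw [hτ']
      exact hR.tri g.1, fun x k => by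
      obtain ⟨g, rfl⟩ := hπ x
      rw [hτ', hγ']
      exact hR.lift g.1 k⟩ (fun x B hB => by
      obtain ⟨g, rfl⟩ := hπ x
      exact ht g.1 B hB) (fun k x => by
      obtain ⟨g, rfl⟩ := hπ x
      exact hd k g.1) (fun x h1 h2 h3 => by
      have h4 : q₀ x = 1 := congrArg Subtype.val h1
      exact Subtype.ext (Prod.ext h4 (Prod.ext h2 h3)))
  rcases h with ⟨m, hm⟩ | ⟨V, _, T', hT, n, hst⟩
  · exact inRC_of_inN (tfq S ω.range π hπ htfP hkP P₁ m hfi hm)
  · exact fvp' π htfP hkP P₁ hfi V T' hT n hst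

/-- TRN with a homomorphism to a commutative group, for an arbitrary linear order. -/
theorem trn_comm_order {L : Type v} {S : Type u} {Q : Type w} [Field L] [CharZero L] [Group S]
    [CommGroup Q] (hS : Group.FG S) {ι : Type} [Fintype ι] [DecidableEq ι] {α : Type*}
    [LinearOrder α] (b : ι → α) (hb : Function.Injective b) (q : S →* Q) (ρ : S →* GL ι L)
    (hinj : ∀ s, q s = 1 → ρ s = 1 → s = 1)
    (htr : ∀ s, ((ρ s : GL ι L) : Matrix ι ι L).BlockTriangular b)
    (hi : ∀ s i, IsIntegral ℤ (((ρ s : GL ι L) : Matrix ι ι L) i i)) :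
    ∃ H : Subgroup S, H.Normal ∧ H.FiniteIndex ∧ ∃ n, PZ n H := by
  classical
  have hlt : ∀ i j, b i < b j → (Finset.univ.filter fun l => b l < b i).card <
      (Finset.univ.filter fun l => b l < b j).card := by
    intro i j hij
    refine Finset.card_lt_card (Finset.ssubset_iff_subset_ne.2 ⟨fun l hl => ?_, fun h => ?_⟩)
    · rw [Finset.mem_filter] at hl ⊢
      exact ⟨hl.1, hl.2.trans hij⟩
    · have h1 : i ∈ Finset.univ.filter fun l => b l < b j :=
        Finset.mem_filter.2 ⟨Finset.mem_univ i, hij⟩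
      rw [← h, Finset.mem_filter] at h1
      exact lt_irrefl _ h1.2
  refine trn_comm hS (fun i => (Finset.univ.filter fun l => b l < b i).card) ?_ q ρ hinj ?_ hi
  · intro i j hij
    by_contra hne
    rcases lt_or_gt_of_ne (fun h => hne (hb h) : b i ≠ b j) with h | h
    · exact absurd hij (hlt i j h).ne
    · exact absurd hij (hlt j i h).ne'
  · intro s i j hij
    refine htr s ?_
    by_contra h
    rcases lt_or_eq_of_le (not_lt.1 h) with h1 | h1
    · exact lt_asymm hij (hlt i j h1)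
    · have h2 : i = j := hb h1
      rw [h2] at hij
      exact lt_irrefl _ hij

open Rkt in
/-- The core of RKT with a homomorphism to a commutative group. -/
theorem rkq_pz {K : Type u} [Field K] [CharZero K] [IsAlgClosed K]
    {r : ℕ} {d : Fin r → ℕ} (Q A : Type u) [Group Q] [CommGroup A] (hfg : Group.FG Q) (p : Q →* A)
    (τ : Q →* GL (TI d) K) (γ : Q →* PGL(Fin 2, K)) (hR : RankT d τ γ)
    (hker : ∀ g, p g = 1 → τ g = 1 → γ g = 1 → g = 1)
    (ht : ∀ g (B : GL (Fin 2) K), ProjGenLinGroup.mk B = γ g →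
      IsIntegral ℤ (B.1.trace ^ 2 / B.1.det))
    (hc : ∀ (Gt : Type u) [Group Gt] (q : Gt →* Q) (B : Gt →* GL (Fin 2) K),
      (∀ x, ProjGenLinGroup.mk (B x) = γ (q x)) → ∀ c ∈ commutator Gt, (B c).1.trace = 2)
    (h1 : ∀ g k, IsIntegral ℤ (blk (τ g).1 k).det) :
    ∃ H : Subgroup Q, H.Normal ∧ H.FiniteIndex ∧ ∃ m, PZ m H := by
  obtain ⟨Δ, _, π, q, z, hπ, hdet, hq, hz, hz', hker', hfin, hfgΔ⟩ := P2.exists_lift γ
  obtain ⟨P, hP⟩ := H80.tri_two q (fun c hcc => hc Δ π q hq c hcc)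
  let q' : Δ →* GL (Fin 2) K := (MulAut.conj P⁻¹).toMonoidHom.comp q
  have hq' : ∀ s, q' s = P⁻¹ * q s * P := fun s => by
    show P⁻¹ * q s * P⁻¹⁻¹ = _
    rw [inv_inv]
  let σ : Δ →* GL (TI d) K := (MulAut.conj (dT d P)⁻¹).toMonoidHom.comp (τ.comp π)
  have hσ : ∀ s, σ s = (dT d P)⁻¹ * τ (π s) * dT d P := fun s => by
    show (dT d P)⁻¹ * τ (π s) * (dT d P)⁻¹⁻¹ = _
    rw [inv_inv]
  have hσtri : ∀ s, (σ s).1.BlockTriangular Sigma.fst := fun s => by
    rw [hσ]
    exact ((dT_inv_tri P).mul (hR.tri (π s))).mul (dT_tri P)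
  have hblk : ∀ s k, ∃ c : K, IsIntegral ℤ c ∧ blk (σ s).1 k = c • ten (d k) (q' s).1 := by
    intro s k
    obtain ⟨B, c, hB, hBc⟩ := hR.lift (π s) k
    obtain ⟨a, ha⟩ := exists_smul (hB.trans (hq s).symm)
    have e1 : blk (τ (π s)).1 k = (c * a ^ d k) • ten (d k) (q s).1 := by
      ext i j
      rw [blk_apply, hBc, ha, ten_smul, mul_smul]
      rfl
    refine ⟨c * a ^ d k, ?_, ?_⟩
    · have e2 : (c * a ^ d k) ^ Fintype.card (Fin (d k) → Fin 2) = (blk (τ (π s)).1 k).det := by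
        rw [e1, Matrix.det_smul, ten_det, hdet, one_pow, mul_one]
      refine IsIntegral.of_pow (n := Fintype.card (Fin (d k) → Fin 2)) Fintype.card_pos ?_
      rw [e2]
      exact h1 (π s) k
    · have e3 : (σ s).1 = (dT d P)⁻¹.1 * (τ (π s)).1 * (dT d P).1 := by
        rw [hσ]
        rfl
      rw [e3, blk_mul ((dT_inv_tri P).mul (hR.tri (π s))) (dT_tri P),
        blk_mul (dT_inv_tri P) (hR.tri (π s)), blk_dT, blk_dT_inv, e1, Matrix.mul_smul,
        Matrix.smul_mul, ← ten_mul, ← ten_mul, hq']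
      rfl
  -- the eigenvalues of the lift
  have hq0 : ∀ s, (q' s).1 1 0 = 0 := fun s => by
    rw [hq']
    exact hP s
  have hq1 : ∀ s, (q' s).1 0 0 * (q' s).1 1 1 = 1 := by
    intro s
    have e1 : (q' s).1.det = 1 := by
      rw [hq', Units.val_mul, Units.val_mul, Matrix.det_mul, Matrix.det_mul, hdet, mul_one,
        ← Matrix.det_mul, ← Units.val_mul, inv_mul_cancel, Units.val_one, Matrix.det_one]
    rw [Matrix.det_fin_two, hq0, mul_zero, sub_zero] at e1
    exact e1
  have hq2 : ∀ s, IsIntegral ℤ (((q' s).1 0 0 + (q' s).1 1 1) ^ 2 / 1) := by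
    intro s
    have e1 := ht (π s) (q s) (hq s)
    have e2 : (q s).1.trace = (q' s).1.trace := by
      rw [hq', Units.val_mul, Units.val_mul, Matrix.trace_mul_comm, ← Matrix.mul_assoc,
        ← Units.val_mul, mul_inv_cancel, Units.val_one, Matrix.one_mul]
    rw [hdet, e2, Matrix.trace_fin_two] at e1
    exact e1
  have hq3 : ∀ s i, IsIntegral ℤ ((q' s).1 i i) := by
    intro s i
    have e1 := hq1 s
    fin_cases i
    · refine integral_eig one_ne_zero (x := (q' s).1 0 0) ?_ (hq2 s) isIntegral_one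
      linear_combination -e1
    · refine integral_eig one_ne_zero (x := (q' s).1 1 1) ?_ (hq2 s) isIntegral_one
      linear_combination -e1
  -- the representation of the double cover
  let ρ : Δ →* GL (TI d ⊕ Fin 2) K := (sumT σ q').toHomUnits
  have r11 : ∀ g i j, (ρ g).1 (Sum.inl i) (Sum.inl j) = (σ g).1 i j := fun g i j => rfl
  have r12 : ∀ g i j, (ρ g).1 (Sum.inl i) (Sum.inr j) = 0 := fun g i j => rfl
  have r21 : ∀ g i j, (ρ g).1 (Sum.inr i) (Sum.inl j) = 0 := fun g i j => rfl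
  have r22 : ∀ g i j, (ρ g).1 (Sum.inr i) (Sum.inr j) = (q' g).1 i j := fun g i j => rfl
  have htri : ∀ g, (ρ g : Matrix (TI d ⊕ Fin 2) (TI d ⊕ Fin 2) K).BlockTriangular
      (ord (d := d)) := by
    intro g x y hxy
    rcases x with ⟨k, i⟩ | i <;> rcases y with ⟨l, j⟩ | j
    · rw [r11]
      have h3 : toLex ((l : ℕ), tb j) < toLex ((k : ℕ), tb i) := hxy
      rw [Prod.Lex.toLex_lt_toLex] at h3
      rcases h3 with h3 | ⟨h3, h4⟩
      · exact hσtri g h3
      · have h5 : l = k := Fin.ext h3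
        subst h5
        obtain ⟨c, -, h6⟩ := hblk g l
        have h7 : (σ g).1 ⟨l, i⟩ ⟨l, j⟩ = blk (σ g).1 l i j := rfl
        rw [h7, h6, Matrix.smul_apply, ten_bt (hq0 g) h4, smul_zero]
    · exact r12 g _ j
    · exact r21 g i _
    · rw [r22]
      have h3 : toLex (r, (j : ℕ)) < toLex (r, (i : ℕ)) := hxy
      rw [Prod.Lex.toLex_lt_toLex] at h3
      have h4 : (j : ℕ) < i := by
        rcases h3 with h3 | h3
        · exact absurd h3 (lt_irrefl _)
        · exact h3.2
      have h5 : i = 1 ∧ j = 0 := by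
        revert h4
        fin_cases i <;> fin_cases j <;> simp
      rw [h5.1, h5.2]
      exact hq0 g
  have hint : ∀ s i, IsIntegral ℤ
      ((ρ s : Matrix (TI d ⊕ Fin 2) (TI d ⊕ Fin 2) K) i i) := by
    intro s x
    rcases x with ⟨k, i⟩ | i
    · obtain ⟨c, hci, h6⟩ := hblk s k
      have h7 : (ρ s).1 (Sum.inl ⟨k, i⟩) (Sum.inl ⟨k, i⟩) = blk (σ s).1 k i i := rfl
      rw [h7, h6, Matrix.smul_apply, ten_apply, smul_eq_mul]
      exact hci.mul (IsIntegral.prod _ fun t _ => hq3 s (i t))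
    · exact hq3 s i
  -- the kernel
  have hz1 : z ≠ 1 := by
    intro h
    rw [h, map_one, Units.val_one] at hz'
    have h3 := congrFun (congrFun hz' 0) 0
    rw [Matrix.neg_apply, Matrix.one_apply_eq] at h3
    have h4 : (2 : K) = 0 := by linear_combination h3
    exact two_ne_zero h4
  have hinj : ∀ g, p.comp π g = 1 → ρ g = 1 → g = 1 := fun g hp hg => by
    have h3 : σ g = 1 := by
      refine Units.ext (Matrix.ext fun i j => ?_)
      rw [← r11, hg, Units.val_one, Units.val_one, Matrix.one_apply, Matrix.one_apply]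
      by_cases h : i = j
      · rw [if_pos h, if_pos (congrArg Sum.inl h)]
      · rw [if_neg h, if_neg fun h' => h (Sum.inl_injective h')]
    have h3' : τ (π g) = 1 := (MulAut.conj (dT d P)⁻¹).injective (h3.trans (map_one _).symm)
    have h4 : q' g = 1 := by
      refine Units.ext (Matrix.ext fun i j => ?_)
      rw [← r22, hg, Units.val_one, Units.val_one, Matrix.one_apply, Matrix.one_apply]
      by_cases h : i = j
      · rw [if_pos h, if_pos (congrArg Sum.inr h)]
      · rw [if_neg h, if_neg fun h' => h (Sum.inr_injective h')]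
    have h4' : q g = 1 := (MulAut.conj P⁻¹).injective (h4.trans (map_one _).symm)
    have h5 : γ (π g) = 1 := by rw [← hq, h4', map_one]
    rcases hker' g (hker _ hp h3' h5) with h7 | h7
    · exact h7
    · exfalso
      rw [← h7, h4', Units.val_one] at hz'
      have h8 := congrFun (congrFun hz' 0) 0
      rw [Matrix.neg_apply, Matrix.one_apply_eq] at h8
      have h9 : (2 : K) = 0 := by linear_combination h8
      exact two_ne_zero h9
  obtain ⟨H, hN, hF, m, hm⟩ := trn_comm_order (hfgΔ hfg) (ord (d := d)) ord_inj (p.comp π) ρ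
    hinj htri hint
  -- the image of the subgroup
  have hzz : z * z = 1 := by
    rcases hker' (z * z) (by rw [map_mul, hz, one_mul]) with h3 | h3
    · exact h3
    · exact absurd (mul_eq_left.1 h3) hz1
  have hzH : z ∉ H := fun h3 => hz1 (by
    have h4 := pz_tf m hm ⟨z, h3⟩ 2 two_pos (Subtype.ext (by
      show z ^ 2 = 1
      rw [pow_two]
      exact hzz))
    exact congrArg Subtype.val h4)
  have hbij : Function.Bijective (π.subgroupMap H) := by
    refine ⟨(injective_iff_map_eq_one _).2 fun g hg => ?_, π.subgroupMap_surjective H⟩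
    have h3 : π g.1 = 1 := congrArg Subtype.val hg
    rcases hker' g.1 h3 with h4 | h4
    · exact Subtype.ext h4
    · exact absurd (h4 ▸ g.2) hzH
  let e : H ≃* H.map π := MulEquiv.ofBijective (π.subgroupMap H) hbij
  refine ⟨H.map π, hN.map π hπ, ⟨fun h3 => hF.index_ne_zero ?_⟩, m,
    PZ.of_injective m e.symm.toMonoidHom e.symm.injective hm⟩
  exact Nat.eq_zero_of_zero_dvd (h3 ▸ H.index_map_dvd hπ)

theorem comm_lift {K : Type*} [Field K] {a b a' b' : GL (Fin 2) K}
    (h1 : ProjGenLinGroup.mk a' = ProjGenLinGroup.mk a)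
    (h2 : ProjGenLinGroup.mk b' = ProjGenLinGroup.mk b) : ⁅a', b'⁆ = ⁅a, b⁆ := by
  have e1 : a' * a⁻¹ ∈ Subgroup.center (GL (Fin 2) K) := by
    rw [← ProjGenLinGroup.mk_eq_one, map_mul, map_inv, h1, mul_inv_cancel]
  have e2 : b' * b⁻¹ ∈ Subgroup.center (GL (Fin 2) K) := by
    rw [← ProjGenLinGroup.mk_eq_one, map_mul, map_inv, h2, mul_inv_cancel]
  set s := a' * a⁻¹ with hs
  set t := b' * b⁻¹ with ht
  have ea : a' = s * a := by rw [hs, inv_mul_cancel_right]
  have eb : b' = t * b := by rw [ht, inv_mul_cancel_right]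
  have cs : ∀ x, x * s = s * x := Subgroup.mem_center_iff.1 e1
  have ct : ∀ x, x * t = t * x := Subgroup.mem_center_iff.1 e2
  rw [ea, eb, commutatorElement_def, commutatorElement_def, _root_.mul_inv_rev,
    _root_.mul_inv_rev]
  calc s * a * (t * b) * (a⁻¹ * s⁻¹) * (b⁻¹ * t⁻¹)
      = s * (a * t) * b * a⁻¹ * s⁻¹ * b⁻¹ * t⁻¹ := by group
    _ = s * (t * a) * b * a⁻¹ * s⁻¹ * b⁻¹ * t⁻¹ := by rw [ct]
    _ = s * t * (a * b * a⁻¹ * s⁻¹ * b⁻¹ * t⁻¹) := by group
    _ = t * s * (a * b * a⁻¹ * s⁻¹ * b⁻¹ * t⁻¹) := by rw [ct]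
    _ = t * (s * (a * b * a⁻¹)) * s⁻¹ * b⁻¹ * t⁻¹ := by group
    _ = t * (a * b * a⁻¹ * s) * s⁻¹ * b⁻¹ * t⁻¹ := by rw [← cs]
    _ = t * (a * b * a⁻¹ * b⁻¹) * t⁻¹ := by group
    _ = (a * b * a⁻¹ * b⁻¹) * t * t⁻¹ := by rw [ct]
    _ = a * b * a⁻¹ * b⁻¹ := by rw [mul_inv_cancel_right]

/-- The traces of the commutators of lifts over an extension. -/
theorem lift_trace {K L : Type u} [Field K] [Field L] (e : K →+* L) {S : Type u} [Group S]
    (γ : S →* PGL(Fin 2, K)) (M : S →* GL (Fin 2) K)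
    (hM : ∀ s, ProjGenLinGroup.mk (M s) = γ s)
    (hM2 : ∀ c ∈ commutator S, (M c).1.trace = 2) (Gt : Type u) [Group Gt] (q : Gt →* S)
    (B : Gt →* GL (Fin 2) L)
    (hB : ∀ x, ProjGenLinGroup.mk (B x) = (ProjGenLinGroup.map e).comp γ (q x)) :
    ∀ c ∈ commutator Gt, (B c).1.trace = 2 := by
  intro c hc
  let M' : Gt →* GL (Fin 2) L := (GeneralLinearGroup.map e).comp (M.comp q)
  have key : ∀ x, ProjGenLinGroup.mk (B x) = ProjGenLinGroup.mk (M' x) := by
    intro x
    rw [hB]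
    show ProjGenLinGroup.map e (γ (q x)) = ProjGenLinGroup.mk (GeneralLinearGroup.map e (M (q x)))
    rw [← hM, ProjGenLinGroup.map_mk]
  have h7 : commutator Gt ≤ B.eqLocus M' := by
    rw [commutator_def, Subgroup.commutator_le]
    intro x _ y _
    show B ⁅x, y⁆ = M' ⁅x, y⁆
    rw [map_commutatorElement, map_commutatorElement]
    exact comm_lift (key x) (key y)
  have h8 : B c = M' c := h7 hc
  have h9 : q c ∈ commutator S := by
    have h10 : (commutator Gt).map q ≤ commutator S := by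
      rw [commutator_def, commutator_def, Subgroup.map_commutator]
      exact Subgroup.commutator_mono le_top le_top
    exact h10 ⟨c, hc, rfl⟩
  have h10 := hM2 _ h9
  rw [Matrix.trace_fin_two] at h10
  rw [h8, Matrix.trace_fin_two]
  show e ((M (q c)).1 0 0) + e ((M (q c)).1 1 1) = 2
  rw [← map_add, h10, map_ofNat]

open Rkt in
/-- Case 1: the commutators of the lift have the trace `2`. -/
theorem mtt_one {K : Type u} [Field K] [CharZero K] {r : ℕ} {d : Fin r → ℕ} (S Q : Type u)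
    [Group S] [CommGroup Q] (hfg : Group.FG S) (q : S →* Q) (τ : S →* GL (TI d) K)
    (γ : S →* PGL(Fin 2, K)) (hR : RankT d τ γ)
    (ht : ∀ h (B : GL (Fin 2) K), ProjGenLinGroup.mk B = γ h →
      ∃ z : ℤ, B.1.trace ^ 2 = (z : K) * B.1.det)
    (hd : ∀ k h, ((τ h).1.submatrix (Sigma.mk k) (Sigma.mk k)).det = 1 ∨
      ((τ h).1.submatrix (Sigma.mk k) (Sigma.mk k)).det = -1)
    (hinj : ∀ h, q h = 1 → τ h = 1 → γ h = 1 → h = 1) (M : S →* GL (Fin 2) K)
    (hM : ∀ s, ProjGenLinGroup.mk (M s) = γ s)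
    (hM2 : ∀ c ∈ commutator S, (M c).1.trace = 2) :
    ∃ H : Subgroup S, H.Normal ∧ H.FiniteIndex ∧ ∃ m, PZ m H := by
  let L := AlgebraicClosure K
  let e : K →+* L := algebraMap K L
  have hcz : CharZero L := charZero_of_injective_algebraMap e.injective
  have hz : ∀ z : ℤ, IsIntegral ℤ (z : L) := fun z => by
    have h1 := isIntegral_algebraMap (R := ℤ) (A := L) (x := z)
    rwa [eq_intCast] at h1
  refine rkq_pz (d := d) S Q hfg q ((GeneralLinearGroup.map e).comp τ)
    ((ProjGenLinGroup.map e).comp γ) (rankT_map e hR) (fun g h1 h2 h3 => hinj g h1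
      (map_gl_eq_one' e h2) (P2.map_injective e (Eq.trans h3 (map_one _).symm)))
    (fun g B hB => ?_) (lift_trace e γ M hM hM2) fun g k => ?_
  · have h1 : ProjGenLinGroup.mk B = ProjGenLinGroup.mk (GeneralLinearGroup.map e (M g)) := by
      rw [hB, ← ProjGenLinGroup.map_mk, hM]
      rfl
    obtain ⟨a, ha⟩ := Rkt.exists_smul h1
    obtain ⟨z, h2⟩ := ht g (M g) (hM g)
    have h3 : B.1.det ≠ 0 := ((Matrix.isUnit_iff_isUnit_det _).1 B.isUnit).ne_zero
    have h4 : B.1.trace ^ 2 / B.1.det = (z : L) := by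
      rw [div_eq_iff h3, ha, Matrix.trace_smul, Matrix.det_smul, Fintype.card_fin, smul_eq_mul,
        mul_pow]
      have h5 : (GeneralLinearGroup.map e (M g)).1.trace = e (M g).1.trace := by
        rw [Matrix.trace_fin_two, Matrix.trace_fin_two, map_add]
        rfl
      have h6 : (GeneralLinearGroup.map e (M g)).1.det = e (M g).1.det := by
        rw [Matrix.det_fin_two, Matrix.det_fin_two, map_sub, map_mul, map_mul]
        rfl
      rw [h5, h6, ← map_pow, h2, map_mul, map_intCast]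
      ring
    rw [h4]
    exact hz z
  · have h1 : (blk ((GeneralLinearGroup.map e).comp τ g).1 k).det = e (blk (τ g).1 k).det := by
      rw [RingHom.map_det]
      rfl
    rw [h1]
    rcases hd k g with h2 | h2
    · have h3 : (blk (τ g).1 k).det = 1 := h2
      rw [h3, map_one]
      exact isIntegral_one
    · have h3 : (blk (τ g).1 k).det = -1 := h2
      rw [h3, map_neg, map_one]
      exact isIntegral_one.neg

end Pool.Agent.NegK.RK
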