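import Pool.Agent.Lib.MP_28303a_al.RK.Mtt2
import Pool.Agent.Lib.MP_28303a_al.RK.VpDefs

/-! # Groups of semisimple rank one over rigid fields: the tree of `GL₂(ℤ)` over an extension -/

set_option autoImplicit false
set_option linter.unusedSectionVars false
set_option linter.unusedVariables false

namespace Pool.Agent.NegK.RK

universe u v

open Matrix
open scoped MatrixGroups
open Pool.Agent.NegK.TW Pool.Agent.NegK.TT Pool.Agent.NegK.NT Pool.Agent.NegK.AP
open NT5 (Fm)
open PL (PZ)

namespace Mtt2V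

open Mtt2

/-- The scalars of the blocks form homomorphisms. -/
theorem exists_hom {L : Type v} [Field L] {r : ℕ} {d : Fin r → ℕ} {P : Type u}
    [Group P] {τ : P →* GL (TI d) L} {γ : P →* PGL(Fin 2, L)} (hR : RankT d τ γ)
    (M : P →* GL (Fin 2) L) (hM : ∀ s, ProjGenLinGroup.mk (M s) = γ s) (k : Fin r) :
    ∃ c : P →* Lˣ, ∀ s i j, (τ s).1 ⟨k, i⟩ ⟨k, j⟩ = (c s).1 * ten (d k) (M s).1 i j := by
  have h0 : ∀ s, ∃ c : L, TX.blkHom τ hR.tri k s = c • (TX.tenGL (d k) (M s)).1 := by
    intro s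
    obtain ⟨B, c, hB, hc⟩ := hR.lift s k
    obtain ⟨a, ha⟩ := exists_smul (hB.trans (hM s).symm)
    refine ⟨c * a ^ d k, ?_⟩
    ext i j
    rw [TX.blkHom_apply, hc, ha, ten_smul, Matrix.smul_apply, Matrix.smul_apply, smul_eq_mul,
      smul_eq_mul, mul_assoc, TX.tenGL_val]
  choose c hc using h0
  have huniq : ∀ (s : P) (a b : L), a • (TX.tenGL (d k) (M s)).1 = b • (TX.tenGL (d k) (M s)).1 →
      a = b := by
    intro s a b h
    have h1 : a • (1 : Matrix (Fin (d k) → Fin 2) (Fin (d k) → Fin 2) L) = b • 1 := by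
      have h2 := congrArg (· * (TX.tenGL (d k) (M s))⁻¹.1) h
      simp only [smul_mul_assoc] at h2
      rwa [← Units.val_mul, mul_inv_cancel, Units.val_one] at h2
    have h3 := congrFun (congrFun h1 fun _ => 0) fun _ => 0
    rwa [Matrix.smul_apply, Matrix.smul_apply, Matrix.one_apply_eq, smul_eq_mul, smul_eq_mul,
      mul_one, mul_one] at h3
  let f : P →* L :=
    { toFun := c
      map_one' := huniq 1 _ _ (by
        rw [← hc, map_one, map_one, map_one, Units.val_one, one_smul])
      map_mul' := fun s t => huniq (s * t) _ _ (by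
        rw [← hc, map_mul, hc s, hc t, map_mul, map_mul, Units.val_mul, smul_mul_smul_comm]) }
  refine ⟨f.toHomUnits, fun s i j => ?_⟩
  have h1 := congrFun (congrFun (hc s) i) j
  rw [TX.blkHom_apply, Matrix.smul_apply, smul_eq_mul, TX.tenGL_val] at h1
  exact h1

/-- Finitely generated groups of integral units. -/
theorem exists_alg {L : Type v} [Field L] {P : Type u} [Group P] (hP : Group.FG P) {r : ℕ}
    (c : Fin r → P →* Lˣ) (hc : ∀ k s, IsIntegral ℤ (c k s).1) :
    ∃ O : Subalgebra ℤ L, Module.Finite ℤ O ∧ ∀ k s, (c k s).1 ∈ O := by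
  obtain ⟨S, hS, hfin⟩ := (Group.fg_iff).1 hP
  let T : Set L := ⋃ k : Fin r, (fun s => (c k s).1) '' (S ∪ S⁻¹)
  have hT : T.Finite := Set.finite_iUnion fun k => (hfin.union hfin.inv).image _
  have hTi : ∀ x ∈ T, IsIntegral ℤ x := by
    intro x hx
    obtain ⟨k, hk⟩ := Set.mem_iUnion.1 hx
    obtain ⟨s, _, rfl⟩ := hk
    exact hc k s
  refine ⟨Algebra.adjoin ℤ T, Module.Finite.iff_fg.2 (fg_adjoin_of_finite hT hTi), ?_⟩
  have hmem : ∀ (k : Fin r) (s : P), s ∈ S ∪ S⁻¹ → (c k s).1 ∈ Algebra.adjoin ℤ T := fun k s hs =>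
    Algebra.subset_adjoin (Set.mem_iUnion.2 ⟨k, s, hs, rfl⟩)
  intro k s
  have hs : s ∈ Subgroup.closure S := by
    rw [hS]
    exact Subgroup.mem_top s
  have key : ∀ s : P, s ∈ Subgroup.closure S →
      (c k s).1 ∈ Algebra.adjoin ℤ T ∧ (c k s⁻¹).1 ∈ Algebra.adjoin ℤ T := by
    intro s hs
    induction hs using Subgroup.closure_induction with
    | mem x hx =>
      exact ⟨hmem k x (Or.inl hx), hmem k x⁻¹ (Or.inr (Set.inv_mem_inv.2 hx))⟩
    | one =>
      rw [inv_one, map_one, Units.val_one]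
      exact ⟨one_mem _, one_mem _⟩
    | mul x y _ _ hx hy =>
      rw [_root_.mul_inv_rev, map_mul, map_mul, Units.val_mul, Units.val_mul]
      exact ⟨mul_mem hx.1 hy.1, mul_mem hy.2 hx.2⟩
    | inv x _ hx =>
      rw [inv_inv]
      exact ⟨hx.2, hx.1⟩
  exact (key s hs).1

end Mtt2V

open Mtt2 Mtt2V

/-- The second case: the lifts are conjugate into `GL₂(ℤ)`. -/
theorem mtt_twoV : MttTwoVStatement.{u} := by
  intro K L _ _ hK e r d P Q _ _ hP hQ q τ γ hR hd hinj M X hM hM1 hX
  have := hK.char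
  have hczL : CharZero L := charZero_of_injective_ringHom e.injective
  -- the homomorphism to `GL₂(ℤ)`
  choose f hf using hX
  let q2 : P →* GL (Fin 2) ℤ :=
    { toFun := f
      map_one' := map_inj (K := K) (by
        rw [← hf, map_one, mul_one, inv_mul_cancel, map_one])
      map_mul' := fun s t => map_inj (K := K) (by
        rw [map_mul, ← hf, ← hf, ← hf, map_mul]
        group) }
  have hq2 : ∀ s, M s = X * GeneralLinearGroup.map (Int.castRingHom K) (q2 s) * X⁻¹ := by
    intro s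
    rw [show GeneralLinearGroup.map (Int.castRingHom K) (q2 s) = X⁻¹ * M s * X from (hf s).symm]
    group
  obtain ⟨V, iV, T, hT, hfin⟩ := tree_gl P q2
  refine ⟨V, iV, T, hT, ?_⟩
  -- the extension
  let M₁ : P →* GL (Fin 2) L := (GeneralLinearGroup.map e).comp M
  let X₁ : GL (Fin 2) L := GeneralLinearGroup.map e X
  have hM₁ : ∀ s, ProjGenLinGroup.mk (M₁ s) = (ProjGenLinGroup.map e).comp γ s := fun s => by
    show ProjGenLinGroup.mk (GeneralLinearGroup.map e (M s)) = ProjGenLinGroup.map e (γ s)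
    rw [← ProjGenLinGroup.map_mk, hM]
  have hM₁1 : ∀ s, (M₁ s).1.det = 1 := fun s => by
    have h1 : (M₁ s).1.det = e (M s).1.det := by
      rw [Matrix.det_fin_two, Matrix.det_fin_two, map_sub, map_mul, map_mul]
      rfl
    rw [h1, hM1, map_one]
  have hX₁ : ∀ s, X₁⁻¹.1 * (M₁ s).1 * X₁.1 = ((q2 s).1).map (Int.castRingHom L) := by
    intro s
    have h1 : X₁⁻¹ * M₁ s * X₁ = GeneralLinearGroup.map e
        (GeneralLinearGroup.map (Int.castRingHom K) (q2 s)) := by
      rw [show GeneralLinearGroup.map (Int.castRingHom K) (q2 s) = X⁻¹ * M s * X from (hf s).symm,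
        map_mul, map_mul, map_inv]
      rfl
    have h2 := congrArg Units.val h1
    rw [Units.val_mul, Units.val_mul] at h2
    rw [h2]
    ext i j
    show e ((((q2 s).1 i j : ℤ) : K)) = (((q2 s).1 i j : ℤ) : L)
    rw [map_intCast]
  -- the scalars
  choose c hc using fun k => exists_hom hR M₁ hM₁ k
  have hci : ∀ k s, IsIntegral ℤ (c k s).1 := by
    intro k s
    have h1 : (τ s).1.submatrix (Sigma.mk k) (Sigma.mk k) = (c k s).1 • ten (d k) (M₁ s).1 := by
      ext i j
      rw [Matrix.submatrix_apply, hc, Matrix.smul_apply, smul_eq_mul]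
    have h2 := hd k s
    rw [h1, TX.smul_ten_det, hM₁1, one_pow, mul_one] at h2
    exact IsIntegral.of_pow (Nat.two_pow_pos _) h2
  obtain ⟨O, hO, hcO⟩ := exists_alg hP c hci
  -- the commutative group
  let q' : P →* Q × (Fin r → Lˣ) := q.prod (MonoidHom.pi c)
  have hq'1 : ∀ s, q' s = 1 → q s = 1 := fun s h => congrArg Prod.fst h
  have hq'2 : ∀ s, q' s = 1 → ∀ k, c k s = 1 := fun s h k => congrFun (congrArg Prod.snd h) k
  have hQ' : Group.FG q'.range := by
    have := hP
    infer_instance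
  -- finite index in the stabilizers
  have hst : ∀ v : V, (M.ker.subgroupOf (MulAction.stabilizer P v)).FiniteIndex := by
    intro v
    obtain ⟨s, hs, hs'⟩ := hfin v
    let S1 : Set (GL (Fin 2) K) :=
      (fun g => X * GeneralLinearGroup.map (Int.castRingHom K) g * X⁻¹) '' s
    have hS1 : S1.Finite := hs.image _
    have hrange : Finite (M.comp (MulAction.stabilizer P v).subtype).range := by
      refine (hS1.subset ?_).to_subtype
      rintro _ ⟨g, rfl⟩
      exact ⟨q2 g.1, hs' g.1 g.2, (hq2 g.1).symm⟩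
    have h2 : (M.comp (MulAction.stabilizer P v).subtype).ker =
        M.ker.subgroupOf (MulAction.stabilizer P v) := by
      ext g
      rfl
    rw [← h2]
    exact Subgroup.finiteIndex_ker _
  -- the kernel of the lift is virtually poly-`ℤ`
  have hN1 : ∃ (H1 : Subgroup M.ker) (m : ℕ), H1.FiniteIndex ∧ PZ m H1 := by
    have hpz : ∃ n, PZ n (q'.rangeRestrict.comp M.ker.subtype).ker := by
      let ρ : P →* GL (TI d) L := (MulAut.conj (TX.tenD d X₁)⁻¹).toMonoidHom.comp τ
      have hρ : ∀ s, (ρ s).1 = (TX.tenD d X₁)⁻¹.1 * (τ s).1 * (TX.tenD d X₁).1 := by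
        intro s
        show ((TX.tenD d X₁)⁻¹ * τ s * ((TX.tenD d X₁)⁻¹)⁻¹ : GL (TI d) L).1 = _
        rw [inv_inv, Units.val_mul, Units.val_mul]
      have hker : ∀ a : (q'.rangeRestrict.comp M.ker.subtype).ker, q' a.1.1 = 1 := fun a =>
        congrArg Subtype.val a.2
      refine PL.TRN.kerB (b := fun x : TI d => (x.1 : ℕ)) hP ρ ?_ O ?_
        (q'.rangeRestrict.comp M.ker.subtype).ker
        (M.ker.subtype.comp (q'.rangeRestrict.comp M.ker.subtype).ker.subtype) ?_ ?_
      · intro s i j hij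
        rw [hρ]
        exact TX.tenD_conj_tri X₁ (hR.tri s) hij
      · rintro s ⟨k, i⟩ ⟨l, j⟩ hkl
        have hkl' : k = l := Fin.ext hkl
        subst hkl'
        rw [hρ, TX.tenD_conj_blk X₁ (hc k s) i j, hX₁, ten_map, Matrix.map_apply]
        have h3 : ∀ z : ℤ, (z : L) ∈ O := fun z => by
          have := Subalgebra.algebraMap_mem O z
          rwa [eq_intCast] at this
        exact mul_mem (hcO k s) (h3 _)
      · intro a b hab
        have h1 : ρ a.1.1 = ρ b.1.1 := hab
        have h2 : τ a.1.1 = τ b.1.1 := (MulAut.conj (TX.tenD d X₁)⁻¹).injective h1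
        have hqa : q a.1.1 = 1 := hq'1 _ (hker a)
        have hqb : q b.1.1 = 1 := hq'1 _ (hker b)
        have hMa : M a.1.1 = 1 := a.1.2
        have hMb : M b.1.1 = 1 := b.1.2
        have h3 : a.1.1 * b.1.1⁻¹ = 1 := by
          refine hinj _ ?_ ?_ ?_
          · rw [map_mul, map_inv, hqa, hqb, inv_one, mul_one]
          · rw [map_mul, map_inv, h2, mul_inv_cancel]
          · rw [← hM, map_mul, map_inv, hMa, hMb, inv_one, mul_one, map_one]
        exact Subtype.ext (Subtype.ext (mul_inv_eq_one.1 h3))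
      · rintro s ⟨k, i⟩ ⟨l, j⟩ hkl
        have hkl' : k = l := Fin.ext hkl
        subst hkl'
        have hMs : M₁ s.1.1 = 1 := by
          show GeneralLinearGroup.map e (M s.1.1) = 1
          rw [show M s.1.1 = 1 from s.1.2, map_one]
        have h1 : ∀ i j, (τ s.1.1).1 ⟨k, i⟩ ⟨k, j⟩ =
            1 * ten (d k) (1 : Matrix (Fin 2) (Fin 2) L) i j := by
          intro i j
          rw [hc k s.1.1 i j, hq'2 _ (hker s) k, hMs, Units.val_one, Units.val_one]
        show (ρ s.1.1).1 ⟨k, i⟩ ⟨k, j⟩ = _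
        rw [hρ, TX.tenD_conj_blk X₁ h1 i j, mul_one, one_mul, ← Units.val_mul, inv_mul_cancel,
          Units.val_one, ten_one]
        by_cases hij : i = j
        · rw [hij, Matrix.one_apply_eq, Matrix.one_apply_eq]
        · rw [Matrix.one_apply_ne hij, Matrix.one_apply_ne]
          intro h2
          exact hij (eq_of_heq (Sigma.mk.inj h2).2)
    obtain ⟨n, hn⟩ := hpz
    obtain ⟨H1, _, h2, m, h3⟩ := PL.PZ.finite n q'.range (q'.rangeRestrict.comp M.ker.subtype) hn
    exact ⟨H1, m, h2, h3⟩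
  obtain ⟨H1, m, hH1, hm⟩ := hN1
  refine ⟨m, fun v => ?_⟩
  let K1 : Subgroup (MulAction.stabilizer P v) := M.ker.subgroupOf (MulAction.stabilizer P v)
  let j : K1 →* M.ker :=
    { toFun := fun s => ⟨s.1.1, s.2⟩
      map_one' := rfl
      map_mul' := fun _ _ => rfl }
  have hj : Function.Injective j := fun a b h =>
    Subtype.ext (Subtype.ext (show (j a).1 = (j b).1 from congrArg Subtype.val h))
  refine ⟨(H1.comap j).map K1.subtype, fi_sub K1 (hst v) _ (Mtt2.fi_comap j H1 hH1), ?_⟩
  let e' : (H1.comap j) ≃* ((H1.comap j).map K1.subtype : Subgroup (MulAction.stabilizer P v)) :=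
    (H1.comap j).equivMapOfInjective _ Subtype.val_injective
  refine PL.PZ.of_injective m e'.symm.toMonoidHom e'.symm.injective ?_
  refine PL.PZ.of_injective m (f := (j.comp (H1.comap j).subtype).codRestrict H1 fun s => s.2) ?_ hm
  intro a b h
  exact Subtype.ext (hj (congrArg Subtype.val h))

end Pool.Agent.NegK.RK
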