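import Pool.Agent.Lib.MP_28303a_al.P2.Pos
import Pool.Agent.Lib.MP_28303a_al.P2.Main

/-! # Torsionfree block triangular groups over a field of positive characteristic -/

set_option autoImplicit false
set_option linter.unusedSectionVars false
set_option linter.unusedVariables false

namespace Pool.Agent.NegK.RK

universe u

open Matrix
open scoped MatrixGroups
open Pool.Agent.NegK.TW Pool.Agent.NegK.TT Pool.Agent.NegK.NT

/-- Torsionfree groups with a homomorphism `τ` to the block triangular matrices with blocks of size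
at most two and a homomorphism `γ` to `PGL₂(K)`, such that `(τ, γ)` is injective, `K` a field of
positive characteristic. -/
theorem pos {K : Type u} [Field K] (p : ℕ) (hp : 0 < p) (hpK : (p : K) = 0) {n : ℕ}
    (b : Fin n → ℕ) (hb : ∀ k, (Finset.univ.filter fun i => b i = k).card ≤ 2) {Γ : Type u}
    [Group Γ] (htf : TorsionFree Γ) (τ : Γ →* GL (Fin n) K)
    (htri : ∀ g, (τ g : Matrix (Fin n) (Fin n) K).BlockTriangular b) (γ : Γ →* PGL(Fin 2, K))
    (hinj : ∀ g, τ g = 1 → γ g = 1 → g = 1) : InK Γ := by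
  classical
  obtain ⟨r, φ, _, hφ⟩ := H80.exists_diag hp hpK b hb τ htri
  have hA' : ((p : ℕ) : Fin r → K) = 0 := funext fun i => hpK
  refine inK_loc Γ fun S => ⟨Subgroup.closure (S : Set Γ), fun s hs =>
    Subgroup.subset_closure hs, ?_⟩
  let H := Subgroup.closure (S : Set Γ)
  have hfg : Group.FG H := (Group.fg_iff_subgroup_fg _).2 ⟨S, rfl⟩
  let L := AlgebraicClosure K
  let ψ1 : H →* PGL(Fin 2, L) := (ProjGenLinGroup.map (algebraMap K L)).comp
    (γ.comp H.subtype)
  have hψ1 : ∀ g, ψ1 g = 1 → γ g.1 = 1 := fun g hg =>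
    P2.map_injective (algebraMap K L) (hg.trans (map_one _).symm)
  obtain ⟨Δ, _, π, q, z, hπ, hdet, hq, hz, hz', hker, hfin, hfgΔ⟩ := P2.exists_lift ψ1
  have := hfgΔ hfg
  obtain ⟨ι, hι, T, hT⟩ := NT5.gl2_trees' L p hp (by
    rw [← map_natCast (algebraMap K L), hpK, map_zero]) Δ q
  obtain ⟨ι', hι', T', hT'⟩ := NT5.gl2_trees' (Fin r → K) p hp hA' Δ
    ((φ.comp H.subtype).comp π)
  refine P2.inK_of_trees π hπ hfin (ι ⊕ ι') (Sum.elim T T') fun g hg => ?_
  obtain ⟨n, hn, h1⟩ := hT g fun i => hg (Sum.inl i)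
  obtain ⟨n', hn', h1'⟩ := hT' g fun i => hg (Sum.inr i)
  have h2 : ψ1 (π g ^ n) = 1 := by
    rw [map_pow, ← hq, ← map_pow, h1, map_one]
  have h3 : γ (π g ^ n).1 = 1 := hψ1 _ h2
  have h4 : φ ((π g).1 ^ n') = 1 := by
    rw [map_pow]
    exact h1'
  obtain ⟨m, hm, h5⟩ := hφ _ h4
  refine Subtype.ext (htf (π g).1 (n * (n' * m)) (by positivity) ?_)
  refine hinj _ ?_ ?_
  · rw [mul_comm, pow_mul, map_pow, pow_mul, map_pow, h5, one_pow]
  · rw [pow_mul, map_pow]
    have h6 : γ ((π g).1 ^ n) = 1 := h3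
    rw [h6, one_pow]

end Pool.Agent.NegK.RK
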