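import Pool.Agent.Lib.MP_28303a_al.RK.Bs3
import Pool.Agent.Lib.MP_28303a_al.RK.VpDefs2
import Pool.Agent.Lib.MP_28303a_al.RK.Tfk
import Pool.Agent.Lib.MP_28303a_al.NT.ER71.Trig

/-! # Groups of semisimple rank one in positive characteristic: virtually poly-`ℤ` kernels -/

set_option autoImplicit false
set_option linter.unusedSectionVars false
set_option linter.unusedVariables false

namespace Pool.Agent.NegK.RK

universe u v w

open Matrix
open scoped MatrixGroups
open Pool.Agent.NegK.TW Pool.Agent.NegK.TT Pool.Agent.NegK.NT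

section

variable {K : Type u} [Field K] (p : ℕ) (hp : 0 < p) (hpK : (p : K) = 0) {r : ℕ}
    (d : Fin r → ℕ) {P : Type u} [Group P] (τ : P →* GL (Σ k : Fin r, (Fin (d k) → Fin 2)) K)
    (htri : ∀ g, (τ g).1.BlockTriangular Sigma.fst) (γ : P →* PGL(Fin 2, K))
    (hR : ∀ g k, ∃ (B : GL (Fin 2) K) (c : K), ProjGenLinGroup.mk B = γ g ∧
      ∀ i j, (τ g).1 ⟨k, i⟩ ⟨k, j⟩ = c * ∏ t, B.1 (i t) (j t))

include hp hpK hR

/-- The elements with trivial image in `PGL₂` whose diagonal blocks have determinant `1` are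
torsion. -/
theorem tor_ker (g : P) (h1 : ∀ k, (blkHom τ htri k g).det = 1) (h2 : γ g = 1) :
    ∃ m, 0 < m ∧ τ (g ^ m) = 1 := by
  classical
  choose e he using fun k => Bs.blk_scal τ htri γ hR g h2 k
  have hpow : ∀ k, e k ^ (2 ^ d k) = 1 := by
    intro k
    have h3 := h1 k
    rw [he k, Matrix.scalar_apply, Matrix.det_diagonal, Finset.prod_const] at h3
    rw [← h3, Finset.card_univ]
    congr 1
    simp
  let M : ℕ := ∏ k, 2 ^ d k
  have hM : 0 < M := Finset.prod_pos fun k _ => by positivity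
  have hblk : ∀ k, blkHom τ htri k (g ^ M) = 1 := by
    intro k
    obtain ⟨M', hM'⟩ : 2 ^ d k ∣ M := Finset.dvd_prod_of_mem _ (Finset.mem_univ k)
    rw [map_pow, he k, ← map_pow, hM', pow_mul, hpow k, one_pow, map_one]
  obtain ⟨s, hs⟩ := H80.strict_nilp (fun i : Σ k : Fin r, (Fin (d k) → Fin 2) => (i.1 : ℕ))
    (x := (τ (g ^ M)).1 - 1) (by
      rintro ⟨k, i⟩ ⟨l, j⟩ hkl
      rw [Matrix.sub_apply]
      rcases Nat.lt_or_ge (l : ℕ) (k : ℕ) with h | h
      · rw [htri (g ^ M) (i := ⟨k, i⟩) (j := ⟨l, j⟩) (Fin.lt_def.2 h), Matrix.one_apply_ne (by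
          intro h5
          have h6 : k = l := congrArg Sigma.fst h5
          rw [h6] at h
          exact lt_irrefl _ h), sub_zero]
      · have h5 : k = l := Fin.ext (le_antisymm h hkl)
        subst h5
        have h6 := congrFun (congrFun (hblk k) i) j
        have h7 : blkHom τ htri k (g ^ M) i j = (τ (g ^ M)).1 ⟨k, i⟩ ⟨k, j⟩ := rfl
        rw [← h7, h6, Matrix.one_apply, Matrix.one_apply]
        by_cases hij : i = j
        · rw [if_pos hij, if_pos (by rw [hij]), sub_self]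
        · rw [if_neg hij, if_neg (fun h8 => hij (sigma_mk_injective h8)), sub_self])
  have hMK : ((p : ℕ) : Matrix (Σ k : Fin r, (Fin (d k) → Fin 2))
      (Σ k : Fin r, (Fin (d k) → Fin 2)) K) = 0 := by
    have := congrArg (algebraMap K (Matrix (Σ k : Fin r, (Fin (d k) → Fin 2))
      (Σ k : Fin r, (Fin (d k) → Fin 2)) K)) hpK
    rw [map_natCast, map_zero] at this
    exact this
  obtain ⟨m, hm, hm'⟩ := H80.unip hp hMK s _ hs
  rw [add_sub_cancel] at hm'
  refine ⟨M * m, Nat.mul_pos hM hm, Units.ext ?_⟩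
  rw [pow_mul, map_pow, Units.val_pow_eq_pow_val, hm', Units.val_one]

variable (hinj : ∀ g, τ g = 1 → γ g = 1 → g = 1)

include hinj htri

/-- Groups of semisimple rank one in positive characteristic are arboreal. -/
theorem arb_rk : Arb P := by
  classical
  let χ : Fin r → P →* K := fun k => Matrix.detMonoidHom.comp (blkHom τ htri k)
  let D0 : P →* Matrix (Fin r) (Fin r) K :=
    { toFun := fun g => Matrix.diagonal fun k => χ k g
      map_one' := by
        simp only [map_one]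
        exact Matrix.diagonal_one
      map_mul' := fun g h => by
        simp only [map_mul]
        exact (Matrix.diagonal_mul_diagonal _ _).symm }
  let D : P →* GL (Fin r) K := D0.toHomUnits
  have hD : Arb D.range := by
    refine arb_tri K p hp hpK (fun i : Fin r => (i : ℕ)) (fun k => ?_) D.range D.range.subtype
      Subtype.val_injective ?_
    · refine (Finset.card_le_one.2 fun a ha b hb => ?_).trans one_le_two
      rw [Finset.mem_filter] at ha hb
      exact Fin.ext (ha.2.trans hb.2.symm)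
    · rintro ⟨_, g, rfl⟩ i j h
      exact Matrix.diagonal_apply_ne _ (by
        rintro rfl
        exact lt_irrefl _ h)
  refine (hD.prod (arb_pgl K p hp hpK)).of_hom (D.rangeRestrict.prod γ) fun x hx => ?_
  have hx1 : D x = 1 := congrArg (fun z => (z.1 : GL (Fin r) K)) hx
  have hx2 : γ x = 1 := congrArg (fun z => z.2) hx
  obtain ⟨m, hm, h1⟩ := tor_ker p hp hpK d τ htri γ hR x (fun k => by
    have h3 : D0 x = 1 := congrArg Units.val hx1
    have h4 := congrFun (congrFun h3 k) k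
    rw [Matrix.one_apply_eq] at h4
    have h5 : D0 x k k = χ k x := Matrix.diagonal_apply_eq _ _
    rw [h5] at h4
    exact h4) hx2
  exact ⟨m, hm, hinj _ h1 (by rw [map_pow, hx2, one_pow])⟩

/-- Finitely generated torsion groups of semisimple rank one in positive characteristic are
finite. -/
theorem bur_rk : Bur P := by
  intro S hS ht
  have hfg : Group.FG S := (Group.fg_iff_subgroup_fg S).2 hS
  have h1 := Bs.bs3 p hp hpK d hfg (fun g => by
    obtain ⟨m, hm, h⟩ := ht g.1 g.2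
    exact ⟨m, hm, Subtype.ext h⟩) (τ.comp S.subtype) (fun g => htri g.1) (γ.comp S.subtype)
    fun g k => hR g.1 k
  have h2 : ((τ.comp S.subtype).prod (γ.comp S.subtype)).ker = ⊥ := by
    rw [eq_bot_iff]
    intro g hg
    exact Subtype.ext (hinj g.1 (congrArg Prod.fst hg) (congrArg Prod.snd hg))
  rw [h2] at h1
  have h3 : Finite (S ⧸ (⊥ : Subgroup S)) := inferInstance
  exact Finite.of_equiv _ QuotientGroup.quotientBot.toEquiv

end

/-- Groups with torsion image in a group whose finitely generated torsion subgroups are finite. -/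
theorem inRC_tor {P : Type u} [Group P] (hB : Bur P) {S D : Type u} [Group S] [Group D]
    (δ : S →* D) (β : S →* P) (n : ℕ) (hV : VK n δ β) (ht : ∀ g, ∃ m, 0 < m ∧ β g ^ m = 1) :
    InRC S := by
  refine ((TT.main.{u}).2.2.2.1 S).2.2.2.2.2.1 fun T => ⟨Subgroup.closure (T : Set S),
    fun s hs => Subgroup.subset_closure hs, inRC_of_inN ?_⟩
  have hfg : Group.FG (Subgroup.closure (T : Set S)) := (Group.fg_iff_subgroup_fg _).2 ⟨T, rfl⟩
  let S0 := Subgroup.closure (T : Set S)
  let β0 : S0 →* P := β.comp S0.subtype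
  let δ0 : S0 →* D := δ.comp S0.subtype
  have hfin : Finite β0.range := by
    refine hB β0.range ((Group.fg_iff_subgroup_fg _).1 (Group.fg_range β0)) ?_
    rintro _ ⟨s, rfl⟩
    exact ht s.1
  have hk : β0.ker.FiniteIndex := Subgroup.finiteIndex_ker β0
  have hs : Function.Surjective δ0.rangeRestrict := δ0.rangeRestrict_surjective
  let E : Subgroup δ0.range := β0.ker.map δ0.rangeRestrict
  have hE : E.FiniteIndex := by
    refine ⟨fun h0 => hk.index_ne_zero ?_⟩
    have e1 := Subgroup.index_map_dvd β0.ker hs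
    rw [h0] at e1
    exact Nat.eq_zero_of_zero_dvd e1
  have htf : TorsionFree δ0.range := by
    rintro ⟨_, s, rfl⟩ l hl hg
    exact Subtype.ext (hV.tf s.1 l hl (congrArg Subtype.val hg))
  have hVZ : VZ n E := by
    refine VZ.of_injective (⟨⟨fun x => ⟨x.1.1, ?_⟩, rfl⟩, fun _ _ => rfl⟩ :
      E →* (β.ker.map δ : Subgroup D)) (fun x y hxy => ?_) hV.vz
    · obtain ⟨s, hs0, hs1⟩ := x.2
      exact ⟨s.1, hs0, congrArg Subtype.val hs1⟩
    · exact Subtype.ext (Subtype.ext
        (congrArg (fun w : (β.ker.map δ : Subgroup D) => (w : D)) hxy))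
  obtain ⟨F, hF, hFz⟩ := VZ.of_index E hE hVZ
  refine tfq S0 δ0.range δ0.rangeRestrict hs htf ?_ F n hF hFz
  refine TT.H66.inN_of_injective (⟨⟨fun x => ⟨x.1.1, congrArg Subtype.val x.2⟩, rfl⟩,
    fun x y => rfl⟩ : δ0.rangeRestrict.ker →* δ.ker) (fun x y hxy => ?_) hV.ker
  exact Subtype.ext (Subtype.ext (congrArg (fun z : δ.ker => (z : S)) hxy))

/-- The vanishing theorem for arboreal groups with a virtually poly-`ℤ` kernel. -/
theorem inL_arb {P : Type u} [Group P] (hP : Arb P) (hB : Bur P) {Γ D : Type u} [Group Γ]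
    [Group D] (δ : Γ →* D) (β : Γ →* P) (n : ℕ) (hV : VK n δ β) : H19.InL Γ := by
  refine ((TT.main.{u}).2.2.2.1 Γ).2.2.2.2.1 fun T => ⟨Subgroup.closure (T : Set Γ),
    fun s hs => Subgroup.subset_closure hs, ?_⟩
  have hfg : Group.FG (Subgroup.closure (T : Set Γ)) := (Group.fg_iff_subgroup_fg _).2 ⟨T, rfl⟩
  let H := Subgroup.closure (T : Set Γ)
  obtain ⟨ι, _, T', hT'⟩ := hP H (β.comp H.subtype)
  refine ER71.trees_fin H ι T' fun S hS => ?_
  refine inRC_tor hB ((δ.comp H.subtype).comp S.subtype) ((β.comp H.subtype).comp S.subtype) n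
    ((hV.comp H.subtype Subtype.val_injective).comp S.subtype Subtype.val_injective) fun g =>
      hT' g.1 (hS g.1 g.2)

/-- Torsionfree groups with a pair of rank one over a field of positive characteristic with a
virtually poly-`ℤ` kernel. -/
theorem posV {K : Type u} [Field K] (p : ℕ) (hp : 0 < p) (hpK : (p : K) = 0) {r : ℕ}
    (d : Fin r → ℕ) {Γ : Type u} [Group Γ] (htf : TorsionFree Γ)
    (τ : Γ →* GL (Σ k : Fin r, (Fin (d k) → Fin 2)) K)
    (htri : ∀ g, (τ g).1.BlockTriangular Sigma.fst) (γ : Γ →* PGL(Fin 2, K))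
    (hR : ∀ g k, ∃ (B : GL (Fin 2) K) (c : K), ProjGenLinGroup.mk B = γ g ∧
      ∀ i j, (τ g).1 ⟨k, i⟩ ⟨k, j⟩ = c * ∏ t, B.1 (i t) (j t)) (n : ℕ)
    (hV : VZ n (τ.prod γ).ker) : H19.InL Γ := by
  let P := (τ.prod γ).range
  let τ' : P →* GL (Σ k : Fin r, (Fin (d k) → Fin 2)) K := (MonoidHom.fst _ _).comp P.subtype
  let γ' : P →* PGL(Fin 2, K) := (MonoidHom.snd _ _).comp P.subtype
  have h1 : ∀ g, (τ' g).1.BlockTriangular Sigma.fst := by
    rintro ⟨_, g, rfl⟩
    exact htri g
  have h2 : ∀ g k, ∃ (B : GL (Fin 2) K) (c : K), ProjGenLinGroup.mk B = γ' g ∧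
      ∀ i j, (τ' g).1 ⟨k, i⟩ ⟨k, j⟩ = c * ∏ t, B.1 (i t) (j t) := by
    rintro ⟨_, g, rfl⟩ k
    exact hR g k
  have h3 : ∀ g, τ' g = 1 → γ' g = 1 → g = 1 := fun g e1 e2 => Subtype.ext (Prod.ext e1 e2)
  refine inL_arb (arb_rk p hp hpK d τ' h1 γ' h2 h3) (bur_rk p hp hpK d τ' h1 γ' h2 h3)
    (MonoidHom.id Γ) (τ.prod γ).rangeRestrict n ⟨fun g m hm hg => htf g m hm hg,
      inN_of_subsingleton _ fun g => Subtype.ext g.2, fun g hg => ?_, ?_⟩
  · have h4 : g = 1 := hg
    rw [h4, map_one]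
  · refine VZ.of_injective (⟨⟨fun x => ⟨x.1, ?_⟩, rfl⟩, fun _ _ => rfl⟩ :
      ((τ.prod γ).rangeRestrict.ker.map (MonoidHom.id Γ) : Subgroup Γ) →* (τ.prod γ).ker)
        (fun x y hxy => ?_) hV
    · obtain ⟨g, hg, h4⟩ := x.2
      have h5 : g = x.1 := h4
      rw [← h5]
      exact congrArg Subtype.val (show (τ.prod γ).rangeRestrict g = 1 from hg)
    · exact Subtype.ext (congrArg (fun w : (τ.prod γ).ker => (w : Γ)) hxy)

end Pool.Agent.NegK.RK
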