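import Mathlib.Algebra.Quaternion
import Mathlib.Algebra.Ring.Semireal.Defs
import Mathlib.LinearAlgebra.Matrix.NonsingularInverse

/-! # Rotations and quaternions: statements -/

set_option autoImplicit false
set_option linter.unusedSectionVars false
set_option linter.unusedVariables false

namespace Pool.Agent.NegK.RK

universe u

open Matrix Quaternion

/-- The matrix of the rotation `v ↦ q v q*`, multiplied by the norm of `q`. -/
def rotM {E : Type u} [CommRing E] (q : ℍ[E]) : Matrix (Fin 3) (Fin 3) E :=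
  !![q.re ^ 2 + q.imI ^ 2 - q.imJ ^ 2 - q.imK ^ 2, 2 * (q.imI * q.imJ - q.re * q.imK),
      2 * (q.imI * q.imK + q.re * q.imJ);
    2 * (q.imI * q.imJ + q.re * q.imK), q.re ^ 2 - q.imI ^ 2 + q.imJ ^ 2 - q.imK ^ 2,
      2 * (q.imJ * q.imK - q.re * q.imI);
    2 * (q.imI * q.imK - q.re * q.imJ), 2 * (q.imJ * q.imK + q.re * q.imI),
      q.re ^ 2 - q.imI ^ 2 - q.imJ ^ 2 + q.imK ^ 2]

/-- Row SOQ. Rotations are given by quaternions. -/
def SoqStatement : Prop :=
  ∀ (E : Type u) [Field E] [IsSemireal E] (g : Matrix (Fin 3) (Fin 3) E), gᵀ * g = 1 → g.det = 1 →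
    ∃ q : ℍ[E], Quaternion.normSq q ≠ 0 ∧ rotM q = Quaternion.normSq q • g

end Pool.Agent.NegK.RK
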