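import Pool.Agent.Lib.MP_28303a_al.RK.LinTT

/-! # Trees for homomorphisms to `PGL₂` over a field of characteristic zero -/

set_option autoImplicit false
set_option linter.unusedSectionVars false
set_option linter.unusedVariables false

namespace Pool.Agent.NegK.RK

universe u

open Matrix
open scoped MatrixGroups
open Pool.Agent.NegK.TW Pool.Agent.NegK.TT Pool.Agent.NegK.NT Pool.Agent.NegK.AP
open H1 (TD)

/-- Integral traces: one element. -/
theorem int_of_liftI {K : Type u} [Field K] {L : Type u} [Field L] (i : K →+* L)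
    {C : GL (Fin 2) L} (hdet : C.1.det = 1) (hint : IsIntegral ℤ C.1.trace) {A : GL (Fin 2) K}
    (h1 : ProjGenLinGroup.mk (GeneralLinearGroup.map i A) = ProjGenLinGroup.mk C) :
    IsIntegral ℤ (A.1.trace ^ 2 / A.1.det) := by
  obtain ⟨c, hc⟩ := PL.exists_scalar h1
  have hA' : ∀ a b, (GeneralLinearGroup.map i A).1 a b = i (A.1 a b) := fun a b => rfl
  have e1 : C.1.trace = c * i A.1.trace := by
    rw [Matrix.trace_fin_two, Matrix.trace_fin_two, hc, hc, hA', hA', map_add]
    ring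
  have e2 : 1 = c ^ 2 * i A.1.det := by
    rw [← hdet, Matrix.det_fin_two, Matrix.det_fin_two, hc, hc, hc, hc, hA', hA', hA', hA',
      map_sub, map_mul, map_mul]
    ring
  have hA0 : A.1.det ≠ 0 := ((Matrix.isUnit_iff_isUnit_det _).1 A.isUnit).ne_zero
  have e3 : i (A.1.trace ^ 2 / A.1.det) = C.1.trace ^ 2 := by
    have h2 : i A.1.det ≠ 0 := by
      rw [Ne, map_eq_zero]
      exact hA0
    rw [map_div₀, map_pow, e1, div_eq_iff h2]
    linear_combination (i A.1.trace) ^ 2 * e2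
  refine (isIntegral_algHom_iff (i.toIntAlgHom) i.injective).1 ?_
  show IsIntegral ℤ (i (A.1.trace ^ 2 / A.1.det))
  rw [e3]
  exact hint.pow 2

/-- The trees of a homomorphism to `PGL₂(K)`. -/
theorem trees_pglI {K : Type u} [Field K] [hc : CharZero K] (Γ : Type u) [Group Γ]
    [hfg : Group.FG Γ] (γ : Γ →* PGL(Fin 2, K)) :
    ∃ (ι : Type) (_ : Finite ι) (T : ι → TD Γ), ∀ g, (∀ a, (T a).Ell g) →
      ∀ B : GL (Fin 2) K, ProjGenLinGroup.mk B = γ g →
        IsIntegral ℤ (B.1.trace ^ 2 / B.1.det) := by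
  let L := AlgebraicClosure K
  have hcz : CharZero L := charZero_of_injective_algebraMap (algebraMap K L).injective
  obtain ⟨Δ, _, π, q, z, hπ, hdet, hq, hz, hz', hker', hfin, hfgΔ⟩ :=
    P2.exists_lift ((ProjGenLinGroup.map (algebraMap K L)).comp γ)
  have hfg' : Group.FG Δ := hfgΔ hfg
  obtain ⟨S1, hS1⟩ := hfg'.out
  obtain ⟨E, hE⟩ := NT5.entries q S1
  obtain ⟨L0, _, _, ι, F, m, v, ψ0, -, -, hFv, hFB, hψ0⟩ :=
    P2.exists_field q E fun g i j => hE g (by rw [hS1]; exact Subgroup.mem_top g) i j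
  have hmap : ∀ (g : Δ) i j, ι ((ψ0 g).1 i j) = (q g).1 i j := fun g i j => by
    rw [← hψ0]
    rfl
  have htr : ∀ g, ι (Matrix.trace (ψ0 g).1) = Matrix.trace (q g).1 := fun g => by
    rw [Matrix.trace_fin_two, Matrix.trace_fin_two, map_add, hmap, hmap]
  have hdt : ∀ g, (ψ0 g).1.det = 1 := fun g => by
    apply ι.injective
    rw [Matrix.det_fin_two, map_sub, map_mul, map_mul, hmap, hmap, hmap, hmap,
      ← Matrix.det_fin_two, map_one]
    exact hdet g
  choose T1 hT1 using fun a => H1.exists_TD_gl L0 (v a)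
  choose D1 i1 hi1 he1 ha1 using fun a => P2.exists_desc π hπ hfin ((T1 a).comp ψ0)
  refine ⟨Fin m, inferInstance, D1, fun s hs B hB => ?_⟩
  obtain ⟨g, hg⟩ := hπ s
  have hint : IsIntegral ℤ (q g).1.trace := by
    rw [← htr]
    refine IsIntegral.map ι.toIntAlgHom (hFv _ ?_ fun b => ?_)
    · rw [Matrix.trace_fin_two]
      exact Subring.add_mem _ (hFB g 0 0) (hFB g 1 1)
    · obtain ⟨x, hx⟩ := hs b
      refine hT1 b (ψ0 g) ⟨i1 b x, (he1 b g x).symm.trans ?_⟩ ?_
      · rw [hg]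
        exact congrArg (i1 b) hx
      · rw [hdt, map_one]
  refine int_of_liftI (algebraMap K L) (hdet g) hint ?_
  rw [hq, hg, ← ProjGenLinGroup.map_mk, hB]
  rfl

end Pool.Agent.NegK.RK
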