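import Pool.Agent.Lib.MP_28303a_al.RK.Soq
import Pool.Agent.Lib.MP_28303a_al.RK.Tot
import Pool.Agent.Lib.MP_28303a_al.RK.TreeI
import Pool.Agent.Lib.MP_28303a_al.RK.Arb

/-! # Orthogonal groups of formally real fields are arboreal -/

set_option autoImplicit false
set_option linter.unusedSectionVars false
set_option linter.unusedVariables false

namespace Pool.Agent.NegK.RK.Soa

universe u

open Matrix Quaternion
open scoped MatrixGroups
open Pool.Agent.NegK.TW Pool.Agent.NegK.TT Pool.Agent.NegK.NT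
open H1 (TD)

/-! ### Sums of squares -/

section

variable {E : Type u} [Field E] [IsSemireal E]

theorem ss0 {a b : E} (ha : IsSumSq a) (hb : IsSumSq b) (h : a + b = 0) : a = 0 := by
  by_contra h0
  have h1 : IsSumSq (b * a * (a⁻¹ * a⁻¹)) := (hb.mul ha).mul (IsSumSq.mul_self _)
  refine IsSemireal.one_add_ne_zero h1 ?_
  have h2 : b = -a := by linear_combination h
  rw [h2]
  field_simp
  ring

theorem ssq (a : E) : IsSumSq (a ^ 2) := by
  rw [sq]
  exact IsSumSq.mul_self a

theorem sq0 {a b : E} (hb : IsSumSq b) (h : a ^ 2 + b = 0) : a = 0 :=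
  pow_eq_zero_iff two_ne_zero |>.1 (ss0 (ssq a) hb h)

theorem charZ : CharZero E := charZero_of_inj_zero fun n hn => by
  rcases n with _ | n
  · rfl
  · refine absurd ?_ (IsSemireal.one_add_ne_zero (IsSumSq.natCast (R := E) n))
    rw [add_comm, ← Nat.cast_succ]
    exact hn

end

/-! ### Rotations -/

section

variable {E : Type u} [Field E]

theorem rotM_mul (p q : ℍ[E]) : rotM (p * q) = rotM p * rotM q := by
  ext i j
  rw [Matrix.mul_apply, Fin.sum_univ_three]
  fin_cases i <;> fin_cases j <;>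
    simp [rotM, Quaternion.re_mul, Quaternion.imI_mul, Quaternion.imJ_mul,
      Quaternion.imK_mul] <;> ring

theorem rotM_star (q : ℍ[E]) : rotM (star q) = (rotM q)ᵀ := by
  ext i j
  fin_cases i <;> fin_cases j <;> simp [rotM, -mul_eq_mul_left_iff] <;> ring

theorem rotM_coe (c : E) : rotM (c : ℍ[E]) = c ^ 2 • (1 : Matrix (Fin 3) (Fin 3) E) := by
  ext i j
  fin_cases i <;> fin_cases j <;> simp [rotM]

theorem rotM_pow (q : ℍ[E]) (n : ℕ) : rotM (q ^ n) = rotM q ^ n := by
  induction n with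
  | zero =>
    rw [pow_zero, pow_zero]
    have h := rotM_coe (1 : E)
    rw [one_pow, one_smul] at h
    exact h
  | succ n ih => rw [pow_succ, pow_succ, rotM_mul, ih]

theorem trace_rotM (q : ℍ[E]) : (rotM q).trace = 4 * q.re ^ 2 - Quaternion.normSq q := by
  rw [Quaternion.normSq_def', Matrix.trace_fin_three]
  simp [rotM]
  ring

variable [IsSemireal E]

/-- The quaternion is unique up to scalars. -/
theorem rot_inj {p q : ℍ[E]} (hp : Quaternion.normSq p ≠ 0) (hq : Quaternion.normSq q ≠ 0)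
    {g : Matrix (Fin 3) (Fin 3) E} (hg : g * gᵀ = 1) (h1 : rotM p = Quaternion.normSq p • g)
    (h2 : rotM q = Quaternion.normSq q • g) : ∃ c : E, c ≠ 0 ∧ p = (c : ℍ[E]) * q := by
  have hc : CharZero E := charZ
  let r := p * star q
  have hr : rotM r = Quaternion.normSq r • (1 : Matrix (Fin 3) (Fin 3) E) := by
    show rotM (p * star q) = _
    rw [rotM_mul, rotM_star, h1, h2, Matrix.transpose_smul, Matrix.smul_mul, Matrix.mul_smul, hg,
      smul_smul, ← Quaternion.normSq_star (a := q), ← map_mul]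
  have hN : Quaternion.normSq r = r.re ^ 2 + r.imI ^ 2 + r.imJ ^ 2 + r.imK ^ 2 :=
    Quaternion.normSq_def' r
  have e0 : r.re ^ 2 + r.imI ^ 2 - r.imJ ^ 2 - r.imK ^ 2 = Quaternion.normSq r := by
    have h := congrFun (congrFun hr 0) 0
    simpa [rotM] using h
  have e1 : r.re ^ 2 - r.imI ^ 2 + r.imJ ^ 2 - r.imK ^ 2 = Quaternion.normSq r := by
    have h := congrFun (congrFun hr 1) 1
    simpa [rotM] using h
  have k2 : r.imJ ^ 2 + r.imK ^ 2 = 0 := by linear_combination (-1 / 2) * e0 + (-1 / 2) * hN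
  have k3 : r.imI ^ 2 + r.imK ^ 2 = 0 := by linear_combination (-1 / 2) * e1 + (-1 / 2) * hN
  have hJ : r.imJ = 0 := sq0 (ssq _) k2
  have hI : r.imI = 0 := sq0 (ssq _) k3
  have hK : r.imK = 0 := by
    rw [hI] at k3
    have h : r.imK ^ 2 = 0 := by linear_combination k3
    exact pow_eq_zero_iff two_ne_zero |>.1 h
  have hr' : r = (r.re : ℍ[E]) := by
    ext
    · rfl
    · rw [Quaternion.imI_coe, hI]
    · rw [Quaternion.imJ_coe, hJ]
    · rw [Quaternion.imK_coe, hK]
  have hr0 : r.re ≠ 0 := by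
    intro h
    have h3 : r = 0 := by rw [hr', h, Quaternion.coe_zero]
    have h4 : Quaternion.normSq r = Quaternion.normSq p * Quaternion.normSq q := by
      show Quaternion.normSq (p * star q) = _
      rw [map_mul, Quaternion.normSq_star]
    rw [h3, map_zero] at h4
    exact mul_ne_zero hp hq h4.symm
  refine ⟨r.re / Quaternion.normSq q, div_ne_zero hr0 hq, ?_⟩
  have h5 : p * ((Quaternion.normSq q : E) : ℍ[E]) = (r.re : ℍ[E]) * q := by
    rw [← hr', ← Quaternion.star_mul_self, ← mul_assoc]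
  have h6 : ((r.re / Quaternion.normSq q : E) : ℍ[E]) * ((Quaternion.normSq q : E) : ℍ[E]) =
      (r.re : ℍ[E]) := by
    rw [← Quaternion.coe_mul, div_mul_cancel₀ _ hq]
  have h7 : ((Quaternion.normSq q : E) : ℍ[E]) * (((Quaternion.normSq q)⁻¹ : E) : ℍ[E]) = 1 := by
    rw [← Quaternion.coe_mul, mul_inv_cancel₀ hq, Quaternion.coe_one]
  calc p = p * (((Quaternion.normSq q : E) : ℍ[E]) * (((Quaternion.normSq q)⁻¹ : E) : ℍ[E])) := by
        rw [h7, mul_one]
    _ = (r.re : ℍ[E]) * q * (((Quaternion.normSq q)⁻¹ : E) : ℍ[E]) := by rw [← mul_assoc, h5]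
    _ = (r.re : ℍ[E]) * ((((Quaternion.normSq q)⁻¹ : E) : ℍ[E]) * q) := by
        rw [mul_assoc, Quaternion.coe_commutes (Quaternion.normSq q)⁻¹ q]
    _ = ((r.re / Quaternion.normSq q : E) : ℍ[E]) * q := by
        rw [← mul_assoc, ← Quaternion.coe_mul, div_eq_mul_inv]

end

/-! ### Matrices of quaternions -/

section

variable {E : Type u} [Field E] {L : Type u} [Field L] (a : E →+* L) (I : L)

/-- The matrix of a quaternion. -/
def qm (q : ℍ[E]) : Matrix (Fin 2) (Fin 2) L :=
  !![a q.re + a q.imI * I, a q.imJ + a q.imK * I; -a q.imJ + a q.imK * I, a q.re - a q.imI * I]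

variable (hI : I * I = -1)

include hI in
theorem qm_mul (p q : ℍ[E]) : qm a I (p * q) = qm a I p * qm a I q := by
  ext i j
  rw [Matrix.mul_apply, Fin.sum_univ_two]
  fin_cases i <;> fin_cases j <;> simp only [qm, Quaternion.re_mul, Quaternion.imI_mul,
      Quaternion.imJ_mul, Quaternion.imK_mul, map_add, map_sub, map_mul, Matrix.of_apply,
      Matrix.cons_val', Matrix.cons_val_zero, Matrix.cons_val_one, Matrix.cons_val_fin_one,
      Fin.zero_eta, Fin.mk_one, Fin.isValue]
  · linear_combination (-(a p.imI * a q.imI + a p.imK * a q.imK)) * hI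
  · linear_combination (-(a p.imI * a q.imK - a p.imK * a q.imI)) * hI
  · linear_combination (a p.imI * a q.imK - a p.imK * a q.imI) * hI
  · linear_combination (-(a p.imI * a q.imI + a p.imK * a q.imK)) * hI

include hI in
theorem det_qm (q : ℍ[E]) : (qm a I q).det = a (Quaternion.normSq q) := by
  rw [Matrix.det_fin_two, Quaternion.normSq_def', qm]
  simp only [map_add, map_pow, Matrix.of_apply, Matrix.cons_val', Matrix.cons_val_zero,
    Matrix.cons_val_one, Matrix.cons_val_fin_one]
  linear_combination (-(a q.imI ^ 2 + a q.imK ^ 2)) * hI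

theorem trace_qm (q : ℍ[E]) : (qm a I q).trace = a (2 * q.re) := by
  rw [Matrix.trace_fin_two, qm]
  simp only [map_mul, map_ofNat, Matrix.of_apply, Matrix.cons_val', Matrix.cons_val_zero,
    Matrix.cons_val_one, Matrix.cons_val_fin_one]
  ring

theorem qm_coe (c : E) : qm a I (c : ℍ[E]) = Matrix.scalar (Fin 2) (a c) := by
  ext i j
  fin_cases i <;> fin_cases j <;> simp [qm]

end

/-! ### The homomorphism to `PGL₂` -/

section

variable {E : Type u} [Field E] [IsSemireal E] {L : Type u} [Field L] (a : E →+* L) (I : L)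
  (hI : I * I = -1)

include hI in
theorem exists_gamma {B : Type u} [Group B] (β : B →* SpecialLinearGroup (Fin 3) E)
    (h : ∀ g, (β g).1ᵀ * (β g).1 = 1) : ∃ γ : B →* PGL(Fin 2, L), ∀ g, ∃ A : GL (Fin 2) L,
      ProjGenLinGroup.mk A = γ g ∧ A.1.trace ^ 2 / A.1.det = a ((β g).1.trace + 1) := by
  choose q hq hR using fun g => soq E (β g).1 (h g) (β g).2
  have hd : ∀ g, (qm a I (q g)).det ≠ 0 := fun g => by
    rw [det_qm a I hI]
    exact (map_ne_zero a).2 (hq g)
  let Q : B → GL (Fin 2) L := fun g => GeneralLinearGroup.mkOfDetNeZero _ (hd g)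
  have hmul : ∀ g g', ProjGenLinGroup.mk (Q (g * g')) =
      ProjGenLinGroup.mk (Q g) * ProjGenLinGroup.mk (Q g') := by
    intro g g'
    obtain ⟨c, hc, h1⟩ := rot_inj (p := q (g * g')) (q := q g * q g') (hq _) (by
      rw [map_mul]
      exact mul_ne_zero (hq g) (hq g')) (mul_eq_one_comm.1 (h (g * g'))) (hR _) (by
      have h5 : (β (g * g')).1 = (β g).1 * (β g').1 := by
        rw [map_mul]
        rfl
      rw [rotM_mul, hR, hR, h5, map_mul, Matrix.smul_mul, Matrix.mul_smul, smul_smul])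
    have hac : a c ≠ 0 := (map_ne_zero a).2 hc
    have h2 : Q (g * g') = GeneralLinearGroup.scalar (Fin 2) (Units.mk0 (a c) hac) *
        (Q g * Q g') := by
      refine Units.ext ?_
      show qm a I (q (g * g')) = Matrix.scalar (Fin 2) (a c) * (qm a I (q g) * qm a I (q g'))
      rw [h1, qm_mul a I hI, qm_mul a I hI, qm_coe]
    rw [h2, map_mul, map_mul, ProjGenLinGroup.mk_scalar, one_mul]
  refine ⟨MonoidHom.mk' (fun g => ProjGenLinGroup.mk (Q g)) hmul, fun g => ⟨Q g, rfl, ?_⟩⟩
  show (qm a I (q g)).trace ^ 2 / (qm a I (q g)).det = _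
  rw [trace_qm, det_qm a I hI, ← map_pow, ← map_div₀]
  congr 1
  have h1 := trace_rotM (q g)
  rw [hR, Matrix.trace_smul, smul_eq_mul] at h1
  rw [div_eq_iff (hq g)]
  linear_combination -h1

end

/-! ### Orthogonal matrices -/

section

variable {E : Type u} [Field E] [IsSemireal E]

theorem sum0 {ι : Type*} (s : Finset ι) (f : ι → E) (hf : ∀ i ∈ s, IsSumSq (f i))
    (h : ∑ i ∈ s, f i = 0) : ∀ i ∈ s, f i = 0 := by
  classical
  intro i hi
  rw [← Finset.add_sum_erase s f hi] at h
  exact ss0 (hf i hi) (IsSumSq.sum fun j hj => hf j (Finset.mem_of_mem_erase hj)) h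

variable {n : Type} [Fintype n]

theorem ss_trace (A : Matrix n n E) : IsSumSq (A * Aᵀ).trace := by
  rw [Matrix.trace]
  refine IsSumSq.sum fun i _ => ?_
  rw [Matrix.diag_apply, Matrix.mul_apply]
  exact IsSumSq.sum fun j _ => IsSumSq.mul_self _

theorem eq0_trace (A : Matrix n n E) (h : (A * Aᵀ).trace = 0) : A = 0 := by
  ext i j
  rw [Matrix.trace] at h
  have h1 := sum0 Finset.univ (fun i => (A * Aᵀ).diag i) (fun i _ => by
    rw [Matrix.diag_apply, Matrix.mul_apply]
    exact IsSumSq.sum fun j _ => IsSumSq.mul_self _) h i (Finset.mem_univ i)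
  rw [Matrix.diag_apply, Matrix.mul_apply] at h1
  have h2 := sum0 Finset.univ (fun j => A i j * Aᵀ j i) (fun j _ => IsSumSq.mul_self _) h1 j
    (Finset.mem_univ j)
  exact mul_self_eq_zero.1 h2

variable [DecidableEq n]

theorem trace_sub (A : Matrix n n E) (hA : A * Aᵀ = 1) :
    ((1 - A) * (1 - A)ᵀ).trace = 2 * (Fintype.card n - A.trace) := by
  rw [Matrix.transpose_sub, Matrix.transpose_one, sub_mul, mul_sub, mul_sub, one_mul, mul_one,
    one_mul, hA, Matrix.trace_sub, Matrix.trace_sub, Matrix.trace_sub, Matrix.trace_one,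
    Matrix.trace_transpose]
  ring

theorem trace_add (A : Matrix n n E) (hA : A * Aᵀ = 1) :
    ((1 + A) * (1 + A)ᵀ).trace = 2 * (Fintype.card n + A.trace) := by
  rw [Matrix.transpose_add, Matrix.transpose_one, add_mul, mul_add, mul_add, one_mul, mul_one,
    one_mul, hA, Matrix.trace_add, Matrix.trace_add, Matrix.trace_add, Matrix.trace_one,
    Matrix.trace_transpose]
  ring

theorem ss_half {x : E} (h : IsSumSq (2 * x)) : IsSumSq x := by
  have hc : CharZero E := charZ
  have h1 : x = 2 * x * (2 * ((2 : E)⁻¹ * (2 : E)⁻¹)) := by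
    field_simp
  rw [h1]
  exact h.mul ((IsSumSq.natCast (R := E) 2).mul (IsSumSq.mul_self _))

theorem ss_card_sub (A : Matrix n n E) (hA : A * Aᵀ = 1) :
    IsSumSq ((Fintype.card n : E) - A.trace) :=
  ss_half (trace_sub A hA ▸ ss_trace (1 - A))

theorem ss_card_add (A : Matrix n n E) (hA : A * Aᵀ = 1) :
    IsSumSq ((Fintype.card n : E) + A.trace) :=
  ss_half (trace_add A hA ▸ ss_trace (1 + A))

theorem eq_one_of_trace (A : Matrix n n E) (hA : A * Aᵀ = 1) (h : A.trace = Fintype.card n) :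
    A = 1 := by
  have h1 := eq0_trace (1 - A) (by rw [trace_sub A hA, h, sub_self, mul_zero])
  exact (sub_eq_zero.1 h1).symm

theorem pow_orth (A : Matrix n n E) (hA : A * Aᵀ = 1) (m : ℕ) : A ^ m * (A ^ m)ᵀ = 1 := by
  induction m with
  | zero => rw [pow_zero, Matrix.transpose_one, mul_one]
  | succ m ih =>
    rw [pow_succ, Matrix.transpose_mul, mul_assoc, ← mul_assoc A, hA, one_mul, ih]

end

section

variable {E : Type u} [Field E]

/-- The second coefficient of the characteristic polynomial. -/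
def e2 (A : Matrix (Fin 3) (Fin 3) E) : E :=
  A 0 0 * A 1 1 - A 0 1 * A 1 0 + (A 0 0 * A 2 2 - A 0 2 * A 2 0) +
    (A 1 1 * A 2 2 - A 1 2 * A 2 1)

theorem ch3 (A : Matrix (Fin 3) (Fin 3) E) :
    A * A * A = A.trace • (A * A) - e2 A • A + A.det • (1 : Matrix (Fin 3) (Fin 3) E) := by
  rw [Matrix.det_fin_three, Matrix.trace_fin_three, e2]
  ext i j
  fin_cases i <;> fin_cases j <;>
    simp [Matrix.mul_apply, Fin.sum_univ_three] <;> ring

theorem trace_sq (A : Matrix (Fin 3) (Fin 3) E) : (A * A).trace = A.trace ^ 2 - 2 * e2 A := by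
  rw [Matrix.trace_fin_three, Matrix.trace_fin_three, e2]
  simp only [Matrix.mul_apply, Fin.sum_univ_three]
  ring

theorem e2_eq (A : Matrix (Fin 3) (Fin 3) E) (h : Aᵀ * A = 1) (hd : A.det = 1) :
    e2 A = A.trace := by
  have h1 : A.adjugate = Aᵀ := by
    have h2 := Matrix.mul_adjugate A
    rw [hd, one_smul] at h2
    calc A.adjugate = Aᵀ * A * A.adjugate := by rw [h, one_mul]
      _ = Aᵀ := by rw [mul_assoc, h2, mul_one]
  have h3 : A.adjugate.trace = e2 A := by
    rw [Matrix.adjugate_fin_three, Matrix.trace_fin_three, e2]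
    simp
    ring
  rw [← h3, h1, Matrix.trace_transpose]

theorem rec3 (A : Matrix (Fin 3) (Fin 3) E) (h : Aᵀ * A = 1) (hd : A.det = 1) (m : ℕ) :
    (A ^ (m + 3)).trace = A.trace * (A ^ (m + 2)).trace - A.trace * (A ^ (m + 1)).trace +
      (A ^ m).trace := by
  have h1 := congrArg (fun X => (A ^ m * X).trace) (ch3 A)
  simp only [e2_eq A h hd, hd, one_smul, mul_add, mul_sub, Matrix.mul_smul, mul_one,
    Matrix.trace_add, Matrix.trace_sub, Matrix.trace_smul, smul_eq_mul] at h1
  rw [← mul_assoc, ← mul_assoc, ← pow_succ, ← pow_succ, ← pow_succ] at h1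
  exact h1

end

/-- A rotation with integral trace over a totally real field has a finite order. -/
theorem fin_ord {E : Type u} [Field E] (hE : TotReal E) (A : Matrix (Fin 3) (Fin 3) E)
    (h : Aᵀ * A = 1) (hd : A.det = 1) (ht : IsIntegral ℤ A.trace) : ∃ M, 0 < M ∧ A ^ M = 1 := by
  have hsr : IsSemireal E := hE.semireal
  have hc : CharZero E := hE.char
  have h' : A * Aᵀ = 1 := mul_eq_one_comm.1 h
  let c : ℕ → E := fun m => (A ^ m).trace
  have c0 : c 0 = 3 := by
    show (A ^ 0).trace = 3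
    rw [pow_zero, Matrix.trace_one, Fintype.card_fin]
    norm_num
  have c1 : c 1 = A.trace := by
    show (A ^ 1).trace = _
    rw [pow_one]
  have c2 : c 2 = A.trace ^ 2 - 2 * A.trace := by
    show (A ^ 2).trace = _
    rw [sq A, trace_sq, e2_eq A h hd]
  have hrec : ∀ m, c (m + 3) = A.trace * c (m + 2) - A.trace * c (m + 1) + c m := rec3 A h hd
  have key : ∀ S : Subring E, A.trace ∈ S → ∀ m, c m ∈ S := by
    intro S hS m
    suffices h3 : c m ∈ S ∧ c (m + 1) ∈ S ∧ c (m + 2) ∈ S from h3.1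
    induction m with
    | zero =>
      refine ⟨?_, ?_, ?_⟩
      · rw [c0]
        exact natCast_mem S 3
      · rw [zero_add, c1]
        exact hS
      · rw [zero_add, c2]
        exact S.sub_mem (S.pow_mem hS 2) (S.mul_mem (natCast_mem S 2) hS)
    | succ m ih =>
      refine ⟨ih.2.1, ih.2.2, ?_⟩
      rw [show m + 1 + 2 = m + 3 from rfl, hrec]
      exact S.add_mem (S.sub_mem (S.mul_mem hS ih.2.2) (S.mul_mem hS ih.2.1)) ih.1
  have hfin := hE.finite A.trace ht 3
  obtain ⟨M, hM, h1⟩ := exists_period (fun m => (c m, c (m + 1), c (m + 2)))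
    (_ ×ˢ (_ ×ˢ _)) (hfin.prod (hfin.prod hfin)) (fun m => by
      have hmem : ∀ m, c m ∈ {c : E | c ∈ IntermediateField.adjoin ℚ {A.trace} ∧
          IsIntegral ℤ c ∧ IsSumSq (((3 : ℕ) : E) + c) ∧ IsSumSq (((3 : ℕ) : E) - c)} := by
        intro m
        refine ⟨key (IntermediateField.adjoin ℚ {A.trace}).toSubring
            (IntermediateField.mem_adjoin_simple_self ℚ _) m,
          key (integralClosure ℤ E).toSubring ht m, ?_, ?_⟩
        · exact ss_card_add (A ^ m) (pow_orth A h' m)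
        · exact ss_card_sub (A ^ m) (pow_orth A h' m)
      exact ⟨hmem m, hmem (m + 1), hmem (m + 2)⟩)
    (fun x => (x.2.2 - A.trace * x.2.1 + A.trace * x.1, x.1, x.2.1)) (fun m => by
      refine Prod.ext ?_ (Prod.ext rfl rfl)
      show c m = c (m + 1 + 2) - A.trace * c (m + 1 + 1) + A.trace * c (m + 1)
      rw [show m + 1 + 2 = m + 3 from rfl, hrec]
      ring)
  refine ⟨M, hM, eq_one_of_trace (A ^ M) (pow_orth A h' M) ?_⟩
  have h2 : c M = c 0 := congrArg Prod.fst h1
  show c M = _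
  rw [h2, c0, Fintype.card_fin]
  norm_num

theorem sl_pow {E : Type u} [Field E] (A : SpecialLinearGroup (Fin 3) E) (M : ℕ) :
    (A ^ M).1 = A.1 ^ M := by
  induction M with
  | zero =>
    rw [pow_zero, pow_zero]
    rfl
  | succ M ih =>
    rw [pow_succ, pow_succ, ← ih]
    rfl

/-- Theorem SO. The groups of rotations over totally real fields are arboreal. -/
theorem arb_so3 {E : Type u} [Field E] (hE : TotReal E) {B : Type u} [Group B]
    (β : B →* SpecialLinearGroup (Fin 3) E) (h : ∀ g, (β g).1ᵀ * (β g).1 = 1)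
    (hb : Function.Injective β) : Arb B := by
  have hsr : IsSemireal E := hE.semireal
  have hc : CharZero E := hE.char
  let L := AlgebraicClosure E
  have hcL : CharZero L := charZero_of_injective_algebraMap (algebraMap E L).injective
  obtain ⟨I, hI⟩ := IsAlgClosed.exists_pow_nat_eq (-1 : L) (n := 2) two_pos
  obtain ⟨γ, hγ⟩ := exists_gamma (algebraMap E L) I (by rw [← sq, hI]) β h
  intro G _ _ f
  obtain ⟨ι, hι, T, hT⟩ := trees_pglI G (γ.comp f)
  refine ⟨ι, hι, T, fun g hg => ?_⟩
  obtain ⟨A, hA, h1⟩ := hγ (f g)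
  have h2 := hT g hg A hA
  rw [h1] at h2
  have h3 : IsIntegral ℤ ((β (f g)).1.trace + 1) :=
    (isIntegral_algHom_iff ((algebraMap E L).toIntAlgHom) (algebraMap E L).injective).1 h2
  have h4 : IsIntegral ℤ (β (f g)).1.trace := by
    have h5 := h3.sub (isIntegral_one (R := ℤ) (B := E))
    rwa [add_sub_cancel_right] at h5
  obtain ⟨M, hM, h5⟩ := fin_ord hE (β (f g)).1 (h _) (β (f g)).2 h4
  refine ⟨M, hM, hb ?_⟩
  rw [map_pow, map_one]
  exact Subtype.ext ((sl_pow _ _).trans h5)

end Pool.Agent.NegK.RK.Soa
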