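import Pool.Agent.Lib.MP_28303a_al.RK.SoDefs
import Mathlib.LinearAlgebra.Matrix.Adjugate
import Mathlib.Tactic.LinearCombination
import Mathlib.Tactic.FieldSimp
import Mathlib.Tactic.Ring

/-!
# Row SOQ: the rotations over a formally real field are given by quaternions
-/

set_option autoImplicit false

namespace Pool.Agent.NegK.RK

open Matrix Quaternion

universe u

variable {E : Type u} [Field E]

theorem soq_two_ne [IsSemireal E] : (2 : E) ≠ 0 := by
  have h : (1 : E) + 1 ≠ 0 := by
    have h1 := IsSemireal.one_add_ne_zero (IsSumSq.mul_self (1 : E))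
    rwa [one_mul] at h1
  rwa [one_add_one_eq_two] at h

theorem soq_sq3 [IsSemireal E] {x y z : E} (h : x ^ 2 + y ^ 2 + z ^ 2 = 0) : x = 0 := by
  by_contra hx
  have h1 : (1 : E) + ((y / x) * (y / x) + (z / x) * (z / x)) ≠ 0 :=
    IsSemireal.one_add_ne_zero ((IsSumSq.mul_self _).add (IsSumSq.mul_self _))
  apply h1
  field_simp
  linear_combination h

/-- The quaternion of a rotation, in terms of the entries of its matrix. -/
theorem soq_entries [IsSemireal E] {a b c d e f p q r : E}
    (C00 : e * r - f * q = a) (C01 : -(b * r) + c * q = d) (C02 : b * f - c * e = p)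
    (C10 : -(d * r) + f * p = b) (C11 : a * r - c * p = e) (C12 : -(a * f) + c * d = q)
    (C20 : d * q - e * p = c) (C21 : -(a * q) + b * p = f) (C22 : a * e - b * d = r)
    (K00 : a * a + d * d + p * p = 1) (K11 : b * b + e * e + q * q = 1)
    (K22 : c * c + f * f + r * r = 1) (K01 : a * b + d * e + p * q = 0)
    (K02 : a * c + d * f + p * r = 0) (K12 : b * c + e * f + q * r = 0)
    (R00 : a * a + b * b + c * c = 1) (R11 : d * d + e * e + f * f = 1)
    (R22 : p * p + q * q + r * r = 1) (R01 : a * d + b * e + c * f = 0)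
    (R02 : a * p + b * q + c * r = 0) (R12 : d * p + e * q + f * r = 0) :
    ∃ w x y z N : E, N ≠ 0 ∧ w ^ 2 + x ^ 2 + y ^ 2 + z ^ 2 = N ∧
      w ^ 2 + x ^ 2 - y ^ 2 - z ^ 2 = N * a ∧ 2 * (x * y - w * z) = N * b ∧
      2 * (x * z + w * y) = N * c ∧ 2 * (x * y + w * z) = N * d ∧
      w ^ 2 - x ^ 2 + y ^ 2 - z ^ 2 = N * e ∧ 2 * (y * z - w * x) = N * f ∧
      2 * (x * z - w * y) = N * p ∧ 2 * (y * z + w * x) = N * q ∧
      w ^ 2 - x ^ 2 - y ^ 2 + z ^ 2 = N * r := by
  have h2 : (2 : E) ≠ 0 := soq_two_ne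
  by_cases ht : 1 + (a + e + r) = 0
  · have hN : (q - f) ^ 2 + (c - p) ^ 2 + (d - b) ^ 2 = 0 := by
      linear_combination R00 + R11 + R22 + 2 * C00 + 2 * C11 + 2 * C22 +
        (4 - (1 + (a + e + r))) * ht
    have hx : q - f = 0 := soq_sq3 hN
    have hy : c - p = 0 := by
      refine soq_sq3 (y := q - f) (z := d - b) ?_
      linear_combination hN
    have hz : d - b = 0 := by
      refine soq_sq3 (y := q - f) (z := c - p) ?_
      linear_combination hN
    obtain rfl : q = f := sub_eq_zero.mp hx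
    obtain rfl : c = p := sub_eq_zero.mp hy
    obtain rfl : d = b := sub_eq_zero.mp hz
    by_cases h0 : 1 + a = 0
    · by_cases h3 : 1 + e = 0
      · -- third column
        have h4 : 1 + r ≠ 0 := by
          intro h5
          apply h2
          linear_combination h0 + h3 + h5 - ht
        refine ⟨0, c, q, 1 + r, 2 * (1 + r), mul_ne_zero h2 h4, ?_, ?_, ?_, ?_, ?_, ?_, ?_, ?_, ?_,
          ?_⟩
        · linear_combination R22
        · linear_combination -R22 - 2 * C11 - 2 * ht
        · linear_combination 2 * C01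
        · ring
        · linear_combination 2 * C01
        · linear_combination -R22 - 2 * C00 - 2 * ht
        · ring
        · ring
        · ring
        · linear_combination -R22
      · refine ⟨0, d, 1 + e, q, 2 * (1 + e), mul_ne_zero h2 h3, ?_, ?_, ?_, ?_, ?_, ?_, ?_, ?_, ?_,
          ?_⟩
        · linear_combination R11
        · linear_combination -R11 - 2 * C22 - 2 * ht
        · ring
        · linear_combination 2 * C02
        · ring
        · linear_combination -R11
        · ring
        · linear_combination 2 * C02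
        · ring
        · linear_combination -R11 - 2 * C00 - 2 * ht
    · refine ⟨0, 1 + a, d, c, 2 * (1 + a), mul_ne_zero h2 h0, ?_, ?_, ?_, ?_, ?_, ?_, ?_, ?_, ?_,
        ?_⟩
      · linear_combination R00
      · linear_combination -R00
      · ring
      · ring
      · ring
      · linear_combination -R00 - 2 * C22 - 2 * ht
      · linear_combination 2 * C12
      · ring
      · linear_combination 2 * C12
      · linear_combination -R00 - 2 * C11 - 2 * ht
  · refine ⟨1 + (a + e + r), q - f, c - p, d - b, 2 * 2 * (1 + (a + e + r)),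
      mul_ne_zero (mul_ne_zero h2 h2) ht, ?_, ?_, ?_, ?_, ?_, ?_, ?_, ?_, ?_, ?_⟩
    · linear_combination R00 + R11 + R22 + 2 * C00 + 2 * C11 + 2 * C22
    · linear_combination R00 + R11 + R22 + 2 * C00 + 2 * C11 + 2 * C22 -
        2 * (R00 + K00 + 2 * C11 + 2 * C22)
    · linear_combination 2 * (C01 + C10 - K01 - R01)
    · linear_combination 2 * (C20 + C02 - R02 - K02)
    · linear_combination 2 * (C01 + C10 - K01 - R01)
    · linear_combination R00 + R11 + R22 + 2 * C00 + 2 * C11 + 2 * C22 -
        2 * (R11 + K11 + 2 * C00 + 2 * C22)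
    · linear_combination 2 * (C12 + C21 - K12 - R12)
    · linear_combination 2 * (C20 + C02 - R02 - K02)
    · linear_combination 2 * (C12 + C21 - K12 - R12)
    · linear_combination R00 + R11 + R22 + 2 * C00 + 2 * C11 + 2 * C22 -
        2 * (R22 + K22 + 2 * C00 + 2 * C11)

/-- Row SOQ. Rotations are given by quaternions. -/
theorem soq : SoqStatement.{u} := by
  intro E _ _ g h hd
  have h1 : g * gᵀ = 1 := mul_eq_one_comm.mp h
  have hA : g.adjugate = gᵀ := by
    have h2 : g * g.adjugate = 1 := by rw [Matrix.mul_adjugate, hd, one_smul]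
    calc g.adjugate = (gᵀ * g) * g.adjugate := by rw [h, one_mul]
      _ = gᵀ := by rw [mul_assoc, h2, mul_one]
  rw [Matrix.adjugate_fin_three] at hA
  have C (i j : Fin 3) := congrFun (congrFun hA i) j
  have K (i j : Fin 3) := congrFun (congrFun h i) j
  have R (i j : Fin 3) := congrFun (congrFun h1 i) j
  have C00 := C 0 0
  have C01 := C 0 1
  have C02 := C 0 2
  have C10 := C 1 0
  have C11 := C 1 1
  have C12 := C 1 2
  have C20 := C 2 0
  have C21 := C 2 1
  have C22 := C 2 2
  have K00 := K 0 0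
  have K11 := K 1 1
  have K22 := K 2 2
  have K01 := K 0 1
  have K02 := K 0 2
  have K12 := K 1 2
  have R00 := R 0 0
  have R11 := R 1 1
  have R22 := R 2 2
  have R01 := R 0 1
  have R02 := R 0 2
  have R12 := R 1 2
  simp at C00 C01 C02 C10 C11 C12 C20 C21 C22
  simp [Matrix.mul_apply, Fin.sum_univ_three] at K00 K11 K22 K01 K02 K12
  simp [Matrix.mul_apply, Fin.sum_univ_three] at R00 R11 R22 R01 R02 R12
  obtain ⟨w, x, y, z, N, hN0, hN, m00, m01, m02, m10, m11, m12, m20, m21, m22⟩ :=
    soq_entries C00 C01 C02 C10 C11 C12 C20 C21 C22 K00 K11 K22 K01 K02 K12 R00 R11 R22 R01 R02 R12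
  have hq : ∃ q : ℍ[E], q.re = w ∧ q.imI = x ∧ q.imJ = y ∧ q.imK = z :=
    ⟨⟨w, x, y, z⟩, rfl, rfl, rfl, rfl⟩
  obtain ⟨q, rfl, rfl, rfl, rfl⟩ := hq
  have hn : Quaternion.normSq q = N := by rw [Quaternion.normSq_def', hN]
  refine ⟨q, hn ▸ hN0, ?_⟩
  rw [hn, rotM, m00, m01, m02, m10, m11, m12, m20, m21, m22]
  ext i j
  fin_cases i <;> fin_cases j <;> simp

end Pool.Agent.NegK.RK
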