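import Pool.Agent.Lib.MP_28303a_al.NT.H80.Pgl
import Pool.Agent.Lib.MP_28303a_al.P2.Lift

/-! # Groups of semisimple rank one: tensor blocks -/

set_option autoImplicit false
set_option linter.unusedSectionVars false
set_option linter.unusedVariables false

namespace Pool.Agent.NegK.RK

universe u v w

open Matrix
open scoped MatrixGroups

/-- The `d`-th tensor power of a matrix of degree two. -/
def ten {K : Type v} [CommRing K] (d : ℕ) (B : Matrix (Fin 2) (Fin 2) K) :
    Matrix (Fin d → Fin 2) (Fin d → Fin 2) K :=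
  Matrix.of fun i j => ∏ t, B (i t) (j t)

/-- The index type: the `k`-th block has the size `2 ^ d k`. -/
abbrev TI {r : ℕ} (d : Fin r → ℕ) : Type := Σ k : Fin r, (Fin (d k) → Fin 2)

/-- Block triangular groups such that the diagonal blocks are, up to scalars, tensor powers of lifts
of the projective transformations `γ`. -/
structure RankT {K : Type v} [Field K] {r : ℕ} (d : Fin r → ℕ) {Γ : Type u} [Group Γ]
    (τ : Γ →* GL (TI d) K) (γ : Γ →* PGL(Fin 2, K)) : Prop where
  tri : ∀ g, (τ g : Matrix (TI d) (TI d) K).BlockTriangular Sigma.fst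
  lift : ∀ g k, ∃ (B : GL (Fin 2) K) (c : K), ProjGenLinGroup.mk B = γ g ∧
    ∀ i j, (τ g).1 ⟨k, i⟩ ⟨k, j⟩ = c * ten (d k) B.1 i j

theorem RankT.comp {K : Type v} [Field K] {r : ℕ} {d : Fin r → ℕ} {Γ : Type u} [Group Γ]
    {τ : Γ →* GL (TI d) K} {γ : Γ →* PGL(Fin 2, K)} (h : RankT d τ γ) {G : Type w} [Group G]
    (f : G →* Γ) : RankT d (τ.comp f) (γ.comp f) :=
  ⟨fun g => h.tri (f g), fun g k => h.lift (f g) k⟩

end Pool.Agent.NegK.RK
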